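import Pool.Agent.MP_cb8d3a_ag.H90.Val0

/-! The seeds of the dual cocycle and the statements of the modules of the proof. -/

noncomputable section

open scoped BigOperators

namespace Pool.Agent.MP_cb8d3a_ag.H90

/-! ### More definitions -/

/-- `c` is fixed by the chart of `F`. -/
def Fix (z : Fin 11 → ℂ) (F : Div) (c : K) : Prop := ex z F c = HahnSeries.single 0 c

/-- The derivative of an atom in `t a`. -/
def dA (a : Fin 5) (x : At) : ℤ :=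
  (if x.1 = Sum.inl a then 1 else 0) - (if x.2 = Sum.inl a then 1 else 0)

/-- The leading monomial along `F`. -/
def inL (F : Clus) (l : List (At × ℤ)) : List (At × ℤ) := l.map fun p => (inA F p.1, p.2)

/-- The composite of the scalar operators `pD`. -/
def pDs (z : Fin 11 → ℂ) (N : ℕ) (l : List Div) : Module.End ℂ K := (l.map (pD z N)).prod

/-- Sums of regular forms each of order at least `k F` along some `F ∈ τ`. -/
def SpanF (z : Fin 11 → ℂ) (τ : Finset Div) (k : Div → ℤ) : Submodule ℂ Form :=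
  Submodule.span ℂ {ω | FOU z ω ∧ ∃ F ∈ τ, Fil z F (k F) ω}

/-- Multiplication by a function. -/
def mulK (f : K) : Module.End ℂ Form where
  toFun ω := f • ω
  map_add' x y := smul_add f x y
  map_smul' r x := (smul_comm r f x).symm

/-- `t 4 - z 0`. -/
def X4 (z : Fin 11 → ℂ) : K := t 4 - algebraMap ℂ K (z 0)

/-- The order of `X4`. -/
def x4 (F : Clus) : ℤ := vA F (Sum.inl 4, Sum.inr 0)

/-- The one-form `dX4 + X4 (η_D - η_4)`. -/
def kap (z : Fin 11 → ℂ) : Fin 5 → K :=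
  fun a => pd a (X4 z) + X4 z * (etaW z wD a - etaW z w4 a)

/-- `y ↦ X4 y - h_E (kap ∧ y)`. -/
def Rop (z : Fin 11 → ℂ) (N : ℕ) : Module.End ℂ Form :=
  mulK (X4 z) - hOp z N dE * wedgeL (kap z)

/-! ### The seeds -/

def tz (a : Fin 5) (i : Fin 11) : At := (Sum.inl a, Sum.inr i)
def tt (a b : Fin 5) : At := (Sum.inl a, Sum.inl b)
def zz (i j : Fin 11) : At := (Sum.inr i, Sum.inr j)

def RR : Fin 5 → List (Fin 11) := ![[0, 1, 2], [3, 4, 5], [6, 7, 8], [9, 10], []]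
def va : Fin 7 → Fin 5 := ![0, 0, 0, 0, 1, 1, 1]
def pa : Fin 7 → Fin 5 := ![1, 1, 1, 1, 0, 0, 0]
def za : Fin 7 → Fin 11 := ![0, 0, 9, 10, 6, 7, 8]
def vb : Fin 7 → Fin 5 := ![2, 2, 2, 2, 3, 3, 3]
def qb : Fin 7 → Fin 5 := ![3, 3, 3, 3, 2, 2, 2]
def zb : Fin 7 → Fin 11 := ![0, 3, 4, 5, 0, 1, 2]

def mL : List (At × ℤ) :=
  [(tz 0 0, 1), (tz 0 1, 1), (tz 0 2, 1), (tz 1 3, 1), (tz 1 4, 1), (tz 1 5, 1),
    (tz 2 6, 1), (tz 2 7, 1), (tz 2 8, 1), (tz 3 9, 1), (tz 3 10, 1),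
    (tt 0 1, -2), (tt 2 3, -2), (tt 0 3, -1), (tt 1 2, -1)]

def finL (a p : Fin 5) (i : Fin 11) : List (At × ℤ) :=
  (tt a p, 1) :: (tz a i, -1) :: (RR p).flatMap fun j => [(tz p j, -1), (zz i j, 1)]

def aL (α : Fin 7) : List (At × ℤ) :=
  if α = 0 then [] else if α = 1 then [(tt 1 0, 1), (tz 1 3, -1)] else finL (va α) (pa α) (za α)

def bL (β : Fin 7) : List (At × ℤ) := if β = 0 then [] else finL (vb β) (qb β) (zb β)

def kL (α β : Fin 7) : List (At × ℤ) :=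
  if α ≠ 0 ∧ β ≠ 0 ∧ ((va α = 0 ∧ vb β = 2) ∨ (va α = 1 ∧ vb β = 3)) then
    (if α = 1 then [(tz (pa α) (zb β), 1), (tt (pa α) (qb β), -1)]
    else [(tz (qb β) (za α), 1), (tz (pa α) (zb β), 1), (zz (za α) (zb β), -1),
      (tt (qb β) (pa α), -1)])
  else []

/-- The 49 monomials. -/
def gL (α β : Fin 7) : List (At × ℤ) := mL ++ aL α ++ bL β ++ kL α β

def I4 : Finset (Fin 5) := {0, 1, 2, 3}

/-- The 49 seed forms. -/
def GG (z : Fin 11 → ℂ) (α β : Fin 7) : Form := mono I4 (al z (gL α β))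

def uA (α : Fin 7) : At := if α = 1 then (Sum.inr 0, Sum.inl 0) else tz (va α) (za α)
def uB (β : Fin 7) : At := tz (vb β) (zb β)
def thA (z : Fin 11 → ℂ) (α : Fin 7) : VF := fld (va α) (av z (uA α))
def thB (z : Fin 11 → ℂ) (β : Fin 7) : VF := fld (vb β) (av z (uB β))
def sA (z : Fin 11 → ℂ) (α : Fin 7) : Module.End ℂ Form := (-3 : ℂ) • iota (thA z α)
def sB (z : Fin 11 → ℂ) (β : Fin 7) : Module.End ℂ Form := (-3 : ℂ) • iota (thB z β)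

def cA (α : Fin 7) : Clus :=
  if α = 1 then ({0, 1, 4}, some none) else ({0, 1}, some (some (za α)))
def cB (β : Fin 7) : Clus := ({2, 3}, some (some (zb β)))

/-- The special divisors of the first kind (`α ≠ 0`). -/
def Fa (α : Fin 7) : Div := ⟨cA α, by revert α; decide⟩
/-- The special divisors of the second kind (`β ≠ 0`). -/
def Fb (β : Fin 7) : Div := ⟨cB β, by revert β; decide⟩

/-- The bad non-special clusters. -/
def xA (α : Fin 7) : Clus :=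
  if α = 0 then ({0, 1}, none) else if α = 1 then ({0, 4}, some none)
  else ({va α}, some (some (za α)))
def yB (β : Fin 7) : Clus := if β = 0 then ({2, 3}, none) else ({vb β}, some (some (zb β)))

def aOf (F : Clus) : Fin 7 := ((List.finRange 7).find? fun α => α ≠ 0 ∧ cA α = F).getD 0
def bOf (F : Clus) : Fin 7 := ((List.finRange 7).find? fun β => β ≠ 0 ∧ cB β = F).getD 0

/-- Non-special divisors. -/
def nsp (F : Div) : Bool := aOf F.1 = 0 && bOf F.1 = 0 && F ≠ dE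

def aT (τ : Finset Div) : Fin 7 := τ.fold max 0 fun F => aOf F.1
def bT (τ : Finset Div) : Fin 7 := τ.fold max 0 fun F => bOf F.1

def allSub : List (Finset (Fin 5)) := (List.finRange 5).sublists.map List.toFinset
def allOpt : List (Option (Option (Fin 11))) :=
  none :: some none :: (List.finRange 11).map fun i => some (some i)

/-- All boundary divisors. -/
def allD : List Div :=
  (allOpt.flatMap fun o => allSub.map fun A => ((A, o) : Clus)).filterMap fun c =>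
    if h : 2 ≤ (pts c).card then some ⟨c, h⟩ else none

def mu (τ : Finset Div) : List Div := allD.filter fun F => F ∈ τ && nsp F

def kp (τ : Finset Div) : List Div :=
  (if aT τ = 0 then [] else [Fa (aT τ)]) ++ (if bT τ = 0 then [] else [Fb (bT τ)])

/-- The ordered list of a nested set containing `dE`. -/
def lst (τ : Finset Div) : List Div := mu τ ++ kp τ ++ [dE]

/-- The sign of `F` in `τ`. -/
def sg (τ : Finset Div) (F : Div) : ℂ := (-1) ^ (lst τ).idxOf F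

open Classical in
/-- Nested sets with `k` elements that contain `dE`. -/
@[irreducible] def Nest (k : ℕ) : Finset (Finset Div) :=
  Finset.univ.filter fun τ => (∀ F ∈ τ, ∀ G ∈ τ, Compat F G) ∧ τ.card = k ∧ dE ∈ τ

theorem mem_Nest {k : ℕ} {τ : Finset Div} :
    τ ∈ Nest k ↔ (∀ F ∈ τ, ∀ G ∈ τ, Compat F G) ∧ τ.card = k ∧ dE ∈ τ := by
  unfold Nest
  simp only [Finset.mem_filter, Finset.mem_univ, true_and]

section seeds
variable (z : Fin 11 → ℂ) (N : ℕ)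

def Gt : Form := ∑ α, ∑ β, GG z α β
def eA (α : Fin 7) : Form := sA z α (∑ β, GG z α β)
def eB (β : Fin 7) : Form := sB z β (∑ α, GG z α β)
def GA (α : Fin 7) : Form := Gt z - nab z w4 (eA z α)
def GB (β : Fin 7) : Form := Gt z - nab z w4 (eB z β)
def b1 (α β : Fin 7) : Form := sB z β (∑ α', GG z α' β - nab z w4 (sA z α (GG z α β)))
def b2 (α β : Fin 7) : Form := sA z α (∑ β', GG z α β' - nab z w4 (sB z β (GG z α β)))
def e0 (α β : Fin 7) : Form := sA z α (sB z β (GG z α β))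
def GAB (α β : Fin 7) : Form := GA z α - nab z w4 (b1 z α β)

/-- The dual cocycle on the special strata. -/
def YY (α β : Fin 7) : Form :=
  if α = 0 then
    (if β = 0 then Rop z N (Gt z)
    else Rop z N (eB z β) + hOp z N (Fb β) (Rop z N (GB z β)))
  else if β = 0 then Rop z N (eA z α) + hOp z N (Fa α) (Rop z N (GA z α))
  else Rop z N (e0 z α β) + hOp z N (Fa α) (Rop z N (b1 z α β)) -
    hOp z N (Fb β) (Rop z N (b2 z α β)) +
    hOp z N (Fa α) (hOp z N (Fb β) (Rop z N (GAB z α β)))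

/-- The dual cocycle. -/
def Xi (τ : Finset Div) : Form := hs z N (mu τ) (YY z N (aT τ) (bT τ))

/-- The reduced seeds. -/
def Y0 (α : Fin 7) : Form :=
  if α = 1 then X4 z • sA z 1 (GG z 1 0) +
    hOp z N (Fa 1) (X4 z • (GG z 0 0 + GG z 1 0 - nab z w4 (sA z 1 (GG z 1 0))))
  else X4 z • (GG z 0 0 + GG z 1 0)

end seeds

/-- The pairing. -/
def Ssum (z : Fin 11 → ℂ) (Ξ : Finset Div → Form) (c : K) : K :=
  ∑ τ ∈ Nest 5, Res z (lst τ) (c * Ξ τ ∅)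

/-- The properties of a dual cocycle. -/
structure DualCo (z : Fin 11 → ℂ) (N : ℕ) (Ξ : Finset Div → Form) : Prop where
  fou : ∀ τ, FOU z (Ξ τ)
  rel : ∀ τ ∈ Nest 5, nab z wD (Ξ τ) - ∑ F ∈ τ.erase dE, sg τ F • Ξ (τ.erase F) ∈
    SpanF z τ (fun _ => N + 1)
  good5 : ∀ τ ∈ Nest 5, Ξ τ ∈ SpanF z τ (fun F => latD F.1)
  good4 : ∀ τ ∈ Nest 4, Ξ τ ∈ SpanF z τ (fun F => latD F.1)

/-- The monomials of the test form. -/
def omL (π : Equiv.Perm (Fin 5)) : List (At × ℤ) :=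
  [(tt (π 0) (π 1), 2), (tt (π 2) (π 3), 2),
    (tz (π 0) 0, -1), (tz (π 0) 1, -1), (tz (π 0) 2, -1), (tz (π 0) 3, -1),
    (tz (π 1) 0, -1), (tz (π 1) 1, -1), (tz (π 1) 2, -1), (tz (π 1) 3, -1),
    (tz (π 2) 4, -1), (tz (π 2) 5, -1), (tz (π 2) 6, -1), (tz (π 2) 7, -1),
    (tz (π 3) 4, -1), (tz (π 3) 5, -1), (tz (π 3) 6, -1), (tz (π 3) 7, -1),
    (tz (π 4) 8, -1), (tz (π 4) 9, -1), (tz (π 4) 10, -1)]

/-- The coefficient of the test form. -/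
def c0 (z : Fin 11 → ℂ) : K := ∑ π : Equiv.Perm (Fin 5), al z (omL π)

/-- A lower bound for the order of the test form. -/
def oOm (F : Clus) : ℤ :=
  match F.2 with
  | none => [0, 0, 1, 2, 5, 8].getD F.1.card 0
  | some none => [0, 1, 2, 4, 7, 10].getD F.1.card 0
  | some (some _) => [0, 0, 1, 2, 4, 7].getD F.1.card 0

/-- Clusters without a finite fixed point. -/
def homB (F : Clus) : Bool := F.2 = none || F.2 = some none

/-! ### Statements of the modules -/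

/-- Atoms and monomials. -/
structure SAt (z : Fin 11 → ℂ) : Prop where
  av_ne : ∀ x : At, x.1 ≠ x.2 → av z x ≠ 0
  toAt_ne : ∀ h : Hyp, (toAt h).1 ≠ (toAt h).2
  vH_eq : ∀ (F : Clus) (h : Hyp), vH F h = vA F (toAt h)
  inA_ne : ∀ (F : Div) (x : At), x.1 ≠ x.2 → (inA F.1 x).1 ≠ (inA F.1 x).2
  ex_av : ∀ (F : Div) (x : At), x.1 ≠ x.2 → ex z F (av z x) =
    HahnSeries.single (vA F.1 x) (av z (inA F.1 x)) +
      HahnSeries.single (vA F.1 x + 1) (av z x - av z (inA F.1 x))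
  V_av : ∀ (F : Div) (x : At), x.1 ≠ x.2 → V z F (vA F.1 x) (av z x)
  co_av : ∀ (F : Div) (x : At), x.1 ≠ x.2 → co z F (vA F.1 x) (av z x) = av z (inA F.1 x)
  al_append : ∀ l m, al z (l ++ m) = al z l * al z m
  al_ne : ∀ l, okL l = true → al z l ≠ 0
  ok_inL : ∀ (F : Div) l, okL l = true → okL (inL F.1 l) = true
  V_al : ∀ (F : Div) l, okL l = true → V z F (vl F.1 l) (al z l)
  co_al : ∀ (F : Div) l, okL l = true → co z F (vl F.1 l) (al z l) = al z (inL F.1 l)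
  al_eq : ∀ l m, okL l = true → okL m = true → eqL l m = true → al z l = al z m
  av_OU : ∀ x : At, av z x ∈ OU z
  al_OU : ∀ l, okL l = true → al z l ∈ OU z
  pd_av : ∀ (a : Fin 5) (x : At), pd a (av z x) = (dA a x : K)
  act_al : ∀ (X : VF) l, okL l = true →
    act X (al z l) = al z l * (l.map fun p => (p.2 : K) * (act X (av z p.1) / av z p.1)).sum
  res_eq : ∀ F : Div, res z F = (a3 F.1 : ℚ) / 3
  aW_expo : ∀ F : Div, aW expo F.1 = (a3 F.1 : ℚ) / 3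
  aW_wD : ∀ F : Div, aW wD F.1 = -((a3 F.1 : ℚ) / 3)
  compB_iff : ∀ F G : Div, compB F.1 G.1 = true ↔ Compat F G

/-- Vector fields adapted to a divisor. -/
structure SInv (z : Fin 11 → ℂ) : Prop where
  act_br : ∀ (X Y : VF) c, act (br X Y) c = act X (act Y c) - act Y (act X c)
  ev1_dlog : ∀ (X : VF) c, ev1 (dlog c) X = act X c / c
  ev1_eta : ∀ (w : Hyp → ℚ) (X : VF),
    ev1 (etaW z w) X = ∑ h : Hyp, (w h : K) * (act X (hyp z h) / hyp z h)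
  inv_of_t : ∀ (F : Div) (X : VF), (∀ j a, co z F j (X a) = act X (co z F j (t a))) → Inv z F X
  inv_zero : ∀ F, Inv z F 0
  inv_add : ∀ F X Y, Inv z F X → Inv z F Y → Inv z F (X + Y)
  inv_neg : ∀ F X, Inv z F X → Inv z F (-X)
  inv_smul : ∀ F (f : K) X, Fix z F f → Inv z F X → Inv z F (f • X)
  inv_br : ∀ F X Y, Inv z F X → Inv z F Y → Inv z F (br X Y)
  fix_t : ∀ (F : Div) a, a ∉ F.1.1 → Fix z F (t a)
  fix_const : ∀ F (r : ℂ), Fix z F (algebraMap ℂ K r)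
  fix_centre : ∀ F : Div, Fix z F (centre z F.1)
  fix_add : ∀ F x y, Fix z F x → Fix z F y → Fix z F (x + y)
  fix_sub : ∀ F x y, Fix z F x → Fix z F y → Fix z F (x - y)
  fix_mul : ∀ F x y, Fix z F x → Fix z F y → Fix z F (x * y)
  fix_inv : ∀ F x, Fix z F x → Fix z F x⁻¹
  inv_V : ∀ F X k c, Inv z F X → V z F k c → V z F k (act X c)
  co_theta : ∀ F (j : ℤ) c, co z F j (act (theta z F) c) = (j : K) * co z F j c
  inv_theta : ∀ F G, Compat F G → Inv z F (theta z G)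
  br_theta : ∀ F X, Inv z F X → br (theta z F) X = 0
  V_dlog : ∀ F X c, Inv z F X → V z F 0 (act X c / c)
  co_dlog : ∀ F X k c, Inv z F X → V z F k c → co z F k c ≠ 0 →
    co z F 0 (act X c / c) = act X (co z F k c) / co z F k c
  V_theta_dlog : ∀ F (k : ℤ) c, V z F k c → co z F k c ≠ 0 →
    V z F 1 (act (theta z F) c / c - (k : K))
  V_eta : ∀ F X w, Inv z F X → V z F 0 (ev1 (etaW z w) X)
  V_theta_eta : ∀ (F : Div) w, V z F 1 (ev1 (etaW z w) (theta z F) - (aW w F.1 : K))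
  V_dw : ∀ F X w k c, Inv z F X → V z F k c → V z F k (dw z w X c)
  V_dw_theta : ∀ (F : Div) w (k : ℤ) c, V z F k c →
    V z F (k + 1) (dw z w (theta z F) c - ((k : ℂ) + (aW w F.1 : ℂ)) • c)
  inv_out : ∀ (F : Div) a, a ∉ F.1.1 → Inv z F (fld a 1)
  inv_in : ∀ (F : Div) a, a ∈ F.1.1 → Inv z F (fld a (t a - centre z F.1))
  inv_ind : ∀ F : Div, F.1.2 = none → Inv z F fun a => if a ∈ F.1.1 then 1 else 0

/-- Regular functions. -/
structure SK1 (z : Fin 11 → ℂ) : Prop where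
  t_OU : ∀ a, t a ∈ OU z
  pd_OU : ∀ a c, c ∈ OU z → pd a c ∈ OU z
  act_OU : ∀ (X : VF) c, (∀ a, X a ∈ OU z) → c ∈ OU z → act X c ∈ OU z
  theta_OU : ∀ F a, theta z F a ∈ OU z
  eta_OU : ∀ w a, etaW z w a ∈ OU z
  dw_OU : ∀ w (X : VF) c, (∀ a, X a ∈ OU z) → c ∈ OU z → dw z w X c ∈ OU z
  co_OU : ∀ F k c, c ∈ OU z → co z F k c ∈ OU z
  V_co : ∀ F G k m c, Compat F G → c ∈ OU z → V z G m c → V z G m (co z F k c)

/-- Algebra of contractions and wedges. -/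
structure SCar1 : Prop where
  iota_smul : ∀ X (f : K) ω, iota X (f • ω) = f • iota X ω
  iota_smul_left : ∀ (X : VF) (f : K) ω, iota (f • X) ω = f • iota X ω
  iota_add_left : ∀ (X Y : VF) ω, iota (X + Y) ω = iota X ω + iota Y ω
  iota_zero_left : ∀ ω, iota 0 ω = 0
  wedge_smul : ∀ α (f : K) ω, wedge α (f • ω) = f • wedge α ω
  wedge_smul_left : ∀ (α : Fin 5 → K) (f : K) ω, wedge (f • α) ω = f • wedge α ω
  wedge_add_left : ∀ (α β : Fin 5 → K) ω, wedge (α + β) ω = wedge α ω + wedge β ω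
  iota_anti : ∀ X Y ω, iota X (iota Y ω) = -iota Y (iota X ω)
  iota_self : ∀ X ω, iota X (iota X ω) = 0
  wedge_anti : ∀ α β ω, wedge α (wedge β ω) = -wedge β (wedge α ω)
  wedge_self : ∀ α ω, wedge α (wedge α ω) = 0
  iota_wedge : ∀ X α ω, iota X (wedge α ω) = ev1 α X • ω - wedge α (iota X ω)
  iota_empty : ∀ X ω, iota X ω ∅ = ev1 (deg1 ω) X
  wedge_empty : ∀ α ω, wedge α ω ∅ = 0
  iota_mono : ∀ X I c, iota X (mono I c) = ∑ a ∈ I, mono (I.erase a) (sgn a I * X a * c)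
  wedge_mono : ∀ α I c, wedge α (mono I c) = ∑ a ∈ Iᶜ, mono (insert a I) (sgn a I * α a * c)
  iotas_smul : ∀ l (f : K) ω, iotas l (f • ω) = f • iotas l ω
  iotas_deg : ∀ (l : List VF) I c, I.card ≠ l.length → iotas l (mono I c) ∅ = 0
  iotas_top : ∀ (l : List VF) ω, l.length = 5 →
    iotas l ω ∅ = ω Finset.univ * iotas l vol ∅
  iotas_det : ∀ X : Fin 5 → VF,
    iotas (List.ofFn X) vol ∅ = (Matrix.of fun i a => X i a).det
  wedges_det : ∀ α : Fin 5 → Fin 5 → K,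
    (List.ofFn α).foldr wedge (mono ∅ 1) = mono Finset.univ (Matrix.of fun j a => α j a).det

/-- The twisted differential. -/
structure SCar2 (z : Fin 11 → ℂ) : Prop where
  nab_zero : ∀ ω, nab z 0 ω = extD ω
  nab_nab : ∀ w ω, nab z w (nab z w ω) = 0
  nab_smul : ∀ w (f : K) ω, nab z w (f • ω) = f • nab z w ω + wedge (fun a => pd a f) ω
  lie_iota : ∀ w X Y ω, lie z w X (iota Y ω) = iota Y (lie z w X ω) + iota (br X Y) ω
  lie_nab : ∀ w X ω, lie z w X (nab z w ω) = nab z w (lie z w X ω)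
  lie_lie : ∀ w X Y ω, br X Y = 0 → lie z w X (lie z w Y ω) = lie z w Y (lie z w X ω)
  lie_empty : ∀ w X ω, lie z w X ω ∅ = dw z w X (ω ∅)
  deg1_nab : ∀ w ω a, deg1 (nab z w ω) a = pd a (ω ∅) + etaW z w a * ω ∅
  nab_empty : ∀ w ω, nab z w ω ∅ = 0
  nab_mono : ∀ w I c, nab z w (mono I c) =
    ∑ a ∈ Iᶜ, mono (insert a I) (sgn a I * (pd a c + etaW z w a * c))

/-- The order filtration on forms. -/
structure SFil (z : Fin 11 → ℂ) : Prop where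
  le : ∀ {F k k' ω}, Fil z F k ω → k' ≤ k → Fil z F k' ω
  zero : ∀ F k, Fil z F k 0
  add : ∀ {F k ω ω'}, Fil z F k ω → Fil z F k ω' → Fil z F k (ω + ω')
  neg : ∀ {F k ω}, Fil z F k ω → Fil z F k (-ω)
  sub : ∀ {F k ω ω'}, Fil z F k ω → Fil z F k ω' → Fil z F k (ω - ω')
  csmul : ∀ {F k ω} (r : ℂ), Fil z F k ω → Fil z F k (r • ω)
  sum : ∀ {ι : Type} {F k} (s : Finset ι) (f : ι → Form), (∀ i ∈ s, Fil z F k (f i)) →
    Fil z F k (∑ i ∈ s, f i)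
  smul : ∀ {F a k ω} {f : K}, V z F a f → Fil z F k ω → Fil z F (a + k) (f • ω)
  empty : ∀ {F k ω}, Fil z F k ω → V z F k (ω ∅)
  iota : ∀ {F X k ω}, Inv z F X → Fil z F k ω → Fil z F k (iota X ω)
  wedge : ∀ {F a k ω} {α : Fin 5 → K}, (∀ X, Inv z F X → V z F a (ev1 α X)) → Fil z F k ω →
    Fil z F (a + k) (wedge α ω)
  deg1 : ∀ {F a ξ X}, Fil z F a ξ → Inv z F X → V z F a (ev1 (deg1 ξ) X)
  lie : ∀ {F X k ω} w, Inv z F X → Fil z F k ω → Fil z F k (lie z w X ω)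
  nab : ∀ {F k ω} w, Fil z F k ω → Fil z F k (nab z w ω)
  lie_theta : ∀ {F : Div} {k : ℤ} {ω} w, Fil z F k ω →
    Fil z F (k + 1) (H90.lie z w (theta z F) ω - ((k : ℂ) + (aW w F.1 : ℂ)) • ω)
  monoI : ∀ {F : Div} {k c} I, V z F k c → Fil z F (k + oVol F.1 I) (mono I c)
  exists_Fil : ∀ F ω, ∃ k, Fil z F k ω
  lattice : ∀ {F : Div} {p ω}, ω ∈ logLattice z F p → Fil z F (latL F.1) ω
  eff : ∀ {F : Div} {k ω u} a, F.1.2 = none → F.1.1.card = 2 → V z F 0 u → Fil z F k ω →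
    Fil z F k (H90.iota (theta z F) (H90.iota (fld a u) ω))

/-- Regular forms. -/
structure SFou (z : Fin 11 → ℂ) : Prop where
  zero : FOU z 0
  add : ∀ {ω ω'}, FOU z ω → FOU z ω' → FOU z (ω + ω')
  neg : ∀ {ω}, FOU z ω → FOU z (-ω)
  sub : ∀ {ω ω'}, FOU z ω → FOU z ω' → FOU z (ω - ω')
  csmul : ∀ {ω} (r : ℂ), FOU z ω → FOU z (r • ω)
  sum : ∀ {ι : Type} (s : Finset ι) (f : ι → Form), (∀ i ∈ s, FOU z (f i)) →
    FOU z (∑ i ∈ s, f i)
  smul : ∀ {ω} {f : K}, f ∈ OU z → FOU z ω → FOU z (f • ω)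
  monoI : ∀ {c} I, c ∈ OU z → FOU z (mono I c)
  iota : ∀ {X : VF} {ω}, (∀ a, X a ∈ OU z) → FOU z ω → FOU z (iota X ω)
  wedge : ∀ {α : Fin 5 → K} {ω}, (∀ a, α a ∈ OU z) → FOU z ω → FOU z (wedge α ω)
  nab : ∀ {ω} w, FOU z ω → FOU z (nab z w ω)
  lie : ∀ {X : VF} {ω} w, (∀ a, X a ∈ OU z) → FOU z ω → FOU z (lie z w X ω)
  thetas : ∀ {ω} (l : List Div), FOU z ω → FOU z (iotas (l.map (theta z)) ω)
  Delta : ∀ l, Delta z l ∈ OU z
  hOp : ∀ {ω} N F, FOU z ω → FOU z (hOp z N F ω)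
  piOp : ∀ {ω} N F, FOU z ω → FOU z (piOp z N F ω)
  hs : ∀ {ω} N l, FOU z ω → FOU z (hs z N l ω)
  Rop : ∀ {ω} N, FOU z ω → FOU z (Rop z N ω)
  kap : ∀ a, kap z a ∈ OU z
  pD : ∀ {c} N F, c ∈ OU z → pD z N F c ∈ OU z

/-- Top forms are logarithmic modulo exact forms. -/
def SBri (z : Fin 11 → ℂ) : Prop :=
  ∀ c ∈ OU z, c ∈ Submodule.span ℂ
    ({x : K | ∃ hs : Fin 5 → Hyp, x = logForm z (List.ofFn hs) Finset.univ} ∪
      {x : K | ∃ a g, g ∈ OU z ∧ x = pd a g})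

/-- Combinatorics of nested sets. -/
structure SComb : Prop where
  bal : ∀ σ : Finset Div, (∀ F ∈ σ, ∀ G ∈ σ, Compat F G) → σ.card = 4 →
    ∃ c : Div → ℤ, ∀ h : Hyp, ∑ F ∈ link σ, vH F.1 h = ∑ G ∈ σ, c G * vH G.1 h
  full : ∀ τ : Finset Div, (∀ F ∈ τ, ∀ G ∈ τ, Compat F G) → τ.card = 5 →
    ∀ a : Fin 5, ∃ F ∈ τ, a ∈ F.1.1 ∧ F.1.2 ≠ none

/-- Residues. -/
structure SRes (z : Fin 11 → ℂ) : Prop where
  CT_OU : ∀ l c, c ∈ OU z → CT z l c ∈ OU z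
  CT_zero : ∀ l F c, CompL l → F ∈ l → c ∈ OU z → V z F 1 c → CT z l c = 0
  Res_zero : ∀ l F ω, CompL l → l.length = 5 → F ∈ l → ω Finset.univ ∈ OU z → Fil z F 1 ω →
    Res z l (ω Finset.univ) = 0
  Res_exact : ∀ l ω, CompL l → l.length = 5 → Res z l (extD ω Finset.univ) = 0
  Res_swap : ∀ p F G q c, CompL (p ++ F :: G :: q) → (p ++ F :: G :: q).length = 5 →
    c ∈ OU z → Res z (p ++ F :: G :: q) c = -Res z (p ++ G :: F :: q) c
  Res_last : ∀ p F q c, CompL (p ++ F :: q) → (p ++ F :: q).length = 5 → c ∈ OU z →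
    Res z (p ++ F :: q) c = (-1) ^ q.length * Res z (p ++ q ++ [F]) c
  Res_link : ∀ (l : List Div) c, l.Nodup → l.length = 4 → CompL l → c ∈ OU z →
    ∑ F ∈ link l.toFinset, Res z (l ++ [F]) c = 0

/-- Euler homotopies. -/
structure SHom (z : Fin 11 → ℂ) : Prop where
  nab_h : ∀ N F ω, nab z wD (hOp z N F ω) + hOp z N F (nab z wD ω) = ω - piOp z N F ω
  iota_h : ∀ N F X ω, Inv z F X → iota X (hOp z N F ω) = -hOp z N F (iota X ω)
  h_anti : ∀ N F G ω, Compat F G → hOp z N F (hOp z N G ω) = -hOp z N G (hOp z N F ω)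
  h_Fil : ∀ N {F G k ω}, Compat G F → Fil z G k ω → Fil z G k (hOp z N F ω)
  pi_Fil : ∀ N {F G k ω}, Compat G F → Fil z G k ω → Fil z G k (piOp z N F ω)
  hs_Fil : ∀ N {l : List Div} {G k ω}, (∀ F ∈ l, Compat G F) → Fil z G k ω →
    Fil z G k (hs z N l ω)
  h_eff : ∀ N {F k ω}, Fil z F k (iota (theta z F) ω) → Fil z F k (hOp z N F ω)
  h_zero : ∀ N {F ω}, iota (theta z F) ω = 0 → hOp z N F ω = 0
  deep : ∀ (N : ℕ) {F ω}, OKF z N F ω → Fil z F (N + 1) (piOp z N F ω)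
  hs_mem : ∀ N (l : List Div) F, CompL l → F ∈ l → ∃ (l' : List Div) (s : ℂ),
    (∀ G ∈ l', G ∈ l) ∧ ∀ ω, hs z N l ω = s • hs z N l' (hOp z N F ω)
  hs_empty : ∀ N (l : List Div) ω, CompL l →
    hs z N l ω ∅ = pDs z N l (iotas (l.map (theta z)) ω ∅)
  pD_V : ∀ N {F G k c}, Compat G F → V z G k c → V z G k (pD z N F c)
  trunc0 : ∀ (N : ℕ) {F : Div} {k : ℤ} {c}, V z F k c → -(N : ℤ) ≤ k → k ≤ N → 3 * k ≠ a3 F.1 →
    V z F (k + 1) (pD z N F c - (eig F.1 k)⁻¹ • c)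
  trunc1 : ∀ (N : ℕ) {F : Div} {k : ℤ} {c}, V z F k c → -(N : ℤ) ≤ k → k + 1 ≤ N →
    3 * k ≠ a3 F.1 → 3 * (k + 1) ≠ a3 F.1 → V z F (k + 2) (pD z N F c - p1 z wD F k c)

/-- The operator `Rop`. -/
structure SR (z : Fin 11 → ℂ) : Prop where
  X4_V : ∀ F : Div, V z F (x4 F.1) (X4 z)
  nab_R : ∀ N y, nab z wD (Rop z N y) = Rop z N (nab z w4 y) + piOp z N dE (wedge (kap z) y)
  kap_E : ∀ {y}, Fil z dE 0 y → Fil z dE 0 (wedge (kap z) y)
  deep_E : ∀ (N : ℕ) {y}, Fil z dE 0 y → Fil z dE (N + 1) (piOp z N dE (wedge (kap z) y))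
  R_Fil : ∀ N {F : Div} {k y}, Compat F dE → Fil z F k y → Fil z F (x4 F.1 + k) (Rop z N y)
  R_E : ∀ N {y}, Fil z dE 0 y → Fil z dE 0 (Rop z N y - X4 z • y)
  iota_R : ∀ N {F y}, Compat F dE → iota (theta z dE) y = 0 →
    iota (theta z F) (Rop z N y) = Rop z N (iota (theta z F) y)

/-- The lists attached to nested sets. -/
structure SList : Prop where
  mem_allD : ∀ F, F ∈ allD
  nodup_allD : allD.Nodup
  aOf_Fa : ∀ α, α ≠ 0 → aOf (Fa α).1 = α ∧ bOf (Fa α).1 = 0 ∧ Fa α ≠ dE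
  bOf_Fb : ∀ β, β ≠ 0 → bOf (Fb β).1 = β ∧ aOf (Fb β).1 = 0 ∧ Fb β ≠ dE
  Fa_aOf : ∀ F : Div, aOf F.1 ≠ 0 → Fa (aOf F.1) = F
  Fb_bOf : ∀ F : Div, bOf F.1 ≠ 0 → Fb (bOf F.1) = F
  mem_mu : ∀ τ F, F ∈ mu τ ↔ F ∈ τ ∧ aOf F.1 = 0 ∧ bOf F.1 = 0 ∧ F ≠ dE
  aT_iff : ∀ k, ∀ τ ∈ Nest k, ∀ α, α ≠ 0 → (Fa α ∈ τ ↔ aT τ = α)
  bT_iff : ∀ k, ∀ τ ∈ Nest k, ∀ β, β ≠ 0 → (Fb β ∈ τ ↔ bT τ = β)
  nodup : ∀ k, ∀ τ ∈ Nest k, (lst τ).Nodup
  mem : ∀ k, ∀ τ ∈ Nest k, ∀ F, F ∈ lst τ ↔ F ∈ τ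
  length : ∀ k, ∀ τ ∈ Nest k, (lst τ).length = k
  compL : ∀ k, ∀ τ ∈ Nest k, CompL (lst τ)
  erase_mem : ∀ k, ∀ τ ∈ Nest (k + 1), ∀ F ∈ τ, F ≠ dE → τ.erase F ∈ Nest k
  erase : ∀ k, ∀ τ ∈ Nest k, ∀ F ∈ τ, F ≠ dE → lst (τ.erase F) = (lst τ).erase F
  erase_mu : ∀ k, ∀ τ ∈ Nest k, ∀ F ∈ mu τ,
    mu (τ.erase F) = (mu τ).erase F ∧ aT (τ.erase F) = aT τ ∧ bT (τ.erase F) = bT τ
  erase_a : ∀ k, ∀ τ ∈ Nest k, aT τ ≠ 0 → mu (τ.erase (Fa (aT τ))) = mu τ ∧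
    aT (τ.erase (Fa (aT τ))) = 0 ∧ bT (τ.erase (Fa (aT τ))) = bT τ
  erase_b : ∀ k, ∀ τ ∈ Nest k, bT τ ≠ 0 → mu (τ.erase (Fb (bT τ))) = mu τ ∧
    aT (τ.erase (Fb (bT τ))) = aT τ ∧ bT (τ.erase (Fb (bT τ))) = 0

/-- The pairing kills `F ^ 4`. -/
def SPair (z : Fin 11 → ℂ) : Prop :=
  ∀ ω, InHodge z 4 ω → ∃ N0 : ℕ, ∀ N, N0 ≤ N → ∀ Ξ, DualCo z N Ξ →
    Ssum z Ξ (ω Finset.univ) = 0

/-- Conformal blocks. -/
structure SBlk (z : Fin 11 → ℂ) : Prop where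
  ex3 : ∃ ψ, Block z 3 ψ ∧ svForm z ψ Finset.univ = c0 z
  blk1 : ∀ ψ, Block z 1 ψ → V z dE 3 (svForm z ψ Finset.univ)
  sv_OU : ∀ ψ, svForm z ψ Finset.univ ∈ OU z

/-- Orders of the seeds. -/
structure SSdA (z : Fin 11 → ℂ) : Prop where
  ok : ∀ α β, okL (gL α β) = true
  G_FOU : ∀ α β, FOU z (GG z α β)
  G_closed : ∀ α β, nab z w4 (GG z α β) = 0
  G_E : ∀ α β, Fil z dE 0 (GG z α β)
  G_iotaE : ∀ α β, iota (theta z dE) (GG z α β) = 0
  G_good : ∀ α β (F : Div), Compat F dE → F ≠ dE → aOf F.1 = 0 → bOf F.1 = 0 →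
    F.1 ≠ xA α → F.1 ≠ yB β → Fil z F (latD F.1 - x4 F.1) (GG z α β)
  G_spA : ∀ α α' β, α' ≠ 0 → α ≠ 0 → α ≠ α' →
    Fil z (Fa α') (latD (Fa α').1 - x4 (Fa α').1) (GG z α β)
  G_spA0 : ∀ α α' β, α' ≠ 0 → Fil z (Fa α') (latD (Fa α').1 - x4 (Fa α').1 - 1) (GG z α β)
  G_spB : ∀ α β β', β' ≠ 0 → β ≠ 0 → β ≠ β' →
    Fil z (Fb β') (latD (Fb β').1 - x4 (Fb β').1) (GG z α β)
  G_spB0 : ∀ α β β', β' ≠ 0 → Fil z (Fb β') (latD (Fb β').1 - x4 (Fb β').1 - 1) (GG z α β)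
  nonresA : ∀ α (k : ℤ), 3 * k ≠ a3 (xA α)
  nonresB : ∀ β (k : ℤ), 3 * k ≠ a3 (yB β)
  compA : ∀ α, α ≠ 0 → Compat (Fa α) dE
  compB : ∀ β, β ≠ 0 → Compat (Fb β) dE
  thA_OU : ∀ α a, thA z α a ∈ OU z
  thB_OU : ∀ β a, thB z β a ∈ OU z
  invA : ∀ α (F : Div), α ≠ 0 → Compat F (Fa α) → Compat F dE → F.1 ≠ xA 0 → Inv z F (thA z α)
  invB : ∀ β (F : Div), β ≠ 0 → Compat F (Fb β) → Compat F dE → F.1 ≠ yB 0 → Inv z F (thB z β)
  brAB : ∀ α β, br (thA z α) (thB z β) = 0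
  killA : ∀ α (F : Div) y, α ≠ 0 → F.1 = xA α → iota (theta z dE) y = 0 →
    iota (theta z F) (sA z α y) = 0
  killB : ∀ β (F : Div) y, β ≠ 0 → F.1 = yB β → iota (theta z F) (sB z β y) = 0
  effA : ∀ α (F : Div) k y, α ≠ 0 → Compat F (Fa α) → Compat F dE → Fil z F k y →
    Fil z F k (iota (theta z F) (sA z α y))
  effB : ∀ β (F : Div) k y, β ≠ 0 → Compat F (Fb β) → Compat F dE → Fil z F k y →
    Fil z F k (iota (theta z F) (sB z β y))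
  effAB : ∀ α β (F : Div) k y, α ≠ 0 → β ≠ 0 → Compat F (Fa α) → Compat F (Fb β) →
    Compat F dE → Fil z F k y → Fil z F k (iota (theta z F) (sA z α (sB z β y)))

/-- Matching of the seeds along the special divisors. -/
structure SSdB (z : Fin 11 → ℂ) : Prop where
  matchA : ∀ α β, α ≠ 0 → Fil z (Fa α) (latD (Fa α).1 - x4 (Fa α).1)
    (GG z 0 β + GG z α β - nab z w4 (sA z α (GG z α β)))
  matchB : ∀ α β, β ≠ 0 → Fil z (Fb β) (latD (Fb β).1 - x4 (Fb β).1)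
    (GG z α 0 + GG z α β - nab z w4 (sB z β (GG z α β)))

/-- Orders of the test form against the seeds. -/
structure SSdC (z : Fin 11 → ℂ) : Prop where
  ok_om : ∀ π, okL (omL π) = true
  c0_OU : c0 z ∈ OU z
  om_vl : ∀ (F : Div) π, oOm F.1 ≤ vl F.1 (omL π) + oVol F.1 Finset.univ
  om_Fil : ∀ F : Div, Fil z F (oOm F.1) (mono Finset.univ (c0 z))
  k2a : ∀ α β (F : Div), 2 ≤ α → Compat F dE → pa α ∈ F.1.1 → F.1.2 ≠ none →
    Fil z F (1 - oOm F.1 - x4 F.1) (GG z α β)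
  k2b : ∀ α β (F : Div), α ≤ 1 → β ≠ 0 → Compat F dE → qb β ∈ F.1.1 → F.1.2 ≠ none →
    Fil z F (1 - oOm F.1 - x4 F.1) (GG z α β)
  k3 : ∀ α (F : Div), α ≤ 1 → Compat F dE → homB F.1 = false →
    Fil z F (1 - oOm F.1 - x4 F.1) (GG z α 0)

/-- The cocycle relation. -/
def SRel (z : Fin 11 → ℂ) : Prop :=
  ∃ N1 : ℕ, ∀ N, N1 ≤ N → ∀ τ ∈ Nest 5,
    nab z wD (Xi z N τ) - ∑ F ∈ τ.erase dE, sg τ F • Xi z N (τ.erase F) ∈
      SpanF z τ (fun _ => N + 1)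

/-- The order budget. -/
structure SGood (z : Fin 11 → ℂ) : Prop where
  fouY : ∀ N α β, FOU z (YY z N α β)
  fou : ∀ N τ, FOU z (Xi z N τ)
  good : ∀ N k, 4 ≤ k → ∀ τ ∈ Nest k, Xi z N τ ∈ SpanF z τ (fun F => latD F.1)
  ordE : ∀ N k, ∀ τ ∈ Nest k, Fil z dE (-1) (Xi z N τ)

/-- Reduction of the pairing to homogeneous strata. -/
def SRed (z : Fin 11 → ℂ) : Prop :=
  ∀ N, ∀ τ ∈ Nest 5, Res z (lst τ) (c0 z * Xi z N τ ∅) =
    if ∀ F ∈ τ, homB F.1 = true then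
      Res z (lst τ) (c0 z * hs z N (mu τ) (Y0 z N (aT τ)) ∅) else 0

/-- The value of the pairing. -/
def SEv (z : Fin 11 → ℂ) : Prop :=
  ∀ N, 40 ≤ N → ∑ τ ∈ (Nest 5).filter (fun τ => ∀ F ∈ τ, homB F.1 = true),
    Res z (lst τ) (c0 z * hs z N (mu τ) (Y0 z N (aT τ)) ∅) ≠ 0

end Pool.Agent.MP_cb8d3a_ag.H90
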