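import Mathlib

/-!
Definitions for the statement on MP_cb8d3a_ag, for the data
`g = sl2`, `ℓ = 1`, `κ = 3`, `n = 11`, all `λ_i = ν = ω`, `M = 5`.
-/

noncomputable section

open scoped BigOperators

namespace Pool.Agent.MP_cb8d3a_ag.St

/-- Rational functions in `t_0, ..., t_4`. -/
abbrev K : Type := FractionRing (MvPolynomial (Fin 5) ℂ)

/-- A polynomial as a rational function. -/
def ofPoly (P : MvPolynomial (Fin 5) ℂ) : K := algebraMap _ K P

/-- The coordinate `t_a`. -/
def t (a : Fin 5) : K := ofPoly (MvPolynomial.X a)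

/-- A numerator. -/
def numer (c : K) : MvPolynomial (Fin 5) ℂ :=
  (IsLocalization.sec (nonZeroDivisors (MvPolynomial (Fin 5) ℂ)) c).1

/-- The matching denominator. -/
def denom (c : K) : MvPolynomial (Fin 5) ℂ :=
  (IsLocalization.sec (nonZeroDivisors (MvPolynomial (Fin 5) ℂ)) c).2

/-- The derivative in `t_a` (quotient rule). -/
def pd (a : Fin 5) (c : K) : K :=
  (ofPoly (MvPolynomial.pderiv a (numer c)) * ofPoly (denom c) -
    ofPoly (numer c) * ofPoly (MvPolynomial.pderiv a (denom c))) / ofPoly (denom c) ^ 2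

/-- The hyperplanes `t_a = z_i` and `t_a = t_b` (`a < b`). -/
abbrev Hyp : Type := (Fin 5 × Fin 11) ⊕ {p : Fin 5 × Fin 5 // p.1 < p.2}

/-- The equation of a hyperplane. -/
def hyp (z : Fin 11 → ℂ) : Hyp → K
  | Sum.inl p => t p.1 - algebraMap ℂ K (z p.2)
  | Sum.inr p => t p.1.1 - t p.1.2

/-- The exponent of a hyperplane in the master function
`∏ (t_a - z_i) ^ (1 / κ) * ∏ (t_a - t_b) ^ (-2 / κ)`, `κ = 3`. -/
def expo : Hyp → ℚ
  | Sum.inl _ => 1 / 3
  | Sum.inr _ => -2 / 3

/-- The regular functions on the complement `U` of the hyperplanes. -/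
def OU (z : Fin 11 → ℂ) : Subalgebra ℂ K :=
  Algebra.adjoin ℂ (Set.range t ∪ Set.range fun h => (hyp z h)⁻¹)

/-! ### Differential forms -/

/-- A rational differential form: the coefficient of `dt_I` for each `I`. -/
abbrev Form : Type := Finset (Fin 5) → K

/-- The sign with `dt_a ∧ dt_(I - a) = sgn a I • dt_I`. -/
def sgn (a : Fin 5) (I : Finset (Fin 5)) : K := (-1) ^ (I.filter (· < a)).card

/-- `(∑ α_a dt_a) ∧ ω`. -/
def wedge (α : Fin 5 → K) (ω : Form) : Form :=
  fun I => ∑ a ∈ I, sgn a I * α a * ω (I.erase a)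

/-- The exterior derivative. -/
def extD (ω : Form) : Form :=
  fun I => ∑ a ∈ I, sgn a I * pd a (ω (I.erase a))

/-- The one-form `dlog c`. -/
def dlog (c : K) : Fin 5 → K := fun a => pd a c / c

/-- The one-form `η = dlog` of the master function. -/
def eta (z : Fin 11 → ℂ) : Fin 5 → K := fun a => ∑ h : Hyp, (expo h : K) * dlog (hyp z h) a

/-- The twisted differential `d + η ∧`. -/
def nabla (z : Fin 11 → ℂ) (ω : Form) : Form := extD ω + wedge (eta z) ω

/-- The form `c dt_I`. -/
def mono (I : Finset (Fin 5)) (c : K) : Form := fun J => if J = I then c else 0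

/-- `dlog h_1 ∧ ... ∧ dlog h_p`. -/
def logForm (z : Fin 11 → ℂ) (l : List Hyp) : Form :=
  l.foldr (fun h ω => wedge (dlog (hyp z h)) ω) (mono ∅ 1)

/-- Regular `p`-forms on `U`. -/
def RegForm (z : Fin 11 → ℂ) (p : ℕ) (ω : Form) : Prop :=
  (∀ I, ω I ∈ OU z) ∧ ∀ I, I.card ≠ p → ω I = 0

/-! ### The boundary of the compactification `P`

`P` is the fibre of `Mbar_(0,17) → Mbar_(0,12)` over `(z_0, ..., z_10, ∞)`. -/

/-- A set `A` of moving points and at most one fixed point (`some none` is `∞`,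
`some (some i)` is `z_i`). -/
abbrev Clus : Type := Finset (Fin 5) × Option (Option (Fin 11))

/-- The marked points in a cluster. -/
def pts (F : Clus) : Finset (Fin 5 ⊕ Option (Fin 11)) := F.1.disjSum F.2.toFinset

/-- Boundary divisors of `P`: at least two marked points collide. -/
abbrev Div : Type := {F : Clus // 2 ≤ (pts F).card}

/-- Two boundary divisors meet. -/
def Compat (F G : Div) : Prop :=
  pts F.1 ⊆ pts G.1 ∨ pts G.1 ⊆ pts F.1 ∨ Disjoint (pts F.1) (pts G.1)

/-- Nested sets, i.e. strata of `P`. The open sets `P_σ = P - ⋃_(F ∉ σ) F` are affine,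
cover `P`, and `P_σ ∩ P_τ = P_(σ ∩ τ)`, `P_∅ = U`. -/
abbrev Nested : Type := {σ : Finset Div // ∀ F ∈ σ, ∀ G ∈ σ, Compat F G}

/-- The empty nested set. -/
def Nested.empty : Nested := ⟨∅, by simp⟩

/-- The last moving point of a cluster. -/
def lastPt (A : Finset (Fin 5)) : Fin 5 := A.fold max 0 id

/-- A centre `c` for a cluster: `z_i`, or the last moving point, or `z_0` for a cluster at `∞`. -/
def centre (z : Fin 11 → ℂ) (F : Clus) : K :=
  match F.2 with
  | some (some i) => algebraMap ℂ K (z i)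
  | some none => algebraMap ℂ K (z 0)
  | none => t (lastPt F.1)

/-- The substitution `t_a ↦ c + u (t_a - c)` (at `∞`: `t_a ↦ c + (t_a - c) / u`) for `a` in the
cluster; `u` is a local equation of the divisor. -/
def chart (z : Fin 11 → ℂ) (F : Clus) (a : Fin 5) : LaurentSeries K :=
  if a ∈ F.1 then
    HahnSeries.single 0 (centre z F) +
      HahnSeries.single (if F.2 = some none then -1 else 1) (t a - centre z F)
  else HahnSeries.single 0 (t a)

/-- The substitution applied to a polynomial. -/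
def substPoly (z : Fin 11 → ℂ) (F : Clus) : MvPolynomial (Fin 5) ℂ →+* LaurentSeries K :=
  MvPolynomial.eval₂Hom (HahnSeries.C.comp (algebraMap ℂ K)) (chart z F)

/-- The Laurent expansion in `u` of a rational function along a boundary divisor. -/
def expand (z : Fin 11 → ℂ) (F : Div) (c : K) : LaurentSeries K :=
  substPoly z F.1 (numer c) / substPoly z F.1 (denom c)

/-- The residue of `η` along a boundary divisor. -/
def res (z : Fin 11 → ℂ) (F : Div) : ℚ :=
  ∑ h : Hyp, expo h * ((expand z F (hyp z h)).order : ℚ)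

/-- The stalk at the generic point of `F` of `Ω^p_P(log D) ⊗ Lbar`, `Lbar` the canonical extension
(residues in `[0, 1)`): sums of `c • dlog h_1 ∧ ... ∧ dlog h_p` with `ord_F c + res_F η ≥ 0`. -/
def logLattice (z : Fin 11 → ℂ) (F : Div) (p : ℕ) : AddSubgroup Form :=
  AddSubgroup.closure {ω | ∃ (c : K) (l : List Hyp), l.length = p ∧
    (∀ j : ℤ, (j : ℚ) + res z F < 0 → (expand z F c).coeff j = 0) ∧ ω = c • logForm z l}

/-- Cocycles of total degree `5` of the Cech complex of `(Ω^(≥ p)_P(log D) ⊗ Lbar, d + η)`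
for the cover by the `P_σ`. -/
structure CechCocycle (z : Fin 11 → ℂ) (p : ℕ) where
  x : (q : ℕ) → (Fin (q + 1) → Nested) → Form
  vanish : ∀ q s, 5 < p + q → x q s = 0
  regular : ∀ q s, RegForm z (5 - q) (x q s)
  lattice : ∀ q s (F : Div), (∀ i, F ∈ (s i).1) → x q s ∈ logLattice z F (5 - q)
  closed₀ : ∀ s, nabla z (x 0 s) = 0
  closed : ∀ q (s : Fin (q + 2) → Nested),
    ∑ i : Fin (q + 2), (-1 : K) ^ (i : ℕ) • x q (fun j => s (i.succAbove j)) +
      (-1 : K) ^ (q + 1) • nabla z (x (q + 1) s) = 0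

/-- The class of the `5`-form `ω` in `H^5(U, L) = Ω^5(U) / (d + η) Ω^4(U)` lies in `F^p`, the image
of the hypercohomology of `Ω^(≥ p)_P(log D) ⊗ Lbar`. -/
def InHodge (z : Fin 11 → ℂ) (p : ℕ) (ω : Form) : Prop :=
  ∃ (X : CechCocycle z p) (γ : Form), RegForm z 4 γ ∧
    ω = X.x 0 (fun _ => Nested.empty) + nabla z γ

/-! ### Conformal blocks -/

/-- Functionals on `(ℂ²)^(⊗ 11)`, by their values on the vectors `f_I v`. -/
abbrev Dual : Type := Finset (Fin 11) → ℂ

/-- The transpose of `∑ c_i f^(i)`. -/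
def lower (c : Fin 11 → ℂ) (ψ : Dual) : Dual :=
  fun J => ∑ i ∈ Jᶜ, c i * ψ (insert i J)

/-- `A^*`: functionals on the weight space `ν = ω` killing the image of `f`. -/
def Coinv (ψ : Dual) : Prop :=
  (∀ I, I.card ≠ 5 → ψ I = 0) ∧ lower (fun _ => 1) ψ = 0

/-- `V^*_m`: those that also kill the image of `(∑ z_i f^(i)) ^ (m - (ν, θ) + 1)`, `(ν, θ) = 1`. -/
def Block (z : Fin 11 → ℂ) (m : ℕ) (ψ : Dual) : Prop :=
  Coinv ψ ∧ (lower z)^[m - 1 + 1] ψ = 0

/-- The Schechtman-Varchenko form of `ψ`. -/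
def svForm (z : Fin 11 → ℂ) (ψ : Dual) : Form :=
  mono Finset.univ (∑ f : Fin 5 → Fin 11, algebraMap ℂ K (ψ (Finset.univ.image f)) *
    ∏ a, (t a - algebraMap ℂ K (z (f a)))⁻¹)

end Pool.Agent.MP_cb8d3a_ag.St
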