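import Pool.Agent.MP_cb8d3a_ag.H90.Spec

/-! Atoms and monomials in differences of points. -/

noncomputable section

open scoped BigOperators

namespace Pool.Agent.MP_cb8d3a_ag.H90

namespace AtAux

variable {z : Fin 11 → ℂ}

theorem pd_sub (a : Fin 5) (x y : K) : pd a (x - y) = pd a x - pd a y := map_sub (pdD a) x y

theorem pd_pt (a : Fin 5) (p : Pt) : pd a (pt z p) = if p = Sum.inl a then 1 else 0 := by
  cases p with
  | inl b => simp [pt, pd_t]
  | inr i => simp [pt, pd_algebraMap]

theorem pt_inj (hz : Function.Injective z) : Function.Injective (pt z) := by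
  have key : ∀ (a : Fin 5) (q : Pt), pt z (Sum.inl a) = pt z q → Sum.inl a = q := by
    intro a q h
    have := congrArg (pd a) h
    rw [pd_pt, pd_pt, if_pos rfl] at this
    by_contra h1
    rw [if_neg (Ne.symm h1)] at this
    exact one_ne_zero this
  rintro (a | i) (b | j) h
  · exact key a _ h
  · exact key a _ h
  · exact (key b _ h.symm).symm
  · exact congrArg _ (hz ((algebraMap ℂ K).injective h))

theorem av_ne (hz : Function.Injective z) (x : At) (h : x.1 ≠ x.2) : av z x ≠ 0 :=
  sub_ne_zero.2 fun h1 => h (pt_inj hz h1)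

theorem toAt_ne (h : Hyp) : (toAt h).1 ≠ (toAt h).2 := by
  rcases h with p | p
  · simp [toAt]
  · simpa [toAt] using p.2.ne

theorem vH_eq (F : Clus) (h : Hyp) : vH F h = vA F (toAt h) := by
  obtain ⟨A, o⟩ := F
  rcases h with p | p
  · by_cases h1 : o = some none <;> by_cases h2 : p.1 ∈ A <;>
      simp [vH, vA, toAt, memC, h1, h2]
  · simp [vH, vA, toAt, memC]

theorem ctr_mem (F : Div) (h : F.1.2 ≠ some none) : memC F.1 (ctr F.1) = true := by
  obtain ⟨⟨A, _ | _ | i⟩, hF⟩ := F
  · have : A.Nonempty := by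
      rw [← Finset.card_pos]
      simp [pts] at hF
      omega
    simpa [memC, ctr] using lastPt_mem A this
  · exact absurd rfl h
  · simp [memC, ctr]

theorem ctr_not (F : Clus) (h : F.2 = some none) : memC F (ctr F) = false := by
  obtain ⟨A, o⟩ := F
  obtain rfl : o = some none := h
  simp [memC, ctr]

theorem inA_ne (F : Div) (x : At) (h : x.1 ≠ x.2) : (inA F.1 x).1 ≠ (inA F.1 x).2 := by
  unfold inA
  split_ifs with h1 h2 h3 h3
  · exact h
  · intro h4
    rw [show x.1 = ctr F.1 from h4, ctr_not _ h2] at h3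
    exact absurd h3 (by simp)
  · intro h4
    rw [← show ctr F.1 = x.2 from h4, ctr_not _ h2] at h1
    exact h1 (by simpa using h3)
  · intro h4
    rw [← show ctr F.1 = x.2 from h4, ctr_mem _ h2] at h1
    exact h1 h3
  · intro h4
    rw [show x.1 = ctr F.1 from h4, ctr_mem _ h2] at h3
    exact h3 rfl

theorem ex_pt (F : Div) (p : Pt) : ex z F (pt z p) = if memC F.1 p then
    HahnSeries.single 0 (pt z (ctr F.1)) +
      HahnSeries.single (if F.1.2 = some none then -1 else 1) (pt z p - pt z (ctr F.1))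
    else HahnSeries.single 0 (pt z p) := by
  cases p with
  | inl a => simp only [pt, ex_t, chart, memC, decide_eq_true_eq, centre_eq]
  | inr i =>
    by_cases h : F.1.2 = some (some i)
    · have : ctr F.1 = Sum.inr i := by simp [ctr, h]
      simp [memC, h, this, pt, ex_algebraMap]
    · simp [memC, h, pt, ex_algebraMap]

theorem ex_av (F : Div) (x : At) : ex z F (av z x) =
    HahnSeries.single (vA F.1 x) (av z (inA F.1 x)) +
      HahnSeries.single (vA F.1 x + 1) (av z x - av z (inA F.1 x)) := by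
  rw [av, map_sub, ex_pt, ex_pt]
  by_cases h : F.1.2 = some none <;> cases h1 : memC F.1 x.1 <;> cases h2 : memC F.1 x.2 <;>
    simp [vA, inA, h, h1, h2, av, ← HahnSeries.single_sub, ← HahnSeries.single_neg] <;>
    ext j <;> simp only [HahnSeries.coeff_add, HahnSeries.coeff_sub, HahnSeries.coeff_single] <;>
    split_ifs <;> ring

theorem V_av (F : Div) (x : At) : V z F (vA F.1 x) (av z x) := fun j hj => by
  rw [co_apply, ex_av, HahnSeries.coeff_add, HahnSeries.coeff_single_of_ne hj.ne,
    HahnSeries.coeff_single_of_ne (by omega), add_zero]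

theorem co_av (F : Div) (x : At) : co z F (vA F.1 x) (av z x) = av z (inA F.1 x) := by
  rw [co_apply, ex_av, HahnSeries.coeff_add, HahnSeries.coeff_single_same,
    HahnSeries.coeff_single_of_ne (by omega), add_zero]

theorem al_cons (p : At × ℤ) (l : List (At × ℤ)) : al z (p :: l) = av z p.1 ^ p.2 * al z l := by
  simp [al]

theorem bne_pt : ∀ p q : Pt, (p != q) = true ↔ p ≠ q := by decide +kernel

theorem ok_cons (p : At × ℤ) (l : List (At × ℤ)) :
    okL (p :: l) = true ↔ p.1.1 ≠ p.1.2 ∧ okL l = true := by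
  rw [okL, List.all_cons, Bool.and_eq_true, bne_pt, okL]

theorem al_ne (hz : Function.Injective z) (l : List (At × ℤ)) (h : okL l = true) : al z l ≠ 0 := by
  induction l with
  | nil => simp [al]
  | cons p l ih =>
    rw [ok_cons] at h
    rw [al_cons]
    exact mul_ne_zero (zpow_ne_zero _ (av_ne hz _ h.1)) (ih h.2)

theorem ok_inL (F : Div) (l : List (At × ℤ)) (h : okL l = true) : okL (inL F.1 l) = true := by
  induction l with
  | nil => rfl
  | cons p l ih =>
    rw [ok_cons] at h
    exact (ok_cons _ _).2 ⟨inA_ne F _ h.1, ih h.2⟩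

theorem V_co_al (hz : Function.Injective z) (F : Div) (l : List (At × ℤ)) (h : okL l = true) :
    V z F (vl F.1 l) (al z l) ∧ co z F (vl F.1 l) (al z l) = al z (inL F.1 l) := by
  induction l with
  | nil => exact ⟨V_one, co_one⟩
  | cons p l ih =>
    rw [ok_cons] at h
    have h1 := (V_av (z := z) F p.1).zpow (by rw [co_av]; exact av_ne hz _ (inA_ne F _ h.1)) p.2
    have h2 := ih h.2
    have e : vl F.1 (p :: l) = p.2 * vA F.1 p.1 + vl F.1 l := by simp [vl]
    rw [e, al_cons, co_mul h1.1 h2.1, h1.2, h2.2, co_av]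
    exact ⟨h1.1.mul h2.1, (al_cons (inA F.1 p.1, p.2) _).symm⟩

theorem idxP_inj : Function.Injective idxP := by
  rintro (a | i) (b | j) h <;> simp only [idxP] at h
  · exact congrArg _ (Fin.ext h)
  · omega
  · omega
  · exact congrArg _ (Fin.ext (by omega))

theorem expL_cons (p : At × ℤ) (l : List (At × ℤ)) (y : At) :
    expL (p :: l) y = (if p.1 = y ∨ p.1 = y.swap then p.2 else 0) + expL l y := by
  simp [expL]

theorem expL_swap (l : List (At × ℤ)) (y : At) : expL l y.swap = expL l y := by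
  simp only [expL, Prod.swap_swap, or_comm]

theorem expL_zero (l : List (At × ℤ)) (y : At) (h : ∀ p ∈ l, ¬ (p.1 = y ∨ p.1 = y.swap)) :
    expL l y = 0 :=
  List.sum_eq_zero fun n hn => by
    obtain ⟨p, hp, rfl⟩ := List.mem_map.1 hn
    exact if_neg (h p hp)

theorem av_swap (x : At) : av z x.swap = -av z x := (neg_sub _ _).symm

theorem av_norm (x : At) (n : ℤ) (h : x.1 ≠ x.2) :
    av z x ^ n = ((if idxP x.2 < idxP x.1 ∧ n % 2 = 1 then (-1 : ℤ) else 1 : ℤ) : K) *
      ∏ y ∈ Finset.univ.filter fun y : At => idxP y.1 < idxP y.2,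
        av z y ^ (if x = y ∨ x = y.swap then n else 0) := by
  rcases lt_or_gt_of_ne fun h1 => h (idxP_inj h1) with h1 | h1
  · rw [if_neg fun h2 => absurd h2.1 h1.not_gt, Finset.prod_eq_single x, if_pos (Or.inl rfl)]
    · simp
    · intro y hy hne
      rw [if_neg, zpow_zero]
      rintro (rfl | rfl)
      · exact hne rfl
      · exact absurd (Finset.mem_filter.1 hy).2 h1.not_gt
    · exact fun h2 => (h2 (Finset.mem_filter.2 ⟨Finset.mem_univ _, h1⟩)).elim
  · rw [Finset.prod_eq_single x.swap, if_pos (Or.inr x.swap_swap.symm), av_swap]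
    · rcases Int.even_or_odd n with h2 | h2
      · rw [if_neg fun h3 => by rw [Int.even_iff.1 h2] at h3; simp at h3, h2.neg_zpow]
        simp
      · rw [if_pos ⟨h1, Int.odd_iff.1 h2⟩, h2.neg_zpow]
        simp
    · intro y hy hne
      rw [if_neg, zpow_zero]
      rintro (rfl | rfl)
      · exact absurd (Finset.mem_filter.1 hy).2 h1.not_gt
      · exact hne rfl
    · exact fun h2 => (h2 (Finset.mem_filter.2 ⟨Finset.mem_univ _, h1⟩)).elim

theorem al_norm (hz : Function.Injective z) (l : List (At × ℤ)) (h : okL l = true) :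
    al z l = sgnL l * ∏ y ∈ Finset.univ.filter fun y : At => idxP y.1 < idxP y.2,
      av z y ^ expL l y := by
  induction l with
  | nil => simp [al, sgnL, expL]
  | cons p l ih =>
    rw [ok_cons] at h
    have e : sgnL (p :: l) =
        (if idxP p.1.2 < idxP p.1.1 ∧ p.2 % 2 = 1 then (-1 : ℤ) else 1) * sgnL l := by
      simp only [sgnL, List.map_cons, List.prod_cons]
    rw [al_cons, ih h.2, e, av_norm _ _ h.1, Int.cast_mul, mul_mul_mul_comm,
      ← Finset.prod_mul_distrib]
    refine congrArg _ (Finset.prod_congr rfl fun y hy => ?_)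
    rw [expL_cons, zpow_add₀ (av_ne hz y fun h1 => by
      rw [Finset.mem_filter, h1] at hy; exact lt_irrefl _ hy.2)]

theorem al_eq (hz : Function.Injective z) (l m : List (At × ℤ)) (hl : okL l = true)
    (hm : okL m = true) (h : eqL l m = true) : al z l = al z m := by
  rw [eqL, Bool.and_eq_true, beq_iff_eq, List.all_eq_true] at h
  rw [al_norm hz l hl, al_norm hz m hm, h.1]
  refine congrArg _ (Finset.prod_congr rfl fun y _ => congrArg _ ?_)
  by_cases h1 : ∃ p ∈ l ++ m, p.1 = y ∨ p.1 = y.swap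
  · obtain ⟨p, hp, h2⟩ := h1
    have h3 := beq_iff_eq.1 (h.2 p hp)
    rcases h2 with h2 | h2
    · rwa [h2] at h3
    · rwa [h2, expL_swap, expL_swap] at h3
  · rw [expL_zero l y fun p hp h2 => h1 ⟨p, List.mem_append_left _ hp, h2⟩,
      expL_zero m y fun p hp h2 => h1 ⟨p, List.mem_append_right _ hp, h2⟩]

theorem pt_OU (p : Pt) : pt z p ∈ OU z := by
  cases p with
  | inl a => exact Algebra.subset_adjoin (Or.inl ⟨a, rfl⟩)
  | inr i => exact (OU z).algebraMap_mem _

theorem av_OU (x : At) : av z x ∈ OU z := sub_mem (pt_OU _) (pt_OU _)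

theorem inv_OU (x : At) (h : x.1 ≠ x.2) : (av z x)⁻¹ ∈ OU z := by
  have h1 : ∀ g : Hyp, (av z (toAt g))⁻¹ ∈ OU z := fun g =>
    Algebra.subset_adjoin (Or.inr ⟨g, by simp only [hyp_eq]⟩)
  have h2 : ∀ g : Hyp, (av z (toAt g).swap)⁻¹ ∈ OU z := fun g => by
    rw [av_swap, inv_neg]; exact neg_mem (h1 g)
  obtain ⟨a | i, b | j⟩ := x
  · rcases lt_or_gt_of_ne fun h3 : a = b => h (congrArg _ h3) with h3 | h3
    · exact h1 (Sum.inr ⟨(a, b), h3⟩)
    · exact h2 (Sum.inr ⟨(b, a), h3⟩)
  · exact h1 (Sum.inl (a, j))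
  · exact h2 (Sum.inl (b, i))
  · simp only [av, pt, ← map_sub, ← map_inv₀]
    exact (OU z).algebraMap_mem _

theorem al_OU (l : List (At × ℤ)) (h : okL l = true) : al z l ∈ OU z := by
  induction l with
  | nil => exact one_mem _
  | cons p l ih =>
    rw [ok_cons] at h
    rw [al_cons]
    refine mul_mem ?_ (ih h.2)
    obtain ⟨n, hn | hn⟩ := Int.eq_nat_or_neg p.2
    · rw [hn, zpow_natCast]; exact pow_mem (av_OU _) n
    · rw [hn, zpow_neg, zpow_natCast, ← inv_pow]; exact pow_mem (inv_OU _ h.1) n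

theorem pd_av (a : Fin 5) (x : At) : pd a (av z x) = (dA a x : K) := by
  rw [av, pd_sub, pd_pt, pd_pt, dA]
  push_cast
  rfl

theorem act_al (hz : Function.Injective z) (X : VF) (l : List (At × ℤ)) (h : okL l = true) :
    act X (al z l) = al z l * (l.map fun p => (p.2 : K) * (act X (av z p.1) / av z p.1)).sum := by
  induction l with
  | nil => simp [al]
  | cons p l ih =>
    rw [ok_cons] at h
    have h0 := av_ne hz _ h.1
    rw [al_cons, act_mul, ih h.2, Derivation.leibniz_zpow, List.map_cons, List.sum_cons,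
      zpow_sub_one₀ h0, zsmul_eq_mul, smul_eq_mul]
    field_simp

/-- Three times the exponent. -/
def e3 : Hyp → ℤ
  | Sum.inl _ => 1
  | Sum.inr _ => -2

theorem sum_e3 : ∀ F : Clus, ∑ h : Hyp, e3 h * vH F h = a3 F := by decide +kernel

theorem aW_expo (F : Clus) : aW expo F = (a3 F : ℚ) / 3 := by
  rw [← sum_e3, aW]
  push_cast
  rw [Finset.sum_div]
  refine Finset.sum_congr rfl fun h _ => ?_
  cases h <;> simp only [expo, e3] <;> push_cast <;> ring

theorem res_eq (hz : Function.Injective z) (F : Div) : res z F = (a3 F.1 : ℚ) / 3 := by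
  rw [← aW_expo, res, aW]
  refine Finset.sum_congr rfl fun h _ => ?_
  rw [expand_eq, hyp_eq, vH_eq, order_eq (V_av F _)
    (by rw [co_av]; exact av_ne hz _ (inA_ne F _ (toAt_ne h)))]

theorem pts_sub (F G : Clus) : pts F ⊆ pts G ↔ F.1 ⊆ G.1 ∧ (F.2 = none ∨ F.2 = G.2) := by
  obtain ⟨A, o⟩ := F
  obtain ⟨B, o'⟩ := G
  rw [Finset.subset_iff, Finset.subset_iff, Sum.forall]
  simp only [pts, Finset.inl_mem_disjSum, Finset.inr_mem_disjSum]
  cases o <;> cases o' <;> simp

theorem pts_disj (F G : Clus) : Disjoint (pts F) (pts G) ↔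
    F.1 ∩ G.1 = ∅ ∧ (F.2 = none ∨ G.2 = none ∨ F.2 ≠ G.2) := by
  obtain ⟨A, o⟩ := F
  obtain ⟨B, o'⟩ := G
  rw [← Finset.disjoint_iff_inter_eq_empty, Finset.disjoint_left, Finset.disjoint_left,
    Sum.forall]
  simp only [pts, Finset.inl_mem_disjSum, Finset.inr_mem_disjSum]
  cases o <;> cases o' <;> simp

theorem compB_iff (F G : Div) : compB F.1 G.1 = true ↔ Compat F G := by
  rw [Compat, pts_sub, pts_sub, pts_disj, compB]
  simp only [Bool.or_eq_true, Bool.and_eq_true, decide_eq_true_eq, or_assoc]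

end AtAux

theorem sAt (z : Fin 11 → ℂ) (hz : Function.Injective z) : SAt z where
  av_ne := AtAux.av_ne hz
  toAt_ne := AtAux.toAt_ne
  vH_eq := AtAux.vH_eq
  inA_ne := AtAux.inA_ne
  ex_av F x _ := AtAux.ex_av F x
  V_av F x _ := AtAux.V_av F x
  co_av F x _ := AtAux.co_av F x
  al_append l m := by simp [al]
  al_ne := AtAux.al_ne hz
  ok_inL := AtAux.ok_inL
  V_al F l h := (AtAux.V_co_al hz F l h).1
  co_al F l h := (AtAux.V_co_al hz F l h).2
  al_eq := AtAux.al_eq hz
  av_OU := AtAux.av_OU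
  al_OU := AtAux.al_OU
  pd_av := AtAux.pd_av
  act_al := AtAux.act_al hz
  res_eq := AtAux.res_eq hz
  aW_expo F := AtAux.aW_expo F.1
  aW_wD F := by
    rw [← AtAux.aW_expo, aW, aW, ← Finset.sum_neg_distrib]
    exact Finset.sum_congr rfl fun h _ => neg_mul _ _
  compB_iff := AtAux.compB_iff

end Pool.Agent.MP_cb8d3a_ag.H90
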