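import Pool.Agent.MP_cb8d3a_ag.H90.Defs

/-! Derivations and expansions as bundled maps. -/

noncomputable section

open scoped BigOperators
open MvPolynomial

namespace Pool.Agent.MP_cb8d3a_ag.H90

abbrev Pol : Type := MvPolynomial (Fin 5) ℂ

instance : IsScalarTower ℂ Pol K := IsScalarTower.of_algebraMap_eq fun _ => rfl

instance : CharZero K := charZero_of_injective_algebraMap (algebraMap ℂ K).injective

def ofPolyA : Pol →ₐ[ℂ] K := IsScalarTower.toAlgHom ℂ Pol K

theorem ofPoly_eq (P : Pol) : ofPoly P = ofPolyA P := rfl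

theorem ofPolyA_injective : Function.Injective ofPolyA :=
  IsFractionRing.injective Pol K

theorem ofPolyA_X (a : Fin 5) : ofPolyA (X a) = t a := rfl

theorem denom_ne_zero (c : K) : denom c ≠ 0 :=
  nonZeroDivisors.ne_zero (IsLocalization.sec (nonZeroDivisors Pol) c).2.2

theorem ofPolyA_ne_zero {P : Pol} (h : P ≠ 0) : ofPolyA P ≠ 0 := by
  intro h0
  exact h (ofPolyA_injective (by simpa using h0))

theorem mul_denom (c : K) : c * ofPolyA (denom c) = ofPolyA (numer c) :=
  IsLocalization.sec_spec (nonZeroDivisors Pol) c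

theorem numer_div_denom (c : K) : ofPolyA (numer c) / ofPolyA (denom c) = c := by
  rw [← mul_denom, mul_div_assoc, div_self (ofPolyA_ne_zero (denom_ne_zero c)), mul_one]

theorem exists_frac (c : K) : ∃ P Q : Pol, Q ≠ 0 ∧ c = ofPolyA P / ofPolyA Q :=
  ⟨numer c, denom c, denom_ne_zero c, (numer_div_denom c).symm⟩

theorem cross_eq {P Q : Pol} (hQ : Q ≠ 0) :
    numer (ofPolyA P / ofPolyA Q) * Q = P * denom (ofPolyA P / ofPolyA Q) := by
  apply ofPolyA_injective
  have h := mul_denom (ofPolyA P / ofPolyA Q)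
  have hq := ofPolyA_ne_zero hQ
  rw [map_mul, map_mul, ← h]
  field_simp

theorem pd_div (a : Fin 5) (P Q : Pol) (hQ : Q ≠ 0) :
    pd a (ofPolyA P / ofPolyA Q) =
      (ofPolyA (pderiv a P) * ofPolyA Q - ofPolyA P * ofPolyA (pderiv a Q)) / ofPolyA Q ^ 2 := by
  have h := cross_eq (P := P) hQ
  set n := numer (ofPolyA P / ofPolyA Q) with hn
  set d := denom (ofPolyA P / ofPolyA Q) with hd
  have hd0 : ofPolyA d ≠ 0 := ofPolyA_ne_zero (denom_ne_zero _)
  have hq := ofPolyA_ne_zero hQ
  have h1 := congrArg (fun R => ofPolyA (pderiv a R)) h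
  have h0 := congrArg ofPolyA h
  simp only [Derivation.leibniz, smul_eq_mul, map_add, map_mul] at h1 h0
  unfold pd
  simp only [ofPoly_eq, ← hn, ← hd]
  rw [div_eq_div_iff (pow_ne_zero 2 hd0) (pow_ne_zero 2 hq)]
  linear_combination (ofPolyA Q * ofPolyA d) * h1 -
    (ofPolyA (pderiv a d) * ofPolyA Q + ofPolyA d * ofPolyA (pderiv a Q)) * h0

theorem pd_ofPolyA (a : Fin 5) (P : Pol) : pd a (ofPolyA P) = ofPolyA (pderiv a P) := by
  have := pd_div a P 1 one_ne_zero
  simpa using this

theorem pd_add (a : Fin 5) (x y : K) : pd a (x + y) = pd a x + pd a y := by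
  obtain ⟨P, Q, hQ, rfl⟩ := exists_frac x
  obtain ⟨R, S, hS, rfl⟩ := exists_frac y
  have hq := ofPolyA_ne_zero hQ
  have hs := ofPolyA_ne_zero hS
  have : ofPolyA P / ofPolyA Q + ofPolyA R / ofPolyA S =
      ofPolyA (P * S + Q * R) / ofPolyA (Q * S) := by
    simp only [map_add, map_mul]; field_simp
  rw [this, pd_div a _ _ (mul_ne_zero hQ hS), pd_div a _ _ hQ, pd_div a _ _ hS]
  simp only [Derivation.leibniz, smul_eq_mul, map_add, map_mul]
  field_simp
  ring

theorem pd_mul (a : Fin 5) (x y : K) : pd a (x * y) = pd a x * y + x * pd a y := by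
  obtain ⟨P, Q, hQ, rfl⟩ := exists_frac x
  obtain ⟨R, S, hS, rfl⟩ := exists_frac y
  have hq := ofPolyA_ne_zero hQ
  have hs := ofPolyA_ne_zero hS
  have : ofPolyA P / ofPolyA Q * (ofPolyA R / ofPolyA S) =
      ofPolyA (P * R) / ofPolyA (Q * S) := by
    simp only [map_mul]; field_simp
  rw [this, pd_div a _ _ (mul_ne_zero hQ hS), pd_div a _ _ hQ, pd_div a _ _ hS]
  simp only [Derivation.leibniz, smul_eq_mul, map_add, map_mul]
  field_simp
  ring

theorem algebraMap_eq_ofPolyA (r : ℂ) : algebraMap ℂ K r = ofPolyA (C r) := by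
  rw [← MvPolynomial.algebraMap_eq, AlgHom.commutes]

theorem pd_algebraMap (a : Fin 5) (r : ℂ) : pd a (algebraMap ℂ K r) = 0 := by
  rw [algebraMap_eq_ofPolyA, pd_ofPolyA]; simp

/-- `pd a` as a derivation. -/
def pdD (a : Fin 5) : Derivation ℂ K K :=
  Derivation.mk'
    { toFun := pd a
      map_add' := pd_add a
      map_smul' := fun r x => by
        rw [Algebra.smul_def, pd_mul, pd_algebraMap, zero_mul, zero_add, Algebra.smul_def]; rfl }
    (fun x y => by
      change pd a (x * y) = x • pd a y + y • pd a x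
      rw [pd_mul, smul_eq_mul, smul_eq_mul]; ring)

theorem pdD_apply (a : Fin 5) (c : K) : pdD a c = pd a c := rfl

theorem pd_t (a b : Fin 5) : pd a (t b) = if b = a then 1 else 0 := by
  rw [← ofPolyA_X, pd_ofPolyA, pderiv_X]
  by_cases h : b = a
  · subst h; simp
  · simp [h]

/-- Two derivations along a field map that agree on the coordinates agree. -/
theorem der_ext {L : Type} [Field L] (φ : K →+* L) (D E : K →+ L)
    (hD : ∀ x y, D (x * y) = D x * φ y + φ x * D y)
    (hE : ∀ x y, E (x * y) = E x * φ y + φ x * E y)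
    (h0 : ∀ r : ℂ, D (algebraMap ℂ K r) = E (algebraMap ℂ K r))
    (h : ∀ a, D (t a) = E (t a)) (c : K) : D c = E c := by
  have hp : ∀ P : Pol, D (ofPolyA P) = E (ofPolyA P) := by
    intro P
    induction P using MvPolynomial.induction_on with
    | C r => rw [← algebraMap_eq_ofPolyA, h0]
    | add p q hp hq => simp only [map_add, hp, hq]
    | mul_X p a hp => rw [map_mul, hD, hE, hp, ofPolyA_X, h]
  have h1 := hD c (ofPolyA (denom c))
  have h2 := hE c (ofPolyA (denom c))
  rw [mul_denom] at h1 h2
  have hd : φ (ofPolyA (denom c)) ≠ 0 :=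
    (map_ne_zero φ).2 (ofPolyA_ne_zero (denom_ne_zero c))
  rw [hp, hp] at h1
  apply mul_right_cancel₀ hd
  linear_combination h2 - h1

theorem pd_one (e : Fin 5) : pd e 1 = 0 := by simpa using pd_algebraMap e 1

theorem pd_zero (e : Fin 5) : pd e 0 = 0 := by simpa using pd_algebraMap e 0

theorem pd_comm (a b : Fin 5) (c : K) : pd a (pd b c) = pd b (pd a c) := by
  have := der_ext (RingHom.id K)
    ((pdD a).toLinearMap ∘ₗ (pdD b).toLinearMap -
      (pdD b).toLinearMap ∘ₗ (pdD a).toLinearMap).toAddMonoidHom 0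
    (by
      intro x y
      change pd a (pd b (x * y)) - pd b (pd a (x * y)) =
        (pd a (pd b x) - pd b (pd a x)) * y + x * (pd a (pd b y) - pd b (pd a y))
      simp only [pd_mul, pd_add]; ring)
    (by simp)
    (by
      intro r
      change pd a (pd b _) - pd b (pd a _) = 0
      simp [pd_algebraMap, pd_zero])
    (by
      intro d
      change pd a (pd b (t d)) - pd b (pd a (t d)) = 0
      simp only [pd_t]
      split_ifs <;> simp [pd_one, pd_zero]) c
  exact sub_eq_zero.1 this

/-! ### Expansions -/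

/-- Laurent polynomials inside Laurent series. -/
def lpToLs : AddMonoidAlgebra K ℤ →+* LaurentSeries K :=
  AddMonoidAlgebra.liftNCRingHom HahnSeries.C
    { toFun := fun n => HahnSeries.single n.toAdd 1
      map_one' := by simp
      map_mul' := fun m n => by simp [HahnSeries.single_mul_single] }
    (fun _ _ => Commute.all _ _)

theorem lpToLs_single (n : ℤ) (c : K) :
    lpToLs (AddMonoidAlgebra.single n c) = HahnSeries.single n c := by
  unfold lpToLs
  rw [AddMonoidAlgebra.liftNCRingHom_single]
  simp [HahnSeries.single_mul_single]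

theorem lpToLs_coeff (p : AddMonoidAlgebra K ℤ) (j : ℤ) : (lpToLs p).coeff j = p.coeff j := by
  induction p using AddMonoidAlgebra.induction_linear with
  | zero => simp
  | add p q hp hq => simp [hp, hq]
  | single n c =>
    rw [lpToLs_single, HahnSeries.coeff_single, AddMonoidAlgebra.coeff_single,
      Finsupp.single_apply]
    by_cases h : j = n
    · simp [h]
    · rw [if_neg h, if_neg (Ne.symm h)]

/-- Evaluation at `u = 1`. -/
def evOne : AddMonoidAlgebra K ℤ →+* K :=
  AddMonoidAlgebra.liftNCRingHom (RingHom.id K) 1 (fun _ _ => Commute.all _ _)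

theorem evOne_single (n : ℤ) (c : K) : evOne (AddMonoidAlgebra.single n c) = c := by
  unfold evOne
  rw [AddMonoidAlgebra.liftNCRingHom_single]
  simp

theorem evOne_eq (p : AddMonoidAlgebra K ℤ) : evOne p = p.coeff.sum fun _ c => c := by
  induction p using AddMonoidAlgebra.induction_linear with
  | zero => simp
  | add p q hp hq =>
    rw [map_add, hp, hq, AddMonoidAlgebra.coeff_add, Finsupp.sum_add_index'] <;> simp
  | single n c => rw [evOne_single, AddMonoidAlgebra.coeff_single, Finsupp.sum_single_index rfl]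

/-- The chart with values in Laurent polynomials. -/
def chart0 (z : Fin 11 → ℂ) (F : Clus) (a : Fin 5) : AddMonoidAlgebra K ℤ :=
  if a ∈ F.1 then
    AddMonoidAlgebra.single 0 (centre z F) +
      AddMonoidAlgebra.single (if F.2 = some none then -1 else 1) (t a - centre z F)
  else AddMonoidAlgebra.single 0 (t a)

theorem lpToLs_chart0 (z : Fin 11 → ℂ) (F : Clus) (a : Fin 5) :
    lpToLs (chart0 z F a) = chart z F a := by
  unfold chart0 chart
  split_ifs <;> simp only [lpToLs_single, map_add]

theorem evOne_chart0 (z : Fin 11 → ℂ) (F : Clus) (a : Fin 5) :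
    evOne (chart0 z F a) = t a := by
  unfold chart0
  split_ifs <;> simp only [evOne_single, map_add, add_sub_cancel]

/-- The substitution with values in Laurent polynomials. -/
def substPoly0 (z : Fin 11 → ℂ) (F : Clus) : Pol →+* AddMonoidAlgebra K ℤ :=
  eval₂Hom (AddMonoidAlgebra.singleZeroRingHom.comp (algebraMap ℂ K)) (chart0 z F)

theorem substPoly_eq (z : Fin 11 → ℂ) (F : Clus) (P : Pol) :
    substPoly z F P = lpToLs (substPoly0 z F P) := by
  have : substPoly z F = lpToLs.comp (substPoly0 z F) := by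
    apply MvPolynomial.ringHom_ext
    · intro r
      simp only [substPoly, substPoly0, eval₂Hom_C, RingHom.comp_apply]
      exact (lpToLs_single 0 _).symm
    · intro a
      simp only [substPoly, substPoly0, eval₂Hom_X', RingHom.comp_apply, lpToLs_chart0]
  rw [this]; rfl

theorem evOne_substPoly0 (z : Fin 11 → ℂ) (F : Clus) (P : Pol) :
    evOne (substPoly0 z F P) = ofPolyA P := by
  have : evOne.comp (substPoly0 z F) = ofPolyA.toRingHom := by
    apply MvPolynomial.ringHom_ext
    · intro r
      simp only [substPoly0, eval₂Hom_C, RingHom.comp_apply]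
      exact (evOne_single 0 _).trans (algebraMap_eq_ofPolyA r)
    · intro a
      simp only [substPoly0, eval₂Hom_X', RingHom.comp_apply, evOne_chart0]
      rfl
  exact congrArg (fun f : Pol →+* K => f P) this

theorem substPoly_injective (z : Fin 11 → ℂ) (F : Clus) :
    Function.Injective (substPoly z F) := by
  rw [injective_iff_map_eq_zero]
  intro P hP
  rw [substPoly_eq] at hP
  have h0 : substPoly0 z F P = 0 := by
    ext j
    rw [← lpToLs_coeff, hP]; simp
  apply ofPolyA_injective
  rw [← evOne_substPoly0 z F, h0]; simp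

/-- The expansion along `F` as a ring map. -/
def ex (z : Fin 11 → ℂ) (F : Div) : K →+* LaurentSeries K :=
  IsFractionRing.lift (A := Pol) (K := K) (L := LaurentSeries K) (g := substPoly z F.1)
    (substPoly_injective z F.1)

theorem ex_ofPolyA (z : Fin 11 → ℂ) (F : Div) (P : Pol) :
    ex z F (ofPolyA P) = substPoly z F.1 P :=
  by
  have h := IsFractionRing.lift_algebraMap (K := K) (L := LaurentSeries K) (g := substPoly z F.1)
    (substPoly_injective z F.1) P
  unfold ex
  rw [← h]
  rfl

theorem expand_eq (z : Fin 11 → ℂ) (F : Div) (c : K) : expand z F c = ex z F c := by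
  conv_rhs => rw [← numer_div_denom c, map_div₀, ex_ofPolyA, ex_ofPolyA]
  rfl

theorem ex_t (z : Fin 11 → ℂ) (F : Div) (a : Fin 5) : ex z F (t a) = chart z F.1 a := by
  rw [← ofPolyA_X, ex_ofPolyA, substPoly, eval₂Hom_X']

theorem ex_algebraMap (z : Fin 11 → ℂ) (F : Div) (r : ℂ) :
    ex z F (algebraMap ℂ K r) = HahnSeries.single 0 (algebraMap ℂ K r) := by
  rw [algebraMap_eq_ofPolyA, ex_ofPolyA, substPoly, eval₂Hom_C, ← algebraMap_eq_ofPolyA]
  rfl

/-- A polynomial is the finite sum of its coefficients along `F`. -/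
theorem ofPolyA_eq_sum (z : Fin 11 → ℂ) (F : Div) (P : Pol) :
    ∃ s : Finset ℤ, (∀ j ∉ s, (ex z F (ofPolyA P)).coeff j = 0) ∧
      ofPolyA P = ∑ j ∈ s, (ex z F (ofPolyA P)).coeff j := by
  refine ⟨(substPoly0 z F.1 P).coeff.support, ?_, ?_⟩
  · intro j hj
    rw [ex_ofPolyA, substPoly_eq, lpToLs_coeff]
    simpa using hj
  · simp only [ex_ofPolyA, substPoly_eq, lpToLs_coeff]
    rw [← evOne_substPoly0 z F.1, evOne_eq]
    rfl

end Pool.Agent.MP_cb8d3a_ag.H90
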