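import Pool.Agent.MP_cb8d3a_ag.H90.Spec

/-! The conformal block functionals. -/

noncomputable section

open scoped BigOperators

namespace Pool.Agent.MP_cb8d3a_ag.H90

namespace BlkAux

open MvPolynomial

/-! ### Functionals as multilinear polynomials -/

abbrev RR : Type := MvPolynomial (Fin 11) ℂ

def ind (I : Finset (Fin 11)) : Fin 11 →₀ ℕ := ∑ i ∈ I, Finsupp.single i 1

theorem ind_apply (I : Finset (Fin 11)) (i : Fin 11) : ind I i = if i ∈ I then 1 else 0 := by
  simp [ind, Finsupp.finsetSum_apply, Finsupp.single_apply]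

theorem ind_inj {I J : Finset (Fin 11)} (h : ind I = ind J) : I = J := by
  ext i
  have := congrArg (fun m => m i) h
  simp only [ind_apply] at this
  by_cases h1 : i ∈ I <;> by_cases h2 : i ∈ J <;> simp_all

def ev (P : RR) : Dual := fun I => coeff (ind I) P

def ML (P : RR) : Prop := ∀ (m : Fin 11 →₀ ℕ) i, 2 ≤ m i → coeff m P = 0

def DD (c : Fin 11 → ℂ) (P : RR) : RR := ∑ i, C (c i) * pderiv i P

theorem coeff_DD (c : Fin 11 → ℂ) (P : RR) (m : Fin 11 →₀ ℕ) :
    coeff m (DD c P) = ∑ i, c i * (coeff (m + Finsupp.single i 1) P * (m i + 1)) := by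
  simp only [DD, coeff_sum, coeff_C_mul, coeff_pderiv]

theorem ML.DD {P : RR} (h : ML P) (c : Fin 11 → ℂ) : ML (DD c P) := fun m i hi => by
  rw [coeff_DD]
  refine Finset.sum_eq_zero fun j _ => ?_
  rw [h _ i (by simp only [Finsupp.add_apply]; omega), zero_mul, mul_zero]

theorem lower_ev {P : RR} (h : ML P) (c : Fin 11 → ℂ) : lower c (ev P) = ev (DD c P) := by
  funext J
  simp only [lower, ev]
  rw [coeff_DD, ← Finset.sum_add_sum_compl J, Finset.sum_eq_zero (s := J), zero_add]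
  · refine Finset.sum_congr rfl fun i hi => ?_
    have hi' : i ∉ J := Finset.mem_compl.1 hi
    have h1 : ind (insert i J) = ind J + Finsupp.single i 1 := by
      rw [ind, Finset.sum_insert hi', add_comm]; rfl
    simp [h1, ind_apply, hi']
  · intro i hi
    rw [h _ i (by simp [ind_apply, hi]), zero_mul, mul_zero]

theorem DD_mul (c : Fin 11 → ℂ) (P Q : RR) : DD c (P * Q) = DD c P * Q + P * DD c Q := by
  simp only [DD, pderiv_mul, Finset.sum_mul, Finset.mul_sum, ← Finset.sum_add_distrib]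
  exact Finset.sum_congr rfl fun i _ => by ring

theorem DD_add (c : Fin 11 → ℂ) (P Q : RR) : DD c (P + Q) = DD c P + DD c Q := by
  simp only [DD, map_add, mul_add, Finset.sum_add_distrib]

theorem DD_C (c : Fin 11 → ℂ) (r : ℂ) : DD c (C r) = 0 := by simp [DD]

theorem DD_X (c : Fin 11 → ℂ) (i : Fin 11) : DD c (X i) = C (c i) := by
  simp [DD, pderiv_X, Pi.single_apply]

theorem DD_smul (c : Fin 11 → ℂ) (r : ℂ) (P : RR) : DD c (r • P) = r • DD c P := by
  rw [← C_mul', DD_mul, DD_C, zero_mul, zero_add, C_mul']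

theorem DD_sum {ι : Type} (c : Fin 11 → ℂ) (s : Finset ι) (f : ι → RR) :
    DD c (∑ i ∈ s, f i) = ∑ i ∈ s, DD c (f i) := by
  simp only [DD, map_sum, Finset.mul_sum]
  exact Finset.sum_comm

/-! ### The bilinear and linear forms -/

section forms
variable {A : Type} [CommRing A] [Algebra ℂ A] (z e : Fin 11 → ℂ)

/-- weighted sum -/
def L (u : Fin 11 → A) : A := ∑ i, e i • u i

def w (i j : Fin 11) : ℂ := (z i - z j) ^ 2 * e i * e j

def B (u v : Fin 11 → A) : A := ∑ i, ∑ j, w z e i j • (u i * v j)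

theorem B_eq (u v : Fin 11 → A) : B z e u v =
    L e (fun i => z i ^ 2 • u i) * L e v - 2 * (L e (fun i => z i • u i) * L e fun i => z i • v i) +
      L e u * L e fun i => z i ^ 2 • v i := by
  simp only [B, L, Finset.sum_mul_sum]
  simp only [Finset.mul_sum, ← Finset.sum_sub_distrib, ← Finset.sum_add_distrib]
  refine Finset.sum_congr rfl fun i _ => Finset.sum_congr rfl fun j _ => ?_
  simp only [w, Algebra.smul_def, map_mul, map_pow, map_sub]
  ring

end forms

theorem DD_L (c e : Fin 11 → ℂ) (f : Fin 11 → ℂ) :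
    DD c (L e fun i => f i • (X i : RR)) = C (L e fun i => f i * c i) := by
  simp only [L, DD_sum, DD_smul, DD_X, map_sum, smul_eq_mul, map_mul]
  simp only [smul_eq_C_mul]

/-- the moments -/
def mo (z e : Fin 11 → ℂ) (k : ℕ) : ℂ := L e fun i => z i ^ k

theorem DD_Lk (z e : Fin 11 → ℂ) (k : ℕ) :
    DD (fun _ => 1) (L e fun i => z i ^ k • (X i : RR)) = C (mo z e k) ∧
      DD z (L e fun i => z i ^ k • (X i : RR)) = C (mo z e (k + 1)) := by
  rw [DD_L, DD_L]
  simp only [mo, mul_one, pow_succ, and_self]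

theorem DD_B (z e : Fin 11 → ℂ) (h0 : mo z e 0 = 0) (h1 : mo z e 1 = 0) (h2 : mo z e 2 = 0) :
    DD (fun _ => 1) (B z e (X : Fin 11 → RR) X) = 0 ∧
      DD z (DD z (B z e (X : Fin 11 → RR) X)) = 0 := by
  have a0 := DD_Lk z e 0
  have a1 := DD_Lk z e 1
  have a2 := DD_Lk z e 2
  simp only [pow_zero, pow_one, one_smul, zero_add, h0, h1, h2, map_zero,
    show 1 + 1 = 2 from rfl] at a0 a1 a2
  have e1 : B z e (X : Fin 11 → RR) X = (L e fun i => z i ^ 2 • (X i : RR)) * L e X +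
      (C (-2) * ((L e fun i => z i • (X i : RR)) * L e fun i => z i • X i) +
        L e X * L e fun i => z i ^ 2 • (X i : RR)) := by
    rw [B_eq, map_neg, map_ofNat]; ring
  have b0 : (L e fun i => (X i : RR)) = L e X := rfl
  rw [b0] at a0
  rw [e1]
  simp only [DD_add, DD_mul, DD_C, a0.1, a0.2, a1.1, a1.2, a2.1, a2.2, mul_zero, zero_mul,
    add_zero, zero_add, and_self]

/-! ### The weights -/

def e4 (z : Fin 11 → ℂ) (a b c d : Fin 11) : Fin 11 → ℂ :=
  Pi.single a ((z a - z b) * (z a - z c) * (z a - z d))⁻¹ +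
    Pi.single b ((z b - z a) * (z b - z c) * (z b - z d))⁻¹ +
    Pi.single c ((z c - z a) * (z c - z b) * (z c - z d))⁻¹ +
    Pi.single d ((z d - z a) * (z d - z b) * (z d - z c))⁻¹

def e3 (z : Fin 11 → ℂ) (a b c : Fin 11) : Fin 11 → ℂ :=
  Pi.single a ((z a - z b) * (z a - z c))⁻¹ + Pi.single b ((z b - z a) * (z b - z c))⁻¹ +
    Pi.single c ((z c - z a) * (z c - z b))⁻¹

section
variable {A : Type} [CommRing A] [Algebra ℂ A]

theorem L_add (e e' : Fin 11 → ℂ) (u : Fin 11 → A) : L (e + e') u = L e u + L e' u := by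
  simp only [L, Pi.add_apply, add_smul, Finset.sum_add_distrib]

theorem L_single (a : Fin 11) (r : ℂ) (u : Fin 11 → A) : L (Pi.single a r) u = r • u a := by
  simp [L, Pi.single_apply, ite_smul]

end

theorem id4 {E : Type} [Field E] {a b c d s : E} (h1 : a - b ≠ 0) (h2 : a - c ≠ 0)
    (h3 : a - d ≠ 0) (h4 : b - c ≠ 0) (h5 : b - d ≠ 0) (h6 : c - d ≠ 0) (g1 : s - a ≠ 0)
    (g2 : s - b ≠ 0) (g3 : s - c ≠ 0) (g4 : s - d ≠ 0) :
    ((a - b) * (a - c) * (a - d))⁻¹ * (s - a)⁻¹ + ((b - a) * (b - c) * (b - d))⁻¹ * (s - b)⁻¹ +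
      ((c - a) * (c - b) * (c - d))⁻¹ * (s - c)⁻¹ + ((d - a) * (d - b) * (d - c))⁻¹ * (s - d)⁻¹ =
      (s - a)⁻¹ * (s - b)⁻¹ * (s - c)⁻¹ * (s - d)⁻¹ := by
  rw [← neg_sub a b, ← neg_sub a c, ← neg_sub a d, ← neg_sub b c, ← neg_sub b d, ← neg_sub c d]
  field_simp
  ring

theorem id3 {E : Type} [Field E] {a b c s : E} (h1 : a - b ≠ 0) (h2 : a - c ≠ 0)
    (h4 : b - c ≠ 0) (g1 : s - a ≠ 0) (g2 : s - b ≠ 0) (g3 : s - c ≠ 0) :
    ((a - b) * (a - c))⁻¹ * (s - a)⁻¹ + ((b - a) * (b - c))⁻¹ * (s - b)⁻¹ +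
      ((c - a) * (c - b))⁻¹ * (s - c)⁻¹ = (s - a)⁻¹ * (s - b)⁻¹ * (s - c)⁻¹ := by
  rw [← neg_sub a b, ← neg_sub a c, ← neg_sub b c]
  field_simp
  ring

variable {z : Fin 11 → ℂ}

theorem mo4 (hz : Function.Injective z) {a b c d : Fin 11} (h : [a, b, c, d].Nodup) :
    mo z (e4 z a b c d) 0 = 0 ∧ mo z (e4 z a b c d) 1 = 0 ∧ mo z (e4 z a b c d) 2 = 0 := by
  have n : ∀ {i j : Fin 11}, i ≠ j → z i - z j ≠ 0 := fun h => sub_ne_zero.2 (hz.ne h)
  simp only [List.nodup_cons, List.mem_cons, List.not_mem_nil, or_false, not_or] at h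
  have h1 := n h.1.1
  have h2 := n h.1.2.1
  have h3 := n h.1.2.2
  have h4 := n h.2.1.1
  have h5 := n h.2.1.2
  have h6 := n h.2.2.1
  simp only [mo, e4, L_add, L_single, smul_eq_mul]
  rw [← neg_sub (z a) (z b), ← neg_sub (z a) (z c), ← neg_sub (z a) (z d), ← neg_sub (z b) (z c),
    ← neg_sub (z b) (z d), ← neg_sub (z c) (z d)]
  refine ⟨?_, ?_, ?_⟩ <;> field_simp <;> ring

theorem mo3 (hz : Function.Injective z) {a b c : Fin 11} (h : [a, b, c].Nodup) :
    mo z (e3 z a b c) 0 = 0 ∧ mo z (e3 z a b c) 1 = 0 := by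
  have n : ∀ {i j : Fin 11}, i ≠ j → z i - z j ≠ 0 := fun h => sub_ne_zero.2 (hz.ne h)
  simp only [List.nodup_cons, List.mem_cons, List.not_mem_nil, or_false, not_or] at h
  have h1 := n h.1.1
  have h2 := n h.1.2
  have h4 := n h.2.1
  simp only [mo, e3, L_add, L_single, smul_eq_mul]
  rw [← neg_sub (z a) (z b), ← neg_sub (z a) (z c), ← neg_sub (z b) (z c)]
  refine ⟨?_, ?_⟩ <;> field_simp <;> ring

/-- the simple fractions -/
def y (z : Fin 11 → ℂ) (s : K) (i : Fin 11) : K := (s - algebraMap ℂ K (z i))⁻¹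

theorem zne (hz : Function.Injective z) {i j : Fin 11} (h : i ≠ j) :
    algebraMap ℂ K (z i) - algebraMap ℂ K (z j) ≠ 0 :=
  sub_ne_zero.2 (((algebraMap ℂ K).injective.comp hz).ne h)

theorem L_y4 (hz : Function.Injective z) {a b c d : Fin 11} (h : [a, b, c, d].Nodup) {s : K}
    (hs : ∀ i, s - algebraMap ℂ K (z i) ≠ 0) :
    L (e4 z a b c d) (y z s) = y z s a * y z s b * y z s c * y z s d := by
  simp only [List.nodup_cons, List.mem_cons, List.not_mem_nil, or_false, not_or] at h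
  simp only [e4, L_add, L_single, Algebra.smul_def, map_inv₀, map_mul, map_sub, y]
  exact id4 (zne hz h.1.1) (zne hz h.1.2.1) (zne hz h.1.2.2) (zne hz h.2.1.1) (zne hz h.2.1.2)
    (zne hz h.2.2.1) (hs a) (hs b) (hs c) (hs d)

theorem L_y3 (hz : Function.Injective z) {a b c : Fin 11} (h : [a, b, c].Nodup) {s : K}
    (hs : ∀ i, s - algebraMap ℂ K (z i) ≠ 0) :
    L (e3 z a b c) (y z s) = y z s a * y z s b * y z s c := by
  simp only [List.nodup_cons, List.mem_cons, List.not_mem_nil, or_false, not_or] at h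
  simp only [e3, L_add, L_single, Algebra.smul_def, map_inv₀, map_mul, map_sub, y]
  exact id3 (zne hz h.1.1) (zne hz h.1.2) (zne hz h.2.1) (hs a) (hs b) (hs c)

theorem L_step (e : Fin 11 → ℂ) {s : K} (hs : ∀ i, s - algebraMap ℂ K (z i) ≠ 0) (k : ℕ) :
    (L e fun i => z i ^ (k + 1) • y z s i) =
      s * (L e fun i => z i ^ k • y z s i) - algebraMap ℂ K (mo z e k) := by
  simp only [L, mo, map_sum, Finset.mul_sum, ← Finset.sum_sub_distrib]
  refine Finset.sum_congr rfl fun i _ => ?_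
  have := hs i
  simp only [Algebra.smul_def, map_mul, map_pow, y, Algebra.algebraMap_self, RingHom.id_apply]
  field_simp
  ring

theorem B_y (e : Fin 11 → ℂ) (h0 : mo z e 0 = 0) (h1 : mo z e 1 = 0) {s u : K}
    (hs : ∀ i, s - algebraMap ℂ K (z i) ≠ 0) (hu : ∀ i, u - algebraMap ℂ K (z i) ≠ 0) :
    B z e (y z s) (y z u) = (s - u) ^ 2 * (L e (y z s) * L e (y z u)) := by
  have a0 := L_step e hs 0
  have a1 := L_step e hs 1
  have b0 := L_step e hu 0
  have b1 := L_step e hu 1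
  simp only [zero_add, pow_one, pow_zero, one_smul, h0, h1, map_zero, sub_zero,
    show 1 + 1 = 2 from rfl] at a0 a1 b0 b1
  rw [B_eq, a1, b1, a0, b0]
  ring

/-! ### The functional -/

def W (z : Fin 11 → ℂ) (g : Fin 5 → Fin 11) : ℂ :=
  w z (e4 z 0 1 2 3) (g 0) (g 1) * (w z (e4 z 4 5 6 7) (g 2) (g 3) * e3 z 8 9 10 (g 4))

def eq5 : (Fin 5 → Fin 11) ≃ Fin 11 × Fin 11 × Fin 11 × Fin 11 × Fin 11 where
  toFun g := (g 0, g 1, g 2, g 3, g 4)
  invFun p := ![p.1, p.2.1, p.2.2.1, p.2.2.2.1, p.2.2.2.2]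
  left_inv g := by funext a; fin_cases a <;> rfl
  right_inv _ := rfl

theorem sum_W {A : Type} [CommRing A] [Algebra ℂ A] (u : Fin 5 → Fin 11 → A) :
    ∑ g : Fin 5 → Fin 11, W z g • ∏ a, u a (g a) = B z (e4 z 0 1 2 3) (u 0) (u 1) *
      (B z (e4 z 4 5 6 7) (u 2) (u 3) * L (e3 z 8 9 10) (u 4)) := by
  rw [← eq5.symm.sum_comp]
  simp only [Fintype.sum_prod_type, B, L, Finset.sum_mul]
  simp only [Finset.mul_sum]
  refine Finset.sum_congr rfl fun i _ => Finset.sum_congr rfl fun j _ =>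
    Finset.sum_congr rfl fun k _ => Finset.sum_congr rfl fun l _ =>
    Finset.sum_congr rfl fun m _ => ?_
  have : W z (eq5.symm (i, j, k, l, m)) =
    w z (e4 z 0 1 2 3) i j * (w z (e4 z 4 5 6 7) k l * e3 z 8 9 10 m) := rfl
  rw [this, Fin.prod_univ_five]
  simp only [Algebra.smul_def, map_mul]
  change _ * (u 0 i * u 1 j * u 2 k * u 3 l * u 4 m) = _
  ring

theorem e4_supp {a b c d i : Fin 11} (h : e4 z a b c d i ≠ 0) :
    i = a ∨ i = b ∨ i = c ∨ i = d := by
  by_contra hc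
  simp only [not_or] at hc
  simp [e4, hc.1, hc.2.1, hc.2.2.1, hc.2.2.2] at h

theorem e3_supp {a b c i : Fin 11} (h : e3 z a b c i ≠ 0) : i = a ∨ i = b ∨ i = c := by
  by_contra hc
  simp only [not_or] at hc
  simp [e3, hc.1, hc.2.1, hc.2.2] at h

theorem W_inj {g : Fin 5 → Fin 11} (h : W z g ≠ 0) : Function.Injective g := by
  simp only [W, w, ne_eq, mul_eq_zero, not_or] at h
  obtain ⟨⟨⟨h1, h2⟩, h3⟩, ⟨⟨h4, h5⟩, h6⟩, h7⟩ := h
  have a1 : g 0 ≠ g 1 := fun e => h1 (by rw [e]; simp)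
  have a4 : g 2 ≠ g 3 := fun e => h4 (by rw [e]; simp)
  have b0 := e4_supp h2
  have b1 := e4_supp h3
  have b2 := e4_supp h5
  have b3 := e4_supp h6
  have b4 := e3_supp h7
  intro a b hab
  fin_cases a <;> fin_cases b <;> simp only [Fin.reduceFinMk] at hab ⊢ <;> omega

def PP (z : Fin 11 → ℂ) : RR := ∑ g : Fin 5 → Fin 11, W z g • ∏ a, X (g a)

theorem coeff_PP (m : Fin 11 →₀ ℕ) : coeff m (PP z) =
    ∑ g : Fin 5 → Fin 11, if ind (Finset.univ.image g) = m then W z g else 0 := by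
  rw [PP, coeff_sum]
  refine Finset.sum_congr rfl fun g _ => ?_
  by_cases h : W z g = 0
  · simp [h]
  · have h1 : (∏ a, X (g a) : RR) = monomial (ind (Finset.univ.image g)) 1 := by
      rw [ind, Finset.sum_image fun a _ b _ hab => W_inj h hab, monomial_sum_one]
      rfl
    rw [h1, coeff_smul, coeff_monomial]
    split_ifs <;> simp

theorem ML_PP : ML (PP z) := fun m i hi => by
  rw [coeff_PP]
  refine Finset.sum_eq_zero fun g _ => if_neg fun h => ?_
  rw [← h, ind_apply] at hi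
  split_ifs at hi <;> omega

theorem ev_PP (I : Finset (Fin 11)) : ev (PP z) I =
    ∑ g : Fin 5 → Fin 11, if Finset.univ.image g = I then W z g else 0 := by
  rw [ev, coeff_PP]
  exact Finset.sum_congr rfl fun g _ => if_congr ⟨ind_inj, congrArg ind⟩ rfl rfl

theorem block_PP (hz : Function.Injective z) : Block z 3 (ev (PP z)) := by
  obtain ⟨a0, a1, a2⟩ := mo4 hz (a := 0) (b := 1) (c := 2) (d := 3) (by decide)
  obtain ⟨b0, b1, b2⟩ := mo4 hz (a := 4) (b := 5) (c := 6) (d := 7) (by decide)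
  obtain ⟨c0, c1⟩ := mo3 hz (a := 8) (b := 9) (c := 10) (by decide)
  obtain ⟨p1, p2⟩ := DD_B z _ a0 a1 a2
  obtain ⟨q1, q2⟩ := DD_B z _ b0 b1 b2
  obtain ⟨r1, r2⟩ := DD_Lk z (e3 z 8 9 10) 0
  simp only [pow_zero, one_smul, zero_add, c0, c1, map_zero] at r1 r2
  have e1 : PP z = B z (e4 z 0 1 2 3) X X * (B z (e4 z 4 5 6 7) X X *
    L (e3 z 8 9 10) fun i => X i) := sum_W fun _ => X
  have z0 : ev 0 = 0 := rfl
  refine ⟨⟨fun I hI => ?_, ?_⟩, ?_⟩
  · rw [ev_PP]
    refine Finset.sum_eq_zero fun g _ => ?_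
    split_ifs with h
    · by_contra hW
      rw [← h, Finset.card_image_of_injective _ (W_inj hW)] at hI
      exact hI rfl
    · rfl
  · rw [lower_ev ML_PP, e1]
    simp only [DD_mul, p1, q1, r1, zero_mul, mul_zero, add_zero, z0]
  · change lower z (lower z (lower z (ev (PP z)))) = 0
    rw [lower_ev ML_PP, lower_ev (ML_PP.DD z), lower_ev ((ML_PP.DD z).DD z), e1]
    simp only [DD_mul, DD_add, p2, q2, r2, zero_mul, mul_zero, add_zero, zero_add, z0]

theorem sum_perm {g : Fin 5 → Fin 11} (hg : Function.Injective g) (Y : (Fin 5 → Fin 11) → K) :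
    (∑ f : Fin 5 → Fin 11, if Finset.univ.image g = Finset.univ.image f then Y f else 0) =
      ∑ π : Equiv.Perm (Fin 5), Y (g ∘ π.symm) := by
  rw [← Finset.sum_filter]
  symm
  refine Finset.sum_bij (fun π _ => g ∘ π.symm) (fun π _ => ?_) (fun π _ ρ _ h => ?_)
    (fun f hf => ?_) fun _ _ => rfl
  · rw [Finset.mem_filter, ← Finset.image_image, Finset.image_univ_equiv]
    exact ⟨Finset.mem_univ _, rfl⟩
  · exact Equiv.symm_bijective.1 (Equiv.ext fun a => hg (congrFun h a))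
  · have h := (Finset.mem_filter.1 hf).2
    have h1 : ∀ a, ∃ b, g b = f a := fun a => by
      have : f a ∈ Finset.univ.image g := h ▸ Finset.mem_image_of_mem f (Finset.mem_univ a)
      simpa using this
    choose σ hσ using h1
    have h2 : Function.Surjective σ := fun b => by
      have : g b ∈ Finset.univ.image f := h ▸ Finset.mem_image_of_mem g (Finset.mem_univ b)
      obtain ⟨a, -, ha⟩ := Finset.mem_image.1 this
      exact ⟨a, hg ((hσ a).trans ha)⟩
    exact ⟨(Equiv.ofBijective σ (Finite.surjective_iff_bijective.1 h2)).symm, Finset.mem_univ _,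
      funext hσ⟩

theorem sv_eq (ψ : Dual) : svForm z ψ Finset.univ = ∑ f : Fin 5 → Fin 11,
    ψ (Finset.univ.image f) • ∏ a, y z (t a) (f a) := by
  simp only [svForm, mono, if_true, Algebra.smul_def, y]

theorem tz_ne (hA : SAt z) (a : Fin 5) (i : Fin 11) : t a - algebraMap ℂ K (z i) ≠ 0 :=
  hA.av_ne (tz a i) Sum.inl_ne_inr

theorem sv_PP (hz : Function.Injective z) (hA : SAt z) :
    svForm z (ev (PP z)) Finset.univ = c0 z := by
  obtain ⟨a0, a1, -⟩ := mo4 hz (a := 0) (b := 1) (c := 2) (d := 3) (by decide)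
  obtain ⟨b0, b1, -⟩ := mo4 hz (a := 4) (b := 5) (c := 6) (d := 7) (by decide)
  have h1 : svForm z (ev (PP z)) Finset.univ = ∑ g : Fin 5 → Fin 11,
      ∑ π : Equiv.Perm (Fin 5), W z g • ∏ a, y z (t (π a)) (g a) := by
    simp only [sv_eq, ev_PP, Finset.sum_smul, ite_smul, zero_smul]
    rw [Finset.sum_comm]
    refine Finset.sum_congr rfl fun g _ => ?_
    by_cases h : W z g = 0
    · simp [h]
    · rw [sum_perm (W_inj h) fun f => W z g • ∏ a, y z (t a) (f a)]
      refine Finset.sum_congr rfl fun π _ => ?_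
      rw [← Equiv.prod_comp π]
      simp
  rw [h1, Finset.sum_comm, c0]
  refine Finset.sum_congr rfl fun π _ => ?_
  rw [sum_W fun a => y z (t (π a)), B_y _ a0 a1 (tz_ne hA _) (tz_ne hA _),
    B_y _ b0 b1 (tz_ne hA _) (tz_ne hA _)]
  simp only [L_y4 hz (a := 0) (b := 1) (c := 2) (d := 3) (by decide) (tz_ne hA _),
    L_y4 hz (a := 4) (b := 5) (c := 6) (d := 7) (by decide) (tz_ne hA _),
    L_y3 hz (a := 8) (b := 9) (c := 10) (by decide) (tz_ne hA _)]
  simp only [al, omL, List.map_cons, List.map_nil, List.prod_cons, List.prod_nil, av, pt, tt, tz,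
    zpow_neg_one, zpow_two, y]
  ring

/-! ### Level one -/

theorem V_y (hA : SAt z) (a : Fin 5) (i : Fin 11) :
    V z dE (if a = 4 then 1 else 0) (y z (t a) i) := by
  have n : (tz a i).1 ≠ (tz a i).2 := Sum.inl_ne_inr
  have h := ((hA.V_av dE _ n).inv (by
    rw [hA.co_av dE _ n]; exact hA.av_ne _ (hA.inA_ne dE _ n))).1
  have e : ∀ a i, -vA dE.1 (tz a i) = if a = 4 then 1 else 0 := by decide
  rwa [e] at h

theorem sum_ins {ψ : Dual} (h : ∀ I, I.card ≠ 5 → ψ I = 0) (c : Fin 11 → ℂ)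
    {J : Finset (Fin 11)} (hJ : J.card ≤ 4) : ∑ i, c i * ψ (insert i J) = lower c ψ J := by
  rw [lower, ← Finset.sum_add_sum_compl J, Finset.sum_eq_zero (s := J), zero_add]
  intro i hi
  rw [Finset.insert_eq_of_mem hi, h J (by omega), mul_zero]

theorem V_inner (hA : SAt z) {ψ : Dual} (h : Block z 1 ψ) {J : Finset (Fin 11)}
    (hJ : J.card ≤ 4) : V z dE 3 (∑ i, ψ (insert i J) • y z (t 4) i) := by
  have h0 : ∑ i, ψ (insert i J) = 0 := by
    have := sum_ins h.1.1 (fun _ => 1) hJ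
    rw [h.1.2] at this
    simpa using this
  have h1 : ∑ i, z i * ψ (insert i J) = 0 := by
    have := sum_ins h.1.1 z hJ
    have h2 : lower z ψ = 0 := h.2
    rwa [h2] at this
  have h2 : ∑ i, ψ (insert i J) • y z (t 4) i =
      ∑ i, (ψ (insert i J) * (z i - z 0) ^ 2) • (y z (t 4) 0 * y z (t 4) 0 * y z (t 4) i) +
      ((∑ i, ψ (insert i J)) • (y z (t 4) 0 - z 0 • (y z (t 4) 0 * y z (t 4) 0)) +
        (∑ i, z i * ψ (insert i J)) • (y z (t 4) 0 * y z (t 4) 0)) := by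
    simp only [Finset.sum_smul, ← Finset.sum_add_distrib]
    refine Finset.sum_congr rfl fun i _ => ?_
    have n0 := tz_ne hA 4 0
    have n1 := tz_ne hA 4 i
    simp only [Algebra.smul_def, map_mul, map_pow, map_sub, y]
    field_simp
    ring
  rw [h2, h0, h1, zero_smul, zero_smul, add_zero, add_zero]
  exact V_sum _ _ fun i _ => (((V_y hA 4 0).mul (V_y hA 4 0)).mul (V_y hA 4 i)).csmul _

theorem blk1 (hA : SAt z) {ψ : Dual} (h : Block z 1 ψ) :
    V z dE 3 (svForm z ψ Finset.univ) := by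
  rw [sv_eq, ← eq5.symm.sum_comp]
  simp only [Fintype.sum_prod_type]
  refine V_sum _ _ fun i _ => V_sum _ _ fun j _ => V_sum _ _ fun k _ => V_sum _ _ fun l _ => ?_
  have h1 : ∀ m, ψ (Finset.univ.image (eq5.symm (i, j, k, l, m))) •
      ∏ a, y z (t a) (eq5.symm (i, j, k, l, m) a) =
      (y z (t 0) i * y z (t 1) j * y z (t 2) k * y z (t 3) l) *
        (ψ (insert m {i, j, k, l}) • y z (t 4) m) := fun m => by
    have e : Finset.univ.image (eq5.symm (i, j, k, l, m)) = insert m {i, j, k, l} := by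
      ext x
      simp only [Finset.mem_image, Finset.mem_univ, true_and, Fin.exists_fin_succ,
        Finset.mem_insert, Finset.mem_singleton]
      change (i = x ∨ j = x ∨ k = x ∨ l = x ∨ m = x ∨ _) ↔ _
      simp only [IsEmpty.exists_iff, or_false]
      tauto
    rw [e, Fin.prod_univ_five, mul_smul_comm]
    rfl
  simp only [h1, ← Finset.mul_sum]
  exact ((((V_y hA 0 i).mul (V_y hA 1 j)).mul (V_y hA 2 k)).mul (V_y hA 3 l)).mul
    (V_inner hA h Finset.card_le_four)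

theorem sv_OU (ψ : Dual) : svForm z ψ Finset.univ ∈ OU z := by
  rw [sv_eq]
  refine Subalgebra.sum_mem _ fun f _ => Subalgebra.smul_mem _
    (Subalgebra.prod_mem _ fun a _ => ?_) _
  exact Algebra.subset_adjoin (Or.inr ⟨Sum.inl (a, f a), rfl⟩)

end BlkAux

theorem sBlk (z : Fin 11 → ℂ) (hz : Function.Injective z) (hA : SAt z) : SBlk z :=
  ⟨⟨_, BlkAux.block_PP hz, BlkAux.sv_PP hz hA⟩, fun _ h => BlkAux.blk1 hA h, BlkAux.sv_OU⟩

end Pool.Agent.MP_cb8d3a_ag.H90
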