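import Pool.Agent.MP_cb8d3a_ag.H90.Spec

/-! Top forms are logarithmic modulo exact forms. -/

set_option linter.unusedVariables false

noncomputable section

open scoped BigOperators

namespace Pool.Agent.MP_cb8d3a_ag.H90

namespace BriAux

variable (z : Fin 11 → ℂ)

/-- The point only involves the first `n` variables. -/
def low (n : ℕ) : Pt → Prop
  | Sum.inl a => a.val < n
  | Sum.inr _ => True

theorem low_mono {n m : ℕ} (h : n ≤ m) {p : Pt} (hp : low n p) : low m p := by
  rcases p with a | i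
  · exact lt_of_lt_of_le hp h
  · trivial

theorem low_succ {a : Fin 5} {p : Pt} (hp : low (a + 1) p) : p = Sum.inl a ∨ low a p := by
  rcases p with b | i
  · rcases Nat.lt_succ_iff_lt_or_eq.1 hp with h | h
    · exact Or.inr h
    · exact Or.inl (congrArg _ (Fin.ext h))
  · exact Or.inr trivial

/-- Regular functions of the first `n` variables. -/
def O (n : ℕ) : Subalgebra ℂ K :=
  Algebra.adjoin ℂ ({x | ∃ p, low n p ∧ x = pt z p} ∪
    {x | ∃ p q, low n p ∧ low n q ∧ x = (pt z p - pt z q)⁻¹})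

variable {z}

theorem pt_mem {n : ℕ} {p : Pt} (hp : low n p) : pt z p ∈ O z n :=
  Algebra.subset_adjoin (Or.inl ⟨p, hp, rfl⟩)

theorem inv_mem {n : ℕ} {p q : Pt} (hp : low n p) (hq : low n q) :
    (pt z p - pt z q)⁻¹ ∈ O z n :=
  Algebra.subset_adjoin (Or.inr ⟨p, q, hp, hq, rfl⟩)

theorem O_mono {n m : ℕ} (h : n ≤ m) : O z n ≤ O z m := by
  apply Algebra.adjoin_le
  rintro x (⟨p, hp, rfl⟩ | ⟨p, q, hp, hq, rfl⟩)
  · exact pt_mem (low_mono h hp)
  · exact inv_mem (low_mono h hp) (low_mono h hq)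

theorem t_mem (a : Fin 5) : t a ∈ O z (a + 1) :=
  pt_mem (p := Sum.inl a) (Nat.lt_succ_self _)

theorem u_mem {a : Fin 5} {r : Pt} (hr : low a r) : (t a - pt z r)⁻¹ ∈ O z (a + 1) :=
  inv_mem (p := Sum.inl a) (Nat.lt_succ_self _) (low_mono (Nat.le_succ _) hr)

theorem pd_sub (a : Fin 5) (x y : K) : pd a (x - y) = pd a x - pd a y := (pdD a).map_sub x y

theorem pd_inv (a : Fin 5) (x : K) : pd a x⁻¹ = -x⁻¹ ^ 2 * pd a x := (pdD a).leibniz_inv x

theorem pd_pow (a : Fin 5) (x : K) (k : ℕ) : pd a (x ^ (k + 1)) = (k + 1) * x ^ k * pd a x := by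
  have := (pdD a).leibniz_pow x (k + 1)
  rw [pdD_apply, pdD_apply] at this
  rw [this]
  simp [mul_assoc]

theorem pd_pt {n : ℕ} {a : Fin 5} (ha : n ≤ a) {p : Pt} (hp : low n p) : pd a (pt z p) = 0 := by
  rcases p with b | i
  · have : b ≠ a := by
      rintro rfl
      exact absurd hp (not_lt.2 ha)
    simp [pt, pd_t, this]
  · exact pd_algebraMap a _

theorem pd_O {n : ℕ} {a : Fin 5} (ha : n ≤ a) {b : K} (hb : b ∈ O z n) : pd a b = 0 := by
  induction hb using Algebra.adjoin_induction with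
  | mem x hx =>
    rcases hx with ⟨p, hp, rfl⟩ | ⟨p, q, hp, hq, rfl⟩
    · exact pd_pt ha hp
    · rw [pd_inv, pd_sub, pd_pt ha hp, pd_pt ha hq, sub_self, mul_zero]
  | algebraMap r => exact pd_algebraMap a r
  | add x y _ _ hx hy => rw [pd_add, hx, hy, add_zero]
  | mul x y _ _ hx hy => rw [pd_mul, hx, hy, zero_mul, mul_zero, add_zero]

theorem pd_tr {a : Fin 5} {r : Pt} (hr : low a r) : pd a (t a - pt z r) = 1 := by
  rw [pd_sub, pd_pt le_rfl hr, pd_t, if_pos rfl, sub_zero]

theorem tr_ne {a : Fin 5} {r : Pt} (hr : low a r) : t a - pt z r ≠ 0 := by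
  intro h
  have := pd_tr (z := z) hr
  rw [h, pd_zero] at this
  exact zero_ne_one this

variable (z)

/-- The span given by the decomposition into simple fractions. -/
def M (a : Fin 5) : Submodule ℂ K :=
  Submodule.span ℂ ({x | ∃ b ∈ O z a, ∃ k : ℕ, x = b * t a ^ k} ∪
    {x | ∃ b ∈ O z a, ∃ r, low a r ∧ ∃ k : ℕ, x = b * (t a - pt z r)⁻¹ ^ k})

variable {z}

theorem M1 {a : Fin 5} {b : K} (hb : b ∈ O z a) (k : ℕ) : b * t a ^ k ∈ M z a :=
  Submodule.subset_span (Or.inl ⟨b, hb, k, rfl⟩)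

theorem M2 {a : Fin 5} {b : K} (hb : b ∈ O z a) {r : Pt} (hr : low a r) (k : ℕ) :
    b * (t a - pt z r)⁻¹ ^ k ∈ M z a :=
  Submodule.subset_span (Or.inr ⟨b, hb, r, hr, k, rfl⟩)

theorem M_mul {a : Fin 5} {c : K} (h1 : ∀ b ∈ O z a, ∀ k : ℕ, c * (b * t a ^ k) ∈ M z a)
    (h2 : ∀ b ∈ O z a, ∀ r, low a r → ∀ k : ℕ, c * (b * (t a - pt z r)⁻¹ ^ k) ∈ M z a) :
    ∀ x ∈ M z a, c * x ∈ M z a := by
  intro x hx
  refine (Submodule.span_le (p := (M z a).comap (LinearMap.mulLeft ℂ c))).2 ?_ hx
  rintro x (⟨b, hb, k, rfl⟩ | ⟨b, hb, r, hr, k, rfl⟩)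
  · exact h1 b hb k
  · exact h2 b hb r hr k

theorem M_O {a : Fin 5} {c : K} (hc : c ∈ O z a) : ∀ x ∈ M z a, c * x ∈ M z a := by
  refine M_mul (fun b hb k => ?_) fun b hb r hr k => ?_
  · rw [← mul_assoc]
    exact M1 (mul_mem hc hb) k
  · rw [← mul_assoc]
    exact M2 (mul_mem hc hb) hr k

theorem M_t {a : Fin 5} : ∀ x ∈ M z a, t a * x ∈ M z a := by
  refine M_mul (fun b hb k => ?_) fun b hb r hr k => ?_
  · have := M1 hb (k + 1)
    rwa [pow_succ, ← mul_assoc, mul_comm] at this
  · rcases k with _ | k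
    · have := M1 hb 1
      rwa [pow_zero, mul_one, mul_comm, ← pow_one (t a)]
    · have := add_mem (M2 hb hr k) (M2 (mul_mem hb (pt_mem hr)) hr (k + 1))
      have h := mul_inv_cancel₀ (tr_ne (z := z) hr)
      convert this using 1
      linear_combination (b * (t a - pt z r)⁻¹ ^ k) * h

theorem M_u {a : Fin 5} {s : Pt} (hs : low a s) :
    ∀ x ∈ M z a, (t a - pt z s)⁻¹ * x ∈ M z a := by
  refine M_mul (fun b hb k => ?_) fun b hb r hr k => ?_
  · induction k with
    | zero =>
      have := M2 hb hs 1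
      rwa [pow_zero, mul_one, mul_comm, ← pow_one (t a - pt z s)⁻¹]
    | succ k ih =>
      convert M_t _ ih using 1
      ring
  · by_cases e : pt z r = pt z s
    · convert M2 hb hr (k + 1) using 1
      rw [e]
      ring
    · induction k generalizing b with
      | zero =>
        have := M2 hb hs 1
        rwa [pow_zero, mul_one, mul_comm, ← pow_one (t a - pt z s)⁻¹]
      | succ k ih =>
        have hd := mul_mem hb (inv_mem (z := z) hr hs)
        have h1 := tr_ne (z := z) hr
        have h2 := tr_ne (z := z) hs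
        have h3 := sub_ne_zero.2 e
        convert sub_mem (M2 hd hr (k + 1)) (ih _ hd) using 1
        rw [pow_succ]
        generalize (t a - pt z r)⁻¹ ^ k = w
        field_simp
        ring

theorem O_M {a : Fin 5} {c : K} (hc : c ∈ O z (a + 1)) : c ∈ M z a := by
  have h : ∀ x ∈ M z a, c * x ∈ M z a := by
    induction hc using Algebra.adjoin_induction with
    | mem x hx =>
      rcases hx with ⟨p, hp, rfl⟩ | ⟨p, q, hp, hq, rfl⟩
      · rcases low_succ hp with rfl | h
        · exact M_t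
        · exact M_O (pt_mem h)
      · rcases low_succ hp with rfl | h <;> rcases low_succ hq with rfl | h'
        · intro x hx
          simp
        · exact M_u h'
        · intro x hx
          have := neg_mem (M_u h x hx)
          rwa [← neg_mul, ← inv_neg, neg_sub] at this
        · exact M_O (inv_mem h h')
    | algebraMap r => exact M_O (Subalgebra.algebraMap_mem _ r)
    | add x y _ _ hx hy =>
      intro w hw
      rw [add_mul]
      exact add_mem (hx w hw) (hy w hw)
    | mul x y _ _ hx hy =>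
      intro w hw
      rw [mul_assoc]
      exact hx _ (hy w hw)
  simpa using h _ (M1 (one_mem _) 0)

variable (z)

/-- Products of simple poles and derivatives. -/
def S (n : ℕ) : Submodule ℂ K :=
  Submodule.span ℂ ({x | ∃ r : Fin 5 → Pt, (∀ a : Fin 5, low a (r a)) ∧
      x = ∏ a : Fin 5 with a.val < n, (t a - pt z (r a))⁻¹} ∪
    {x | ∃ a : Fin 5, a.val < n ∧ ∃ g ∈ O z n, x = pd a g})

variable {z}

theorem S2 {n : ℕ} {a : Fin 5} (ha : a.val < n) {g : K} (hg : g ∈ O z n) : pd a g ∈ S z n :=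
  Submodule.subset_span (Or.inr ⟨a, ha, g, hg, rfl⟩)

theorem S_div {n : ℕ} {x : K} (k : ℕ) (h : ((k : K) + 1) * x ∈ S z n) : x ∈ S z n := by
  have h1 := (S z n).smul_mem ((k : ℂ) + 1)⁻¹ h
  have h2 : ((k : K) + 1) ≠ 0 := by exact_mod_cast Nat.succ_ne_zero k
  rwa [Algebra.smul_def, map_inv₀, map_add, map_natCast, map_one, inv_mul_cancel_left₀ h2] at h1

theorem S_high {a : Fin 5} {b : K} (hb : b ∈ O z a) {r : Pt} (hr : low a r) (k : ℕ) :
    b * (t a - pt z r)⁻¹ ^ (k + 2) ∈ S z (a + 1) := by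
  apply S_div k
  have := neg_mem (S2 (Nat.lt_succ_self a.val)
    (mul_mem (O_mono (Nat.le_succ _) hb) (pow_mem (u_mem hr) (k + 1))))
  rw [pd_mul, pd_O le_rfl hb, pd_pow, pd_inv, pd_tr hr] at this
  convert this using 1
  ring

theorem S_poly {a : Fin 5} {b : K} (hb : b ∈ O z a) (k : ℕ) : b * t a ^ k ∈ S z (a + 1) := by
  apply S_div k
  have := S2 (Nat.lt_succ_self a.val)
    (mul_mem (O_mono (Nat.le_succ _) hb) (pow_mem (t_mem a) (k + 1)))
  rw [pd_mul, pd_O le_rfl hb, pd_pow, pd_t, if_pos rfl] at this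
  convert this using 1
  ring

theorem S_simple {a : Fin 5} {s : Pt} (hs : low a s) {b : K} (hb : b ∈ S z a) :
    (t a - pt z s)⁻¹ * b ∈ S z (a + 1) := by
  refine (Submodule.span_le (p := (S z (a + 1)).comap
    (LinearMap.mulLeft ℂ (t a - pt z s)⁻¹))).2 ?_ hb
  rintro x (⟨r, hr, rfl⟩ | ⟨e, he, g, hg, rfl⟩)
  · refine Submodule.subset_span (Or.inl ⟨Function.update r a s, fun e => ?_, ?_⟩)
    · by_cases h : e = a
      · subst h
        rwa [Function.update_self]
      · rw [Function.update_of_ne h]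
        exact hr e
    · have e1 : (Finset.univ.filter fun e : Fin 5 => e.val < a + 1) =
          insert a (Finset.univ.filter fun e : Fin 5 => e.val < a) := by
        ext e
        simp only [Finset.mem_filter, Finset.mem_univ, true_and, Finset.mem_insert, Fin.ext_iff]
        omega
      rw [e1, Finset.prod_insert (by simp), Function.update_self, LinearMap.mulLeft_apply]
      congr 1
      refine Finset.prod_congr rfl fun e he => ?_
      rw [Function.update_of_ne]
      rintro rfl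
      simp at he
  · have h1 := S2 (Nat.lt_succ_of_lt he) (mul_mem (O_mono (Nat.le_succ _) hg) (u_mem hs))
    have h2 := S_high hg hs 0
    have h3 : e ≠ a := by
      rintro rfl
      exact lt_irrefl _ he
    rw [pd_mul, pd_inv, pd_sub, pd_t, if_neg h3.symm] at h1
    change (t a - pt z s)⁻¹ * pd e g ∈ S z (a + 1)
    have h4 : pd e (pt z s) = 0 ∨ pd e (pt z s) = 1 := by
      rcases s with b | i
      · simp only [pt, pd_t]
        split_ifs <;> simp
      · exact Or.inl (pd_algebraMap _ _)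
    rcases h4 with h4 | h4 <;> rw [h4] at h1
    · convert h1 using 1
      ring
    · convert sub_mem h1 h2 using 1
      ring

theorem O_S (n : ℕ) (hn : n ≤ 5) : ∀ c ∈ O z n, c ∈ S z n := by
  induction n with
  | zero =>
    intro c hc
    have h : O z 0 ≤ ⊥ := by
      have h0 : ∀ p, low 0 p → pt z p ∈ (⊥ : Subalgebra ℂ K) := by
        rintro (a | i) hp
        · exact absurd hp (Nat.not_lt_zero _)
        · exact Subalgebra.algebraMap_mem _ _
      apply Algebra.adjoin_le
      rintro x (⟨p, hp, rfl⟩ | ⟨p, q, hp, hq, rfl⟩)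
      · exact h0 p hp
      · obtain ⟨r, hr⟩ := Algebra.mem_bot.1 (sub_mem (h0 p hp) (h0 q hq))
        rw [← hr, ← map_inv₀]
        exact Subalgebra.algebraMap_mem _ _
    obtain ⟨r, rfl⟩ := Algebra.mem_bot.1 (h hc)
    rw [Algebra.algebraMap_eq_smul_one]
    refine Submodule.smul_mem _ _ (Submodule.subset_span (Or.inl
      ⟨fun _ => Sum.inr 0, fun _ => trivial, ?_⟩))
    simp
  | succ n ih =>
    intro c hc
    obtain ⟨a, rfl⟩ : ∃ a : Fin 5, n = a.val := ⟨⟨n, hn⟩, rfl⟩
    refine (Submodule.span_le (p := S z (a + 1))).2 ?_ (O_M hc)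
    rintro x (⟨b, hb, k, rfl⟩ | ⟨b, hb, r, hr, k, rfl⟩)
    · exact S_poly hb k
    · rcases k with _ | _ | k
      · simpa using S_poly hb 0
      · have := S_simple hr (ih a.2.le b hb)
        rwa [mul_comm, ← pow_one (t a - pt z r)⁻¹] at this
      · exact S_high hb hr k

theorem exists_hyp {a : Fin 5} {r : Pt} (hr : low a r) :
    ∃ h : Hyp, dlog (hyp z h) = dlog (t a - pt z r) := by
  rcases r with b | i
  · refine ⟨Sum.inr ⟨(b, a), hr⟩, ?_⟩
    funext e
    change pd e (t b - t a) / (t b - t a) = pd e (t a - t b) / (t a - t b)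
    rw [pd_sub, pd_sub, ← neg_sub (t a), ← neg_sub (pd e (t a)), neg_div_neg_eq]
  · exact ⟨Sum.inl (a, i), rfl⟩

theorem ok_one : ∀ p q : Pt, p ≠ q → okL [((p, q), -1)] = true := by decide +kernel

end BriAux

open BriAux in
theorem sBri (z : Fin 11 → ℂ) (hz : Function.Injective z) (hA : SAt z) (hK : SK1 z)
    (h1 : SCar1) : SBri z := by
  intro c hc
  have l5 : ∀ p, low 5 p := by
    rintro (a | i)
    · exact a.2
    · trivial
  have e1 : OU z ≤ O z 5 := by
    apply Algebra.adjoin_le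
    rintro x (⟨a, rfl⟩ | ⟨h, rfl⟩)
    · exact pt_mem (l5 (Sum.inl a))
    · simp only [hyp_eq]
      exact inv_mem (l5 _) (l5 _)
  have e2 : O z 5 ≤ OU z := by
    apply Algebra.adjoin_le
    rintro x (⟨p, -, rfl⟩ | ⟨p, q, -, -, rfl⟩)
    · rcases p with a | i
      · exact hK.t_OU a
      · exact Subalgebra.algebraMap_mem _ _
    · by_cases h : p = q
      · subst h
        simp
      · have := hA.al_OU [((p, q), -1)] (ok_one p q h)
        simpa [al, av] using this
  refine Submodule.span_mono ?_ (O_S 5 le_rfl c (e1 hc))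
  rintro x (⟨r, hr, rfl⟩ | ⟨a, -, g, hg, rfl⟩)
  · choose hs hhs using fun a => exists_hyp (z := z) (hr a)
    refine Or.inl ⟨hs, ?_⟩
    have h2 := h1.wedges_det fun a => dlog (hyp z (hs a))
    have h3 : logForm z (List.ofFn hs) =
        (List.ofFn fun a => dlog (hyp z (hs a))).foldr wedge (mono ∅ 1) := by
      rw [logForm, ← List.foldr_map (f := fun h => dlog (hyp z h)) (g := wedge), List.map_ofFn]
      rfl
    rw [h3, h2, mono, if_pos rfl, Matrix.det_of_lowerTriangular,
      Finset.filter_true_of_mem fun a _ => a.2]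
    · refine Finset.prod_congr rfl fun a _ => ?_
      rw [Matrix.of_apply, hhs, dlog, pd_tr (hr a), one_div]
    · intro i j hij
      have hij : i < j := hij
      rw [Matrix.of_apply, hhs, dlog, pd_sub, pd_t, if_neg hij.ne, pd_pt hij.le (hr i), sub_self,
        zero_div]
  · exact Or.inr ⟨a, g, e2 hg, rfl⟩

end Pool.Agent.MP_cb8d3a_ag.H90
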