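import Pool.Agent.MP_cb8d3a_ag.H90.Spec

/-! The algebra of contractions and wedges. -/

noncomputable section

namespace Pool.Agent.MP_cb8d3a_ag.H90

namespace Car1Aux

open Finset

variable {a b : Fin 5} {I : Finset (Fin 5)}

lemma sgn_insert (h : b ∉ I) : sgn a (insert b I) = (if b < a then -1 else 1) * sgn a I := by
  rw [sgn, sgn, filter_insert]
  split_ifs
  · rw [card_insert_of_notMem fun h' => h (mem_filter.1 h').1, pow_succ']
  · rw [one_mul]

lemma sgn_sq : sgn a I * sgn a I = 1 := by rw [sgn, ← mul_pow]; simp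

lemma sgn_sgn (c : K) : sgn a I * (sgn a I * c) = c := by rw [← mul_assoc, sgn_sq, one_mul]

lemma tri (a b : Fin 5) : a = b ∨ (a < b ∧ ¬ b < a ∧ a ≠ b ∧ b ≠ a) ∨
    (b < a ∧ ¬ a < b ∧ a ≠ b ∧ b ≠ a) := by omega

lemma sgn_empty : sgn a ∅ = 1 := by simp [sgn]

lemma sgn_univ : sgn a univ = (-1) ^ (a : ℕ) := by rw [sgn, filter_gt_eq_Iio, Fin.card_Iio]

lemma sgn_erase (h : b ∈ I) : sgn a (I.erase b) = (if b < a then -1 else 1) * sgn a I := by
  conv_rhs => rw [← insert_erase h, sgn_insert (notMem_erase b I)]
  split_ifs <;> simp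

/-- Contraction with a coordinate field. -/
def ia (a : Fin 5) : Module.End K Form where
  toFun ω J := if a ∈ J then 0 else sgn a J * ω (insert a J)
  map_add' x y := by ext J; simp only [Pi.add_apply]; split_ifs <;> ring
  map_smul' r x := by
    ext J; simp only [Pi.smul_apply, smul_eq_mul, RingHom.id_apply]; split_ifs <;> ring

/-- Wedge with a coordinate form. -/
def ea (a : Fin 5) : Module.End K Form where
  toFun ω J := if a ∈ J then sgn a J * ω (J.erase a) else 0
  map_add' x y := by ext J; simp only [Pi.add_apply]; split_ifs <;> ring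
  map_smul' r x := by
    ext J; simp only [Pi.smul_apply, smul_eq_mul, RingHom.id_apply]; split_ifs <;> ring

lemma ia_apply (ω : Form) : ia a ω I = if a ∈ I then 0 else sgn a I * ω (insert a I) := rfl

lemma ea_apply (ω : Form) : ea a ω I = if a ∈ I then sgn a I * ω (I.erase a) else 0 := rfl

lemma ia_ia (a b : Fin 5) : ia a * ia b + ia b * ia a = 0 := LinearMap.ext fun ω => funext fun I => by
  simp only [LinearMap.add_apply, Module.End.mul_apply, Pi.add_apply, ia_apply, mem_insert,
    LinearMap.zero_apply, Pi.zero_apply]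
  have := insert_comm a b I
  by_cases ha : a ∈ I <;> by_cases hb : b ∈ I <;> obtain h | h | h := tri a b <;>
    simp [*, sgn_insert, mul_left_comm]

lemma ea_ea (a b : Fin 5) : ea a * ea b + ea b * ea a = 0 := LinearMap.ext fun ω => funext fun I => by
  simp only [LinearMap.add_apply, Module.End.mul_apply, Pi.add_apply, ea_apply, mem_erase,
    LinearMap.zero_apply, Pi.zero_apply]
  have : (I.erase a).erase b = (I.erase b).erase a := erase_right_comm
  by_cases ha : a ∈ I <;> by_cases hb : b ∈ I <;> obtain h | h | h := tri a b <;>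
    simp [*, sgn_erase, mul_left_comm]

lemma ia_ea (a b : Fin 5) : ia a * ea b + ea b * ia a = if a = b then 1 else 0 :=
  LinearMap.ext fun ω => funext fun I => by
  simp only [LinearMap.add_apply, Module.End.mul_apply, Pi.add_apply, ea_apply, ia_apply, mem_erase,
    mem_insert]
  by_cases ha : a ∈ I <;> by_cases hb : b ∈ I <;> obtain rfl | h | h := tri a b <;>
    simp [*, sgn_erase, sgn_insert, sgn_sgn, erase_insert_of_ne, mul_left_comm]

/-- The linear combination of the operators `u`. -/
def lc (u : Fin 5 → Module.End K Form) : (Fin 5 → K) →ₗ[K] Module.End K Form :=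
  Fintype.linearCombination K u

lemma lc_apply (u : Fin 5 → Module.End K Form) (X : Fin 5 → K) : lc u X = ∑ a, X a • u a :=
  Fintype.linearCombination_apply ..

lemma iota_eq (X : VF) (ω : Form) : iota X ω = lc ia X ω := funext fun I => by
  simp only [lc_apply, LinearMap.sum_apply, LinearMap.smul_apply, Finset.sum_apply, Pi.smul_apply,
    ia_apply, smul_eq_mul, mul_ite, mul_zero]
  rw [← sum_subset (subset_univ Iᶜ) fun a _ h => if_pos (by simpa using h)]
  exact sum_congr rfl fun a h => by rw [if_neg (mem_compl.1 h)]; ring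

lemma wedge_eq (α : Fin 5 → K) (ω : Form) : wedge α ω = lc ea α ω := funext fun I => by
  simp only [lc_apply, LinearMap.sum_apply, LinearMap.smul_apply, Finset.sum_apply, Pi.smul_apply,
    ea_apply, smul_eq_mul, mul_ite, mul_zero, sum_ite_mem, univ_inter]
  exact sum_congr rfl fun a _ => by ring

lemma lc_lc (u v : Fin 5 → Module.End K Form) (X Y : Fin 5 → K) :
    lc u X * lc v Y + lc v Y * lc u X = ∑ a, ∑ b, (X a * Y b) • (u a * v b + v b * u a) := by
  rw [lc_apply, lc_apply, sum_mul_sum, sum_mul_sum, sum_comm (s := univ) (f := fun b a =>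
    (Y b • v b) * X a • u a)]
  simp only [← sum_add_distrib, smul_mul_smul_comm, smul_add, mul_comm (Y _)]

lemma anti {u : Fin 5 → Module.End K Form} (h : ∀ a b, u a * u b + u b * u a = 0)
    (X Y : Fin 5 → K) (ω : Form) : lc u X (lc u Y ω) = -lc u Y (lc u X ω) :=
  eq_neg_of_add_eq_zero_left (by simpa [h] using LinearMap.congr_fun (lc_lc u u X Y) ω)

lemma self {u : Fin 5 → Module.End K Form} (h : ∀ a b, u a * u b + u b * u a = 0)
    (X : Fin 5 → K) (ω : Form) : lc u X (lc u X ω) = 0 := by
  have h1 : (2 : ℂ) • lc u X (lc u X ω) = 0 := by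
    rw [two_smul]; exact add_eq_zero_iff_eq_neg.2 (anti h X X ω)
  exact (smul_eq_zero.1 h1).resolve_left two_ne_zero

lemma prod_det {u : Fin 5 → Module.End K Form} (h : ∀ a b, u a * u b + u b * u a = 0)
    (X : Fin 5 → Fin 5 → K) (ω : Form) (I : Finset (Fin 5)) :
    (List.ofFn fun i => lc u (X i)).prod ω I =
      (List.ofFn u).prod ω I * (Matrix.of fun i a => X i a).det := by
  let φ := ExteriorAlgebra.lift K ⟨lc u, fun X => LinearMap.ext (self h X)⟩
  have := congrArg (fun f => f X) (AlternatingMap.eq_smul_basis_det (Pi.basisFun K (Fin 5))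
    ((LinearMap.proj I ∘ₗ LinearMap.applyₗ ω ∘ₗ φ.toLinearMap).compAlternatingMap
      (ExteriorAlgebra.ιMulti K 5)))
  simp only [LinearMap.compAlternatingMap_apply, LinearMap.comp_apply, AlgHom.toLinearMap_apply,
    ExteriorAlgebra.ιMulti_apply, map_list_prod, List.map_ofFn, Function.comp_def, φ,
    ExteriorAlgebra.lift_ι_apply, Pi.basisFun_det, Pi.basisFun_apply, lc,
    Fintype.linearCombination_apply_single, one_smul, LinearMap.proj_apply,
    LinearMap.applyₗ_apply_apply, AlternatingMap.smul_apply, smul_eq_mul] at this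
  rw [lc, this, Matrix.det]
  exact congrArg₂ (· * ·) rfl (congrArg Matrix.detRowAlternating rfl)

lemma ia_mono (c : K) : ia a (mono I c) = if a ∈ I then mono (I.erase a) (sgn a I * c) else 0 := by
  funext J
  rw [ia_apply, ite_apply, mono, mono]
  by_cases h : insert a J = I
  · subst h
    by_cases h' : a ∈ J <;> simp [h', sgn_insert, (erase_ssubset _).ne']
  · by_cases h1 : a ∈ I
    · simp [h, h1, show J ≠ I.erase a from fun e => h (by rw [e, insert_erase h1])]
    · simp [h, h1]

lemma ea_mono (c : K) : ea a (mono I c) = if a ∈ I then 0 else mono (insert a I) (sgn a I * c) := by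
  funext J
  rw [ea_apply, ite_apply, mono, mono]
  by_cases h : J.erase a = I
  · subst h
    by_cases h' : a ∈ J <;> simp [h', sgn_erase, (ssubset_insert _).ne]
  · by_cases h1 : a ∈ I
    · simp [h, h1]
    · simp [h, h1, show J ≠ insert a I from fun e => h (by rw [e, erase_insert h1])]

lemma smul_mono (f c : K) : f • mono I c = mono I (f * c) := funext fun J => by simp [mono]

lemma iotas_eq (l : List VF) (ω : Form) : iotas l ω = (l.map (lc ia)).prod ω := by
  induction l with
  | nil => rfl
  | cons X l ih => rw [iotas_cons, iota_eq, ih]; rfl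

lemma iotas_zero (l : List VF) (ω : Form) (J : Finset (Fin 5))
    (h : ∀ I : Finset (Fin 5), I.card = J.card + l.length → ω I = 0) : iotas l ω J = 0 := by
  induction l generalizing J with
  | nil => exact h J rfl
  | cons X l ih =>
    refine sum_eq_zero fun a ha => mul_eq_zero_of_right _ (ih _ fun I hI => h I ?_)
    rw [hI, card_insert_of_notMem (mem_compl.1 ha), List.length_cons, add_right_comm, add_assoc]

end Car1Aux

open Car1Aux Finset in
theorem sCar1 : SCar1 where
  iota_smul X f ω := by simp [iota_eq]
  iota_smul_left X f ω := by simp [iota_eq]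
  iota_add_left X Y ω := by simp [iota_eq]
  iota_zero_left ω := by simp [iota_eq]
  wedge_smul α f ω := by simp [wedge_eq]
  wedge_smul_left α f ω := by simp [wedge_eq]
  wedge_add_left α β ω := by simp [wedge_eq]
  iota_anti X Y ω := by simpa only [iota_eq] using anti ia_ia X Y ω
  iota_self X ω := by simpa only [iota_eq] using self ia_ia X ω
  wedge_anti α β ω := by simpa only [wedge_eq] using anti ea_ea α β ω
  wedge_self α ω := by simpa only [wedge_eq] using self ea_ea α ω
  iota_wedge X α ω := by
    refine eq_sub_of_add_eq ?_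
    simpa [iota_eq, wedge_eq, ia_ea, ev1, sum_smul, mul_comm (X _)] using
      LinearMap.congr_fun (lc_lc ia ea X α) ω
  iota_empty X ω := by simp [iota, ev1, deg1, sgn, mul_comm]
  wedge_empty α ω := sum_empty
  iota_mono X I c := by
    simp [iota_eq, lc_apply, ia_mono, smul_mono, mul_assoc, mul_left_comm (X _)]
  wedge_mono α I c := by
    simp only [wedge_eq, lc_apply, LinearMap.sum_apply, LinearMap.smul_apply, ea_mono, smul_ite,
      smul_zero, smul_mono, mul_assoc, mul_left_comm (α _)]
    rw [← sum_subset (subset_univ Iᶜ) fun a _ h => if_pos (by simpa using h)]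
    exact sum_congr rfl fun a h => if_neg (mem_compl.1 h)
  iotas_smul l f ω := by simp [iotas_eq]
  iotas_deg l I c h := iotas_zero l _ _ fun J hJ => if_neg fun e => h (by simpa [e] using hJ)
  iotas_top l ω h := by
    have := iotas_zero l (ω - ω univ • vol) ∅ fun J hJ => by
      simp [vol, mono, (card_eq_iff_eq_univ J).1 (by simpa [h] using hJ)]
    simpa [iotas_eq, sub_eq_zero] using this
  iotas_det X := by
    rw [iotas_eq, List.map_ofFn, Function.comp_def, prod_det ia_ia]
    simp +decide [vol, ia_mono, List.ofFn_succ, sgn_erase, sgn_univ]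
    simp +decide [mono]
  wedges_det α := by
    have : ∀ l : List (Fin 5 → K), l.foldr wedge (mono ∅ 1) = (l.map (lc ea)).prod (mono ∅ 1) :=
      fun l => by
        induction l with
        | nil => rfl
        | cons X l ih => rw [List.foldr_cons, wedge_eq, ih]; rfl
    funext I
    rw [this, List.map_ofFn, Function.comp_def, prod_det ea_ea]
    simp +decide [ea_mono, List.ofFn_succ, sgn_insert, sgn_empty,
      show ({0, 1, 2, 3, 4} : Finset (Fin 5)) = univ from rfl]
    simp +decide [mono, sgn, filter_singleton]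

end Pool.Agent.MP_cb8d3a_ag.H90
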