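import Pool.Agent.MP_cb8d3a_ag.H90.Spec

/-! Cartan calculus for the twisted differential. -/

noncomputable section

open scoped BigOperators

namespace Pool.Agent.MP_cb8d3a_ag.H90

namespace Car2Aux

/-- The coefficientwise derivative. -/
def D (a : Fin 5) (ω : Form) : Form := fun I => pd a (ω I)

/-- The basis one-form. -/
def e (a : Fin 5) : Fin 5 → K := Pi.single a 1

/-- The coefficientwise derivative of a field or one-form. -/
def dv (a : Fin 5) (X : Fin 5 → K) : Fin 5 → K := fun b => pd a (X b)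

theorem pd_sum {ι : Type*} (a : Fin 5) (s : Finset ι) (f : ι → K) :
    pd a (∑ i ∈ s, f i) = ∑ i ∈ s, pd a (f i) := by
  simp only [← pdD_apply, map_sum]

theorem pd_neg (a : Fin 5) (x : K) : pd a (-x) = -pd a x := by
  simp only [← pdD_apply, map_neg]

theorem pd_sgn (a b : Fin 5) (I : Finset (Fin 5)) : pd a (sgn b I) = 0 := by
  unfold sgn
  rcases neg_one_pow_eq_or K (I.filter (· < b)).card with h | h <;> rw [h]
  · exact pd_one a
  · rw [pd_neg, pd_one, neg_zero]

theorem pd_ratCast (a : Fin 5) (q : ℚ) : pd a (q : K) = 0 := by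
  have : (q : K) = algebraMap ℂ K (q : ℂ) := by simp
  rw [this, pd_algebraMap]

theorem D_add (a : Fin 5) (x y : Form) : D a (x + y) = D a x + D a y := by
  ext I; simp only [D, Pi.add_apply, pd_add]

theorem D_sum {ι : Type*} (a : Fin 5) (s : Finset ι) (f : ι → Form) :
    D a (∑ i ∈ s, f i) = ∑ i ∈ s, D a (f i) := by
  ext I; simp only [D, Finset.sum_apply, pd_sum]

theorem D_smul (a : Fin 5) (f : K) (ω : Form) : D a (f • ω) = pd a f • ω + f • D a ω := by
  ext I; simp only [D, Pi.add_apply, Pi.smul_apply, smul_eq_mul, pd_mul]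

theorem D_comm (a b : Fin 5) (ω : Form) : D a (D b ω) = D b (D a ω) := by
  ext I; simp only [D]; exact pd_comm a b _

theorem D_wedge (a : Fin 5) (α : Fin 5 → K) (ω : Form) :
    D a (wedge α ω) = wedge (dv a α) ω + wedge α (D a ω) := by
  ext I
  simp only [D, wedge, dv, Pi.add_apply, pd_sum, pd_mul, pd_sgn, ← Finset.sum_add_distrib]
  refine Finset.sum_congr rfl fun b _ => ?_
  ring

theorem iota_apply (X : VF) (ω : Form) (J : Finset (Fin 5)) :
    iota X ω J = ∑ a ∈ Jᶜ, sgn a J * X a * ω (insert a J) := rfl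

theorem D_iota (a : Fin 5) (X : VF) (ω : Form) :
    D a (iota X ω) = iota (dv a X) ω + iota X (D a ω) := by
  ext I
  simp only [D, iota_apply, dv, Pi.add_apply, pd_sum, pd_mul, pd_sgn, ← Finset.sum_add_distrib]
  refine Finset.sum_congr rfl fun b _ => ?_
  ring

theorem dv_e (a b : Fin 5) : dv a (e b) = 0 := by
  ext c
  simp only [dv, e, Pi.single_apply, Pi.zero_apply]
  split_ifs
  · exact pd_one a
  · exact pd_zero a

theorem wedge_zero_left (ω : Form) : wedge 0 ω = 0 := by
  ext I; simp [wedge]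

theorem wedge_add (α : Fin 5 → K) (x y : Form) : wedge α (x + y) = wedge α x + wedge α y :=
  map_add (wedgeL α) x y

theorem wedge_neg (α : Fin 5 → K) (x : Form) : wedge α (-x) = -wedge α x :=
  map_neg (wedgeL α) x

theorem wedge_sum {ι : Type*} (α : Fin 5 → K) (s : Finset ι) (f : ι → Form) :
    wedge α (∑ i ∈ s, f i) = ∑ i ∈ s, wedge α (f i) :=
  map_sum (wedgeL α) f s

theorem wedge_e (a : Fin 5) (ω : Form) (I : Finset (Fin 5)) :
    wedge (e a) ω I = if a ∈ I then sgn a I * ω (I.erase a) else 0 := by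
  simp only [wedge, e, Pi.single_apply, mul_ite, mul_one, mul_zero, ite_mul, zero_mul]
  rw [Finset.sum_ite_eq' I a]

theorem wedge_eq (α : Fin 5 → K) (ω : Form) : wedge α ω = ∑ a, α a • wedge (e a) ω := by
  ext I
  simp only [Finset.sum_apply, Pi.smul_apply, wedge_e, smul_eq_mul, mul_ite, mul_zero]
  rw [Finset.sum_ite_mem, Finset.univ_inter]
  refine Finset.sum_congr rfl fun b _ => ?_
  ring

theorem extD_eq (ω : Form) : extD ω = ∑ a, wedge (e a) (D a ω) := by
  ext I
  simp only [Finset.sum_apply, wedge_e]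
  rw [Finset.sum_ite_mem, Finset.univ_inter]
  rfl

theorem ev1_e (a : Fin 5) (X : VF) : ev1 (e a) X = X a := by
  simp only [ev1, e, Pi.single_apply, ite_mul, one_mul, zero_mul]
  rw [Finset.sum_ite_eq' Finset.univ a]
  simp

theorem iota_sum_left {ι : Type*} (h1 : SCar1) (s : Finset ι) (f : ι → VF) (ω : Form) :
    iota (∑ i ∈ s, f i) ω = ∑ i ∈ s, iota (f i) ω := by
  classical
  induction s using Finset.induction_on with
  | empty => simp [h1.iota_zero_left]
  | insert i s hi ih => rw [Finset.sum_insert hi, Finset.sum_insert hi, h1.iota_add_left, ih]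

/-- A double sum with antisymmetric terms vanishes. -/
theorem sum_anti (f : Fin 5 → Fin 5 → Form) (h : ∀ a b, f a b = -f b a) :
    ∑ a, ∑ b, f a b = 0 := by
  have h2 : ∑ a, ∑ b, f a b = -∑ a, ∑ b, f a b := by
    conv_lhs => rw [Finset.sum_comm]
    rw [← Finset.sum_neg_distrib]
    refine Finset.sum_congr rfl fun a _ => ?_
    rw [← Finset.sum_neg_distrib]
    exact Finset.sum_congr rfl fun b _ => h b a
  ext I
  have h3 := congrFun h2 I
  rw [Pi.neg_apply] at h3
  rw [Pi.zero_apply]
  linear_combination (1 / 2 : K) * h3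

theorem extD_extD (h1 : SCar1) (ω : Form) : extD (extD ω) = 0 := by
  rw [extD_eq (extD ω), extD_eq ω]
  simp only [D_sum, D_wedge, dv_e, wedge_zero_left, zero_add, wedge_sum]
  refine sum_anti _ fun a b => ?_
  rw [h1.wedge_anti, D_comm]

theorem extD_wedge (h1 : SCar1) (α : Fin 5 → K) (hα : ∀ a b, pd a (α b) = pd b (α a))
    (ω : Form) : extD (wedge α ω) = -wedge α (extD ω) := by
  rw [extD_eq (wedge α ω), extD_eq ω]
  simp only [D_wedge, wedge_add, Finset.sum_add_distrib, wedge_sum]
  have h0 : ∑ a, wedge (e a) (wedge (dv a α) ω) = 0 := by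
    have : ∀ a, wedge (e a) (wedge (dv a α) ω) =
        ∑ b, pd a (α b) • wedge (e a) (wedge (e b) ω) := by
      intro a
      rw [wedge_eq (dv a α), wedge_sum]
      exact Finset.sum_congr rfl fun b _ => h1.wedge_smul _ _ _
    simp only [this]
    refine sum_anti _ fun a b => ?_
    rw [h1.wedge_anti, hα, smul_neg]
  rw [h0, zero_add, ← Finset.sum_neg_distrib]
  exact Finset.sum_congr rfl fun a _ => h1.wedge_anti _ _ _

theorem dlog_closed (c : K) (a b : Fin 5) : pd a (dlog c b) = pd b (dlog c a) := by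
  have hinv : ∀ d : Fin 5, pd d c⁻¹ = -(c⁻¹ ^ 2) * pd d c := by
    intro d
    rw [← pdD_apply, Derivation.leibniz_inv, pdD_apply, smul_eq_mul]
  simp only [dlog, div_eq_mul_inv, pd_mul, hinv]
  rw [pd_comm a b]
  ring

theorem eta_closed (z : Fin 11 → ℂ) (w : Hyp → ℚ) (a b : Fin 5) :
    pd a (etaW z w b) = pd b (etaW z w a) := by
  simp only [etaW, pd_sum, pd_mul, pd_ratCast, zero_mul, zero_add]
  exact Finset.sum_congr rfl fun h _ => by rw [dlog_closed]

theorem extD_add (x y : Form) : extD (x + y) = extD x + extD y := map_add extDL x y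

theorem nab_nab (h1 : SCar1) (z : Fin 11 → ℂ) (w : Hyp → ℚ) (ω : Form) :
    nab z w (nab z w ω) = 0 := by
  rw [nab_apply, nab_apply, extD_add, wedge_add, extD_extD h1,
    extD_wedge h1 _ (eta_closed z w), h1.wedge_self]
  abel

theorem extD_smul (h1 : SCar1) (f : K) (ω : Form) :
    extD (f • ω) = f • extD ω + wedge (fun a => pd a f) ω := by
  rw [extD_eq, extD_eq, wedge_eq (fun a => pd a f), Finset.smul_sum, ← Finset.sum_add_distrib]
  refine Finset.sum_congr rfl fun a _ => ?_
  rw [D_smul, wedge_add, h1.wedge_smul, h1.wedge_smul, add_comm]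

theorem lie_eq (h1 : SCar1) (z : Fin 11 → ℂ) (w : Hyp → ℚ) (X : VF) (ω : Form) :
    lie z w X ω = ev1 (etaW z w) X • ω + ∑ a, X a • D a ω +
      ∑ a, wedge (e a) (iota (dv a X) ω) := by
  rw [lie_apply, nab_apply, nab_apply, map_add, h1.iota_wedge, extD_eq, extD_eq, map_sum]
  simp only [D_iota, wedge_add, h1.iota_wedge, ev1_e, Finset.sum_add_distrib,
    Finset.sum_sub_distrib]
  abel

theorem br_eq (X Y : VF) : br X Y = ∑ a, X a • dv a Y + ∑ a, (-Y a) • dv a X := by
  ext b
  simp only [br, act_apply, Pi.add_apply, Finset.sum_apply, Pi.smul_apply, smul_eq_mul, dv,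
    neg_mul, Finset.sum_neg_distrib]
  ring

theorem lie_iota (h1 : SCar1) (z : Fin 11 → ℂ) (w : Hyp → ℚ) (X Y : VF) (ω : Form) :
    lie z w X (iota Y ω) = iota Y (lie z w X ω) + iota (br X Y) ω := by
  rw [lie_eq h1, lie_eq h1, br_eq, h1.iota_add_left, iota_sum_left h1, iota_sum_left h1]
  simp only [h1.iota_smul_left]
  simp only [map_add, map_sum, h1.iota_smul, h1.iota_wedge, ev1_e, D_iota,
    smul_add, Finset.sum_add_distrib, Finset.sum_sub_distrib, neg_smul, Finset.sum_neg_distrib]
  have : ∑ a, wedge (e a) (iota (dv a X) (iota Y ω)) =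
      -∑ a, wedge (e a) (iota Y (iota (dv a X) ω)) := by
    rw [← Finset.sum_neg_distrib]
    exact Finset.sum_congr rfl fun a _ => by rw [h1.iota_anti, wedge_neg]
  rw [this]
  abel

theorem lie_nab (h1 : SCar1) (z : Fin 11 → ℂ) (w : Hyp → ℚ) (X : VF) (ω : Form) :
    lie z w X (nab z w ω) = nab z w (lie z w X ω) := by
  rw [lie_apply, lie_apply, map_add, nab_nab h1, nab_nab h1, map_zero, add_zero, zero_add]

theorem mono_add (I : Finset (Fin 5)) (x y : K) : mono I (x + y) = mono I x + mono I y := by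
  ext J
  simp only [mono, Pi.add_apply]
  split_ifs <;> simp

theorem extD_mono (I : Finset (Fin 5)) (c : K) :
    extD (mono I c) = wedge (fun a => pd a c) (mono I 1) := by
  ext J
  simp only [extD, wedge, mono]
  refine Finset.sum_congr rfl fun a _ => ?_
  split_ifs
  · ring
  · rw [pd_zero]; ring

theorem sgn_single (a : Fin 5) : sgn a {a} = 1 := by
  unfold sgn
  have : ({a} : Finset (Fin 5)).filter (· < a) = ∅ := by
    ext b; simp only [Finset.mem_filter, Finset.mem_singleton, Finset.notMem_empty, iff_false]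
    rintro ⟨rfl, h⟩
    exact lt_irrefl _ h
  rw [this]; simp

end Car2Aux

open Car2Aux in
set_option linter.unusedVariables false in
theorem sCar2 (z : Fin 11 → ℂ) (h1 : SCar1) (hI : SInv z) : SCar2 z where
  nab_zero ω := by
    have : etaW z 0 = 0 := by ext a; simp [etaW]
    rw [nab_apply, this, wedge_zero_left, add_zero]
  nab_nab := Car2Aux.nab_nab h1 z
  nab_smul w f ω := by
    rw [nab_apply, nab_apply, extD_smul h1, h1.wedge_smul, smul_add]
    abel
  lie_iota := Car2Aux.lie_iota h1 z
  lie_nab := Car2Aux.lie_nab h1 z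
  lie_lie w X Y ω h := by
    rw [lie_apply w Y ω, map_add, Car2Aux.lie_nab h1, Car2Aux.lie_iota h1, Car2Aux.lie_iota h1, h,
      h1.iota_zero_left, h1.iota_zero_left, add_zero, add_zero, Car2Aux.lie_nab h1,
      lie_apply w Y]
  lie_empty w X ω := by
    rw [lie_eq h1, dw_apply, act_apply]
    simp only [Pi.add_apply, Finset.sum_apply, Pi.smul_apply, smul_eq_mul, h1.wedge_empty,
      Finset.sum_const_zero, add_zero, D]
    ring
  deg1_nab w ω a := by
    simp only [deg1, nab_apply, Pi.add_apply, extD, wedge, Finset.sum_singleton, sgn_single,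
      Finset.erase_singleton, one_mul]
  nab_empty w ω := by
    simp [nab_apply, extD, wedge]
  nab_mono w I c := by
    rw [nab_apply, extD_mono, h1.wedge_mono, h1.wedge_mono, ← Finset.sum_add_distrib]
    refine Finset.sum_congr rfl fun a _ => ?_
    rw [← mono_add]
    congr 1
    ring

end Pool.Agent.MP_cb8d3a_ag.H90
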