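import Pool.Agent.MP_cb8d3a_ag.H90.Spec

/-! Laminar families: balancing and fullness. -/

noncomputable section

open scoped BigOperators

namespace Pool.Agent.MP_cb8d3a_ag.H90

namespace CombAux

section General
variable {X : Type} [DecidableEq X]

/-- nested or disjoint -/
def Cp (S T : Finset X) : Prop := S ⊆ T ∨ T ⊆ S ∨ Disjoint S T

omit [DecidableEq X] in
theorem Cp.symm {S T : Finset X} (h : Cp S T) : Cp T S := by
  rcases h with h | h | h
  · exact Or.inr (Or.inl h)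
  · exact Or.inl h
  · exact Or.inr (Or.inr h.symm)

theorem bound (M : Finset X) : ∀ L : Finset (Finset X), (∀ S ∈ L, ∀ T ∈ L, Cp S T) →
    (∀ S ∈ L, 2 ≤ S.card ∧ (S \ M).card ≤ 1) → L.card ≤ M.card := by
  induction M using Finset.induction_on with
  | empty =>
    intro L _ h
    rw [Finset.card_empty, Nat.le_zero, Finset.card_eq_zero, Finset.eq_empty_iff_forall_notMem]
    intro S hS
    have := h S hS
    rw [Finset.sdiff_empty] at this
    omega
  | insert a M ha ih =>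
    intro L hL h
    obtain ⟨B, hB⟩ : ∃ B, B = L.filter fun S => a ∈ S ∧ (S.erase a ∈ L ∨ (S.erase a).card ≤ 1) :=
      ⟨_, rfl⟩
    have mB : ∀ S, S ∈ B ↔ S ∈ L ∧ a ∈ S ∧ (S.erase a ∈ L ∨ (S.erase a).card ≤ 1) := fun S => by
      rw [hB, Finset.mem_filter]
    have key : ∀ S ∈ B, ∀ T ∈ L, a ∈ T → T ⊆ S → S ⊆ T := by
      intro S hS T hT haT hTS
      obtain ⟨hS, haS, h1⟩ := (mB S).1 hS
      obtain ⟨x, hx, hxa⟩ := Finset.exists_mem_ne (h T hT).1 a
      have hx' : x ∈ S.erase a := Finset.mem_erase.2 ⟨hxa, hTS hx⟩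
      have h2 : S.erase a ⊆ T := by
        rcases h1 with h1 | h1
        · rcases hL _ h1 T hT with h2 | h2 | h2
          · exact h2
          · exact absurd (h2 haT) (Finset.notMem_erase a S)
          · exact absurd hx (Finset.disjoint_left.1 h2 hx')
        · intro y hy
          rwa [Finset.card_le_one.1 h1 y hy x hx']
      intro y hy
      by_cases hya : y = a
      · rwa [hya]
      · exact h2 (Finset.mem_erase.2 ⟨hya, hy⟩)
    have b1 : B.card ≤ 1 := by
      refine Finset.card_le_one.2 fun S hS T hT => ?_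
      obtain ⟨hS', haS, -⟩ := (mB S).1 hS
      obtain ⟨hT', haT, -⟩ := (mB T).1 hT
      rcases hL S hS' T hT' with h2 | h2 | h2
      · exact Finset.Subset.antisymm h2 (key T hT S hS' haS h2)
      · exact Finset.Subset.antisymm (key S hS T hT' haT h2) h2
      · exact absurd haT (Finset.disjoint_left.1 h2 haS)
    have inj : Set.InjOn (fun S : Finset X => S.erase a) (L \ B : Finset (Finset X)) := by
      intro S hS T hT e
      have e : S.erase a = T.erase a := e
      obtain ⟨hS, hS'⟩ := Finset.mem_sdiff.1 (Finset.mem_coe.1 hS)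
      obtain ⟨hT, hT'⟩ := Finset.mem_sdiff.1 (Finset.mem_coe.1 hT)
      by_cases haS : a ∈ S <;> by_cases haT : a ∈ T
      · rw [← Finset.insert_erase haS, e, Finset.insert_erase haT]
      · rw [Finset.erase_eq_of_notMem haT] at e
        exact absurd ((mB S).2 ⟨hS, haS, Or.inl (e ▸ hT)⟩) hS'
      · rw [Finset.erase_eq_of_notMem haS] at e
        exact absurd ((mB T).2 ⟨hT, haT, Or.inl (e ▸ hS)⟩) hT'
      · rwa [Finset.erase_eq_of_notMem haS, Finset.erase_eq_of_notMem haT] at e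
    have b2 := ih ((L \ B).image fun S => S.erase a) (fun S' hS' T' hT' => ?_) (fun S' hS' => ?_)
    · rw [Finset.card_image_of_injOn inj] at b2
      have b3 := Finset.le_card_sdiff B L
      rw [Finset.card_insert_of_notMem ha]
      omega
    · obtain ⟨S, hS, rfl⟩ := Finset.mem_image.1 hS'
      obtain ⟨T, hT, rfl⟩ := Finset.mem_image.1 hT'
      rcases hL S (Finset.mem_sdiff.1 hS).1 T (Finset.mem_sdiff.1 hT).1 with h2 | h2 | h2
      · exact Or.inl (Finset.erase_subset_erase a h2)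
      · exact Or.inr (Or.inl (Finset.erase_subset_erase a h2))
      · exact Or.inr (Or.inr (h2.mono (Finset.erase_subset a S) (Finset.erase_subset a T)))
    · obtain ⟨S, hS, rfl⟩ := Finset.mem_image.1 hS'
      obtain ⟨hS, hS'⟩ := Finset.mem_sdiff.1 hS
      refine ⟨?_, le_trans (Finset.card_le_card fun x hx => ?_) (h S hS).2⟩
      · by_cases haS : a ∈ S
        · by_contra h2
          exact hS' ((mB S).2 ⟨hS, haS, Or.inr (by omega)⟩)
        · rw [Finset.erase_eq_of_notMem haS]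
          exact (h S hS).1
      · simp only [Finset.mem_sdiff, Finset.mem_erase, Finset.mem_insert] at hx ⊢
        tauto

/-- `C` is a maximal member strictly inside `S` -/
structure Ch (L : Finset (Finset X)) (S C : Finset X) : Prop where
  mem : C ∈ L ∨ ∃ x, C = {x}
  ne : C.Nonempty
  ss : C ⊂ S
  mx : ∀ G ∈ L, G ⊂ S → G ⊆ C ∨ Disjoint G C

variable {L : Finset (Finset X)} {S : Finset X}

theorem ch_exists (hL : ∀ S ∈ L, ∀ T ∈ L, Cp S T) (hS : 2 ≤ S.card) {x : X} (hx : x ∈ S) :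
    ∃ C, Ch L S C ∧ x ∈ C := by
  classical
  by_cases h : (L.filter fun G => x ∈ G ∧ G ⊂ S).Nonempty
  · obtain ⟨C, hC, hm⟩ := Finset.exists_max_image _ Finset.card h
    obtain ⟨hC, hxC, hCS⟩ := Finset.mem_filter.1 hC
    refine ⟨C, ⟨Or.inl hC, ⟨x, hxC⟩, hCS, fun G hG hGS => ?_⟩, hxC⟩
    rcases hL G hG C hC with h2 | h2 | h2
    · exact Or.inl h2
    · exact Or.inl (Finset.eq_of_subset_of_card_le h2
        (hm G (Finset.mem_filter.2 ⟨hG, h2 hxC, hGS⟩))).ge
    · exact Or.inr h2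
  · refine ⟨{x}, ⟨Or.inr ⟨x, rfl⟩, Finset.singleton_nonempty x, ?_, fun G hG hGS => Or.inr ?_⟩,
      Finset.mem_singleton_self x⟩
    · refine Finset.ssubset_iff_subset_ne.2 ⟨Finset.singleton_subset_iff.2 hx, fun e => ?_⟩
      rw [← e, Finset.card_singleton] at hS
      omega
    · exact Finset.disjoint_singleton_right.2 fun hxG => h ⟨G, Finset.mem_filter.2 ⟨hG, hxG, hGS⟩⟩

theorem Ch.sub {C D : Finset X} (h : Ch L S C) (h' : Ch L S D) : C ⊆ D ∨ Disjoint C D := by
  rcases h.mem with h1 | ⟨x, rfl⟩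
  · exact h'.mx C h1 h.ss
  · by_cases hx : x ∈ D
    · exact Or.inl (Finset.singleton_subset_iff.2 hx)
    · exact Or.inr (Finset.disjoint_singleton_left.2 hx)

theorem Ch.eq {C D : Finset X} (h : Ch L S C) (h' : Ch L S D) {x : X} (h1 : x ∈ C) (h2 : x ∈ D) :
    C = D :=
  Finset.Subset.antisymm ((h.sub h').resolve_right fun e => Finset.disjoint_left.1 e h1 h2)
    ((h'.sub h).resolve_right fun e => Finset.disjoint_left.1 e h2 h1)

theorem Ch.disj {C D : Finset X} (h : Ch L S C) (h' : Ch L S D) {x : X} (h1 : x ∉ C) (h2 : x ∈ D) :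
    Disjoint C D :=
  Finset.disjoint_left.2 fun _ h3 h4 => h1 (h.eq h' h3 h4 ▸ h2)

omit [DecidableEq X] in
/-- a child is compatible with everything compatible with the family -/
theorem Ch.cp {C F : Finset X} (h : Ch L S C) (hF : ∀ G ∈ L, Cp F G) : Cp F C := by
  rcases h.mem with h1 | ⟨x, rfl⟩
  · exact hF C h1
  · by_cases hx : x ∈ F
    · exact Or.inr (Or.inl (Finset.singleton_subset_iff.2 hx))
    · exact Or.inr (Or.inr (Finset.disjoint_singleton_right.2 hx))

/-- unions of children -/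
def Sat (L : Finset (Finset X)) (S U : Finset X) : Prop :=
  ∀ C, Ch L S C → C ⊆ U ∨ Disjoint C U

theorem Ch.sat {C : Finset X} (h : Ch L S C) : Sat L S C := fun _ h' => h'.sub h

theorem Sat.union {U W : Finset X} (h : Sat L S U) (h' : Sat L S W) : Sat L S (U ∪ W) := by
  intro C hC
  rcases h C hC with h1 | h1
  · exact Or.inl (h1.trans Finset.subset_union_left)
  rcases h' C hC with h2 | h2
  · exact Or.inl (h2.trans Finset.subset_union_right)
  · exact Or.inr (Finset.disjoint_union_right.2 ⟨h1, h2⟩)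

theorem Sat.cp (hL : ∀ S ∈ L, ∀ T ∈ L, Cp S T) (hS : 2 ≤ S.card) (hc : ∀ G ∈ L, Cp S G)
    {U : Finset X} (h : Sat L S U) (hU : U ⊆ S) : ∀ G ∈ L, Cp U G := by
  intro G hG
  by_cases h1 : S ⊆ G
  · exact Or.inl (hU.trans h1)
  rcases (hc G hG).resolve_left h1 with h2 | h2
  · rcases G.eq_empty_or_nonempty with rfl | ⟨x, hx⟩
    · exact Or.inr (Or.inl (Finset.empty_subset _))
    obtain ⟨C, hC, hxC⟩ := ch_exists hL hS (h2 hx)
    have h3 := (hC.mx G hG ⟨h2, h1⟩).resolve_right fun e => Finset.disjoint_left.1 e hx hxC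
    rcases h C hC with h4 | h4
    · exact Or.inr (Or.inl (h3.trans h4))
    · exact Or.inr (Or.inr (h4.mono_left h3).symm)
  · exact Or.inr (Or.inr (h2.mono_left hU))

omit [DecidableEq X] in
theorem Ch.new {C U : Finset X} (h : Ch L S C) (h1 : C ⊆ U) {x : X} (h2 : x ∈ U) (h3 : x ∉ C)
    (h4 : U ⊂ S) : U ∉ L := by
  intro hU
  obtain ⟨y, hy⟩ := h.ne
  rcases h.mx U hU h4 with h5 | h5
  · exact h3 (h5 h2)
  · exact Finset.disjoint_left.1 h5 (h1 hy) hy

omit [DecidableEq X] in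
theorem Ch.two {C U : Finset X} (h : Ch L S C) (h1 : C ⊆ U) {x : X} (h2 : x ∈ U) (h3 : x ∉ C) :
    2 ≤ U.card := by
  obtain ⟨y, hy⟩ := h.ne
  exact Finset.one_lt_card.2 ⟨x, h2, y, h1 hy, fun e => h3 (e ▸ hy)⟩

/-- a set that crosses a disjoint union contains exactly one part -/
theorem cross {F C D : Finset X} (h : ¬ Cp F (C ∪ D)) (h1 : Cp F C) (h2 : Cp F D) :
    (∃ x ∈ F, x ∉ C ∪ D) ∧ ((C ⊆ F ∧ Disjoint F D) ∨ (D ⊆ F ∧ Disjoint F C)) := by
  have a1 : ¬ F ⊆ C ∪ D := fun e => h (Or.inl e)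
  refine ⟨Finset.not_subset.1 a1, ?_⟩
  rcases h1.resolve_left fun e => a1 (e.trans Finset.subset_union_left) with b1 | b1 <;>
    rcases h2.resolve_left fun e => a1 (e.trans Finset.subset_union_right) with b2 | b2
  · exact absurd (Or.inr (Or.inl (Finset.union_subset b1 b2))) h
  · exact Or.inl ⟨b1, b2⟩
  · exact Or.inr ⟨b2, b1⟩
  · exact absurd (Or.inr (Or.inr (Finset.disjoint_union_right.2 ⟨b1, b2⟩))) h

/-- indicator -/
def chi (S : Finset X) (x : X) : ℤ := if x ∈ S then 1 else 0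

theorem chi_union {S T : Finset X} (h : Disjoint S T) (x : X) :
    chi (S ∪ T) x = chi S x + chi T x := by
  unfold chi
  by_cases h1 : x ∈ S
  · simp [h1, Finset.disjoint_left.1 h h1]
  · simp [h1]

end General

/-- all marked points -/
abbrev Y : Type := Fin 5 ⊕ Option (Fin 11)

/-- at most one fixed point -/
def Few (S : Finset Y) : Prop := ∀ y y', Sum.inr y ∈ S → Sum.inr y' ∈ S → y = y'

theorem Few.mono {S T : Finset Y} (h : Few T) (h' : S ⊆ T) : Few S :=
  fun y y' a b => h y y' (h' a) (h' b)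

theorem Few.ne {S : Finset Y} (h : Few S) : S ⊂ Finset.univ := by
  refine Finset.ssubset_univ_iff.2 ?_
  rintro rfl
  exact absurd (h none (some 0) (Finset.mem_univ _) (Finset.mem_univ _)) (by simp)

theorem Few.union {S T : Finset Y} (h : ∀ y, Sum.inr y ∉ S) (h' : Few T) : Few (S ∪ T) :=
  fun y y' a b => h' y y' ((Finset.mem_union.1 a).resolve_left (h y))
    ((Finset.mem_union.1 b).resolve_left (h y'))

/-- laminar families of admissible sets -/
structure Lam (L : Finset (Finset Y)) : Prop where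
  cp : ∀ S ∈ L, ∀ T ∈ L, Cp S T
  two : ∀ S ∈ L, 2 ≤ S.card
  few : ∀ S ∈ L, Few S

/-- sets that can be added -/
structure Lk (L : Finset (Finset Y)) (U : Finset Y) : Prop where
  two : 2 ≤ U.card
  few : Few U
  cp : ∀ G ∈ L, Cp U G
  new : U ∉ L

variable {L : Finset (Finset Y)}

theorem Lam.le (h : Lam L) : L.card ≤ 5 := by
  have h1 := bound (Finset.univ.map Function.Embedding.inl) L h.cp fun S hS =>
    ⟨h.two S hS, Finset.card_le_one.2 fun a ha b hb => ?_⟩
  · simpa using h1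
  · rcases a with a | a
    · simp at ha
    rcases b with b | b
    · simp at hb
    rw [h.few S hS a b (Finset.mem_sdiff.1 ha).1 (Finset.mem_sdiff.1 hb).1]

theorem Lam.insert (h : Lam L) {U : Finset Y} (hU : Lk L U) : Lam (insert U L) := by
  refine ⟨fun S hS T hT => ?_, fun S hS => ?_, fun S hS => ?_⟩
  · rcases Finset.mem_insert.1 hS with rfl | hS <;> rcases Finset.mem_insert.1 hT with e | hT
    · exact Or.inl e.ge
    · exact hU.cp T hT
    · exact e ▸ (hU.cp S hS).symm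
    · exact h.cp S hS T hT
  · rcases Finset.mem_insert.1 hS with rfl | hS
    · exact hU.two
    · exact h.two S hS
  · rcases Finset.mem_insert.1 hS with rfl | hS
    · exact hU.few
    · exact h.few S hS

theorem Lam.no (h : Lam L) (h5 : L.card = 5) {U : Finset Y} (hU : Lk L U) : False := by
  have := (h.insert hU).le
  rw [Finset.card_insert_of_notMem hU.new] at this
  omega

theorem Lam.uniq (h : Lam L) (h4 : L.card = 4) {U W : Finset Y} (hU : Lk L U) (hW : Lk L W)
    (hc : Cp U W) : U = W := by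
  by_contra e
  refine (h.insert hW).no (by rw [Finset.card_insert_of_notMem hW.new, h4]) (U := U)
    ⟨hU.two, hU.few, fun G hG => ?_, fun hG => ?_⟩
  · rcases Finset.mem_insert.1 hG with rfl | hG
    · exact hc
    · exact hU.cp G hG
  · rcases Finset.mem_insert.1 hG with hG | hG
    · exact e hG
    · exact hU.new hG

theorem Lam.ch_few (h : Lam L) {S C : Finset Y} (hC : Ch L S C) : Few C := by
  rcases hC.mem with h1 | ⟨x, rfl⟩
  · exact h.few C h1
  · intro y y' a b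
    rw [Finset.mem_singleton] at a b
    exact Sum.inr_injective (a.trans b.symm)

theorem Lam.lk (h : Lam L) {S C U : Finset Y} (hS : 2 ≤ S.card) (hc : ∀ G ∈ L, Cp S G)
    (hC : Ch L S C) (h1 : C ⊆ U) {x : Y} (h2 : x ∈ U) (h3 : x ∉ C) (h4 : U ⊂ S) (h5 : Sat L S U)
    (h6 : Few U) : Lk L U :=
  ⟨hC.two h1 h2 h3, h6, h5.cp h.cp hS hc h4.subset, hC.new h1 h2 h3 h4⟩

theorem univ_two : 2 ≤ (Finset.univ : Finset Y).card := by simp

theorem univ_cp (G : Finset Y) : Cp Finset.univ G := Or.inr (Or.inl (Finset.subset_univ G))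

/-- a union of top members without fixed point can be joined to a top member -/
theorem Lam.top (h : Lam L) {D C : Finset Y} (hD : Sat L Finset.univ D) (hn : D.Nonempty)
    (h0 : ∀ y, Sum.inr y ∉ D) (hC : Ch L Finset.univ C) {y} (hy : Sum.inr y ∈ C) :
    Lk L (D ∪ C) := by
  obtain ⟨x, hx⟩ := hn
  have h1 := (hD C hC).resolve_left fun e => h0 y (e hy)
  have h2 := Few.union h0 (h.ch_few hC)
  exact h.lk univ_two (fun G _ => univ_cp G) hC Finset.subset_union_right
    (Finset.mem_union_left _ hx) (Finset.disjoint_right.1 h1 hx) h2.ne (hD.union hC.sat) h2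

theorem Lam.full (h : Lam L) (h5 : L.card = 5) (a : Fin 5) :
    ∃ S ∈ L, Sum.inl a ∈ S ∧ ∃ y, Sum.inr y ∈ S := by
  obtain ⟨D, hD, ha⟩ := ch_exists h.cp univ_two (Finset.mem_univ (Sum.inl a))
  obtain ⟨C, hC, hy⟩ := ch_exists h.cp univ_two (Finset.mem_univ (Sum.inr none))
  by_cases h0 : ∃ y, Sum.inr y ∈ D
  · refine ⟨D, hD.mem.resolve_right ?_, ha, h0⟩
    rintro ⟨x, rfl⟩
    obtain ⟨y, hy⟩ := h0
    rw [Finset.mem_singleton] at ha hy
    exact Sum.inl_ne_inr (ha.trans hy.symm)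
  · exact (h.no h5 (h.top hD.sat hD.ne (fun y e => h0 ⟨y, e⟩) hC hy)).elim

/-- the order along a set of the difference of two finite points -/
def vv (S : Finset Y) (p q : Y) : ℤ :=
  chi S p * chi S q - chi S p * chi S (Sum.inr none) - chi S q * chi S (Sum.inr none)

/-- members and singletons -/
def Mem (L : Finset (Finset Y)) (C : Finset Y) : Prop := C ∈ L ∨ ∃ x, C = {x}

theorem inner (h : Lam L) (h4 : L.card = 4) {S C₁ C₂ : Finset Y} (hS : S ∈ L) (c₁ : Ch L S C₁)
    (c₂ : Ch L S C₂) (d₁₂ : Disjoint C₁ C₂) (h0 : Lk L (C₁ ∪ C₂)) (K : Finset (Finset Y))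
    (hK : ∀ U, U ∈ K ↔ Lk L U) : ∃ C₃, Mem L C₃ ∧ ∀ p q,
      ∑ U ∈ K, vv U p q = vv S p q + vv C₁ p q + vv C₂ p q + vv C₃ p q := by
  have s2 := h.two S hS
  have sc := h.cp S hS
  have sub : C₁ ∪ C₂ ⊆ S := Finset.union_subset c₁.ss.subset c₂.ss.subset
  obtain ⟨x₁, m₁⟩ := c₁.ne
  obtain ⟨x₂, m₂⟩ := c₂.ne
  obtain ⟨x₃, hx, hx'⟩ := Finset.exists_of_ssubset
    (Finset.ssubset_iff_subset_ne.2 ⟨sub, fun e => h0.new (e ▸ hS)⟩)
  obtain ⟨C₃, c₃, m₃⟩ := ch_exists h.cp s2 hx
  have d₁₃ := c₁.disj c₃ (fun e => hx' (Finset.mem_union_left _ e)) m₃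
  have d₂₃ := c₂.disj c₃ (fun e => hx' (Finset.mem_union_right _ e)) m₃
  have n₁₂ := Finset.disjoint_left.1 d₁₂ m₁
  have n₂₁ := Finset.disjoint_right.1 d₁₂ m₂
  have n₁₃ := Finset.disjoint_left.1 d₁₃ m₁
  have n₃₁ := Finset.disjoint_right.1 d₁₃ m₃
  have n₂₃ := Finset.disjoint_left.1 d₂₃ m₂
  have n₃₂ := Finset.disjoint_right.1 d₂₃ m₃
  have eS : C₁ ∪ C₂ ∪ C₃ = S := by
    by_contra e
    have a1 : C₁ ∪ C₂ ∪ C₃ ⊆ S := Finset.union_subset sub c₃.ss.subset
    have a2 := h.lk s2 sc c₃ Finset.subset_union_right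
      (Finset.mem_union_left _ (Finset.mem_union_left _ m₁)) n₁₃
      (Finset.ssubset_iff_subset_ne.2 ⟨a1, e⟩) ((c₁.sat.union c₂.sat).union c₃.sat)
      ((h.few S hS).mono a1)
    exact hx' (h.uniq h4 h0 a2 (Or.inl Finset.subset_union_left) ▸ Finset.mem_union_right _ m₃)
  have pair : ∀ {C D : Finset Y} {x y : Y}, Ch L S C → Ch L S D → x ∈ C → x ∉ D → y ∈ S → y ∉ C →
      y ∉ D → Lk L (C ∪ D) := by
    intro C D x y a b m n k1 k2 k3
    have a1 : C ∪ D ⊆ S := Finset.union_subset a.ss.subset b.ss.subset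
    exact h.lk s2 sc b Finset.subset_union_right (Finset.mem_union_left _ m) n
      ⟨a1, fun e => (Finset.mem_union.1 (e k1)).elim k2 k3⟩ (a.sat.union b.sat)
      ((h.few S hS).mono a1)
  have eK : K = {C₁ ∪ C₂, C₁ ∪ C₃, C₂ ∪ C₃} := by
    ext U
    rw [hK, Finset.mem_insert, Finset.mem_insert, Finset.mem_singleton]
    refine ⟨fun hU => ?_, ?_⟩
    · by_cases e : Cp U (C₁ ∪ C₂)
      · exact Or.inl (h.uniq h4 hU h0 e)
      obtain ⟨⟨x, k1, k2⟩, k3⟩ := cross e (c₁.cp hU.cp) (c₂.cp hU.cp)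
      have k4 : ∀ {C D : Finset Y} {y w : Y}, y ∈ C → C ⊆ U → w ∈ D → Disjoint U D → y ∉ C₃ →
          C ∪ D ∪ C₃ = S → C ∪ D = C₁ ∪ C₂ → U = C ∪ C₃ := by
        intro C D y w a1 a2 a3 a4 a5 a6 a7
        have b1 : U ⊆ S := by
          rcases hU.cp S hS with b | b | b
          · exact b
          · exact absurd a3 (Finset.disjoint_left.1 a4 (b (a6 ▸ by simp [a3])))
          · exact absurd (a6 ▸ by simp [a1]) (Finset.disjoint_left.1 b (a2 a1))
        have b2 : x ∈ C₃ := (Finset.mem_union.1 (eS ▸ b1 k1)).resolve_left k2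
        have b3 : C₃ ⊆ U := by
          rcases c₃.cp hU.cp with b | b | b
          · exact absurd (b (a2 a1)) a5
          · exact b
          · exact absurd b2 (Finset.disjoint_left.1 b k1)
        refine Finset.Subset.antisymm (fun u hu => ?_) (Finset.union_subset a2 b3)
        have b4 := b1 hu
        have b5 := Finset.disjoint_left.1 a4 hu
        rw [← a6] at b4
        simp only [Finset.mem_union] at b4 ⊢
        tauto
      rcases k3 with ⟨k5, k6⟩ | ⟨k5, k6⟩
      · exact Or.inr (Or.inl (k4 m₁ k5 m₂ k6 n₁₃ eS rfl))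
      · exact Or.inr (Or.inr (k4 m₂ k5 m₁ k6 n₂₃ (by rw [Finset.union_comm C₂ C₁, eS])
          (Finset.union_comm _ _)))
    · rintro (rfl | rfl | rfl)
      · exact h0
      · exact pair c₁ c₃ m₁ n₁₃ (c₂.ss.subset m₂) n₂₁ n₂₃
      · exact pair c₂ c₃ m₂ n₂₃ (c₁.ss.subset m₁) n₁₂ n₁₃
  refine ⟨C₃, c₃.mem, fun p q => ?_⟩
  have e1 : C₁ ∪ C₂ ≠ C₁ ∪ C₃ := fun e => hx' (e ▸ Finset.mem_union_right _ m₃)
  have e2 : C₁ ∪ C₂ ≠ C₂ ∪ C₃ := fun e => hx' (e ▸ Finset.mem_union_right _ m₃)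
  have e3 : C₁ ∪ C₃ ≠ C₂ ∪ C₃ := fun e =>
    (Finset.mem_union.1 (e ▸ Finset.mem_union_left C₃ m₁)).elim n₁₂ n₁₃
  rw [eK, Finset.sum_insert (by simp [e1, e2]), Finset.sum_pair e3, ← eS]
  simp only [vv, chi_union d₁₂, chi_union d₁₃, chi_union d₂₃,
    chi_union (Finset.disjoint_union_left.2 ⟨d₁₃, d₂₃⟩)]
  ring

theorem outer (h : Lam L) (h4 : L.card = 4) {B C₀ : Finset Y} (cB : Ch L Finset.univ B)
    (c₀ : Ch L Finset.univ C₀) (d₀ : Disjoint B C₀) {y₀} (m₀ : Sum.inr y₀ ∈ C₀)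
    (h0 : Lk L (B ∪ C₀)) (K : Finset (Finset Y)) (hK : ∀ U, U ∈ K ↔ Lk L U) :
    ∃ C : Option (Fin 11) → Finset Y, (∀ y, Mem L (C y)) ∧ ∀ p q,
      ∑ U ∈ K, vv U p q = 10 * vv B p q + ∑ y, vv (C y) p q := by
  choose C c m using fun y : Option (Fin 11) =>
    ch_exists h.cp univ_two (Finset.mem_univ (Sum.inr y : Y))
  have hB : ∀ y, Sum.inr y ∉ B := fun y e => by
    have := h0.few y y₀ (Finset.mem_union_left _ e) (Finset.mem_union_right _ m₀)
    exact Finset.disjoint_left.1 d₀ (this ▸ e) m₀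
  have e₀ : C y₀ = C₀ := (c y₀).eq c₀ (m y₀) m₀
  have dB : ∀ y, Disjoint B (C y) := fun y => cB.disj (c y) (hB y) (m y)
  have one : ∀ {x y y'}, x ∈ C y → x ∈ C y' → y = y' := fun {x y y'} a b =>
    h.ch_few (c y) y y' (m y) ((c y).eq (c y') a b ▸ m y')
  have cover : ∀ x, x ∉ B → ∃ y, x ∈ C y := by
    intro x hx
    obtain ⟨D, hD, hxD⟩ := ch_exists h.cp univ_two (Finset.mem_univ x)
    by_cases h1 : ∃ y, Sum.inr y ∈ D
    · obtain ⟨y, hy⟩ := h1
      exact ⟨y, hD.eq (c y) hy (m y) ▸ hxD⟩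
    obtain ⟨y, hy⟩ := exists_ne y₀
    have a1 := h.top hD.sat hD.ne (fun y e => h1 ⟨y, e⟩) (c y) (m y)
    have a2 : Disjoint (D ∪ C y) (B ∪ C₀) := by
      rw [Finset.disjoint_union_left, Finset.disjoint_union_right, Finset.disjoint_union_right]
      exact ⟨⟨(cB.disj hD hx hxD).symm, hD.disj c₀ (fun e => h1 ⟨_, e⟩) m₀⟩, (dB y).symm,
        (c y).disj c₀ (fun e => hy (one e (m y₀))) m₀⟩
    have a3 := h.uniq h4 a1 h0 (Or.inr (Or.inr a2))
    exact absurd (a3 ▸ Finset.mem_union_left _ hxD)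
      (Finset.disjoint_left.1 a2 (Finset.mem_union_left _ hxD))
  obtain ⟨b, mb⟩ := cB.ne
  have eK : K = Finset.univ.image fun y => B ∪ C y := by
    ext U
    rw [hK, Finset.mem_image]
    refine ⟨fun hU => ?_, ?_⟩
    · by_cases e : Cp U (B ∪ C₀)
      · exact ⟨y₀, Finset.mem_univ _, by rw [e₀, h.uniq h4 hU h0 e]⟩
      obtain ⟨⟨x, k1, k2⟩, k3⟩ := cross e (cB.cp hU.cp) (c₀.cp hU.cp)
      obtain ⟨y, hy⟩ := cover x fun a => k2 (Finset.mem_union_left _ a)
      have k4 : y ≠ y₀ := fun a => k2 (Finset.mem_union_right _ (e₀ ▸ a ▸ hy))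
      have k5 : ∀ {u y'}, b ∈ U ∨ Sum.inr y₀ ∈ U → y' ≠ y₀ → u ∈ U → u ∈ C y' → C y' ⊆ U := by
        intro u y' a0 a1 a2 a3
        rcases (c y').cp hU.cp with a | a | a
        · rcases a0 with a0 | a0
          · exact absurd (a a0) (Finset.disjoint_left.1 (dB y') mb)
          · exact absurd (one (a a0) (m y₀)) a1
        · exact a
        · exact absurd a3 (Finset.disjoint_left.1 a a2)
      rcases k3 with ⟨k6, k7⟩ | ⟨k6, -⟩
      · have k8 := k5 (Or.inl (k6 mb)) k4 k1 hy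
        refine ⟨y, Finset.mem_univ _,
          Finset.Subset.antisymm (Finset.union_subset k6 k8) fun u hu => ?_⟩
        by_cases a : u ∈ B
        · exact Finset.mem_union_left _ a
        obtain ⟨y', hy'⟩ := cover u a
        have a1 : y' ≠ y₀ := fun a1 => Finset.disjoint_left.1 k7 hu (e₀ ▸ a1 ▸ hy')
        have a2 := hU.few y y' (k8 (m y)) (k5 (Or.inl (k6 mb)) a1 hu hy' (m y'))
        exact Finset.mem_union_right _ (a2 ▸ hy')
      · exact absurd (hU.few y y₀ (k5 (Or.inr (k6 m₀)) k4 k1 hy (m y)) (k6 m₀)) k4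
    · rintro ⟨y, -, rfl⟩
      exact h.top cB.sat cB.ne hB (c y) (m y)
  have part : ∀ x, ∑ y, chi (C y) x = 1 - chi B x := by
    intro x
    by_cases a : x ∈ B
    · simp only [chi]
      rw [Finset.sum_eq_zero fun y _ => if_neg (Finset.disjoint_left.1 (dB y) a), if_pos a]
      rfl
    · obtain ⟨y, hy⟩ := cover x a
      simp only [chi]
      rw [Finset.sum_eq_single y (fun y' _ e => if_neg fun a' => e (one a' hy))
        (fun e => absurd (Finset.mem_univ y) e), if_pos hy, if_neg a]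
      rfl
  refine ⟨C, fun y => (c y).mem, fun p q => ?_⟩
  rw [eK, Finset.sum_image fun y _ y' _ e => ?_]
  · have z : chi B (Sum.inr none) = 0 := if_neg (hB none)
    have e1 : ∀ y, vv (B ∪ C y) p q = vv (C y) p q + chi B p * chi B q +
        chi B p * (chi (C y) q - chi (C y) (Sum.inr none)) +
        chi B q * (chi (C y) p - chi (C y) (Sum.inr none)) := fun y => by
      simp only [vv, chi_union (dB y), z]
      ring
    simp only [e1, Finset.sum_add_distrib, ← Finset.mul_sum, Finset.sum_sub_distrib, part, z]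
    simp [vv, z]
    ring
  · have e : B ∪ C y = B ∪ C y' := e
    exact one (m y) ((Finset.mem_union.1 (e ▸ Finset.mem_union_right B (m y))).resolve_left (hB y))

/-- closure property used for the span -/
theorem bal (h : Lam L) (h4 : L.card = 4) (K : Finset (Finset Y)) (hK : ∀ U, U ∈ K ↔ Lk L U)
    (P : (Y → Y → ℤ) → Prop) (p0 : P 0) (pa : ∀ f g, P f → P g → P (f + g))
    (pm : ∀ C, Mem L C → P (vv C)) : P fun p q => ∑ U ∈ K, vv U p q := by
  classical
  rcases K.eq_empty_or_nonempty with rfl | ⟨F, hF⟩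
  · exact p0
  replace hF := (hK F).1 hF
  obtain ⟨S, hS, hm⟩ := Finset.exists_min_image
    ((insert Finset.univ L).filter fun S => F ⊆ S) Finset.card
    ⟨Finset.univ, Finset.mem_filter.2 ⟨Finset.mem_insert_self _ _, Finset.subset_univ _⟩⟩
  obtain ⟨hS, hFS⟩ := Finset.mem_filter.1 hS
  have s2 : 2 ≤ S.card := hF.two.trans (Finset.card_le_card hFS)
  have sc : ∀ G ∈ L, Cp S G := fun G hG => by
    rcases Finset.mem_insert.1 hS with rfl | hS
    · exact univ_cp G
    · exact h.cp S hS G hG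
  have ss : F ⊂ S := by
    rcases Finset.mem_insert.1 hS with rfl | hS
    · exact hF.few.ne
    · exact Finset.ssubset_iff_subset_ne.2 ⟨hFS, fun e => hF.new (e ▸ hS)⟩
  have nsub : ∀ C, Ch L S C → ¬ F ⊆ C := fun C hC e => by
    rcases hC.mem with a | ⟨x, rfl⟩
    · exact absurd (Finset.card_lt_card hC.ss)
        (not_lt.2 (hm C (Finset.mem_filter.2 ⟨Finset.mem_insert_of_mem a, e⟩)))
    · have a := hF.two.trans (Finset.card_le_card e)
      rw [Finset.card_singleton] at a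
      omega
  have sat : Sat L S F := fun C hC =>
    ((hC.cp hF.cp).resolve_left (nsub C hC)).imp id fun e => e.symm
  obtain ⟨x₁, hx₁⟩ : F.Nonempty := Finset.card_pos.1 (by have := hF.two; omega)
  obtain ⟨C₁, c₁, m₁⟩ := ch_exists h.cp s2 (hFS hx₁)
  obtain ⟨x₂, hx₂, n₂⟩ := Finset.not_subset.1 (nsub C₁ c₁)
  obtain ⟨C₂, c₂, m₂⟩ := ch_exists h.cp s2 (hFS hx₂)
  have a₁ := (sat C₁ c₁).resolve_right fun e => Finset.disjoint_left.1 e m₁ hx₁
  have a₂ := (sat C₂ c₂).resolve_right fun e => Finset.disjoint_left.1 e m₂ hx₂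
  have d₁₂ := c₁.disj c₂ n₂ m₂
  have a₃ := Finset.union_subset a₁ a₂
  have h0 := h.lk s2 sc c₁ Finset.subset_union_left (Finset.mem_union_right _ m₂) n₂
    (lt_of_le_of_lt a₃ ss) (c₁.sat.union c₂.sat) (hF.few.mono a₃)
  rcases Finset.mem_insert.1 hS with rfl | hS
  · have out : ∀ {B C₀ : Finset Y} {y₀}, Ch L Finset.univ B → Ch L Finset.univ C₀ → Disjoint B C₀ →
        Sum.inr y₀ ∈ C₀ → Lk L (B ∪ C₀) → P fun p q => ∑ U ∈ K, vv U p q := by
      intro B C₀ y₀ k1 k2 k3 k4 k5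
      obtain ⟨C, hC, e⟩ := outer h h4 k1 k2 k3 k4 k5 K hK
      have k6 : (fun p q => ∑ U ∈ K, vv U p q) = ∑ _i : Fin 10, vv B + ∑ y, vv (C y) := by
        funext p q
        simp [e]
      rw [k6]
      exact pa _ _ (Finset.sum_induction _ P pa p0 fun _ _ => pm B k1.mem)
        (Finset.sum_induction _ P pa p0 fun y _ => pm _ (hC y))
    by_cases k : ∃ y, Sum.inr y ∈ C₁ ∪ C₂
    · obtain ⟨y, hy⟩ := k
      rcases Finset.mem_union.1 hy with hy | hy
      · exact out c₂ c₁ d₁₂.symm hy (Finset.union_comm C₁ C₂ ▸ h0)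
      · exact out c₁ c₂ d₁₂ hy h0
    · obtain ⟨C, hC, hy⟩ := ch_exists h.cp univ_two (Finset.mem_univ (Sum.inr none))
      have k1 := h.top (c₁.sat.union c₂.sat) ⟨x₁, Finset.mem_union_left _ m₁⟩
        (fun y e => k ⟨y, e⟩) hC hy
      have k2 := h.uniq h4 h0 k1 (Or.inl Finset.subset_union_left)
      exact absurd ⟨none, k2 ▸ Finset.mem_union_right _ hy⟩ k
  · obtain ⟨C₃, c₃, e⟩ := inner h h4 hS c₁ c₂ d₁₂ h0 K hK
    have k6 : (fun p q => ∑ U ∈ K, vv U p q) = vv S + vv C₁ + vv C₂ + vv C₃ := by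
      funext p q
      simp [e]
    rw [k6]
    exact pa _ _ (pa _ _ (pa _ _ (pm S (Or.inl hS)) (pm _ c₁.mem)) (pm _ c₂.mem)) (pm _ c₃)

theorem inl_mem (F : Clus) (a : Fin 5) : Sum.inl a ∈ pts F ↔ a ∈ F.1 := by simp [pts]

theorem inr_mem (F : Clus) (y : Option (Fin 11)) : Sum.inr y ∈ pts F ↔ F.2 = some y := by
  simp [pts]

theorem pts_inj {F G : Div} (h : pts F.1 = pts G.1) : F = G := by
  refine Subtype.ext (Prod.ext ?_ ?_)
  · ext a
    rw [← inl_mem, ← inl_mem, h]
  · refine Option.ext fun y => ?_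
    rw [← inr_mem, ← inr_mem, h]

theorem pts_few (F : Clus) : Few (pts F) := fun y y' a b => by
  rw [inr_mem] at a b
  exact Option.some_injective _ (a.symm.trans b)

theorem pts_surj {U : Finset Y} (h : Few U) : ∃ F : Clus, pts F = U := by
  by_cases h0 : ∃ y, Sum.inr y ∈ U
  · obtain ⟨y, hy⟩ := h0
    refine ⟨(U.toLeft, some y), ?_⟩
    ext x
    rcases x with a | y'
    · simp [inl_mem]
    · rw [inr_mem]
      exact ⟨fun e => Option.some_injective _ e ▸ hy, fun e => congrArg some (h y y' hy e)⟩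
  · refine ⟨(U.toLeft, none), ?_⟩
    ext x
    rcases x with a | y'
    · simp [inl_mem]
    · rw [inr_mem]
      exact ⟨fun e => by simp at e, fun e => absurd ⟨y', e⟩ h0⟩

/-- the two points of a hyperplane -/
def pH : Hyp → Y
  | Sum.inl p => Sum.inl p.1
  | Sum.inr p => Sum.inl p.1.1

def qH : Hyp → Y
  | Sum.inl p => Sum.inr (some p.2)
  | Sum.inr p => Sum.inl p.1.2

theorem vH_eq (F : Clus) (h : Hyp) : vH F h = vv (pts F) (pH h) (qH h) := by
  rcases h with p | p
  · simp only [vH, vv, chi, pH, qH, inl_mem, inr_mem]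
    by_cases h1 : F.2 = some none
    · simp [h1]
      split_ifs <;> rfl
    · simp [h1]
      split_ifs <;> rfl
  · simp only [vH, vv, chi, pH, qH, inl_mem, inr_mem]
    by_cases h1 : F.2 = some none <;> by_cases h2 : p.1.1 ∈ F.1 <;> by_cases h3 : p.1.2 ∈ F.1 <;>
      simp [h1, h2, h3]

theorem vv_single (x : Y) (h : Hyp) : vv {x} (pH h) (qH h) = 0 := by
  have h1 : pH h ≠ qH h := by
    rcases h with p | p
    · simp [pH, qH]
    · simpa [pH, qH] using p.2.ne
  have h2 : pH h ≠ Sum.inr none := by rcases h with p | p <;> simp [pH]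
  have h3 : qH h ≠ Sum.inr none := by rcases h with p | p <;> simp [qH]
  have key : ∀ p q : Y, p ≠ q → chi {x} p * chi {x} q = 0 := fun p q e => by
    unfold chi
    split_ifs with a b
    · exact absurd ((Finset.mem_singleton.1 a).trans (Finset.mem_singleton.1 b).symm) e
    all_goals rfl
  rw [vv, key _ _ h1, key _ _ h2, key _ _ h3]
  rfl

theorem lam {σ : Finset Div} (h : ∀ F ∈ σ, ∀ G ∈ σ, Compat F G) :
    Lam (σ.image fun F => pts F.1) ∧ (σ.image fun F => pts F.1).card = σ.card := by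
  refine ⟨⟨fun S hS T hT => ?_, fun S hS => ?_, fun S hS => ?_⟩,
    Finset.card_image_of_injective _ fun _ _ => pts_inj⟩
  · obtain ⟨F, hF, rfl⟩ := Finset.mem_image.1 hS
    obtain ⟨G, hG, rfl⟩ := Finset.mem_image.1 hT
    exact h F hF G hG
  · obtain ⟨F, -, rfl⟩ := Finset.mem_image.1 hS
    exact F.2
  · obtain ⟨F, -, rfl⟩ := Finset.mem_image.1 hS
    exact pts_few F.1

theorem mem_link (σ : Finset Div) (F : Div) :
    F ∈ link σ ↔ (∀ G ∈ σ, Compat F G) ∧ F ∉ σ := by
  rw [link, Finset.mem_sdiff, Finset.mem_filter]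
  exact and_congr_left' (and_iff_right (Finset.mem_univ F))

theorem link_iff (σ : Finset Div) (U : Finset Y) :
    U ∈ (link σ).image (fun F => pts F.1) ↔ Lk (σ.image fun F => pts F.1) U := by
  rw [Finset.mem_image]
  constructor
  · rintro ⟨F, hF, rfl⟩
    obtain ⟨h1, h2⟩ := (mem_link σ F).1 hF
    refine ⟨F.2, pts_few F.1, fun S hS => ?_, fun hS => ?_⟩
    · obtain ⟨G, hG, rfl⟩ := Finset.mem_image.1 hS
      exact h1 G hG
    · obtain ⟨G, hG, e⟩ := Finset.mem_image.1 hS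
      exact h2 (pts_inj e ▸ hG)
  · intro h
    obtain ⟨F, rfl⟩ := pts_surj h.few
    exact ⟨⟨F, h.two⟩, (mem_link σ _).2 ⟨fun G hG => h.cp _ (Finset.mem_image_of_mem _ hG),
      fun hG => h.new (Finset.mem_image.2 ⟨_, hG, rfl⟩)⟩, rfl⟩

end CombAux

open CombAux in
theorem sComb : SComb := by
  refine ⟨fun σ h h4 => ?_, fun τ h h5 a => ?_⟩
  · obtain ⟨c, hc⟩ := bal (lam h).1 ((lam h).2.trans h4) _ (link_iff σ)
      (fun f => ∃ c : Div → ℤ, ∀ h : Hyp, f (pH h) (qH h) = ∑ G ∈ σ, c G * vH G.1 h)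
      ⟨0, fun h => by simp⟩
      (fun f g ⟨c, hc⟩ ⟨d, hd⟩ => ⟨c + d, fun h => by
        simp only [Pi.add_apply, hc, hd, add_mul, Finset.sum_add_distrib]⟩)
      (fun C hC => by
        rcases hC with hC | ⟨x, rfl⟩
        · obtain ⟨F, hF, rfl⟩ := Finset.mem_image.1 hC
          refine ⟨fun G => if G = F then 1 else 0, fun h => ?_⟩
          beta_reduce
          rw [Finset.sum_eq_single F (fun G _ e => by rw [if_neg e, zero_mul])
            (fun e => absurd hF e), if_pos rfl, one_mul, CombAux.vH_eq]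
        · exact ⟨0, fun h => by simp [vv_single]⟩)
    refine ⟨c, fun h => ?_⟩
    rw [← hc h]
    beta_reduce
    rw [Finset.sum_image fun _ _ _ _ => pts_inj]
    exact Finset.sum_congr rfl fun F _ => CombAux.vH_eq F.1 h
  · obtain ⟨S, hS, h1, y, h2⟩ := (lam h).1.full ((lam h).2.trans h5) a
    obtain ⟨F, hF, rfl⟩ := Finset.mem_image.1 hS
    refine ⟨F, hF, (inl_mem _ _).1 h1, ?_⟩
    rw [(inr_mem _ _).1 h2]
    exact Option.some_ne_none y

end Pool.Agent.MP_cb8d3a_ag.H90
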