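import Pool.Agent.MP_cb8d3a_ag.H90.EvSpec

/-! Soundness of formal Laurent coefficients and of the evaluator of constant terms. -/

noncomputable section

open scoped BigOperators

namespace Pool.Agent.MP_cb8d3a_ag.H90

open Ev

namespace Ev1

variable {z : Fin 11 → ℂ} {F : Div}

theorem co_mul_succ {a b : ℤ} {x y : K} (hx : V z F a x) (hy : V z F b y) :
    co z F (a + b + 1) (x * y) =
      co z F a x * co z F (b + 1) y + co z F (a + 1) x * co z F b y := by
  simp only [co_apply, map_mul]
  rw [HahnSeries.coeff_mul]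
  have hne : ((a, b + 1) : ℤ × ℤ) ≠ (a + 1, b) := by
    intro h
    have := congrArg Prod.fst h
    simp only at this
    omega
  rw [← Finset.sum_pair (f := fun p : ℤ × ℤ => (ex z F x).coeff p.1 * (ex z F y).coeff p.2) hne]
  refine Finset.sum_subset ?_ ?_
  · intro p hp
    rw [Finset.mem_antidiagonal] at hp
    obtain ⟨h1, h2, h3⟩ := hp
    have e1 : a ≤ p.1 := not_lt.1 fun h => h1 (hx _ h)
    have e2 : b ≤ p.2 := not_lt.1 fun h => h2 (hy _ h)
    rw [Finset.mem_insert, Finset.mem_singleton, Prod.ext_iff, Prod.ext_iff]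
    simp only
    omega
  · intro p hp hn
    by_contra h0
    apply hn
    refine Finset.mem_antidiagonal.2 ⟨left_ne_zero_of_mul h0, right_ne_zero_of_mul h0, ?_⟩
    rw [Finset.mem_insert, Finset.mem_singleton] at hp
    rcases hp with rfl | rfl <;> simp only <;> ring

/-- The first two coefficients of `c`. -/
def R2 (z : Fin 11 → ℂ) (F : Div) (k : ℤ) (c c0 c1 : K) : Prop :=
  V z F k c ∧ co z F k c = c0 ∧ co z F (k + 1) c = c0 * c1

theorem R2.mul {a b : ℤ} {x x0 x1 y y0 y1 : K} (hx : R2 z F a x x0 x1) (hy : R2 z F b y y0 y1) :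
    R2 z F (a + b) (x * y) (x0 * y0) (x1 + y1) := by
  refine ⟨hx.1.mul hy.1, by rw [co_mul hx.1 hy.1, hx.2.1, hy.2.1], ?_⟩
  rw [co_mul_succ hx.1 hy.1, hx.2.1, hy.2.1, hx.2.2, hy.2.2]
  ring

theorem co_one_one : co z F 1 1 = 0 := by
  simpa using co_const (z := z) (F := F) 1 1

theorem R2_one : R2 z F 0 1 1 0 := ⟨V_one, co_one, by rw [zero_add, co_one_one, mul_zero]⟩

theorem R2.inv {k : ℤ} {c c0 c1 : K} (h : R2 z F k c c0 c1) (h0 : c0 ≠ 0) :
    R2 z F (-k) c⁻¹ c0⁻¹ (-c1) := by
  have h0' : co z F k c ≠ 0 := by rw [h.2.1]; exact h0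
  have hc : c ≠ 0 := by rintro rfl; exact h0' (map_zero _)
  obtain ⟨h1, h2⟩ := h.1.inv h0'
  refine ⟨h1, by rw [h2, h.2.1], ?_⟩
  have h3 := co_mul_succ h.1 h1
  rw [mul_inv_cancel₀ hc, add_neg_cancel, zero_add, co_one_one, h2, h.2.1, h.2.2] at h3
  have h4 : c0 * co z F (-k + 1) c⁻¹ = -c1 := by
    have : c0 * c1 * c0⁻¹ = c1 := by field_simp
    rw [this] at h3
    linear_combination -h3
  rw [← h4]
  field_simp

theorem R2.pow {k : ℤ} {c c0 c1 : K} (h : R2 z F k c c0 c1) (n : ℕ) :
    R2 z F (n * k) (c ^ n) (c0 ^ n) (n * c1) := by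
  induction n with
  | zero => simpa using R2_one
  | succ n ih =>
    have := ih.mul h
    rw [pow_succ, pow_succ]
    convert this using 1 <;> push_cast <;> ring

theorem R2.zpow {k : ℤ} {c c0 c1 : K} (h : R2 z F k c c0 c1) (h0 : c0 ≠ 0) (n : ℤ) :
    R2 z F (n * k) (c ^ n) (c0 ^ n) (n * c1) := by
  obtain ⟨m, rfl | rfl⟩ := Int.eq_nat_or_neg n
  · simpa using h.pow m
  · simpa using (h.pow m).inv (pow_ne_zero m h0)

/-- The relative second coefficient of an atom. -/
def rat (z : Fin 11 → ℂ) (F : Clus) (x : At) : K := (av z x - av z (inA F x)) / av z (inA F x)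

theorem R2_av (hA : SAt z) {x : At} (hx : x.1 ≠ x.2) :
    R2 z F (vA F.1 x) (av z x) (av z (inA F.1 x)) (rat z F.1 x) := by
  refine ⟨hA.V_av F x hx, hA.co_av F x hx, ?_⟩
  have h0 := hA.av_ne _ (hA.inA_ne F x hx)
  rw [co_apply, hA.ex_av F x hx, HahnSeries.coeff_add, HahnSeries.coeff_single_same,
    HahnSeries.coeff_single_of_ne (by omega), zero_add, rat]
  field_simp

theorem bne_pt : ∀ p q : Pt, (p != q) = true ↔ p ≠ q := by decide +kernel

theorem okL_cons {p : At × ℤ} {m : Mon} :
    okL (p :: m) = true ↔ p.1.1 ≠ p.1.2 ∧ okL m = true := by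
  rw [okL, List.all_cons, Bool.and_eq_true, bne_pt, okL]

theorem okF_cons {p : ℚ × Mon} {f : FP} :
    okF (p :: f) = true ↔ okL p.2 = true ∧ okF f = true := by
  simp [okF]

theorem R2_al (hA : SAt z) {m : Mon} (hm : okL m = true) :
    R2 z F (vl F.1 m) (al z m) (al z (inL F.1 m))
      (m.map fun p => (p.2 : K) * rat z F.1 p.1).sum := by
  induction m with
  | nil => exact R2_one
  | cons p m ih =>
    rw [okL_cons] at hm
    have h1 := ((R2_av (F := F) hA hm.1).zpow (hA.av_ne _ (hA.inA_ne F _ hm.1)) p.2).mul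
      (ih hm.2)
    have e1 : vl F.1 (p :: m) = p.2 * vA F.1 p.1 + vl F.1 m := by simp [vl]
    have e2 : al z (inL F.1 (p :: m)) = av z (inA F.1 p.1) ^ p.2 * al z (inL F.1 m) := by
      simp [inL, al]
    rw [e1, e2, al_cons, List.map_cons, List.sum_cons]
    exact h1

theorem inA_or (G : Clus) (x : At) : (inA G x).1 = x.1 ∨ (inA G x).2 = x.2 := by
  unfold inA
  split_ifs <;> simp

theorem nx_some {G : Clus} {x y : At} (h : nx G x = some y) :
    y.1 ≠ y.2 ∧ av z x - av z (inA G x) = av z y := by
  have ho := inA_or G x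
  simp only [nx] at h
  split_ifs at h with h1 h2
  · obtain rfl := Option.some.inj h
    refine ⟨h1, ?_⟩
    have : (inA G x).2 = x.2 := ho.resolve_left fun e => h1 e.symm
    simp only [av, this]
    ring
  · obtain rfl := Option.some.inj h
    refine ⟨fun e => h2 (Eq.symm e), ?_⟩
    have : x.1 = (inA G x).1 := not_not.1 h1
    simp only [av, ← this]
    ring

theorem nx_none {G : Clus} {x : At} (h : nx G x = none) : av z x - av z (inA G x) = 0 := by
  simp only [nx] at h
  split_ifs at h with h1 h2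
  have e : x = inA G x := Prod.ext (not_not.1 h1) (not_not.1 h2)
  rw [← e, sub_self]

/-- The second terms with a fixed cofactor. -/
def subM (G : Clus) (M m : Mon) : FP :=
  m.filterMap fun p => (nx G p.1).map fun y => ((p.2 : ℚ), (y, 1) :: (inA G p.1, -1) :: M)

theorem subL_eq (G : Clus) (m : Mon) : subL G m = subM G (inL G m) m := rfl

theorem evF_subM (G : Clus) (M m : Mon) :
    evF z (subM G M m) = al z M * (m.map fun p => (p.2 : K) * rat z G p.1).sum := by
  induction m with
  | nil => simp [subM, evF]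
  | cons p m ih =>
    rw [List.map_cons, List.sum_cons, mul_add, ← ih]
    cases h : nx G p.1 with
    | none =>
      have e : subM G M (p :: m) = subM G M m := by simp [subM, h]
      rw [e, rat, nx_none h]
      simp
    | some y =>
      have e : subM G M (p :: m) =
          ((p.2 : ℚ), (y, 1) :: (inA G p.1, -1) :: M) :: subM G M m := by simp [subM, h]
      rw [e, evF_cons, al_cons, al_cons, rat, (nx_some h).2]
      simp only [zpow_one, zpow_neg, Rat.cast_intCast, div_eq_mul_inv]
      ring

theorem ok_subM (hA : SAt z) {M m : Mon} (hM : okL M = true) (hm : okL m = true) :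
    okF (subM F.1 M m) = true := by
  induction m with
  | nil => rfl
  | cons p m ih =>
    rw [okL_cons] at hm
    cases h : nx F.1 p.1 with
    | none =>
      have e : subM F.1 M (p :: m) = subM F.1 M m := by simp [subM, h]
      rw [e]; exact ih hm.2
    | some y =>
      have e : subM F.1 M (p :: m) =
          ((p.2 : ℚ), (y, 1) :: (inA F.1 p.1, -1) :: M) :: subM F.1 M m := by simp [subM, h]
      rw [e, okF_cons, okL_cons, okL_cons]
      exact ⟨⟨(nx_some (z := z) h).1, hA.inA_ne F _ hm.1, hM⟩, ih hm.2⟩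

theorem co_rat_mul (k : ℤ) (q : ℚ) (c : K) : co z F k ((q : K) * c) = (q : K) * co z F k c := by
  have e : ∀ d : K, (q : K) * d = (q : ℂ) • d := fun d => by
    rw [Algebra.smul_def, map_ratCast]
  rw [e, e, map_smul]

theorem minO_cons (G : Clus) (p : ℚ × Mon) (f : FP) :
    minO G (p :: f) = min (vl G p.2) (minO G f) := rfl

/-- One term of `cof`. -/
def cof1 (G : Clus) (k : ℤ) (p : ℚ × Mon) : FP :=
  if vl G p.2 = k then [(p.1, inL G p.2)]
  else if vl G p.2 + 1 = k then scF p.1 (subL G p.2) else []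

theorem cof_cons (G : Clus) (k : ℤ) (p : ℚ × Mon) (f : FP) :
    cof G k (p :: f) = cof1 G k p ++ cof G k f := rfl

theorem evF_OU (hA : SAt z) (f : FP) (hf : okF f = true) : evF z f ∈ OU z := by
  induction f with
  | nil => exact zero_mem _
  | cons p f ih =>
    rw [okF_cons] at hf
    rw [evF_cons]
    refine add_mem (mul_mem ?_ (hA.al_OU _ hf.1)) (ih hf.2)
    have := (OU z).algebraMap_mem (p.1 : ℂ)
    rwa [map_ratCast] at this

theorem V_minO (hA : SAt z) (F : Div) (f : FP) (hf : okF f = true) :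
    V z F (minO F.1 f) (evF z f) := by
  induction f with
  | nil => exact V_zero _
  | cons p f ih =>
    rw [okF_cons] at hf
    rw [evF_cons, minO_cons]
    refine V.add ?_ ((ih hf.2).mono (min_le_right _ _))
    have := (V_ratCast (z := z) (F := F) p.1).mul (hA.V_al F _ hf.1)
    rw [zero_add] at this
    exact this.mono (min_le_left _ _)

theorem cof_ok (hA : SAt z) (F : Div) (k : ℤ) (f : FP) (hf : okF f = true) :
    okF (cof F.1 k f) = true := by
  induction f with
  | nil => rfl
  | cons p f ih =>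
    rw [okF_cons] at hf
    rw [cof_cons, okF_append, ih hf.2, Bool.and_true]
    unfold cof1
    split_ifs
    · exact okF_cons.2 ⟨hA.ok_inL F _ hf.1, rfl⟩
    · rw [okF_scF, subL_eq]
      exact ok_subM hA (hA.ok_inL F _ hf.1) hf.1
    · rfl

theorem co_cof (hA : SAt z) (F : Div) (k : ℤ) (f : FP) (hf : okF f = true)
    (hk : k - 1 ≤ minO F.1 f) : co z F k (evF z f) = evF z (cof F.1 k f) := by
  induction f with
  | nil => exact map_zero _
  | cons p f ih =>
    rw [okF_cons] at hf
    rw [minO_cons, le_min_iff] at hk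
    rw [evF_cons, cof_cons, evF_append, map_add, ih hf.2 hk.2, co_rat_mul]
    congr 1
    have hR := R2_al (F := F) hA hf.1
    unfold cof1
    split_ifs with h1 h2
    · rw [← h1, hR.2.1, evF_cons, evF_nil, add_zero]
    · rw [← h2, hR.2.2, evF_scF, subL_eq, evF_subM]
    · rw [hR.1 k (by omega), mul_zero, evF_nil]

theorem al_negL (hA : SAt z) : al z negL = -1 := by
  have h0 : av z (Sum.inr 0, Sum.inl 0) ≠ 0 := hA.av_ne _ (by simp)
  have e : av z (Sum.inl 0, Sum.inr 0) = -av z (Sum.inr 0, Sum.inl 0) := by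
    simp only [av]; ring
  rw [negL, al_cons, al_cons, al_nil, e]
  simp only [zpow_one, zpow_neg]
  field_simp

theorem constM_eq (hA : SAt z) {m : Mon} {a : ℚ} (hm : okL m = true) (h : constM m = some a) :
    al z m = (a : K) := by
  unfold constM at h
  split_ifs at h with h1 h2
  · obtain rfl := Option.some.inj h
    rw [hA.al_eq m [] hm rfl h1, al_nil, Rat.cast_one]
  · obtain rfl := Option.some.inj h
    rw [hA.al_eq m negL hm (by decide) h2, al_negL hA]
    simp

theorem constF_eq (hA : SAt z) (f : FP) (v : ℚ) (hf : okF f = true) (h : constF f = some v) :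
    evF z f = (v : K) := by
  induction f generalizing v with
  | nil =>
    obtain rfl := Option.some.inj h
    simp [evF]
  | cons p f ih =>
    rw [okF_cons] at hf
    rw [constF] at h
    cases h1 : constM p.2 with
    | none => rw [h1] at h; simp at h
    | some a =>
      cases h2 : constF f with
      | none => rw [h1, h2] at h; simp at h
      | some b =>
        rw [h1, h2] at h
        obtain rfl := Option.some.inj h
        rw [evF_cons, constM_eq hA hf.1 h1, ih b hf.2 h2]
        push_cast
        rfl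

theorem addO_some {x y : Option ℚ} {v : ℚ} (h : addO x y = some v) :
    ∃ a b, x = some a ∧ y = some b ∧ v = a + b := by
  cases x with
  | none => simp [addO] at h
  | some a =>
    cases y with
    | none => simp [addO] at h
    | some b => exact ⟨a, b, rfl, rfl, (Option.some.inj h).symm⟩

theorem evCT_eq (hA : SAt z) (r : List Div) (u w : FP) (v : ℚ) (hu : okF u = true)
    (hw : okF w = true) (h : evCT (r.map Subtype.val) u w = some v) :
    CT z r.reverse (evF z u * evF z w) = (v : K) := by
  induction r generalizing u w v with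
  | nil =>
    rw [List.reverse_nil, CT_nil, ← evF_mulF]
    exact constF_eq hA _ v (okF_mulF hu hw) h
  | cons F r ih =>
    rw [List.reverse_cons, CT_append, CT_cons, CT_nil]
    rw [List.map_cons, evCT] at h
    have Vu := V_minO hA F u hu
    have Vw := V_minO hA F w hw
    split_ifs at h with h1 h2 h3
    · obtain rfl := Option.some.inj h
      rw [(Vu.mul Vw) 0 (by omega), map_zero, Rat.cast_zero]
    · rw [← h2, co_mul Vu Vw, co_cof hA F _ u hu (by omega), co_cof hA F _ w hw (by omega)]
      exact ih _ _ _ (cof_ok hA F _ u hu) (cof_ok hA F _ w hw) h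
    · obtain ⟨a, b, ha, hb, rfl⟩ := addO_some h
      have e : (0 : ℤ) = minO F.1 u + minO F.1 w + 1 := by omega
      rw [e, co_mul_succ Vu Vw, map_add, co_cof hA F _ u hu (by omega),
        co_cof hA F _ w hw (by omega), co_cof hA F _ u hu (by omega),
        co_cof hA F _ w hw (by omega),
        ih _ _ _ (cof_ok hA F _ u hu) (cof_ok hA F _ w hw) ha,
        ih _ _ _ (cof_ok hA F _ u hu) (cof_ok hA F _ w hw) hb, Rat.cast_add]

end Ev1

theorem sE1 (z : Fin 11 → ℂ) (hA : SAt z) : SE1 z where
  evF_OU := Ev1.evF_OU hA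
  V_minO := Ev1.V_minO hA
  cof_ok := Ev1.cof_ok hA
  co_cof := Ev1.co_cof hA
  evCT_eq := Ev1.evCT_eq hA

end Pool.Agent.MP_cb8d3a_ag.H90
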