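import Pool.Agent.MP_cb8d3a_ag.H90.EvSpec

/-! Soundness of the formal Euler derivative and of the formal contractions. -/

noncomputable section

open scoped BigOperators

namespace Pool.Agent.MP_cb8d3a_ag.H90

open Ev

namespace Ev2Aux

variable {z : Fin 11 → ℂ}

theorem evF_flatMap {ι : Type} (l : List ι) (g : ι → FP) :
    evF z (l.flatMap g) = (l.map fun i => evF z (g i)).sum := by
  induction l with
  | nil => rfl
  | cons a l ih => rw [List.flatMap_cons, evF_append, ih, List.map_cons, List.sum_cons]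

theorem okF_iff (f : FP) : okF f = true ↔ ∀ p ∈ f, okL p.2 = true := by
  simp [okF]

theorem okL_iff (m : Mon) : okL m = true ↔ ∀ p ∈ m, p.1.1 ≠ p.1.2 := by
  unfold okL
  rw [List.all_eq_true]
  refine forall_congr' fun p => forall_congr' fun _ => ?_
  generalize p.1.1 = a
  generalize p.1.2 = b
  revert a b
  decide +kernel

theorem okL_cons (p : At × ℤ) (m : Mon) :
    okL (p :: m) = true ↔ p.1.1 ≠ p.1.2 ∧ okL m = true := by
  simp only [okL_iff, List.forall_mem_cons]

/-- The Euler field on a point. -/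
theorem act_pt (F : Div) (p : Pt) :
    act (theta z F) (pt z p) = if memC F.1 p then
      (if F.1.2 = some none then pt z (ctr F.1) - pt z p else pt z p - pt z (ctr F.1)) else 0 := by
  cases p with
  | inl a =>
    change act (theta z F) (t a) = _
    rw [act_t, ← centre_eq]
    simp [theta, memC, pt]
  | inr i =>
    change act (theta z F) (algebraMap ℂ K (z i)) = _
    rw [act_const]
    by_cases h : F.1.2 = some (some i)
    · simp [memC, ctr, h]
    · simp [memC, h]

theorem act_av (F : Div) (x : At) :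
    act (theta z F) (av z x) = (vA F.1 x : K) * av z x + (av z x - av z (inA F.1 x)) := by
  unfold av
  rw [map_sub, act_pt, act_pt]
  unfold vA inA
  cases h1 : memC F.1 x.1 <;> cases h2 : memC F.1 x.2 <;>
    by_cases h : F.1.2 = some none <;> simp [h]

theorem inA_or (F : Clus) (x : At) : (inA F x).1 = x.1 ∨ (inA F x).2 = x.2 := by
  unfold inA
  split_ifs <;> simp

/-- The value of the second term. -/
def nv (z : Fin 11 → ℂ) (F : Clus) (x : At) : K := ((nx F x).map (av z)).getD 0

theorem sub_eq_nv (F : Clus) (x : At) : av z x - av z (inA F x) = nv z F x := by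
  unfold nv nx
  by_cases h1 : x.1 = (inA F x).1
  · by_cases h2 : x.2 = (inA F x).2
    · simp only [ne_eq, ← h1, ← h2, not_true_eq_false, if_false, Option.map_none,
        Option.getD_none, av]
      ring
    · simp only [ne_eq, ← h1, h2, not_true_eq_false, not_false_eq_true, if_false, if_true,
        Option.map_some, Option.getD_some, av]
      ring
  · have h2 : (inA F x).2 = x.2 := (inA_or F x).resolve_left fun h => h1 h.symm
    simp only [ne_eq, h1, h2, not_false_eq_true, if_true, Option.map_some, Option.getD_some, av]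
    ring

theorem nx_ne {F : Clus} {x y : At} (h : nx F x = some y) : y.1 ≠ y.2 := by
  unfold nx at h
  simp only at h
  split_ifs at h with h1 h2
  · obtain rfl := Option.some.inj h
    exact h1
  · obtain rfl := Option.some.inj h
    exact fun e => h2 e.symm

theorem dlog_av (hA : SAt z) (F : Div) {x : At} (hx : x.1 ≠ x.2) :
    act (theta z F) (av z x) / av z x = (vA F.1 x : K) + nv z F.1 x / av z x := by
  have := hA.av_ne x hx
  rw [act_av, sub_eq_nv]
  field_simp

theorem evF_corr (F : Clus) (wl : List (At × ℚ)) (m : Mon) :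
    evF z (corr F wl m) =
      al z m * (wl.map fun q => (q.2 : K) * (nv z F q.1 / av z q.1)).sum := by
  induction wl with
  | nil => simp [corr, evF]
  | cons q wl ih =>
    unfold corr at ih ⊢
    rw [List.filterMap_cons, List.map_cons, List.sum_cons, mul_add, ← ih]
    unfold nv
    cases h : nx F q.1 with
    | none => simp
    | some y =>
      simp only [Option.map_some, evF_cons, al_cons, Option.getD_some, zpow_one, zpow_neg]
      ring

theorem okF_corr (F : Clus) {wl : List (At × ℚ)} {m : Mon} (hw : ∀ q ∈ wl, q.1.1 ≠ q.1.2)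
    (hm : okL m = true) : okF (corr F wl m) = true := by
  rw [okF_iff]
  intro p hp
  unfold corr at hp
  obtain ⟨q, hq, e⟩ := List.mem_filterMap.1 hp
  obtain ⟨y, hy, rfl⟩ := Option.map_eq_some_iff.1 e
  exact (okL_cons _ _).2 ⟨nx_ne hy, (okL_cons _ _).2 ⟨hw q hq, hm⟩⟩

theorem wl0_ne : ∀ q ∈ wl0, q.1.1 ≠ q.1.2 := by
  simp [wl0, tz, tt]

theorem sum_w0 {R : Type} [Field R] [CharZero R] (g : At → R) :
    ∑ h : Hyp, (w0 h : R) * g (toAt h) = (wl0.map fun q => (q.2 : R) * g q.1).sum := by
  rw [Fintype.sum_sum_type, Fintype.sum_prod_type]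
  have e1 : ∀ a : Fin 5, ∑ i : Fin 11, (w0 (Sum.inl (a, i)) : R) * g (toAt (Sum.inl (a, i))) =
      ((-11 / 3 : ℚ) : R) * g (tz a 0) := by
    intro a
    rw [Finset.sum_eq_single 0]
    · simp [w0, toAt, tz]
    · intro i _ hi
      simp [w0, hi]
    · simp
  have e2 : ∑ p : {p : Fin 5 × Fin 5 // p.1 < p.2}, (w0 (Sum.inr p) : R) * g (toAt (Sum.inr p)) =
      ∑ p ∈ (Finset.univ : Finset (Fin 5 × Fin 5)).filter (fun p => p.1 < p.2),
        ((2 / 3 : ℚ) : R) * g (tt p.1 p.2) :=
    (Finset.sum_subtype _ (by simp)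
      fun p : Fin 5 × Fin 5 => ((2 / 3 : ℚ) : R) * g (tt p.1 p.2)).symm
  simp only [e1]
  rw [e2, Finset.sum_filter, Fintype.sum_prod_type]
  simp only [Fin.sum_univ_five, wl0, List.map_cons, List.map_nil, List.sum_cons, List.sum_nil]
  simp
  ring

theorem wl0_vA : ∀ F : Clus, homB F = true →
    (wl0.map fun q => q.2 * (vA F q.1 : ℚ)).sum = -((a3 F : ℚ) / 3) := by
  decide +kernel

theorem aW_w0 (hA : SAt z) (F : Clus) (h : homB F = true) : aW w0 F = -((a3 F : ℚ) / 3) := by
  rw [← wl0_vA F h]
  have := sum_w0 (R := ℚ) fun x => (vA F x : ℚ)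
  simp only [Rat.cast_id] at this
  rw [← this]
  unfold aW
  simp only [hA.vH_eq]

theorem sum_split {ι : Type} (l : List ι) (c a b d : ι → K) (h : ∀ i ∈ l, d i = a i + b i) :
    (l.map fun i => c i * d i).sum =
      (l.map fun i => c i * a i).sum + (l.map fun i => c i * b i).sum := by
  induction l with
  | nil => simp
  | cons i l ih =>
    simp only [List.map_cons, List.sum_cons]
    rw [ih fun j hj => h j (List.mem_cons_of_mem _ hj), h i List.mem_cons_self]
    ring

theorem eta_theta (hA : SAt z) (hI : SInv z) (F : Div) (h : homB F.1 = true) :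
    ev1 (etaW z w0) (theta z F) = -((a3 F.1 : K) / 3) +
      (wl0.map fun q => (q.2 : K) * (nv z F.1 q.1 / av z q.1)).sum := by
  rw [hI.ev1_eta]
  simp only [hyp_eq]
  rw [sum_w0 (R := K) fun x => act (theta z F) (av z x) / av z x,
    sum_split wl0 (fun q => (q.2 : K)) (fun q => (vA F.1 q.1 : K))
      (fun q => nv z F.1 q.1 / av z q.1) _ fun q hq => dlog_av hA F (wl0_ne q hq)]
  congr 1
  have := congrArg (fun x : ℚ => (x : K)) (wl0_vA F.1 h)
  simp only [Rat.cast_list_sum, List.map_map, Function.comp_def] at this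
  push_cast at this
  exact this

theorem act_theta_al (hA : SAt z) (F : Div) {m : Mon} (hm : okL m = true) :
    act (theta z F) (al z m) = al z m * ((vl F.1 m : K) +
      (m.map fun q => (q.2 : K) * (nv z F.1 q.1 / av z q.1)).sum) := by
  rw [hA.act_al _ _ hm,
    sum_split m (fun q => (q.2 : K)) (fun q => (vA F.1 q.1 : K))
      (fun q => nv z F.1 q.1 / av z q.1) _ fun q hq => dlog_av hA F ((okL_iff m).1 hm q hq)]
  congr 2
  unfold vl
  simp only [Int.cast_list_sum, List.map_map, Function.comp_def, Int.cast_mul]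

theorem dwF_cons (F : Clus) (p : ℚ × Mon) (f : FP) :
    dwF F (p :: f) = scF p.1 ((eigQ F (vl F p.2), p.2) ::
      (corr F (p.2.map fun q => (q.1, (q.2 : ℚ))) p.2 ++ corr F wl0 p.2)) ++ dwF F f := rfl

theorem okF_cons (p : ℚ × Mon) (f : FP) :
    okF (p :: f) = true ↔ okL p.2 = true ∧ okF f = true := by
  simp [okF]

theorem dwF_ok (F : Clus) (f : FP) (hf : okF f = true) : okF (dwF F f) = true := by
  induction f with
  | nil => rfl
  | cons p f ih =>
    obtain ⟨hp, hf⟩ := (okF_cons p f).1 hf
    rw [dwF_cons, okF_append, okF_scF, ih hf, Bool.and_true, okF_cons, okF_append,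
      okF_corr F wl0_ne hp, Bool.and_true]
    refine ⟨hp, okF_corr F ?_ hp⟩
    intro q hq
    obtain ⟨q', hq', rfl⟩ := List.mem_map.1 hq
    exact (okL_iff _).1 hp q' hq'

theorem dw_ratCast (w : Hyp → ℚ) (X : VF) (r : ℚ) (c : K) :
    dw z w X ((r : K) * c) = (r : K) * dw z w X c := by
  have e : ∀ c : K, (r : K) * c = (r : ℂ) • c := fun c => by
    rw [Algebra.smul_def, map_ratCast]
  rw [e, e, map_smul]

theorem dwF_eq (hA : SAt z) (hI : SInv z) (F : Div) (f : FP) (h : homB F.1 = true)
    (hf : okF f = true) : dw z w0 (theta z F) (evF z f) = evF z (dwF F.1 f) := by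
  induction f with
  | nil => exact map_zero _
  | cons p f ih =>
    obtain ⟨hp, hf⟩ := (okF_cons p f).1 hf
    rw [dwF_cons, evF_append, evF_cons, map_add, ih hf, evF_scF, dw_ratCast, dw_apply,
      act_theta_al hA F hp, eta_theta hA hI F h, evF_cons, evF_append, evF_corr, evF_corr]
    simp only [List.map_map, Function.comp_def, eigQ, Rat.cast_intCast, Rat.cast_sub,
      Rat.cast_div, Rat.cast_ofNat]
    ring

theorem thAt_ne {F : Clus} {a : Fin 5} {x : At} (h : thAt F a = some x) : x.1 ≠ x.2 := by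
  unfold thAt at h
  split_ifs at h with h1 h2
  · obtain rfl := Option.some.inj h
    exact h1.2
  · obtain rfl := Option.some.inj h
    exact h1.2.symm

theorem theta_eq (F : Div) (a : Fin 5) :
    theta z F a = ((thAt F.1 a).map (av z)).getD 0 := by
  unfold theta thAt
  rw [centre_eq]
  by_cases h1 : a ∈ F.1.1
  · by_cases h2 : ctr F.1 = Sum.inl a
    · simp [h1, h2, pt]
    · by_cases h3 : F.1.2 = some none <;> simp [h1, h2, h3, av, pt]
  · simp [h1]

/-- One term of a contraction. -/
def cfT (F : Clus) (r : List Clus) (I : Finset (Fin 5)) (a : Fin 5) : FP :=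
  if a ∈ I then
    match thAt F a with
    | some x => mulM (sgQ a I) [(x, 1)] (cf r (I.erase a))
    | none => []
  else []

theorem cf_cons (F : Clus) (r : List Clus) (I : Finset (Fin 5)) :
    cf (F :: r) I = (List.finRange 5).flatMap (cfT F r I) := rfl

theorem mem_cf_cons {F : Clus} {r : List Clus} {I : Finset (Fin 5)} {p : ℚ × Mon}
    (hp : p ∈ cf (F :: r) I) :
    ∃ a x q, thAt F a = some x ∧ q ∈ cf r (I.erase a) ∧ p.2 = (x, 1) :: q.2 := by
  rw [cf_cons] at hp
  obtain ⟨a, -, ha⟩ := List.mem_flatMap.1 hp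
  unfold cfT at ha
  split_ifs at ha with h
  · cases hx : thAt F a with
    | none => simp [hx] at ha
    | some x =>
      simp only [hx, mulM] at ha
      obtain ⟨q, hq, rfl⟩ := List.mem_map.1 ha
      exact ⟨a, x, q, hx, hq, rfl⟩
  · simp at ha

theorem mem_cf_nil {I : Finset (Fin 5)} {p : ℚ × Mon} (hp : p ∈ cf [] I) : p.2 = [] := by
  unfold cf at hp
  split_ifs at hp
  · rw [List.mem_singleton.1 hp]
  · simp at hp

theorem cf_ok (r : List Clus) (I : Finset (Fin 5)) : okF (cf r I) = true := by
  induction r generalizing I with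
  | nil =>
    rw [okF_iff]
    intro p hp
    rw [mem_cf_nil hp]
    rfl
  | cons F r ih =>
    rw [okF_iff]
    intro p hp
    obtain ⟨a, x, q, hx, hq, e⟩ := mem_cf_cons hp
    rw [e, okL_cons]
    exact ⟨thAt_ne hx, (okF_iff _).1 (ih _) q hq⟩

theorem mono_smul (J : Finset (Fin 5)) (f : K) : mono J f = f • mono J 1 := by
  funext I
  simp only [mono, Pi.smul_apply, smul_eq_mul]
  split_ifs <;> simp

theorem evF_cfT (F : Div) (r : List Clus) (I : Finset (Fin 5)) (a : Fin 5) :
    evF z (cfT F.1 r I a) =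
      if a ∈ I then sgn a I * theta z F a * evF z (cf r (I.erase a)) else 0 := by
  unfold cfT
  split_ifs with h
  · rw [theta_eq]
    cases hx : thAt F.1 a with
    | none => simp [evF_nil]
    | some x =>
      simp only [evF_mulM, al_cons, al_nil, Option.map_some, Option.getD_some, zpow_one, mul_one,
        sgQ, sgn]
      push_cast
      rfl
  · rfl

theorem cf_eq (h1 : SCar1) (r : List Div) (I : Finset (Fin 5)) :
    iotas (r.reverse.map (theta z)) (mono I 1) ∅ = evF z (cf (r.map Subtype.val) I) := by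
  induction r generalizing I with
  | nil =>
    change mono I 1 ∅ = evF z (if I = ∅ then [(1, [])] else [])
    unfold mono
    by_cases h : I = ∅
    · simp [h, evF_cons, evF_nil, al_nil]
    · rw [if_neg h, if_neg (Ne.symm h), evF_nil]
  | cons F r ih =>
    rw [List.reverse_cons, List.map_append, iotas_append, List.map_cons, List.map_nil,
      iotas_cons, iotas_nil, h1.iota_mono, map_sum, Finset.sum_apply, List.map_cons, cf_cons,
      evF_flatMap, ← Fin.sum_univ_def]
    simp only [evF_cfT]
    rw [← Finset.sum_filter, Finset.filter_mem_eq_inter, Finset.univ_inter]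
    refine Finset.sum_congr rfl fun a _ => ?_
    rw [mono_smul, h1.iotas_smul, Pi.smul_apply, ih, smul_eq_mul, mul_one]

theorem thAt_T {F : Clus} {a : Fin 5} {x : At} (hF : homB F = true) (h : thAt F a = some x) :
    vA dT.1 x = -1 ∧ inA dT.1 x = x := by
  obtain ⟨A, _ | _ | i⟩ := F
  · unfold thAt at h
    split_ifs at h with h1 h2
    · simp at h2
    · obtain rfl := Option.some.inj h
      simp [vA, inA, dT, memC, ctr]
  · unfold thAt at h
    split_ifs at h with h1 h2
    · obtain rfl := Option.some.inj h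
      simp [vA, inA, dT, memC, ctr]
    · simp at h2
  · simp [homB] at hF

theorem cf_mon (r : List Clus) (hr : ∀ F ∈ r, homB F = true) (I : Finset (Fin 5)) :
    ∀ p ∈ cf r I, vl dT.1 p.2 = -(r.length : ℤ) ∧ inL dT.1 p.2 = p.2 := by
  induction r generalizing I with
  | nil =>
    intro p hp
    rw [mem_cf_nil hp]
    exact ⟨rfl, rfl⟩
  | cons F r ih =>
    intro p hp
    obtain ⟨a, x, q, hx, hq, e⟩ := mem_cf_cons hp
    obtain ⟨e1, e2⟩ := ih (fun G hG => hr G (List.mem_cons_of_mem _ hG)) _ q hq
    obtain ⟨f1, f2⟩ := thAt_T (hr F List.mem_cons_self) hx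
    rw [e]
    unfold vl inL at *
    rw [List.map_cons, List.sum_cons, List.map_cons, e1, e2, f1, f2, List.length_cons]
    refine ⟨?_, rfl⟩
    push_cast
    ring

theorem evF_lead (hA : SAt z) (F : Div) (k : ℤ) (f : FP) (hf : okF f = true)
    (h : ∀ p ∈ f, vl F.1 p.2 = k ∧ inL F.1 p.2 = p.2) :
    V z F k (evF z f) ∧ co z F k (evF z f) = evF z f := by
  induction f with
  | nil => exact ⟨V_zero k, map_zero _⟩
  | cons p f ih =>
    obtain ⟨hp, hf⟩ := (okF_cons p f).1 hf
    obtain ⟨e1, e2⟩ := ih hf fun q hq => h q (List.mem_cons_of_mem _ hq)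
    obtain ⟨f1, f2⟩ := h p List.mem_cons_self
    have g1 := hA.V_al F p.2 hp
    have g2 := hA.co_al F p.2 hp
    rw [f1] at g1
    rw [f1, f2] at g2
    have g3 := (V_ratCast (z := z) (F := F) p.1).mul g1
    have g4 := co_mul (V_ratCast (z := z) (F := F) p.1) g1
    rw [zero_add] at g3
    rw [zero_add, co_ratCast, g2] at g4
    rw [evF_cons, map_add, g4, e2]
    exact ⟨g3.add e1, rfl⟩

end Ev2Aux

theorem sE2 (z : Fin 11 → ℂ) (hA : SAt z) (hI : SInv z) (h1 : SCar1) : SE2 z where
  aW_w0 F h := Ev2Aux.aW_w0 hA F.1 h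
  dwF_ok F f hf := Ev2Aux.dwF_ok F.1 f hf
  dwF_eq F f h hf := Ev2Aux.dwF_eq hA hI F f h hf
  cf_ok r I := Ev2Aux.cf_ok _ I
  cf_eq r I := Ev2Aux.cf_eq h1 r I
  cf_T r I hr := by
    refine Ev2Aux.evF_lead hA dT _ _ (Ev2Aux.cf_ok _ I) ?_
    have := Ev2Aux.cf_mon (r.map Subtype.val) (by
      intro F hF
      obtain ⟨G, hG, rfl⟩ := List.mem_map.1 hF
      exact hr G hG) I
    rwa [List.length_map] at this

end Pool.Agent.MP_cb8d3a_ag.H90
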