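import Pool.Agent.MP_cb8d3a_ag.H90.EvSpec

/-! Enumeration of the homogeneous nested sets. -/

open scoped BigOperators

namespace Pool.Agent.MP_cb8d3a_ag.H90

open Ev

namespace Ev4Aux

theorem nests_zero (L : List Clus) : nests 0 L = [[]] := rfl

theorem nests_nil (n : ℕ) : nests (n + 1) [] = [] := rfl

theorem nests_cons (n : ℕ) (F : Clus) (L : List Clus) :
    nests (n + 1) (F :: L) =
      (nests n (L.filter (compB F))).map (F :: ·) ++ nests (n + 1) L := rfl

theorem sublist_filter {α : Type*} (p : α → Bool) (s L : List α) :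
    s.Sublist (L.filter p) ↔ s.Sublist L ∧ ∀ x ∈ s, p x = true := by
  constructor
  · intro h
    exact ⟨h.trans List.filter_sublist, fun x hx => (List.mem_filter.1 (h.subset hx)).2⟩
  · rintro ⟨h, h'⟩
    have := h.filter p
    rwa [List.filter_eq_self.2 h'] at this

theorem mem_nests (n : ℕ) : ∀ (L s : List Clus), s ∈ nests n L ↔
    s.Sublist L ∧ s.length = n ∧ s.Pairwise (fun F G => compB F G = true) := by
  induction n with
  | zero =>
    intro L s
    rw [nests_zero, List.mem_singleton]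
    constructor
    · rintro rfl
      exact ⟨List.nil_sublist _, rfl, List.Pairwise.nil⟩
    · rintro ⟨-, h, -⟩
      exact List.length_eq_zero_iff.1 h
  | succ n ih =>
    intro L
    induction L with
    | nil =>
      intro s
      rw [nests_nil]
      constructor
      · intro h; exact absurd h List.not_mem_nil
      · rintro ⟨h, h', -⟩
        rw [List.sublist_nil.1 h] at h'
        exact absurd h' (by simp)
    | cons F L ihL =>
      intro s
      rw [nests_cons, List.mem_append, List.mem_map, ihL]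
      constructor
      · rintro (⟨s', hs', rfl⟩ | ⟨h1, h2, h3⟩)
        · obtain ⟨h1, h2, h3⟩ := (ih _ _).1 hs'
          obtain ⟨h4, h5⟩ := (sublist_filter _ _ _).1 h1
          exact ⟨h4.cons_cons F, by simp [h2], List.pairwise_cons.2 ⟨h5, h3⟩⟩
        · exact ⟨h1.cons F, h2, h3⟩
      · rintro ⟨h1, h2, h3⟩
        rcases List.sublist_cons_iff.1 h1 with h | ⟨s', rfl, h⟩
        · exact Or.inr ⟨h, h2, h3⟩
        · obtain ⟨h4, h5⟩ := List.pairwise_cons.1 h3
          exact Or.inl ⟨s', (ih _ _).2 ⟨(sublist_filter _ _ _).2 ⟨h, h4⟩, by simpa using h2, h5⟩,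
            rfl⟩

theorem nodup_nests (n : ℕ) : ∀ L : List Clus, L.Nodup → (nests n L).Nodup := by
  induction n with
  | zero => intro L _; rw [nests_zero]; exact List.nodup_singleton _
  | succ n ih =>
    intro L
    induction L with
    | nil => intro _; rw [nests_nil]; exact List.nodup_nil
    | cons F L ihL =>
      intro h
      obtain ⟨hF, hL⟩ := List.nodup_cons.1 h
      rw [nests_cons]
      refine List.nodup_append.2 ⟨(ih _ (hL.filter _)).map fun a b e => (List.cons.inj e).2,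
        ihL hL, fun a ha b hb e => ?_⟩
      obtain ⟨s', -, rfl⟩ := List.mem_map.1 ha
      subst e
      exact hF (((mem_nests _ _ _).1 hb).1.subset List.mem_cons_self)

theorem fold_some {α : Type*} (g : α → Option ℚ) : ∀ (l : List α) (v : ℚ),
    l.foldr (fun s v => addO (g s) v) (some 0) = some v →
      (∀ s ∈ l, g s = some ((g s).getD 0)) ∧ v = (l.map fun s => (g s).getD 0).sum := by
  intro l
  induction l with
  | nil =>
    intro v h
    exact ⟨fun s hs => absurd hs List.not_mem_nil, (Option.some.inj h).symm⟩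
  | cons a l ih =>
    intro v h
    rw [List.foldr_cons] at h
    rcases ha : g a with _ | x
    · rw [ha] at h; exact absurd h (by simp [addO])
    · rcases hb : l.foldr (fun s v => addO (g s) v) (some 0) with _ | y
      · rw [ha, hb] at h; exact absurd h (by simp [addO])
      · rw [ha, hb] at h
        obtain ⟨h1, h2⟩ := ih y hb
        refine ⟨fun s hs => ?_, ?_⟩
        · rcases List.mem_cons.1 hs with rfl | hs
          · rw [ha]; rfl
          · exact h1 s hs
        · rw [List.map_cons, List.sum_cons, ← h2, ha]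
          exact (Option.some.inj h).symm

theorem homA : ∀ α : Fin 7, α ≠ 0 → homB (Fa α).1 = true → α = 1 := by decide +kernel

theorem homBb : ∀ β : Fin 7, homB (Fb β).1 = false := by decide +kernel

theorem homE : homB dE.1 = true := by decide +kernel

theorem Fa_one : (Fa 1).1 = cF := by decide +kernel

theorem eq_of_sub {α : Type*} {d l m : List α} (hd : d.Nodup) (hl : l.Sublist d)
    (hm : m.Sublist d) (h : ∀ x, x ∈ l ↔ x ∈ m) : l = m :=
  (hd.perm_iff_eq_of_sublist hl hm).1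
    ((List.perm_ext_iff_of_nodup (hd.sublist hl) (hd.sublist hm)).2 h)

section
variable (hL : SList) (hc : ∀ F G : Div, compB F.1 G.1 = true ↔ Compat F G)
include hL

theorem nodup_val : (allD.map Subtype.val).Nodup :=
  hL.nodup_allD.map Subtype.val_injective

omit hL in
theorem HC_sub : HC.Sublist (allD.map Subtype.val) :=
  List.filter_sublist.map _

theorem nodup_HC : HC.Nodup := (nodup_val hL).sublist HC_sub

include hc

theorem mem_HC (c : Clus) :
    c ∈ HC ↔ ∃ F : Div, F.1 = c ∧ homB F.1 = true ∧ Compat F dE ∧ F ≠ dE := by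
  unfold HC
  rw [List.mem_map]
  constructor
  · rintro ⟨F, hF, rfl⟩
    have := (List.mem_filter.1 hF).2
    simp only [Bool.and_eq_true, decide_eq_true_eq] at this
    exact ⟨F, rfl, this.1.1, (hc _ _).1 this.1.2, this.2⟩
  · rintro ⟨F, rfl, h1, h2, h3⟩
    refine ⟨F, List.mem_filter.2 ⟨hL.mem_allD F, ?_⟩, rfl⟩
    simp only [Bool.and_eq_true, decide_eq_true_eq]
    exact ⟨⟨h1, (hc _ _).2 h2⟩, h3⟩

theorem mem_sOf {τ : Finset Div} (hτ : τ ∈ Nest 5) (hh : ∀ F ∈ τ, homB F.1 = true) (c : Clus) :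
    c ∈ sOf τ ↔ ∃ F ∈ τ, F ≠ dE ∧ F.1 = c := by
  obtain ⟨h1, -, h3⟩ := mem_Nest.1 hτ
  unfold sOf
  rw [List.mem_filter, mem_HC hL hc, decide_eq_true_eq, Finset.mem_image]
  constructor
  · rintro ⟨⟨F, rfl, -, -, h⟩, G, hG, e⟩
    obtain rfl : G = F := Subtype.ext e
    exact ⟨G, hG, h, rfl⟩
  · rintro ⟨F, hF, h, rfl⟩
    exact ⟨⟨F, rfl, hh F hF, h1 F hF dE h3, h⟩, F, hF, rfl⟩

theorem sOf_mem {τ : Finset Div} (hτ : τ ∈ Nest 5) (hh : ∀ F ∈ τ, homB F.1 = true) :
    sOf τ ∈ nests 4 HC := by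
  obtain ⟨h1, h2, h3⟩ := mem_Nest.1 hτ
  have hs : (sOf τ).Sublist HC := List.filter_sublist
  refine (mem_nests _ _ _).2 ⟨hs, ?_, List.pairwise_of_forall_mem_list fun a ha b hb => ?_⟩
  · rw [← List.toFinset_card_of_nodup ((nodup_HC hL).sublist hs)]
    have : (sOf τ).toFinset = (τ.erase dE).image Subtype.val := by
      ext c
      rw [List.mem_toFinset, mem_sOf hL hc hτ hh, Finset.mem_image]
      constructor
      · rintro ⟨F, hF, h, e⟩
        exact ⟨F, Finset.mem_erase.2 ⟨h, hF⟩, e⟩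
      · rintro ⟨F, hF, e⟩
        exact ⟨F, (Finset.mem_erase.1 hF).2, (Finset.mem_erase.1 hF).1, e⟩
    rw [this, Finset.card_image_of_injective _ Subtype.val_injective,
      Finset.card_erase_of_mem h3, h2]
  · obtain ⟨F, hF, -, rfl⟩ := (mem_sOf hL hc hτ hh a).1 ha
    obtain ⟨G, hG, -, rfl⟩ := (mem_sOf hL hc hτ hh b).1 hb
    exact (hc _ _).2 (h1 F hF G hG)

theorem sOf_inj {τ τ' : Finset Div} (hτ : τ ∈ Nest 5) (hh : ∀ F ∈ τ, homB F.1 = true)
    (hτ' : τ' ∈ Nest 5) (hh' : ∀ F ∈ τ', homB F.1 = true) (e : sOf τ = sOf τ') : τ ⊆ τ' := by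
  intro F hF
  by_cases h : F = dE
  · rw [h]; exact (mem_Nest.1 hτ').2.2
  · have : F.1 ∈ sOf τ' := e ▸ (mem_sOf hL hc hτ hh _).2 ⟨F, hF, h, rfl⟩
    obtain ⟨G, hG, -, e'⟩ := (mem_sOf hL hc hτ' hh' _).1 this
    obtain rfl : G = F := Subtype.ext e'
    exact hG

theorem sOf_surj {s : List Clus} (hs : s ∈ nests 4 HC) :
    ∃ τ ∈ Nest 5, (∀ F ∈ τ, homB F.1 = true) ∧ sOf τ = s := by
  obtain ⟨h1, h2, h3⟩ := (mem_nests _ _ _).1 hs
  have hm : ∀ F : Div, F.1 ∈ s → homB F.1 = true ∧ Compat F dE ∧ F ≠ dE := by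
    intro F hF
    obtain ⟨G, e, h⟩ := (mem_HC hL hc _).1 (h1.subset hF)
    obtain rfl : G = F := Subtype.ext e
    exact h
  have hp : ∀ F G : Div, F.1 ∈ s → G.1 ∈ s → Compat F G := by
    have h4 : s.Pairwise (fun a b => ∀ F G : Div, F.1 = a → G.1 = b → Compat F G) :=
      h3.imp fun {a b} h F G e e' => (hc F G).1 (by rw [e, e']; exact h)
    intro F G hF hG
    refine List.Pairwise.forall_of_forall_of_flip (fun a _ F G e e' => ?_) h4
      (h4.imp fun {a b} h F G e e' => (h G F e' e).symm) hF hG F G rfl rfl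
    obtain rfl : F = G := Subtype.ext (e.trans e'.symm)
    exact Compat.refl F
  obtain ⟨σ, hσ⟩ : ∃ σ : Finset Div, ∀ F, F ∈ σ ↔ F.1 ∈ s :=
    ⟨allD.toFinset.filter fun F => F.1 ∈ s, fun F => by
      rw [Finset.mem_filter, List.mem_toFinset]
      exact ⟨fun h => h.2, fun h => ⟨hL.mem_allD F, h⟩⟩⟩
  have hE : dE ∉ σ := fun h => (hm _ ((hσ _).1 h)).2.2 rfl
  have hcard : σ.card = 4 := by
    rw [← h2, ← List.toFinset_card_of_nodup ((nodup_HC hL).sublist h1),
      ← Finset.card_image_of_injective σ Subtype.val_injective]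
    congr 1
    ext c
    rw [Finset.mem_image, List.mem_toFinset]
    constructor
    · rintro ⟨F, hF, rfl⟩
      exact (hσ F).1 hF
    · intro h
      obtain ⟨F, rfl, -⟩ := (mem_HC hL hc _).1 (h1.subset h)
      exact ⟨F, (hσ F).2 h, rfl⟩
  have hτ : insert dE σ ∈ Nest 5 := by
    refine mem_Nest.2 ⟨fun F hF G hG => ?_, by rw [Finset.card_insert_of_notMem hE, hcard],
      Finset.mem_insert_self _ _⟩
    rcases Finset.mem_insert.1 hF with rfl | hF <;> rcases Finset.mem_insert.1 hG with rfl | hG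
    · exact Compat.refl _
    · exact (hm G ((hσ G).1 hG)).2.1.symm
    · exact (hm F ((hσ F).1 hF)).2.1
    · exact hp F G ((hσ F).1 hF) ((hσ G).1 hG)
  have hh : ∀ F ∈ insert dE σ, homB F.1 = true := by
    intro F hF
    rcases Finset.mem_insert.1 hF with rfl | hF
    · exact homE
    · exact (hm F ((hσ F).1 hF)).1
  refine ⟨insert dE σ, hτ, hh, eq_of_sub (nodup_HC hL) List.filter_sublist h1 fun c => ?_⟩
  rw [mem_sOf hL hc hτ hh]
  constructor
  · rintro ⟨F, hF, h, rfl⟩
    exact (hσ F).1 ((Finset.mem_insert.1 hF).resolve_left h)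
  · intro h
    obtain ⟨F, rfl, -, -, h'⟩ := (mem_HC hL hc _).1 (h1.subset h)
    exact ⟨F, Finset.mem_insert_of_mem ((hσ F).2 h), h', rfl⟩

omit hc in
theorem bOf_eq {F : Div} (h : homB F.1 = true) : bOf F.1 = 0 := by
  by_contra h0
  have := homBb (bOf F.1)
  rw [hL.Fb_bOf F h0, h] at this
  exact absurd this (by simp)

omit hc in
theorem aOf_eq {F : Div} (h : homB F.1 = true) : aOf F.1 = 0 ↔ F.1 ≠ cF := by
  constructor
  · intro h0 e
    obtain rfl : F = Fa 1 := Subtype.ext (e.trans Fa_one.symm)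
    rw [(hL.aOf_Fa 1 (by decide)).1] at h0
    exact absurd h0 (by decide)
  · intro h0
    by_contra h1
    have e := hL.Fa_aOf F h1
    have := homA _ h1 (by rw [e]; exact h)
    rw [this] at e
    exact h0 (by rw [← e]; exact Fa_one)

omit hc in
theorem bT_eq {τ : Finset Div} (hτ : τ ∈ Nest 5) (hh : ∀ F ∈ τ, homB F.1 = true) : bT τ = 0 := by
  by_contra h0
  have := hh _ ((hL.bT_iff 5 τ hτ _ h0).2 rfl)
  rw [homBb] at this
  exact absurd this (by simp)

theorem cF_mem {τ : Finset Div} (hτ : τ ∈ Nest 5) (hh : ∀ F ∈ τ, homB F.1 = true) :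
    cF ∈ sOf τ ↔ Fa 1 ∈ τ := by
  rw [mem_sOf hL hc hτ hh]
  constructor
  · rintro ⟨F, hF, -, e⟩
    obtain rfl : F = Fa 1 := Subtype.ext (e.trans Fa_one.symm)
    exact hF
  · intro h
    exact ⟨Fa 1, h, (hL.aOf_Fa 1 (by decide)).2.2, Fa_one⟩

theorem mu_eq {τ : Finset Div} (hτ : τ ∈ Nest 5) (hh : ∀ F ∈ τ, homB F.1 = true) :
    (mu τ).map Subtype.val = (sOf τ).filter (· ≠ cF) := by
  have s1 : ((mu τ).map Subtype.val).Sublist (allD.map Subtype.val) :=
    List.filter_sublist.map _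
  have s2 : (sOf τ).Sublist HC := List.filter_sublist
  refine eq_of_sub (nodup_val hL) s1 (List.filter_sublist.trans (s2.trans HC_sub)) fun c => ?_
  rw [List.mem_map, List.mem_filter, mem_sOf hL hc hτ hh, decide_eq_true_eq]
  constructor
  · rintro ⟨F, hF, rfl⟩
    obtain ⟨h1, h2, -, h4⟩ := (hL.mem_mu τ F).1 hF
    exact ⟨⟨F, h1, h4, rfl⟩, (aOf_eq hL (hh F h1)).1 h2⟩
  · rintro ⟨⟨F, hF, h, rfl⟩, h'⟩
    exact ⟨F, (hL.mem_mu τ F).2 ⟨hF, (aOf_eq hL (hh F hF)).2 h', bOf_eq hL (hh F hF), h⟩, rfl⟩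

end

end Ev4Aux

open Ev4Aux in
theorem sE4 (hL : SList) (hc : ∀ F G : Div, compB F.1 G.1 = true ↔ Compat F G) : SE4 where
  sum_eq f v hv hf := by
    obtain ⟨h1, h2⟩ := fold_some evS _ v hv
    have h3 : (v : K) = ∑ s ∈ (nests 4 HC).toFinset, (((evS s).getD 0 : ℚ) : K) := by
      rw [List.sum_toFinset _ (nodup_nests 4 HC (nodup_HC hL)), h2, Rat.cast_list_sum,
        List.map_map]
      rfl
    rw [h3]
    refine Finset.sum_nbij sOf (fun τ hτ => ?_) (fun τ hτ τ' hτ' e => ?_) (fun s hs => ?_)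
      (fun τ hτ => ?_)
    · obtain ⟨a, b⟩ := Finset.mem_filter.1 hτ
      exact List.mem_toFinset.2 (sOf_mem hL hc a b)
    · obtain ⟨a, b⟩ := Finset.mem_filter.1 (Finset.mem_coe.1 hτ)
      obtain ⟨a', b'⟩ := Finset.mem_filter.1 (Finset.mem_coe.1 hτ')
      exact Finset.Subset.antisymm (sOf_inj hL hc a b a' b' e) (sOf_inj hL hc a' b' a b e.symm)
    · obtain ⟨τ, a, b, e⟩ := sOf_surj hL hc (List.mem_toFinset.1 (Finset.mem_coe.1 hs))
      exact ⟨τ, Finset.mem_coe.2 (Finset.mem_filter.2 ⟨a, b⟩), e⟩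
    · obtain ⟨a, b⟩ := Finset.mem_filter.1 hτ
      exact hf τ a b _ (h1 _ (sOf_mem hL hc a b))
  caseA τ hτ hh h := by
    refine ⟨?_, bT_eq hL hτ hh, ?_⟩
    · by_contra h0
      have h1 := (hL.aT_iff 5 τ hτ _ h0).2 rfl
      rw [homA _ h0 (hh _ h1)] at h1
      exact h ((cF_mem hL hc hτ hh).2 h1)
    · rw [mu_eq hL hc hτ hh]
      refine List.filter_eq_self.2 fun c hc' => ?_
      rw [decide_eq_true_eq]
      rintro rfl
      exact h hc'
  caseB τ hτ hh h :=
    ⟨(hL.aT_iff 5 τ hτ 1 (by decide)).1 ((cF_mem hL hc hτ hh).1 h), bT_eq hL hτ hh,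
      mu_eq hL hc hτ hh⟩

end Pool.Agent.MP_cb8d3a_ag.H90
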