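import Pool.Agent.MP_cb8d3a_ag.H90.Spec

/-! The order filtration on forms. -/

noncomputable section

open scoped BigOperators

namespace Pool.Agent.MP_cb8d3a_ag.H90

namespace FilAux

variable {z : Fin 11 → ℂ} {F : Div}

theorem le {k k' : ℤ} {ω : Form} (h : Fil z F k ω) (hk : k' ≤ k) : Fil z F k' ω :=
  fun l hl => (h l hl).mono hk

theorem zero (k : ℤ) : Fil z F k 0 := fun l _ => by
  rw [map_zero]; exact V_zero k

theorem add {k : ℤ} {ω ω' : Form} (h : Fil z F k ω) (h' : Fil z F k ω') :
    Fil z F k (ω + ω') := fun l hl => by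
  rw [map_add]; exact (h l hl).add (h' l hl)

theorem neg {k : ℤ} {ω : Form} (h : Fil z F k ω) : Fil z F k (-ω) := fun l hl => by
  rw [map_neg]; exact (h l hl).neg

theorem sub {k : ℤ} {ω ω' : Form} (h : Fil z F k ω) (h' : Fil z F k ω') :
    Fil z F k (ω - ω') := fun l hl => by
  rw [map_sub]; exact (h l hl).sub (h' l hl)

theorem csmul {k : ℤ} {ω : Form} (r : ℂ) (h : Fil z F k ω) : Fil z F k (r • ω) := fun l hl => by
  rw [map_smul]; exact (h l hl).csmul r

theorem sum {ι : Type} {k : ℤ} (s : Finset ι) (f : ι → Form) (h : ∀ i ∈ s, Fil z F k (f i)) :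
    Fil z F k (∑ i ∈ s, f i) := by
  classical
  induction s using Finset.induction_on with
  | empty => rw [Finset.sum_empty]; exact zero k
  | insert a s ha ih =>
    rw [Finset.sum_insert ha]
    exact add (h a (Finset.mem_insert_self a s)) (ih fun i hi => h i (Finset.mem_insert_of_mem hi))

theorem smul (h1 : SCar1) {a k : ℤ} {ω : Form} {f : K} (hf : V z F a f) (h : Fil z F k ω) :
    Fil z F (a + k) (f • ω) := fun l hl => by
  rw [h1.iotas_smul]
  exact hf.mul (h l hl)

theorem smul0 (h1 : SCar1) {k : ℤ} {ω : Form} {f : K} (hf : V z F 0 f) (h : Fil z F k ω) :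
    Fil z F k (f • ω) := by
  have := smul h1 hf h
  rwa [zero_add] at this

theorem empty {k : ℤ} {ω : Form} (h : Fil z F k ω) : V z F k (ω ∅) :=
  h [] (by simp)

theorem iotas_snoc (l : List VF) (X : VF) (ω : Form) :
    iotas (l ++ [X]) ω = iotas l (iota X ω) := by
  rw [iotas_append]; rfl

theorem iotaF {X : VF} {k : ℤ} {ω : Form} (hX : Inv z F X) (h : Fil z F k ω) :
    Fil z F k (iota X ω) := fun l hl => by
  rw [← iotas_snoc]
  refine h _ fun Y hY => ?_
  rcases List.mem_append.1 hY with hY | hY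
  · exact hl Y hY
  · rw [List.mem_singleton.1 hY]; exact hX

/-- The induction principle behind the closure properties. -/
theorem ind {k m : ℤ} (T : Form → Form)
    (h0 : ∀ ω, Fil z F k ω → V z F m (T ω ∅))
    (hs : ∀ ω X, Inv z F X → Fil z F k ω → ∃ (s : ℂ) (ξ : Form), Fil z F m ξ ∧
      iota X (T ω) = s • T (iota X ω) + ξ) {ω : Form} (h : Fil z F k ω) : Fil z F m (T ω) := by
  intro l
  induction l using List.reverseRecOn generalizing ω with
  | nil => intro _; exact h0 ω h
  | append_singleton l X ih =>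
    intro hl
    have hX : Inv z F X := hl X (by simp)
    have hl' : ∀ Y ∈ l, Inv z F Y := fun Y hY => hl Y (by simp [hY])
    obtain ⟨s, ξ, hξ, e⟩ := hs ω X hX h
    rw [iotas_snoc, e, map_add, map_smul]
    exact ((ih (iotaF hX h) hl').csmul s).add (hξ l hl')

theorem wedgeF (h1 : SCar1) {a k : ℤ} {ω : Form} {α : Fin 5 → K}
    (hα : ∀ X, Inv z F X → V z F a (ev1 α X)) (h : Fil z F k ω) :
    Fil z F (a + k) (wedge α ω) := by
  refine ind (wedge α) (fun ω _ => ?_) (fun ω X hX hω => ?_) h
  · rw [h1.wedge_empty]; exact V_zero _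
  · refine ⟨-1, ev1 α X • ω, smul h1 (hα X hX) hω, ?_⟩
    rw [h1.iota_wedge, neg_one_smul]; abel

theorem deg1F (h1 : SCar1) {a : ℤ} {ξ : Form} {X : VF} (h : Fil z F a ξ) (hX : Inv z F X) :
    V z F a (ev1 (deg1 ξ) X) := by
  rw [← h1.iota_empty]
  exact empty (iotaF hX h)

theorem lieF (hI : SInv z) (h2 : SCar2 z) {X : VF} {k : ℤ} {ω : Form} (w : Hyp → ℚ)
    (hX : Inv z F X) (h : Fil z F k ω) : Fil z F k (lie z w X ω) := by
  refine ind (fun ω => lie z w X ω) (fun ω hω => ?_) (fun ω Y hY hω => ?_) h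
  · rw [h2.lie_empty]; exact hI.V_dw F X w k _ hX (empty hω)
  · refine ⟨1, -iota (br X Y) ω, neg (iotaF (hI.inv_br F X Y hX hY) hω), ?_⟩
    rw [h2.lie_iota, one_smul]; abel

theorem nabF (hI : SInv z) (h2 : SCar2 z) {k : ℤ} {ω : Form} (w : Hyp → ℚ)
    (h : Fil z F k ω) : Fil z F k (nab z w ω) := by
  refine ind (fun ω => nab z w ω) (fun ω _ => ?_) (fun ω Y hY hω => ?_) h
  · rw [h2.nab_empty]; exact V_zero _
  · refine ⟨-1, lie z w Y ω, lieF hI h2 w hY hω, ?_⟩
    rw [lie_apply, neg_one_smul]; abel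

theorem lie_theta (hI : SInv z) (h1 : SCar1) (h2 : SCar2 z) {k : ℤ} {ω : Form} (w : Hyp → ℚ)
    (h : Fil z F k ω) :
    Fil z F (k + 1) (lie z w (theta z F) ω - ((k : ℂ) + (aW w F.1 : ℂ)) • ω) := by
  refine ind (fun ω => lie z w (theta z F) ω - ((k : ℂ) + (aW w F.1 : ℂ)) • ω)
    (fun ω hω => ?_) (fun ω Y hY hω => ?_) h
  · have := hI.V_dw_theta F w k _ (empty hω)
    rw [← h2.lie_empty] at this
    exact this
  · refine ⟨1, 0, zero _, ?_⟩
    rw [h2.lie_iota, hI.br_theta F Y hY, h1.iota_zero_left, map_sub, map_smul, one_smul,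
      add_zero, add_zero]

theorem sgn_mul_self (a : Fin 5) (J : Finset (Fin 5)) : sgn a J * sgn a J = 1 := by
  unfold sgn
  rw [← mul_pow]; simp

theorem V_sgn (a : Fin 5) (J : Finset (Fin 5)) : V z F 0 (sgn a J) := by
  have := V_intCast (z := z) (F := F) ((-1) ^ (J.filter (· < a)).card)
  rwa [Int.cast_pow, Int.cast_neg, Int.cast_one] at this

theorem smul_mono (f c : K) (I : Finset (Fin 5)) : f • mono I c = mono I (f * c) := by
  ext J
  simp only [mono, Pi.smul_apply, smul_eq_mul]
  split_ifs <;> simp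

theorem mono_zero (I : Finset (Fin 5)) : mono I 0 = 0 := by
  ext J
  simp [mono]

theorem mono_insert (h1 : SCar1) {a : Fin 5} {J : Finset (Fin 5)} (ha : a ∉ J) {α : Fin 5 → K}
    (h : α a = 1) (h' : ∀ b, b ∉ J → b ≠ a → α b = 0) :
    mono (insert a J) 1 = sgn a J • wedge α (mono J 1) := by
  rw [h1.wedge_mono, Finset.sum_eq_single a]
  · rw [smul_mono, h, mul_one, mul_one, sgn_mul_self]
  · intro b hb hba
    rw [h' b (Finset.mem_compl.1 hb) hba, mul_zero, zero_mul, mono_zero]
  · intro hn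
    exact absurd (Finset.mem_compl.2 ha) hn

theorem mono_step (h1 : SCar1) {a : Fin 5} {J : Finset (Fin 5)} (ha : a ∉ J) {α : Fin 5 → K}
    (h : α a = 1) (h' : ∀ b, b ∉ J → b ≠ a → α b = 0) {m k : ℤ}
    (hα : ∀ X, Inv z F X → V z F m (ev1 α X)) (hJ : Fil z F k (mono J 1)) :
    Fil z F (m + k) (mono (insert a J) 1) := by
  rw [mono_insert h1 ha h h']
  exact smul0 h1 (V_sgn a J) (wedgeF h1 hα hJ)

theorem ev1_single (a : Fin 5) (X : VF) : ev1 (Pi.single a 1) X = X a := by
  unfold ev1
  rw [Finset.sum_eq_single a] <;> simp +contextual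

theorem ev1_sub (α β : Fin 5 → K) (X : VF) : ev1 (α - β) X = ev1 α X - ev1 β X := by
  unfold ev1
  simp only [Pi.sub_apply, sub_mul, Finset.sum_sub_distrib]

theorem mono_empty (h1 : SCar1) : Fil z F 0 (mono ∅ 1) := by
  intro l _
  rcases l with _ | ⟨X, l⟩
  · rw [iotas_nil]
    simpa [mono] using V_one (z := z) (F := F)
  · rw [h1.iotas_deg _ _ _ (by simp)]
    exact V_zero 0

theorem mono_sum (hA : SAt z) (hI : SInv z) (h1 : SCar1) (j : Fin 11) (I : Finset (Fin 5)) :
    Fil z F (∑ a ∈ I, vA F.1 (Sum.inl a, Sum.inr j)) (mono I 1) := by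
  induction I using Finset.induction_on with
  | empty => rw [Finset.sum_empty]; exact mono_empty h1
  | insert a J ha ih =>
    rw [Finset.sum_insert ha]
    refine mono_step h1 ha (α := Pi.single a 1) (by simp) (fun b _ hb => by simp [hb])
      (fun X hX => ?_) ih
    have := hI.inv_V F X _ _ hX (hA.V_av F (Sum.inl a, Sum.inr j) (by simp))
    rw [ev1_single]
    simpa [av, pt, act_t] using this

theorem mono_rel (hA : SAt z) (hI : SInv z) (h1 : SCar1) (j : Fin 11) (a0 : Fin 5)
    (J : Finset (Fin 5)) (h0 : a0 ∉ J) :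
    Fil z F (∑ a ∈ J, vA F.1 (Sum.inl a, Sum.inl a0) + vA F.1 (Sum.inl a0, Sum.inr j))
      (mono (insert a0 J) 1) := by
  induction J using Finset.induction_on with
  | empty =>
    have := mono_sum (F := F) hA hI h1 j {a0}
    simpa using this
  | insert a J ha ih =>
    have hne : a ≠ a0 := fun h => h0 (h ▸ Finset.mem_insert_self a J)
    have h0' : a0 ∉ J := fun h => h0 (Finset.mem_insert_of_mem h)
    rw [Finset.sum_insert ha, Finset.insert_comm, add_assoc]
    refine mono_step h1 (by simp [hne, ha]) (α := Pi.single a 1 - Pi.single a0 1)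
      (by simp [hne]) (fun b hb hba => ?_) (fun X hX => ?_) (ih h0')
    · have : b ≠ a0 := fun h => hb (h ▸ Finset.mem_insert_self _ _)
      simp [hba, this]
    · have := hI.inv_V F X _ _ hX (hA.V_av F (Sum.inl a, Sum.inl a0) (by simp [hne]))
      rw [ev1_sub, ev1_single, ev1_single]
      simpa [av, pt, act_t] using this

theorem sum_ite_card (A I : Finset (Fin 5)) (c : ℤ) :
    ∑ a ∈ I, (if a ∈ A then c else 0) = c * (A ∩ I).card := by
  rw [← Finset.sum_filter, Finset.sum_const, Finset.filter_mem_eq_inter, Finset.inter_comm,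
    nsmul_eq_mul, mul_comm]

theorem mono_one (hA : SAt z) (hI : SInv z) (h1 : SCar1) (I : Finset (Fin 5)) :
    Fil z F (oVol F.1 I) (mono I 1) := by
  obtain ⟨⟨A, _ | _ | i⟩, hF⟩ := F
  · by_cases hne : (A ∩ I).Nonempty
    · obtain ⟨a0, ha0⟩ := hne
      have hA0 : a0 ∈ A := (Finset.mem_inter.1 ha0).1
      have hI0 : a0 ∈ I := (Finset.mem_inter.1 ha0).2
      have := mono_rel (F := ⟨(A, none), hF⟩) hA hI h1 0 a0 (I.erase a0) (by simp)
      rw [Finset.insert_erase hI0] at this
      refine le this (le_of_eq ?_)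
      have e : ∀ a : Fin 5, vA (A, none) (Sum.inl a, Sum.inl a0) = if a ∈ A then 1 else 0 := by
        intro a; simp [vA, memC, hA0]
      have e' : vA (A, none) (Sum.inl a0, Sum.inr 0) = 0 := by simp [vA, memC]
      simp only [e, e', sum_ite_card, oVol, Finset.inter_erase, one_mul, add_zero,
        Finset.card_erase_of_mem ha0]
    · have := mono_sum (F := ⟨(A, none), hF⟩) hA hI h1 0 I
      refine le this (le_of_eq ?_)
      have e : ∀ a : Fin 5, vA (A, none) (Sum.inl a, Sum.inr 0) = 0 := by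
        intro a; simp [vA, memC]
      simp [e, oVol, Finset.not_nonempty_iff_eq_empty.1 hne]
  · have := mono_sum (F := ⟨(A, some none), hF⟩) hA hI h1 0 I
    refine le this (le_of_eq ?_)
    have e : ∀ a : Fin 5, vA (A, some none) (Sum.inl a, Sum.inr 0) = if a ∈ A then -1 else 0 := by
      intro a; simp [vA, memC]
    simp only [e, sum_ite_card, oVol, neg_one_mul]
  · have := mono_sum (F := ⟨(A, some (some i)), hF⟩) hA hI h1 i I
    refine le this (le_of_eq ?_)
    have e : ∀ a : Fin 5, vA (A, some (some i)) (Sum.inl a, Sum.inr i) =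
        if a ∈ A then 1 else 0 := by
      intro a; simp [vA, memC]
    simp only [e, sum_ite_card, oVol, one_mul]

theorem monoI (hA : SAt z) (hI : SInv z) (h1 : SCar1) {k : ℤ} {c : K} (I : Finset (Fin 5))
    (h : V z F k c) : Fil z F (k + oVol F.1 I) (mono I c) := by
  have := smul h1 h (mono_one hA hI h1 I)
  rwa [smul_mono, mul_one] at this

theorem exists_Fil (hA : SAt z) (hI : SInv z) (h1 : SCar1) (ω : Form) : ∃ k, Fil z F k ω := by
  have key : ∀ s : Finset (Finset (Fin 5)), ∃ k, Fil z F k (∑ I ∈ s, mono I (ω I)) := by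
    intro s
    induction s using Finset.induction_on with
    | empty => exact ⟨0, by rw [Finset.sum_empty]; exact zero 0⟩
    | insert I s hs ih =>
      obtain ⟨k, hk⟩ := ih
      obtain ⟨m, hm⟩ := exists_V (z := z) (F := F) (ω I)
      refine ⟨min k (m + oVol F.1 I), ?_⟩
      rw [Finset.sum_insert hs]
      exact add (le (monoI hA hI h1 I hm) (min_le_right _ _)) (le hk (min_le_left _ _))
  have e : ∑ I, mono I (ω I) = ω := by
    ext J
    rw [Finset.sum_apply, Finset.sum_eq_single J]
    · simp [mono]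
    · intro I _ hI'
      simp [mono, Ne.symm hI']
    · simp
  rw [← e]
  exact key _

theorem logF (hI : SInv z) (h1 : SCar1) (l : List Hyp) : Fil z F 0 (logForm z l) := by
  induction l with
  | nil => exact mono_empty h1
  | cons h l ih =>
    have := wedgeF h1 (a := 0) (α := dlog (hyp z h))
      (fun X hX => by rw [hI.ev1_dlog]; exact hI.V_dlog F X _ hX) ih
    rw [zero_add] at this
    exact this

theorem lattice (hA : SAt z) (hI : SInv z) (h1 : SCar1) {p : ℕ} {ω : Form}
    (h : ω ∈ logLattice z F p) : Fil z F (latL F.1) ω := by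
  unfold logLattice at h
  induction h using AddSubgroup.closure_induction with
  | mem ω hω =>
    obtain ⟨c, l, -, hc, rfl⟩ := hω
    have hV : V z F (latL F.1) c := by
      intro j hj
      rw [co_apply, ← expand_eq]
      apply hc
      rw [hA.res_eq]
      have h3 : 3 * j + a3 F.1 < 0 := by unfold latL at hj; omega
      have h4 : ((3 * j + a3 F.1 : ℤ) : ℚ) < 0 := by exact_mod_cast h3
      push_cast at h4
      linarith
    have := smul h1 hV (logF hI h1 l)
    rwa [add_zero] at this
  | zero => exact zero _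
  | add x y _ _ hx hy => exact add hx hy
  | neg x _ hx => exact neg hx

theorem pair_last : ∀ A : Finset (Fin 5), A.card = 2 →
    ∃ b, b ≠ lastPt A ∧ A = {b, lastPt A} := by decide

theorem eff (hI : SInv z) (h1 : SCar1) {k : ℤ} {ω : Form} {u : K} (a : Fin 5)
    (hn : F.1.2 = none) (hc : F.1.1.card = 2) (hu : V z F 0 u) (h : Fil z F k ω) :
    Fil z F k (iota (theta z F) (iota (fld a u) ω)) := by
  have e : fld a u = u • fld a 1 := by
    ext b
    by_cases hb : b = a
    · subst hb; simp [fld]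
    · simp [fld, hb]
  rw [e, h1.iota_smul_left, h1.iota_smul]
  refine smul0 h1 hu ?_
  have hθ : Inv z F (theta z F) := hI.inv_theta F F (Compat.refl F)
  by_cases ha : a ∈ F.1.1
  swap
  · exact iotaF hθ (iotaF (hI.inv_out F a ha) h)
  obtain ⟨b, hb, hAb⟩ := pair_last F.1.1 hc
  have hmem : ∀ c, c ∈ F.1.1 ↔ c = b ∨ c = lastPt F.1.1 := by
    intro c
    conv_lhs => rw [hAb]
    simp
  have hcen : centre z F.1 = t (lastPt F.1.1) := by
    unfold centre; rw [hn]
  have eθ : theta z F = (t b - t (lastPt F.1.1)) • fld b 1 := by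
    ext c
    simp only [theta, hn, hcen, hmem, Pi.smul_apply, smul_eq_mul, fld]
    by_cases h1 : c = b
    · subst h1; simp
    · by_cases h2 : c = lastPt F.1.1
      · rw [h2]; simp [Ne.symm hb]
      · simp [h1, h2]
  have kill : iota (theta z F) (iota (fld b 1) ω) = 0 := by
    rw [eθ, h1.iota_smul_left, h1.iota_self, smul_zero]
  rcases (hmem a).1 ha with hab | hab
  · rw [hab, kill]; exact zero k
  · have eI : (fun c => if c ∈ F.1.1 then (1 : K) else 0) =
        fld b 1 + fld (lastPt F.1.1) 1 := by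
      ext c
      simp only [hmem, Pi.add_apply, fld]
      by_cases h1 : c = b
      · subst h1; simp [hb]
      · by_cases h2 : c = lastPt F.1.1
        · rw [h2]; simp [Ne.symm hb]
        · simp [h1, h2]
    have := iotaF hθ (iotaF (hI.inv_ind F hn) h)
    rw [eI, h1.iota_add_left, map_add, kill, zero_add] at this
    rw [hab]; exact this

end FilAux

theorem sFil (z : Fin 11 → ℂ) (hA : SAt z) (hI : SInv z) (h1 : SCar1) (h2 : SCar2 z) :
    SFil z where
  le := FilAux.le
  zero := fun _ k => FilAux.zero k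
  add := FilAux.add
  neg := FilAux.neg
  sub := FilAux.sub
  csmul := FilAux.csmul
  sum := FilAux.sum
  smul := FilAux.smul h1
  empty := FilAux.empty
  iota := FilAux.iotaF
  wedge := FilAux.wedgeF h1
  deg1 := FilAux.deg1F h1
  lie := FilAux.lieF hI h2
  nab := FilAux.nabF hI h2
  lie_theta := FilAux.lie_theta hI h1 h2
  monoI := FilAux.monoI hA hI h1
  exists_Fil := fun _ ω => FilAux.exists_Fil hA hI h1 ω
  lattice := FilAux.lattice hA hI h1
  eff := FilAux.eff hI h1

end Pool.Agent.MP_cb8d3a_ag.H90
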