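import Pool.Agent.MP_cb8d3a_ag.H90.Spec

/-! Closure properties of regular forms. -/

set_option linter.unusedVariables false

noncomputable section

open scoped BigOperators

namespace Pool.Agent.MP_cb8d3a_ag.H90

namespace FouAux

theorem aeval_mem {E : Type} [AddCommGroup E] [Module ℂ E] (p : Submodule ℂ E)
    {L : Module.End ℂ E} (hL : ∀ x ∈ p, L x ∈ p) (q : Polynomial ℂ) :
    ∀ x ∈ p, Polynomial.aeval L q x ∈ p := fun x hx =>
  Polynomial.aeval_apply_smul_mem_of_le_comap hx q L hL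

variable (z : Fin 11 → ℂ)

/-- Regular forms as a submodule. -/
def FS : Submodule ℂ Form where
  carrier := {ω | FOU z ω}
  zero_mem' := fun _ => zero_mem _
  add_mem' := fun h h' I => add_mem (h I) (h' I)
  smul_mem' := fun r _ h I => Subalgebra.smul_mem _ (h I) r

variable {z}

theorem sgn_mem (a : Fin 5) (I : Finset (Fin 5)) : sgn a I ∈ OU z :=
  pow_mem (neg_mem (one_mem _)) _

theorem iota_mem {X : VF} {ω : Form} (hX : ∀ a, X a ∈ OU z) (h : FOU z ω) :
    FOU z (iota X ω) := fun _ =>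
  sum_mem fun a _ => mul_mem (mul_mem (sgn_mem a _) (hX a)) (h _)

theorem wedge_mem {α : Fin 5 → K} {ω : Form} (hα : ∀ a, α a ∈ OU z) (h : FOU z ω) :
    FOU z (wedge α ω) := fun _ =>
  sum_mem fun a _ => mul_mem (mul_mem (sgn_mem a _) (hα a)) (h _)

theorem mono_mem {c : K} (I : Finset (Fin 5)) (hc : c ∈ OU z) : FOU z (mono I c) := by
  intro J
  unfold mono
  split_ifs
  · exact hc
  · exact zero_mem _

theorem nab_mem (hK : SK1 z) {ω : Form} (w : Hyp → ℚ) (h : FOU z ω) : FOU z (nab z w ω) :=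
  fun I => add_mem (sum_mem fun a _ => mul_mem (sgn_mem a _) (hK.pd_OU a _ (h _)))
    (wedge_mem (hK.eta_OU w) h I)

theorem lie_mem (hK : SK1 z) {X : VF} {ω : Form} (w : Hyp → ℚ) (hX : ∀ a, X a ∈ OU z)
    (h : FOU z ω) : FOU z (lie z w X ω) := fun I =>
  add_mem (nab_mem hK w (iota_mem hX h) I) (iota_mem hX (nab_mem hK w h) I)

theorem thetas_mem (hK : SK1 z) {ω : Form} (l : List Div) (h : FOU z ω) :
    FOU z (iotas (l.map (theta z)) ω) := by
  induction l with
  | nil => exact h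
  | cons F l ih =>
    rw [List.map_cons, iotas_cons]
    exact iota_mem (hK.theta_OU F) ih

theorem hOp_mem (hK : SK1 z) {ω : Form} (N : ℕ) (F : Div) (h : FOU z ω) :
    FOU z (hOp z N F ω) :=
  aeval_mem (FS z) (fun _ hx => lie_mem hK wD (hK.theta_OU F) hx) _ _
    (iota_mem (hK.theta_OU F) h)

theorem hs_mem (hK : SK1 z) {ω : Form} (N : ℕ) (l : List Div) (h : FOU z ω) :
    FOU z (hs z N l ω) := by
  induction l with
  | nil => exact h
  | cons F l ih =>
    rw [hs_cons]
    exact hOp_mem hK N F ih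

theorem X4_mem (hK : SK1 z) : X4 z ∈ OU z :=
  sub_mem (hK.t_OU 4) (Subalgebra.algebraMap_mem _ _)

theorem kap_mem (hK : SK1 z) (a : Fin 5) : kap z a ∈ OU z :=
  add_mem (hK.pd_OU a _ (X4_mem hK))
    (mul_mem (X4_mem hK) (sub_mem (hK.eta_OU _ a) (hK.eta_OU _ a)))

end FouAux

open FouAux in
theorem sFou (z : Fin 11 → ℂ) (hA : SAt z) (hK : SK1 z) : SFou z where
  zero := (FS z).zero_mem
  add h h' := (FS z).add_mem h h'
  neg h := (FS z).neg_mem h
  sub h h' := (FS z).sub_mem h h'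
  csmul r h := (FS z).smul_mem r h
  sum s f h := (FS z).sum_mem h
  smul hf h I := mul_mem hf (h I)
  monoI := mono_mem
  iota := iota_mem
  wedge := wedge_mem
  nab := nab_mem hK
  lie := lie_mem hK
  thetas := thetas_mem hK
  Delta l := thetas_mem hK l (mono_mem _ (one_mem _)) ∅
  hOp := hOp_mem hK
  piOp N F h := aeval_mem (FS z) (fun _ hx => lie_mem hK wD (hK.theta_OU F) hx) _ _ h
  hs := hs_mem hK
  Rop N h I := sub_mem (mul_mem (X4_mem hK) (h I)) (hOp_mem hK N dE (wedge_mem (kap_mem hK) h) I)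
  kap := kap_mem hK
  pD N F h := aeval_mem (OU z).toSubmodule
    (fun c hc => hK.dw_OU wD _ c (hK.theta_OU F) hc) _ _ h

end Pool.Agent.MP_cb8d3a_ag.H90
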