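import Pool.Agent.MP_cb8d3a_ag.H90.Spec

/-! The order budget of the dual cocycle. -/

noncomputable section

open scoped BigOperators

namespace Pool.Agent.MP_cb8d3a_ag.H90

namespace GoodAux

variable {z : Fin 11 → ℂ}

theorem sA_apply (α : Fin 7) (y : Form) : sA z α y = (-3 : ℂ) • iota (thA z α) y := rfl

theorem sB_apply (β : Fin 7) (y : Form) : sB z β y = (-3 : ℂ) • iota (thB z β) y := rfl

theorem pigeon {l : List Div} (hl : l.Nodup) (s : Finset Clus) (h : s.card < l.length) :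
    ∃ F ∈ l, F.1 ∉ s := by
  by_contra hc
  push Not at hc
  have h1 : (l.map Subtype.val).Nodup := hl.map Subtype.val_injective
  have h2 : (l.map Subtype.val).toFinset ⊆ s := by
    intro x hx
    obtain ⟨F, hF, rfl⟩ := List.mem_map.1 (List.mem_toFinset.1 hx)
    exact hc F hF
  have h3 := Finset.card_le_card h2
  rw [List.toFinset_card_of_nodup h1, List.length_map] at h3
  omega

theorem sum_split (f : Fin 7 → Form) {α : Fin 7} (h : α ≠ 0) :
    ∑ a, f a = f 0 + f α + ∑ a ∈ (Finset.univ.erase 0).erase α, f a := by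
  rw [add_assoc, Finset.add_sum_erase _ _ (Finset.mem_erase.2 ⟨h, Finset.mem_univ _⟩),
    Finset.add_sum_erase _ _ (Finset.mem_univ _)]

theorem Fa_ne : ∀ α, (Fa α).1 ≠ yB 0 := by decide

theorem Fb_ne : ∀ β, (Fb β).1 ≠ xA 0 := by decide

theorem dE_ne : dE.1 ≠ xA 0 ∧ dE.1 ≠ yB 0 := by decide

theorem x4_dE : x4 dE.1 = -1 := by decide

/-! ### Regularity -/

section fou
variable (hO : SFou z) (hS : SSdA z)
include hO hS

theorem fou_sA (α : Fin 7) {y : Form} (h : FOU z y) : FOU z (sA z α y) :=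
  hO.csmul _ (hO.iota (hS.thA_OU α) h)

theorem fou_sB (β : Fin 7) {y : Form} (h : FOU z y) : FOU z (sB z β y) :=
  hO.csmul _ (hO.iota (hS.thB_OU β) h)

theorem fou_Gt : FOU z (Gt z) := hO.sum _ _ fun α _ => hO.sum _ _ fun β _ => hS.G_FOU α β

theorem fou_eA (α : Fin 7) : FOU z (eA z α) :=
  fou_sA hO hS α (hO.sum _ _ fun β _ => hS.G_FOU α β)

theorem fou_eB (β : Fin 7) : FOU z (eB z β) :=
  fou_sB hO hS β (hO.sum _ _ fun α _ => hS.G_FOU α β)

theorem fou_GA (α : Fin 7) : FOU z (GA z α) := hO.sub (fou_Gt hO hS) (hO.nab _ (fou_eA hO hS α))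

theorem fou_GB (β : Fin 7) : FOU z (GB z β) := hO.sub (fou_Gt hO hS) (hO.nab _ (fou_eB hO hS β))

theorem fou_b1 (α β : Fin 7) : FOU z (b1 z α β) :=
  fou_sB hO hS β (hO.sub (hO.sum _ _ fun α' _ => hS.G_FOU α' β)
    (hO.nab _ (fou_sA hO hS α (hS.G_FOU α β))))

theorem fou_b2 (α β : Fin 7) : FOU z (b2 z α β) :=
  fou_sA hO hS α (hO.sub (hO.sum _ _ fun β' _ => hS.G_FOU α β')
    (hO.nab _ (fou_sB hO hS β (hS.G_FOU α β))))

theorem fou_e0 (α β : Fin 7) : FOU z (e0 z α β) :=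
  fou_sA hO hS α (fou_sB hO hS β (hS.G_FOU α β))

theorem fou_GAB (α β : Fin 7) : FOU z (GAB z α β) :=
  hO.sub (fou_GA hO hS α) (hO.nab _ (fou_b1 hO hS α β))

theorem fou_YY (N : ℕ) (α β : Fin 7) : FOU z (YY z N α β) := by
  unfold YY
  split_ifs
  · exact hO.Rop N (fou_Gt hO hS)
  · exact hO.add (hO.Rop N (fou_eB hO hS β)) (hO.hOp N _ (hO.Rop N (fou_GB hO hS β)))
  · exact hO.add (hO.Rop N (fou_eA hO hS α)) (hO.hOp N _ (hO.Rop N (fou_GA hO hS α)))
  · exact hO.add (hO.sub (hO.add (hO.Rop N (fou_e0 hO hS α β))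
      (hO.hOp N _ (hO.Rop N (fou_b1 hO hS α β)))) (hO.hOp N _ (hO.Rop N (fou_b2 hO hS α β))))
      (hO.hOp N _ (hO.hOp N _ (hO.Rop N (fou_GAB hO hS α β))))

end fou

/-! ### Orders along `dE` -/

section ordE
variable (hF : SFil z) (hS : SSdA z)
include hF hS

theorem E_sA {α : Fin 7} (hα : α ≠ 0) {y : Form} (h : Fil z dE 0 y) : Fil z dE 0 (sA z α y) :=
  hF.csmul _ (hF.iota (hS.invA α dE hα (hS.compA α hα).symm (Compat.refl _) dE_ne.1) h)

theorem E_sB {β : Fin 7} (hβ : β ≠ 0) {y : Form} (h : Fil z dE 0 y) : Fil z dE 0 (sB z β y) :=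
  hF.csmul _ (hF.iota (hS.invB β dE hβ (hS.compB β hβ).symm (Compat.refl _) dE_ne.2) h)

theorem E_Gt : Fil z dE 0 (Gt z) := hF.sum _ _ fun α _ => hF.sum _ _ fun β _ => hS.G_E α β

theorem E_eA {α : Fin 7} (hα : α ≠ 0) : Fil z dE 0 (eA z α) :=
  E_sA hF hS hα (hF.sum _ _ fun β _ => hS.G_E α β)

theorem E_eB {β : Fin 7} (hβ : β ≠ 0) : Fil z dE 0 (eB z β) :=
  E_sB hF hS hβ (hF.sum _ _ fun α _ => hS.G_E α β)

theorem E_GA {α : Fin 7} (hα : α ≠ 0) : Fil z dE 0 (GA z α) :=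
  hF.sub (E_Gt hF hS) (hF.nab _ (E_eA hF hS hα))

theorem E_GB {β : Fin 7} (hβ : β ≠ 0) : Fil z dE 0 (GB z β) :=
  hF.sub (E_Gt hF hS) (hF.nab _ (E_eB hF hS hβ))

theorem E_b1 {α β : Fin 7} (hα : α ≠ 0) (hβ : β ≠ 0) : Fil z dE 0 (b1 z α β) :=
  E_sB hF hS hβ (hF.sub (hF.sum _ _ fun α' _ => hS.G_E α' β)
    (hF.nab _ (E_sA hF hS hα (hS.G_E α β))))

theorem E_b2 {α β : Fin 7} (hα : α ≠ 0) (hβ : β ≠ 0) : Fil z dE 0 (b2 z α β) :=
  E_sA hF hS hα (hF.sub (hF.sum _ _ fun β' _ => hS.G_E α β')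
    (hF.nab _ (E_sB hF hS hβ (hS.G_E α β))))

theorem E_e0 {α β : Fin 7} (hα : α ≠ 0) (hβ : β ≠ 0) : Fil z dE 0 (e0 z α β) :=
  E_sA hF hS hα (E_sB hF hS hβ (hS.G_E α β))

theorem E_GAB {α β : Fin 7} (hα : α ≠ 0) (hβ : β ≠ 0) : Fil z dE 0 (GAB z α β) :=
  hF.sub (E_GA hF hS hα) (hF.nab _ (E_b1 hF hS hα hβ))

theorem E_YY (hH : SHom z) (hQ : SR z) (N : ℕ) (α β : Fin 7) : Fil z dE (-1) (YY z N α β) := by
  have hR : ∀ {y}, Fil z dE 0 y → Fil z dE (-1) (Rop z N y) := fun h => by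
    have := hQ.R_Fil N (Compat.refl dE) h
    rwa [x4_dE, add_zero] at this
  unfold YY
  split_ifs with ha hb hb
  · exact hR (E_Gt hF hS)
  · exact hF.add (hR (E_eB hF hS hb)) (hH.h_Fil N (hS.compB β hb).symm (hR (E_GB hF hS hb)))
  · exact hF.add (hR (E_eA hF hS ha)) (hH.h_Fil N (hS.compA α ha).symm (hR (E_GA hF hS ha)))
  · exact hF.add (hF.sub (hF.add (hR (E_e0 hF hS ha hb))
      (hH.h_Fil N (hS.compA α ha).symm (hR (E_b1 hF hS ha hb))))
      (hH.h_Fil N (hS.compB β hb).symm (hR (E_b2 hF hS ha hb))))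
      (hH.h_Fil N (hS.compA α ha).symm (hH.h_Fil N (hS.compB β hb).symm
        (hR (E_GAB hF hS ha hb))))

end ordE

/-! ### Orders along the special divisors -/

section special
variable (hF : SFil z) (hS : SSdA z) (hM : SSdB z)
include hF hS hM

theorem spA {α : Fin 7} (hα : α ≠ 0) (β : Fin 7) : Fil z (Fa α) (latD (Fa α).1 - x4 (Fa α).1)
    (∑ α', GG z α' β - nab z w4 (sA z α (GG z α β))) := by
  rw [sum_split _ hα, add_sub_right_comm]
  refine hF.add (hM.matchA α β hα) (hF.sum _ _ fun a ha => ?_)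
  simp only [Finset.mem_erase] at ha
  exact hS.G_spA a α β hα ha.2.1 ha.1

theorem spB (α : Fin 7) {β : Fin 7} (hβ : β ≠ 0) : Fil z (Fb β) (latD (Fb β).1 - x4 (Fb β).1)
    (∑ β', GG z α β' - nab z w4 (sB z β (GG z α β))) := by
  rw [sum_split _ hβ, add_sub_right_comm]
  refine hF.add (hM.matchB α β hβ) (hF.sum _ _ fun b hb => ?_)
  simp only [Finset.mem_erase] at hb
  exact hS.G_spB α b β hβ hb.2.1 hb.1

theorem sp_GA {α : Fin 7} (hα : α ≠ 0) :
    Fil z (Fa α) (latD (Fa α).1 - x4 (Fa α).1) (GA z α) := by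
  rw [GA, Gt, eA, Finset.sum_comm, map_sum, map_sum, ← Finset.sum_sub_distrib]
  exact hF.sum _ _ fun β _ => spA hF hS hM hα β

theorem sp_GB {β : Fin 7} (hβ : β ≠ 0) :
    Fil z (Fb β) (latD (Fb β).1 - x4 (Fb β).1) (GB z β) := by
  rw [GB, Gt, eB, map_sum, map_sum, ← Finset.sum_sub_distrib]
  exact hF.sum _ _ fun α _ => spB hF hS hM α hβ

theorem sp_b1 {α β : Fin 7} (hα : α ≠ 0) (hβ : β ≠ 0) (h : Compat (Fa α) (Fb β)) :
    Fil z (Fa α) (latD (Fa α).1 - x4 (Fa α).1) (b1 z α β) :=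
  hF.csmul _ (hF.iota (hS.invB β _ hβ h (hS.compA α hα) (Fa_ne α)) (spA hF hS hM hα β))

theorem sp_b2 {α β : Fin 7} (hα : α ≠ 0) (hβ : β ≠ 0) (h : Compat (Fa α) (Fb β)) :
    Fil z (Fb β) (latD (Fb β).1 - x4 (Fb β).1) (b2 z α β) :=
  hF.csmul _ (hF.iota (hS.invA α _ hα h.symm (hS.compB β hβ) (Fb_ne β)) (spB hF hS hM α hβ))

theorem sp_GAB {α β : Fin 7} (hα : α ≠ 0) (hβ : β ≠ 0) (h : Compat (Fa α) (Fb β)) :
    Fil z (Fa α) (latD (Fa α).1 - x4 (Fa α).1) (GAB z α β) :=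
  hF.sub (sp_GA hF hS hM hα) (hF.nab _ (sp_b1 hF hS hM hα hβ h))

end special

theorem iota_sA (h1 : SCar1) {X : VF} (α : Fin 7) {y : Form} (h : iota X y = 0) :
    iota X (sA z α y) = 0 := by
  rw [sA_apply, map_smul, h1.iota_anti, h, map_zero, neg_zero, smul_zero]

theorem iota_sB (h1 : SCar1) {X : VF} (β : Fin 7) {y : Form} (h : iota X y = 0) :
    iota X (sB z β y) = 0 := by
  rw [sB_apply, map_smul, h1.iota_anti, h, map_zero, neg_zero, smul_zero]

/-! ### Membership in the span -/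

theorem mem_span {τ : Finset Div} {k : Div → ℤ} {ω : Form} (h : FOU z ω) {F : Div} (hF : F ∈ τ)
    (hk : Fil z F (k F) ω) : ω ∈ SpanF z τ k :=
  Submodule.subset_span ⟨h, F, hF, hk⟩

section span
variable (hF : SFil z) (hO : SFou z) (hH : SHom z) (hQ : SR z) (hL : SList) (N : ℕ) {k : ℕ}
  {τ : Finset Div} (hτ : τ ∈ Nest k)
include hO hH hL hτ

theorem hs_good {F : Div} (hm : F ∈ τ) {ω : Form} (h : FOU z ω) (hk : Fil z F (latD F.1) ω) :
    hs z N (mu τ) ω ∈ SpanF z τ fun F => latD F.1 :=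
  mem_span (hO.hs N _ h) hm (hH.hs_Fil N
    (fun G hG => (mem_Nest.1 hτ).1 F hm G ((hL.mem_mu τ G).1 hG).1) hk)

omit hO hH hL in
include hQ in
theorem R_good {F : Div} (hm : F ∈ τ) {y : Form} (hk : Fil z F (latD F.1 - x4 F.1) y) :
    Fil z F (latD F.1) (Rop z N y) := by
  have := hQ.R_Fil N ((mem_Nest.1 hτ).1 F hm dE (mem_Nest.1 hτ).2.2) hk
  rwa [add_sub_cancel] at this

include hF hQ in
theorem eff_good {F : Div} (hm : F ∈ mu τ) {y : Form} (h : FOU z y)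
    (hE : iota (theta z dE) y = 0) (hk : Fil z F (latD F.1 - x4 F.1) (iota (theta z F) y)) :
    hs z N (mu τ) (Rop z N y) ∈ SpanF z τ fun F => latD F.1 := by
  have hc := (mem_Nest.1 hτ).1
  have hm' := ((hL.mem_mu τ F).1 hm).1
  have hsub : ∀ G ∈ mu τ, G ∈ τ := fun G hG => ((hL.mem_mu τ G).1 hG).1
  refine mem_span (hO.hs N _ (hO.Rop N h)) hm' ?_
  obtain ⟨l, s, hl, he⟩ := hH.hs_mem N (mu τ) F
    (fun G hG G' hG' => hc G (hsub G hG) G' (hsub G' hG')) hm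
  rw [he]
  refine hF.csmul s (hH.hs_Fil N (fun G hG => hc F hm' G (hsub G (hl G hG))) (hH.h_eff N ?_))
  rw [hQ.iota_R N (hc F hm' dE (mem_Nest.1 hτ).2.2) hE]
  exact R_good hQ N hτ hm' hk

end span

theorem good (h1 : SCar1) (hF : SFil z) (hO : SFou z) (hH : SHom z) (hQ : SR z) (hL : SList)
    (hS : SSdA z) (hM : SSdB z) (N k : ℕ) (hk : 4 ≤ k) (τ : Finset Div) (hτ : τ ∈ Nest k) :
    Xi z N τ ∈ SpanF z τ fun F => latD F.1 := by
  have hc := (mem_Nest.1 hτ).1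
  have hE := (mem_Nest.1 hτ).2.2
  have hn : (mu τ).Nodup := hL.nodup_allD.filter _
  have hlen := hL.length k τ hτ
  have hG : ∀ F ∈ mu τ, ∀ a b, F.1 ≠ xA a → F.1 ≠ yB b →
      Fil z F (latD F.1 - x4 F.1) (GG z a b) := fun F hm a b ha hb =>
    have h := (hL.mem_mu τ F).1 hm
    hS.G_good a b F (hc F h.1 dE hE) h.2.2.2 h.2.1 h.2.2.1 ha hb
  have hsub : ∀ G ∈ mu τ, G ∈ τ := fun G hG => ((hL.mem_mu τ G).1 hG).1
  have hA : aT τ ≠ 0 → Fa (aT τ) ∈ τ := fun h => (hL.aT_iff k τ hτ _ h).2 rfl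
  have hB : bT τ ≠ 0 → Fb (bT τ) ∈ τ := fun h => (hL.bT_iff k τ hτ _ h).2 rfl
  simp only [lst, kp, List.length_append, List.length_singleton] at hlen
  unfold Xi YY
  generalize aT τ = α at *
  generalize bT τ = β at *
  split_ifs at hlen ⊢ with ha hb hb
  · simp only [List.length_nil] at hlen
    simp only [Gt, map_sum]
    refine Submodule.sum_mem _ fun a _ => Submodule.sum_mem _ fun b _ => ?_
    obtain ⟨F, hm, hF'⟩ := pigeon hn {xA a, yB b} (Finset.card_le_two.trans_lt (by omega))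
    simp only [Finset.mem_insert, Finset.mem_singleton, not_or] at hF'
    exact hs_good hO hH hL N hτ (hsub F hm) (hO.Rop N (hS.G_FOU a b))
      (R_good hQ N hτ (hsub F hm) (hG F hm a b hF'.1 hF'.2))
  · simp only [List.length_nil, List.length_singleton] at hlen
    rw [map_add]
    refine Submodule.add_mem _ ?_ (hs_good hO hH hL N hτ (hB hb)
      (hO.hOp N _ (hO.Rop N (fou_GB hO hS β))) (hH.h_Fil N (Compat.refl _)
        (R_good hQ N hτ (hB hb) (sp_GB hF hS hM hb))))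
    simp only [eB, map_sum]
    refine Submodule.sum_mem _ fun a _ => ?_
    obtain ⟨F, hm, hF'⟩ := pigeon hn {xA a} (by rw [Finset.card_singleton]; omega)
    refine eff_good hF hO hH hQ hL N hτ hm (fou_sB hO hS β (hS.G_FOU a β))
      (iota_sB h1 β (hS.G_iotaE a β)) ?_
    by_cases hy : F.1 = yB β
    · rw [hS.killB β F _ hb hy]
      exact hF.zero _ _
    · exact hS.effB β F _ _ hb (hc F (hsub F hm) _ (hB hb)) (hc F (hsub F hm) dE hE)
        (hG F hm a β (by simpa using hF') hy)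
  · simp only [List.length_nil, List.length_singleton] at hlen
    rw [map_add]
    refine Submodule.add_mem _ ?_ (hs_good hO hH hL N hτ (hA ha)
      (hO.hOp N _ (hO.Rop N (fou_GA hO hS α))) (hH.h_Fil N (Compat.refl _)
        (R_good hQ N hτ (hA ha) (sp_GA hF hS hM ha))))
    simp only [eA, map_sum]
    refine Submodule.sum_mem _ fun b _ => ?_
    obtain ⟨F, hm, hF'⟩ := pigeon hn {yB b} (by rw [Finset.card_singleton]; omega)
    refine eff_good hF hO hH hQ hL N hτ hm (fou_sA hO hS α (hS.G_FOU α b))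
      (iota_sA h1 α (hS.G_iotaE α b)) ?_
    by_cases hx : F.1 = xA α
    · rw [hS.killA α F _ ha hx (hS.G_iotaE α b)]
      exact hF.zero _ _
    · exact hS.effA α F _ _ ha (hc F (hsub F hm) _ (hA ha)) (hc F (hsub F hm) dE hE)
        (hG F hm α b hx (by simpa using hF'))
  · simp only [List.length_singleton] at hlen
    have hab := hc _ (hA ha) _ (hB hb)
    rw [map_add, map_sub, map_add]
    refine Submodule.add_mem _ (Submodule.sub_mem _ (Submodule.add_mem _ ?_ ?_) ?_) ?_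
    · obtain ⟨F, hm, -⟩ := pigeon hn ∅ (by rw [Finset.card_empty]; omega)
      have hy0 := iota_sB (z := z) h1 β (hS.G_iotaE α β)
      refine eff_good hF hO hH hQ hL N hτ hm (fou_e0 hO hS α β) (iota_sA h1 α hy0) ?_
      by_cases hx : F.1 = xA α
      · rw [e0, hS.killA α F _ ha hx hy0]
        exact hF.zero _ _
      by_cases hy : F.1 = yB β
      · rw [e0, iota_sA h1 α (hS.killB β F _ hb hy)]
        exact hF.zero _ _
      · exact hS.effAB α β F _ _ ha hb (hc F (hsub F hm) _ (hA ha)) (hc F (hsub F hm) _ (hB hb))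
          (hc F (hsub F hm) dE hE) (hG F hm α β hx hy)
    · exact hs_good hO hH hL N hτ (hA ha) (hO.hOp N _ (hO.Rop N (fou_b1 hO hS α β)))
        (hH.h_Fil N (Compat.refl _) (R_good hQ N hτ (hA ha) (sp_b1 hF hS hM ha hb hab)))
    · exact hs_good hO hH hL N hτ (hB hb) (hO.hOp N _ (hO.Rop N (fou_b2 hO hS α β)))
        (hH.h_Fil N (Compat.refl _) (R_good hQ N hτ (hB hb) (sp_b2 hF hS hM ha hb hab)))
    · exact hs_good hO hH hL N hτ (hA ha)
        (hO.hOp N _ (hO.hOp N _ (hO.Rop N (fou_GAB hO hS α β))))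
        (hH.h_Fil N (Compat.refl _) (hH.h_Fil N hab
          (R_good hQ N hτ (hA ha) (sp_GAB hF hS hM ha hb hab))))

end GoodAux

set_option linter.unusedVariables false in
theorem sGood (z : Fin 11 → ℂ) (hI : SInv z) (h1 : SCar1) (h2 : SCar2 z) (hF : SFil z)
    (hO : SFou z) (hH : SHom z) (hQ : SR z) (hL : SList) (hS : SSdA z) (hM : SSdB z) :
    SGood z where
  fouY := GoodAux.fou_YY hO hS
  fou N _ := hO.hs N _ (GoodAux.fou_YY hO hS N _ _)
  good := GoodAux.good h1 hF hO hH hQ hL hS hM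
  ordE N _ τ hτ := hH.hs_Fil N (fun F hm => (mem_Nest.1 hτ).1 dE (mem_Nest.1 hτ).2.2 F
    ((hL.mem_mu τ F).1 hm).1) (GoodAux.E_YY hF hS hH hQ N _ _)

end Pool.Agent.MP_cb8d3a_ag.H90
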