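import Pool.Agent.MP_cb8d3a_ag.H90.Spec

/-! Vector fields commuting with Laurent coefficients. -/

noncomputable section

open scoped BigOperators

namespace Pool.Agent.MP_cb8d3a_ag.H90

namespace InvAux

variable {z : Fin 11 → ℂ} {F : Div}

/-- Apply the additive map `d j` to the coefficient of index `j`. -/
def cw (d : ℤ → K →+ K) : LaurentSeries K →+ LaurentSeries K where
  toFun s := ⟨fun j => d j (s.coeff j), s.isPWO_support.mono fun j hj h => hj (by
    simp only [h, map_zero])⟩
  map_zero' := by ext j; simp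
  map_add' x y := by ext j; simp

theorem cw_coeff (d : ℤ → K →+ K) (s : LaurentSeries K) (j : ℤ) :
    (cw d s).coeff j = d j (s.coeff j) := rfl

theorem cw_supp (d : ℤ → K →+ K) (s : LaurentSeries K) : (cw d s).support ⊆ s.support :=
  fun j hj h => hj (by rw [cw_coeff, h, map_zero])

theorem cw_mul (d : ℤ → K →+ K) (h : ∀ i j x y, d (i + j) (x * y) = d i x * y + x * d j y)
    (s r : LaurentSeries K) : cw d (s * r) = cw d s * r + s * cw d r := by
  ext j
  rw [cw_coeff, HahnSeries.coeff_add, HahnSeries.coeff_mul,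
    HahnSeries.coeff_mul_left' s.isPWO_support (cw_supp d s),
    HahnSeries.coeff_mul_right' r.isPWO_support (cw_supp d r), map_sum, ← Finset.sum_add_distrib]
  refine Finset.sum_congr rfl fun p hp => ?_
  rw [← (Finset.mem_antidiagonal.1 hp).2.2, h, cw_coeff, cw_coeff]

theorem co_act (X : VF) (d : ℤ → K →+ K)
    (h : ∀ i j x y, d (i + j) (x * y) = d i x * y + x * d j y)
    (h0 : ∀ r : ℂ, d 0 (algebraMap ℂ K r) = 0) (ht : ∀ j a, co z F j (X a) = d j (co z F j (t a)))
    (j : ℤ) (c : K) : co z F j (act X c) = d j (co z F j c) := by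
  have := der_ext (ex z F) ((ex z F).toAddMonoidHom.comp (act X).toLinearMap.toAddMonoidHom)
    ((cw d).comp (ex z F).toAddMonoidHom)
    (fun x y => by
      change ex z F (act X (x * y)) = ex z F (act X x) * _ + _ * ex z F (act X y)
      rw [act_mul, map_add, map_mul, map_mul])
    (fun x y => by
      change cw d (ex z F (x * y)) = cw d (ex z F x) * _ + _ * cw d (ex z F y)
      rw [map_mul, cw_mul d h])
    (fun r => by
      ext i
      change co z F i (act X _) = d i (co z F i _)
      rw [act_const, map_zero, co_const]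
      split_ifs with hi
      · rw [hi, h0]
      · rw [map_zero])
    (fun a => by
      ext i
      change co z F i (act X _) = d i (co z F i _)
      rw [act_t, ht]) c
  exact congrArg (fun s : LaurentSeries K => s.coeff j) this

theorem inv_of_t (X : VF) (h : ∀ j a, co z F j (X a) = act X (co z F j (t a))) : Inv z F X :=
  co_act X (fun _ => (act X).toLinearMap.toAddMonoidHom) (fun _ _ => act_mul X) (act_const X) h

theorem act_br (X Y : VF) (c : K) : act (br X Y) c = act X (act Y c) - act Y (act X c) :=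
  der_ext (RingHom.id K) (act (br X Y)).toLinearMap.toAddMonoidHom
    ((act X).toLinearMap ∘ₗ (act Y).toLinearMap -
      (act Y).toLinearMap ∘ₗ (act X).toLinearMap).toAddMonoidHom (act_mul _)
    (fun x y => by
      change act X (act Y (x * y)) - act Y (act X (x * y)) =
        (act X (act Y x) - act Y (act X x)) * y + x * (act X (act Y y) - act Y (act X y))
      simp only [act_mul, map_add]
      ring)
    (fun r => by
      change act _ _ = act X (act Y _) - act Y (act X _)
      simp only [act_const, map_zero, sub_zero])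
    (fun a => by
      change act _ _ = act X (act Y _) - act Y (act X _)
      simp only [act_t, br]) c

theorem ev1_dlog (X : VF) (c : K) : ev1 (dlog c) X = act X c / c := by
  rw [act_apply, Finset.sum_div]
  exact Finset.sum_congr rfl fun a _ => by rw [dlog]; ring

theorem ev1_eta (w : Hyp → ℚ) (X : VF) :
    ev1 (etaW z w) X = ∑ h : Hyp, (w h : K) * (act X (hyp z h) / hyp z h) := by
  simp only [← ev1_dlog, ev1, etaW, Finset.sum_mul, Finset.mul_sum, mul_assoc]
  exact Finset.sum_comm

theorem act_zero (c : K) : act 0 c = 0 := by simp [act_apply]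

theorem act_add (X Y : VF) (c : K) : act (X + Y) c = act X c + act Y c := by
  simp [act_apply, add_mul, Finset.sum_add_distrib]

theorem act_neg (X : VF) (c : K) : act (-X) c = -act X c := by simp [act_apply]

theorem act_smul (f : K) (X : VF) (c : K) : act (f • X) c = f * act X c := by
  simp [act_apply, Finset.mul_sum, mul_assoc]

theorem co_fix {f : K} (hf : Fix z F f) (j : ℤ) (y : K) : co z F j (f * y) = f * co z F j y := by
  rw [co_apply, map_mul, hf, HahnSeries.coeff_single_zero_mul, co_apply]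

theorem fix_iff {f : K} : Fix z F f ↔ ex z F f = HahnSeries.C f := Iff.rfl

theorem fix_t {a : Fin 5} (h : a ∉ F.1.1) : Fix z F (t a) := by
  rw [Fix, ex_t, chart, if_neg h]

theorem fix_sub {x y : K} (hx : Fix z F x) (hy : Fix z F y) : Fix z F (x - y) := by
  rw [fix_iff] at *
  rw [map_sub, map_sub, hx, hy]

theorem nonempty (F : Div) : F.1.1.Nonempty := by
  obtain ⟨⟨A, o⟩, h⟩ := F
  rcases A.eq_empty_or_nonempty with rfl | hA
  · rcases o with _ | o <;> simp [pts] at h
  · exact hA

theorem ctr_cases (z : Fin 11 → ℂ) (F : Div) :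
    (F.1.2 ≠ none ∧ ∃ r, centre z F.1 = algebraMap ℂ K r) ∨
      F.1.2 = none ∧ centre z F.1 = t (lastPt F.1.1) ∧ lastPt F.1.1 ∈ F.1.1 := by
  have := lastPt_mem _ (nonempty F)
  obtain ⟨⟨A, _ | _ | i⟩, h⟩ := F
  exacts [Or.inr ⟨rfl, rfl, this⟩, Or.inl ⟨by simp, _, rfl⟩, Or.inl ⟨by simp, _, rfl⟩]

theorem ctr_eq {G : Div} (h : F.1.2 = G.1.2) (h' : F.1.2 ≠ none) : centre z F.1 = centre z G.1 := by
  obtain ⟨⟨A, o⟩, hF⟩ := F
  obtain ⟨⟨B, o'⟩, hG⟩ := G
  obtain rfl : o = o' := h
  rcases o with _ | _ | i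
  exacts [absurd rfl h', rfl, rfl]

theorem last_eq {A B : Finset (Fin 5)} (h : A ⊆ B) (hB : lastPt B ∈ A) : lastPt A = lastPt B :=
  le_antisymm (le_lastPt B _ (h (lastPt_mem A ⟨_, hB⟩))) (le_lastPt A _ hB)

theorem fix_centre : Fix z F (centre z F.1) := by
  rcases ctr_cases z F with ⟨-, r, h⟩ | ⟨-, h, h'⟩
  · rw [h]
    exact ex_algebraMap z F r
  · have := ex_t z F (lastPt F.1.1)
    rwa [chart, if_pos h', ← h, sub_self, HahnSeries.single_eq_zero, add_zero] at this

/-- The exponent of the local coordinate. -/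
def eps (F : Div) : ℤ := if F.1.2 = some none then -1 else 1

theorem ex_mem {a : Fin 5} (h : a ∈ F.1.1) : ex z F (t a) =
    HahnSeries.single 0 (centre z F.1) + HahnSeries.single (eps F) (t a - centre z F.1) := by
  rw [ex_t, chart, if_pos h, eps]

theorem theta_mem {a : Fin 5} (h : a ∈ F.1.1) :
    theta z F a = (eps F : K) * (t a - centre z F.1) := by
  rw [theta, if_pos h, eps]
  split_ifs <;> simp

theorem theta_not {a : Fin 5} (h : a ∉ F.1.1) : theta z F a = 0 := if_neg h

theorem act_single (X : VF) (i j : ℤ) (c : K) :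
    act X ((HahnSeries.single i c : LaurentSeries K).coeff j) =
      (HahnSeries.single i (act X c) : LaurentSeries K).coeff j := by
  rw [HahnSeries.coeff_single, HahnSeries.coeff_single]
  split_ifs
  exacts [rfl, map_zero _]

theorem inv_of_ex (X : VF) (h1 : ∀ a ∈ F.1.1, ex z F (X a) =
      HahnSeries.single 0 (act X (centre z F.1)) +
        HahnSeries.single (eps F) (X a - act X (centre z F.1)))
    (h2 : ∀ a ∉ F.1.1, Fix z F (X a)) : Inv z F X := by
  refine inv_of_t X fun j a => ?_
  rw [co_apply, co_apply]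
  by_cases ha : a ∈ F.1.1
  · rw [h1 a ha, ex_mem ha, HahnSeries.coeff_add, HahnSeries.coeff_add, map_add (act X),
      act_single, act_single, map_sub (act X), act_t]
  · rw [h2 a ha, fix_t ha, act_single, act_t]

theorem fix_zero : Fix z F 0 := by rw [fix_iff, map_zero, map_zero]

theorem fix_int (n : ℤ) : Fix z F n := by rw [fix_iff, map_intCast, map_intCast]

theorem fix_mul {x y : K} (hx : Fix z F x) (hy : Fix z F y) : Fix z F (x * y) := by
  rw [fix_iff] at *
  rw [map_mul, map_mul, hx, hy]

theorem ex_lin {a : Fin 5} (h : a ∈ F.1.1) (n : ℤ) {c : K} (hc : Fix z F c) :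
    ex z F (n * (t a - c)) = HahnSeries.single 0 (n * (centre z F.1 - c)) +
      HahnSeries.single (eps F) (n * (t a - centre z F.1)) := by
  rw [map_mul, map_sub, ex_mem h, hc, fix_int n, add_sub_right_comm, ← HahnSeries.single_sub,
    mul_add, HahnSeries.single_mul_single, HahnSeries.single_mul_single, zero_add, zero_add]

theorem co_theta (j : ℤ) (c : K) : co z F j (act (theta z F) c) = (j : K) * co z F j c := by
  refine co_act _ (fun j => AddMonoidHom.mulLeft (j : K)) (fun i j x y => ?_) (fun r => ?_)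
    (fun j a => ?_) j c
  · simp only [AddMonoidHom.coe_mulLeft, Int.cast_add]
    ring
  · simp
  · rw [AddMonoidHom.coe_mulLeft, co_apply, co_apply]
    by_cases ha : a ∈ F.1.1
    · rw [theta_mem ha, ex_lin ha _ fix_centre, ex_mem ha, sub_self, mul_zero,
        HahnSeries.single_eq_zero, zero_add, HahnSeries.coeff_add, HahnSeries.coeff_single,
        HahnSeries.coeff_single, HahnSeries.coeff_single]
      split_ifs with h1 h2 h2
      · rw [h2] at h1
        unfold eps at h1
        split_ifs at h1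
        omega
      · rw [h1, zero_add]
      · rw [h2, Int.cast_zero, zero_mul]
      · rw [add_zero, mul_zero]
    · rw [theta_not ha, map_zero, fix_t ha, HahnSeries.coeff_single, HahnSeries.coeff_zero]
      split_ifs with h1
      · rw [h1, Int.cast_zero, zero_mul]
      · rw [mul_zero]

theorem inv_sub {G : Div} (h : F.1.1 ⊆ G.1.1) (h' : F.1.2 = none ∨ F.1.2 = G.1.2) :
    Inv z F (theta z G) := by
  have hc : Fix z F (centre z G.1) := by
    rcases ctr_cases z G with ⟨-, r, e⟩ | ⟨e1, e2, -⟩
    · rw [e]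
      exact ex_algebraMap z F r
    · by_cases hl : lastPt G.1.1 ∈ F.1.1
      · rcases ctr_cases z F with ⟨e3, -⟩ | ⟨-, e3, -⟩
        · exact absurd (h'.elim id fun e => e.trans e1) e3
        · rw [e2, ← last_eq h hl, ← e3]
          exact fix_centre
      · rw [e2]
        exact fix_t hl
  have hθ : act (theta z G) (centre z F.1) = eps G * (centre z F.1 - centre z G.1) := by
    rcases ctr_cases z F with ⟨e1, r, e2⟩ | ⟨-, e2, e3⟩
    · rw [← ctr_eq (h'.resolve_left e1) e1, sub_self, mul_zero, e2, act_const]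
    · rw [e2, act_t, theta_mem (h e3)]
  refine inv_of_ex _ (fun a ha => ?_) fun a ha => ?_
  · rw [hθ, theta_mem (h ha), ex_lin ha _ hc, ← mul_sub, sub_sub_sub_cancel_right]
  · by_cases hg : a ∈ G.1.1
    · rw [theta_mem hg]
      exact fix_mul (fix_int _) (fix_sub (fix_t ha) hc)
    · rw [theta_not hg]
      exact fix_zero

theorem inv_sup {G : Div} (h : G.1.1 ⊆ F.1.1) (h' : G.1.2 = none ∨ G.1.2 = F.1.2) :
    Inv z F (theta z G) := by
  have hθ : act (theta z G) (centre z F.1) = 0 := by
    rcases ctr_cases z F with ⟨-, r, e⟩ | ⟨e1, e2, -⟩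
    · rw [e, act_const]
    · rw [e2, act_t]
      by_cases hl : lastPt F.1.1 ∈ G.1.1
      · rcases ctr_cases z G with ⟨e3, -⟩ | ⟨-, e3, -⟩
        · exact absurd (h'.elim id fun e => e.trans e1) e3
        · rw [theta_mem hl, e3, last_eq h hl, sub_self, mul_zero]
      · exact theta_not hl
  refine inv_of_ex _ (fun a ha => ?_) fun a ha => ?_
  · rw [hθ, sub_zero, HahnSeries.single_eq_zero, zero_add]
    by_cases hg : a ∈ G.1.1
    · rw [theta_mem hg]
      rcases ctr_cases z G with ⟨e1, -⟩ | ⟨-, e2, e3⟩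
      · rw [ctr_eq (h'.resolve_left e1) e1, ex_lin ha _ fix_centre, sub_self, mul_zero,
          HahnSeries.single_eq_zero, zero_add]
      · rw [e2, map_mul, map_sub, ex_mem ha, ex_mem (h e3), fix_int, add_sub_add_left_eq_sub,
          ← HahnSeries.single_sub, HahnSeries.single_mul_single, zero_add,
          sub_sub_sub_cancel_right]
    · rw [theta_not hg, map_zero, HahnSeries.single_eq_zero]
  · rw [theta_not fun hg => ha (h hg)]
    exact fix_zero

theorem inv_dis {G : Div} (h : ∀ a ∈ F.1.1, a ∉ G.1.1) : Inv z F (theta z G) := by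
  have hθ : act (theta z G) (centre z F.1) = 0 := by
    rcases ctr_cases z F with ⟨-, r, e⟩ | ⟨-, e2, e3⟩
    · rw [e, act_const]
    · rw [e2, act_t, theta_not (h _ e3)]
  refine inv_of_ex _ (fun a ha => ?_) fun a ha => ?_
  · rw [hθ, theta_not (h a ha), map_zero, sub_zero, HahnSeries.single_eq_zero,
      HahnSeries.single_eq_zero, zero_add]
  · by_cases hg : a ∈ G.1.1
    · rw [theta_mem hg]
      refine fix_mul (fix_int _) (fix_sub (fix_t ha) ?_)
      rcases ctr_cases z G with ⟨-, r, e⟩ | ⟨-, e2, e3⟩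
      · rw [e]
        exact ex_algebraMap z F r
      · rw [e2]
        exact fix_t fun hh => h _ hh e3
    · rw [theta_not hg]
      exact fix_zero

theorem inv_theta (hA : SAt z) {G : Div} (h : Compat F G) : Inv z F (theta z G) := by
  have h1 := (hA.compB_iff F G).2 h
  simp only [compB, Bool.or_eq_true, Bool.and_eq_true, decide_eq_true_eq] at h1
  rcases h1 with (h1 | h1) | h1
  · exact inv_sub h1.1 h1.2
  · exact inv_sup h1.1 h1.2
  · exact inv_dis fun a ha hg => Finset.notMem_empty a (h1.1 ▸ Finset.mem_inter.2 ⟨ha, hg⟩)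

theorem inv_V {X : VF} {k : ℤ} {c : K} (hX : Inv z F X) (h : V z F k c) : V z F k (act X c) :=
  fun j hj => by rw [hX, h j hj, map_zero]

theorem br_theta {X : VF} (hX : Inv z F X) : br (theta z F) X = 0 := by
  funext a
  refine eq_of_co (z := z) (F := F) fun j => ?_
  rw [← act_t (br _ _), act_br, map_sub, co_theta, hX, hX, co_theta, act_mul, Pi.zero_apply,
    map_zero, Derivation.map_intCast, zero_mul, zero_add, sub_self]

theorem dlog_aux {X : VF} {k : ℤ} {c : K} (hX : Inv z F X) (h : V z F k c) (h0 : co z F k c ≠ 0) :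
    V z F 0 (act X c / c) ∧ co z F 0 (act X c / c) = co z F k (act X c) / co z F k c := by
  have h1 := (inv_V hX h).mul (h.inv h0).1
  have h2 := co_mul (inv_V hX h) (h.inv h0).1
  rw [add_neg_cancel] at h1 h2
  rw [(h.inv h0).2] at h2
  simpa only [div_eq_mul_inv] using And.intro h1 h2

theorem V_dlog {X : VF} (c : K) (hX : Inv z F X) : V z F 0 (act X c / c) := by
  by_cases hc : c = 0
  · rw [hc, div_zero]
    exact V_zero 0
  · exact (dlog_aux hX (V_order c) (co_order_ne hc)).1

theorem inv_self : Inv z F (theta z F) := inv_sub subset_rfl (Or.inr rfl)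

theorem V_theta_dlog {k : ℤ} {c : K} (h : V z F k c) (h0 : co z F k c ≠ 0) :
    V z F 1 (act (theta z F) c / c - (k : K)) := by
  have h1 := dlog_aux inv_self h h0
  refine (h1.1.sub (V_intCast k)).succ ?_
  rw [map_sub, h1.2, co_theta, co_intCast, mul_div_cancel_right₀ _ h0, sub_self]

theorem V_eta {X : VF} (w : Hyp → ℚ) (hX : Inv z F X) : V z F 0 (ev1 (etaW z w) X) := by
  rw [ev1_eta]
  exact V_sum _ _ fun h _ => (V_ratCast _).mul (V_dlog _ hX)

theorem V_theta_eta (hA : SAt z) (w : Hyp → ℚ) :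
    V z F 1 (ev1 (etaW z w) (theta z F) - (aW w F.1 : K)) := by
  rw [ev1_eta, aW, Rat.cast_sum, ← Finset.sum_sub_distrib]
  refine V_sum _ _ fun h _ => ?_
  rw [Rat.cast_mul, Rat.cast_intCast, ← mul_sub, hyp_eq, hA.vH_eq]
  refine (V_ratCast _).mul (V_theta_dlog (hA.V_av F _ (hA.toAt_ne h)) ?_)
  rw [hA.co_av F _ (hA.toAt_ne h)]
  exact hA.av_ne _ (hA.inA_ne F _ (hA.toAt_ne h))

theorem V_dw_theta (hA : SAt z) (w : Hyp → ℚ) {k : ℤ} {c : K} (h : V z F k c) :
    V z F (k + 1) (dw z w (theta z F) c - ((k : ℂ) + (aW w F.1 : ℂ)) • c) := by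
  have h1 : V z F (k + 1) (act (theta z F) c - k * c) := by
    refine ((inv_V inv_self h).sub ?_).succ ?_
    · simpa using (V_intCast k).mul h
    · rw [map_sub, co_theta, co_fix (fix_int k), sub_self]
  have h2 := h.mul (V_theta_eta hA w)
  have e : dw z w (theta z F) c - ((k : ℂ) + (aW w F.1 : ℂ)) • c =
      act (theta z F) c - k * c + c * (ev1 (etaW z w) (theta z F) - (aW w F.1 : K)) := by
    rw [dw_apply, Algebra.smul_def, map_add, map_intCast, map_ratCast]
    ring
  rw [e]
  exact h1.add h2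

theorem inv_out {a : Fin 5} (h : a ∉ F.1.1) : Inv z F (fld a 1) := by
  have hθ : act (fld a 1) (centre z F.1) = 0 := by
    rcases ctr_cases z F with ⟨-, r, e⟩ | ⟨-, e2, e3⟩
    · rw [e, act_const]
    · rw [e2, act_t, fld, Pi.single_eq_of_ne (ne_of_mem_of_not_mem e3 h)]
  refine inv_of_ex _ (fun b hb => ?_) fun b _ => ?_
  · rw [hθ, fld, Pi.single_eq_of_ne (ne_of_mem_of_not_mem hb h), map_zero, sub_zero,
      HahnSeries.single_eq_zero, HahnSeries.single_eq_zero, zero_add]
  · rw [fld, Pi.single_apply]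
    split_ifs
    · simpa using fix_int (z := z) (F := F) 1
    · exact fix_zero

theorem inv_in {a : Fin 5} (h : a ∈ F.1.1) : Inv z F (fld a (t a - centre z F.1)) := by
  have hθ : act (fld a (t a - centre z F.1)) (centre z F.1) = 0 := by
    rcases ctr_cases z F with ⟨-, r, e⟩ | ⟨-, e2, -⟩
    · rw [e, act_const]
    · rw [e2, act_t, fld, Pi.single_apply]
      split_ifs with e
      · rw [e, sub_self]
      · rfl
  refine inv_of_ex _ (fun b _ => ?_) fun b hb => ?_
  · rw [hθ, sub_zero, HahnSeries.single_eq_zero, zero_add, fld, Pi.single_apply]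
    split_ifs
    · rw [map_sub, ex_mem h, fix_centre, add_sub_cancel_left]
    · rw [map_zero, HahnSeries.single_eq_zero]
  · rw [fld, Pi.single_eq_of_ne (ne_of_mem_of_not_mem h hb).symm]
    exact fix_zero

theorem inv_ind (h : F.1.2 = none) : Inv z F fun a => if a ∈ F.1.1 then 1 else 0 := by
  refine inv_of_ex _ (fun b hb => ?_) fun b hb => ?_
  · rcases ctr_cases z F with ⟨e, -⟩ | ⟨-, e2, e3⟩
    · exact absurd h e
    · rw [e2, act_t, if_pos hb, if_pos e3, sub_self, HahnSeries.single_eq_zero, add_zero, map_one]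
      rfl
  · rw [if_neg hb]
    exact fix_zero

end InvAux

open InvAux in
theorem sInv (z : Fin 11 → ℂ) (hA : SAt z) : SInv z where
  act_br := act_br
  ev1_dlog := ev1_dlog
  ev1_eta := ev1_eta
  inv_of_t _ := inv_of_t
  inv_zero _ _ _ := by rw [act_zero, act_zero, map_zero]
  inv_add _ _ _ hX hY j c := by rw [act_add, act_add, map_add, hX, hY]
  inv_neg _ _ hX j c := by rw [act_neg, act_neg, map_neg, hX]
  inv_smul _ _ _ hf hX j c := by rw [act_smul, act_smul, co_fix hf, hX]
  inv_br _ _ _ hX hY j c := by rw [act_br, act_br, map_sub, hX, hY, hY, hX]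
  fix_t _ _ := fix_t
  fix_const := ex_algebraMap z
  fix_centre _ := fix_centre
  fix_add _ _ _ hx hy := by
    rw [fix_iff] at *
    rw [map_add, map_add, hx, hy]
  fix_sub _ _ _ := fix_sub
  fix_mul _ _ _ := fix_mul
  fix_inv _ _ hx := by
    rw [fix_iff] at *
    rw [map_inv₀, map_inv₀, hx]
  inv_V _ _ _ _ := inv_V
  co_theta _ := co_theta
  inv_theta _ _ := inv_theta hA
  br_theta _ _ := br_theta
  V_dlog _ _ := V_dlog
  co_dlog _ _ _ _ hX h h0 := by rw [(dlog_aux hX h h0).2, hX]
  V_theta_dlog _ _ _ := V_theta_dlog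
  V_eta _ _ := V_eta
  V_theta_eta _ := V_theta_eta hA
  V_dw _ _ w _ _ hX h := by
    rw [dw_apply]
    exact (inv_V hX h).add (by simpa using (V_eta w hX).mul h)
  V_dw_theta _ w _ _ := V_dw_theta hA w
  inv_out _ _ := inv_out
  inv_in _ _ := inv_in
  inv_ind _ := inv_ind

end Pool.Agent.MP_cb8d3a_ag.H90
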