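import Pool.Agent.MP_cb8d3a_ag.H90.Spec

/-! Coefficients of regular functions stay regular and keep their orders. -/

set_option linter.unusedVariables false

noncomputable section

open scoped BigOperators

namespace Pool.Agent.MP_cb8d3a_ag.H90

namespace K1Aux

variable {z : Fin 11 → ℂ}

theorem t_OU (a : Fin 5) : t a ∈ OU z := Algebra.subset_adjoin (Or.inl ⟨a, rfl⟩)

theorem inv_OU (h : Hyp) : (hyp z h)⁻¹ ∈ OU z := Algebra.subset_adjoin (Or.inr ⟨h, rfl⟩)

theorem pd_OU (hA : SAt z) (a : Fin 5) (c : K) (hc : c ∈ OU z) : pd a c ∈ OU z := by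
  induction hc using Algebra.adjoin_induction with
  | mem x hx =>
    rcases hx with ⟨b, rfl⟩ | ⟨h, rfl⟩
    · rw [pd_t]
      split_ifs
      · exact one_mem _
      · exact zero_mem _
    · have h1 := (pdD a).leibniz_inv (hyp z h)
      rw [pdD_apply, pdD_apply, smul_eq_mul] at h1
      simp only
      rw [h1]
      refine mul_mem (neg_mem (pow_mem (inv_OU h) 2)) ?_
      rw [hyp_eq, hA.pd_av]
      exact intCast_mem _ _
  | algebraMap r => rw [pd_algebraMap]; exact zero_mem _
  | add x y _ _ hx hy => rw [pd_add]; exact add_mem hx hy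
  | mul x y hx' hy' hx hy => rw [pd_mul]; exact add_mem (mul_mem hx hy') (mul_mem hx' hy)

theorem act_OU (hA : SAt z) (X : VF) (c : K) (hX : ∀ a, X a ∈ OU z) (hc : c ∈ OU z) :
    act X c ∈ OU z := by
  rw [act_apply]
  exact sum_mem fun a _ => mul_mem (hX a) (pd_OU hA a c hc)

theorem pt_OU (p : Pt) : pt z p ∈ OU z := by
  rcases p with a | i
  · exact t_OU a
  · exact algebraMap_mem _ _

theorem theta_OU (F : Div) (a : Fin 5) : theta z F a ∈ OU z := by
  have hc : centre z F.1 ∈ OU z := by rw [centre_eq]; exact pt_OU _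
  unfold theta
  split_ifs
  · exact sub_mem hc (t_OU a)
  · exact sub_mem (t_OU a) hc
  · exact zero_mem _

theorem eta_OU (hA : SAt z) (w : Hyp → ℚ) (a : Fin 5) : etaW z w a ∈ OU z := by
  refine sum_mem fun h _ => mul_mem ?_ ?_
  · rw [← map_ratCast (algebraMap ℂ K)]
    exact algebraMap_mem _ _
  · unfold dlog
    rw [div_eq_mul_inv]
    refine mul_mem ?_ (inv_OU h)
    rw [hyp_eq, hA.pd_av]
    exact intCast_mem _ _

theorem co_mul_sum (F : Div) (k : ℤ) (x y : K) : ∃ s : Finset (ℤ × ℤ),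
    co z F k (x * y) = ∑ p ∈ s, co z F p.1 x * co z F p.2 y := by
  simp only [co_apply, map_mul]
  exact ⟨_, HahnSeries.coeff_mul⟩

/-- the coefficients of the inverse of an atom -/
theorem co_inv (hA : SAt z) (F : Div) (x : At) (hx : x.1 ≠ x.2) (k : ℤ) :
    co z F k (av z x)⁻¹ = 0 ∨ ∃ n : ℕ, co z F k (av z x)⁻¹ =
      (-(av z x - av z (inA F.1 x)) * (av z (inA F.1 x))⁻¹) ^ n * (av z (inA F.1 x))⁻¹ := by
  have h0 : av z (inA F.1 x) ≠ 0 := hA.av_ne _ (hA.inA_ne F x hx)
  obtain ⟨h1, h2⟩ := (hA.V_av F x hx).inv (by rw [hA.co_av F x hx]; exact h0)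
  rw [hA.co_av F x hx] at h2
  rcases lt_or_ge k (-vA F.1 x) with hk | hk
  · exact Or.inl (h1 k hk)
  obtain ⟨n, rfl⟩ : ∃ n : ℕ, k = -vA F.1 x + n := ⟨(k + vA F.1 x).toNat, by omega⟩
  refine Or.inr ⟨n, ?_⟩
  clear hk
  induction n with
  | zero => simpa using h2
  | succ n ih =>
    have h3 := co_const (z := z) (F := F) (n + 1) 1
    rw [if_neg (by omega), map_one, ← inv_mul_cancel₀ (hA.av_ne x hx), co_apply, map_mul,
      hA.ex_av F x hx, mul_add, HahnSeries.coeff_add, HahnSeries.coeff_mul_single,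
      HahnSeries.coeff_mul_single, ← co_apply, ← co_apply,
      show (n : ℤ) + 1 - vA F.1 x = -vA F.1 x + (n + 1 : ℕ) by push_cast; ring,
      show (n : ℤ) + 1 - (vA F.1 x + 1) = -vA F.1 x + n by ring, ih] at h3
    refine mul_right_cancel₀ h0 ?_
    rw [eq_neg_of_add_eq_zero_left h3, pow_succ]
    field_simp

theorem ok_one : ∀ x : At, x.1 ≠ x.2 → okL [(x, -1)] = true := by decide +kernel

theorem av_inv_OU (hA : SAt z) (x : At) (hx : x.1 ≠ x.2) : (av z x)⁻¹ ∈ OU z := by
  have := hA.al_OU [(x, -1)] (ok_one x hx)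
  simpa [al] using this

theorem co_const_OU (F : Div) (k : ℤ) (r : ℂ) : co z F k (algebraMap ℂ K r) ∈ OU z := by
  rw [co_const]
  split_ifs
  · exact algebraMap_mem _ _
  · exact zero_mem _

theorem co_OU (hA : SAt z) (F : Div) (c : K) (hc : c ∈ OU z) (k : ℤ) : co z F k c ∈ OU z := by
  induction hc using Algebra.adjoin_induction generalizing k with
  | mem x hx =>
    rcases hx with ⟨b, rfl⟩ | ⟨h, rfl⟩
    · have e : t b = av z (Sum.inl b, Sum.inr 0) + algebraMap ℂ K (z 0) := by
        simp [av, pt]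
      rw [e, map_add]
      refine add_mem ?_ (co_const_OU F k _)
      rw [co_apply, hA.ex_av F _ (by simp), HahnSeries.coeff_add, HahnSeries.coeff_single,
        HahnSeries.coeff_single]
      refine add_mem ?_ ?_ <;> split_ifs
      · exact hA.av_OU _
      · exact zero_mem _
      · exact sub_mem (hA.av_OU _) (hA.av_OU _)
      · exact zero_mem _
    · simp only [hyp_eq]
      have h1 := av_inv_OU hA _ (hA.inA_ne F _ (hA.toAt_ne h))
      rcases co_inv hA F _ (hA.toAt_ne h) k with e | ⟨n, e⟩ <;> rw [e]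
      · exact zero_mem _
      · exact mul_mem (pow_mem (mul_mem (neg_mem (sub_mem (hA.av_OU _) (hA.av_OU _))) h1) n) h1
  | algebraMap r => exact co_const_OU F k r
  | add x y _ _ hx hy => rw [map_add]; exact add_mem (hx k) (hy k)
  | mul x y _ _ hx hy =>
    obtain ⟨s, e⟩ := co_mul_sum (z := z) F k x y
    rw [e]
    exact sum_mem fun p _ => mul_mem (hx _) (hy _)

/-- a finite point as a marked point -/
def emb : Pt → Fin 5 ⊕ Option (Fin 11)
  | Sum.inl a => Sum.inl a
  | Sum.inr i => Sum.inr (some i)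

theorem memC_iff (F : Clus) (p : Pt) : memC F p = true ↔ emb p ∈ pts F := by
  rcases p with a | i <;> simp [memC, emb, pts]

theorem inf_iff (F : Clus) : F.2 = some none ↔ Sum.inr none ∈ pts F := by
  simp [pts]

theorem memC_ctr (F : Div) : memC F.1 (ctr F.1) = true ↔ ¬ F.1.2 = some none := by
  obtain ⟨⟨A, _ | _ | i⟩, h⟩ := F
  · have hA : A.Nonempty := by
      rcases A.eq_empty_or_nonempty with rfl | h1
      · simp [pts] at h
      · exact h1
    simpa [memC, ctr] using lastPt_mem A hA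
  · simp [memC, ctr]
  · simp [memC, ctr]

theorem vA_inA {F G : Div} (h : Compat F G) (x : At) : vA G.1 (inA F.1 x) = vA G.1 x := by
  have key : (∀ p, memC F.1 p = true → memC G.1 p = true) ∧
      (F.1.2 = some none → G.1.2 = some none) ∨
      (∀ p, memC G.1 p = true → memC F.1 p = true) ∧ (G.1.2 = some none → F.1.2 = some none) ∨
      (∀ p, memC F.1 p = true → ¬ memC G.1 p = true) ∧
        (F.1.2 = some none → ¬ G.1.2 = some none) := by
    simp only [memC_iff, inf_iff]
    rcases h with h | h | h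
    · exact Or.inl ⟨fun p hp => h hp, fun hp => h hp⟩
    · exact Or.inr (Or.inl ⟨fun p hp => h hp, fun hp => h hp⟩)
    · exact Or.inr (Or.inr ⟨fun p hp => Finset.disjoint_left.1 h hp,
        fun hp => Finset.disjoint_left.1 h hp⟩)
  have hc := memC_ctr F
  obtain ⟨p, q⟩ := x
  rcases key with ⟨h1, h2⟩ | ⟨h1, h2⟩ | ⟨h1, h2⟩ <;>
  · have a1 := h1 p
    have a2 := h1 q
    have a3 := h1 (ctr F.1)
    unfold inA vA
    by_cases e1 : F.1.2 = some none <;> by_cases e2 : G.1.2 = some none <;>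
      cases b1 : memC F.1 p <;> cases b2 : memC F.1 q <;> simp_all

theorem V_pow {G : Div} {c : K} (h : V z G 0 c) (n : ℕ) : V z G 0 (c ^ n) := by
  induction n with
  | zero => simpa using V_one
  | succ n ih => rw [pow_succ]; simpa using ih.mul h

theorem tame_mul {F G : Div} {a b : ℤ} {x y : K} (hx : ∀ k, V z G a (co z F k x))
    (hy : ∀ k, V z G b (co z F k y)) (k : ℤ) : V z G (a + b) (co z F k (x * y)) := by
  obtain ⟨s, e⟩ := co_mul_sum (z := z) F k x y
  rw [e]
  exact V_sum _ _ fun p _ => (hx _).mul (hy _)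

theorem tame_inv (hA : SAt z) {F G : Div} (h : Compat F G) (x : At) (hx : x.1 ≠ x.2) (k : ℤ) :
    V z G (-vA G.1 x) (co z F k (av z x)⁻¹) := by
  have hx' := hA.inA_ne F x hx
  have h0 := hA.V_av G _ hx'
  have h1 := (h0.inv (by rw [hA.co_av G _ hx']; exact hA.av_ne _ (hA.inA_ne G _ hx'))).1
  rw [vA_inA h] at h0 h1
  rcases co_inv hA F x hx k with e | ⟨n, e⟩ <;> rw [e]
  · exact V_zero _
  · have h2 := ((hA.V_av G x hx).sub h0).neg.mul h1
    rw [add_neg_cancel] at h2
    simpa using (V_pow h2 n).mul h1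

theorem tame_fin (hI : SInv z) {F G : Div} (h : Compat F G) {m : ℤ} (s : Finset ℤ) :
    ∀ c : K, (∀ j ∉ s, co z F j c = 0) → c = ∑ j ∈ s, co z F j c → V z G m c →
      ∀ k, V z G m (co z F k c) := by
  induction s using Finset.induction_on with
  | empty =>
    intro c h0 _ _ k
    rw [h0 k (by simp)]
    exact V_zero _
  | insert a s ha ih =>
    intro c h0 hs hV
    have e : ∀ j : ℤ, co z F j (act (theta z F) c - (a : ℂ) • c) =
        ((j : K) - a) * co z F j c := by
      intro j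
      rw [map_sub, map_smul, hI.co_theta, Algebra.smul_def, map_intCast]
      ring
    have h1 := ih (act (theta z F) c - (a : ℂ) • c) ?_ ?_
      ((hI.inv_V G _ m c (hI.inv_theta G F h.symm) hV).sub (hV.csmul _))
    · have h2 : ∀ k, k ≠ a → V z G m (co z F k c) := by
        intro k hk
        have h3 := (V_intCast (z := z) (F := G) (k - a)).inv (by
          rw [co_intCast]; exact_mod_cast sub_ne_zero.2 hk)
        have h4 := h3.1.mul (h1 k)
        have h5 : ((k - a : ℤ) : K) ≠ 0 := by exact_mod_cast sub_ne_zero.2 hk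
        rw [e, ← Int.cast_sub, ← mul_assoc, inv_mul_cancel₀ h5, one_mul] at h4
        simpa using h4
      intro k
      by_cases hk : k = a
      · rw [Finset.sum_insert ha] at hs
        rw [hk, eq_sub_of_add_eq hs.symm]
        exact hV.sub (V_sum _ _ fun j hj => h2 j fun e => ha (e ▸ hj))
      · exact h2 k hk
    · intro j hj
      rw [e]
      by_cases hk : j = a
      · rw [hk, sub_self, zero_mul]
      · rw [h0 j (by simp [hk, hj]), mul_zero]
    · have h6 : act (theta z F) c = ∑ j ∈ insert a s, (j : K) * co z F j c := by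
        conv_lhs => rw [hs, map_sum]
        refine Finset.sum_congr rfl fun j _ => ?_
        rw [← hI.inv_theta F F (Compat.refl F), hI.co_theta]
      have h7 : (a : ℂ) • c = ∑ j ∈ insert a s, (a : K) * co z F j c := by
        rw [← Finset.mul_sum, ← hs, Algebra.smul_def, map_intCast]
      simp only [e]
      rw [h6, h7, ← Finset.sum_sub_distrib, Finset.sum_insert ha, sub_self, zero_add]
      exact Finset.sum_congr rfl fun j _ => by ring

/-- admissible denominators -/
def Den (z : Fin 11 → ℂ) (F G : Div) (d : K) : Prop :=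
  d ∈ ofPolyA.range ∧ d ≠ 0 ∧ ∃ n : ℤ, V z G n d ∧ ∀ k, V z G (-n) (co z F k d⁻¹)

theorem Den.one (F G : Div) : Den z F G 1 := by
  refine ⟨one_mem _, one_ne_zero, 0, V_one, fun k => ?_⟩
  have := co_const (z := z) (F := F) k 1
  rw [map_one] at this
  rw [inv_one, this, neg_zero]
  split_ifs
  · exact V_one
  · exact V_zero _

theorem Den.mul {F G : Div} {d e : K} (hd : Den z F G d) (he : Den z F G e) :
    Den z F G (d * e) := by
  obtain ⟨a1, a2, n, a3, a4⟩ := hd
  obtain ⟨b1, b2, m, b3, b4⟩ := he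
  refine ⟨mul_mem a1 b1, mul_ne_zero a2 b2, n + m, a3.mul b3, fun k => ?_⟩
  rw [mul_inv, neg_add]
  exact tame_mul a4 b4 k

theorem pt_poly (p : Pt) : pt z p ∈ ofPolyA.range := by
  rcases p with a | i
  · exact ⟨_, ofPolyA_X a⟩
  · exact algebraMap_mem _ _

theorem exists_den (hA : SAt z) {F G : Div} (h : Compat F G) (c : K) (hc : c ∈ OU z) :
    ∃ d, Den z F G d ∧ c * d ∈ ofPolyA.range := by
  induction hc using Algebra.adjoin_induction with
  | mem x hx =>
    rcases hx with ⟨b, rfl⟩ | ⟨y, rfl⟩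
    · exact ⟨1, Den.one F G, mul_mem (pt_poly (z := z) (Sum.inl b)) (one_mem _)⟩
    · have hy := hA.toAt_ne y
      refine ⟨av z (toAt y), ⟨sub_mem (pt_poly _) (pt_poly _), hA.av_ne _ hy, _, hA.V_av G _ hy,
        tame_inv hA h _ hy⟩, ?_⟩
      simp only [hyp_eq]
      rw [inv_mul_cancel₀ (hA.av_ne _ hy)]
      exact one_mem _
  | algebraMap r => exact ⟨1, Den.one F G, mul_mem (algebraMap_mem _ _) (one_mem _)⟩
  | add x y _ _ hx hy =>
    obtain ⟨d, hd, h1⟩ := hx
    obtain ⟨e, he, h2⟩ := hy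
    refine ⟨d * e, hd.mul he, ?_⟩
    rw [show (x + y) * (d * e) = x * d * e + y * e * d by ring]
    exact add_mem (mul_mem h1 he.1) (mul_mem h2 hd.1)
  | mul x y _ _ hx hy =>
    obtain ⟨d, hd, h1⟩ := hx
    obtain ⟨e, he, h2⟩ := hy
    refine ⟨d * e, hd.mul he, ?_⟩
    rw [show x * y * (d * e) = x * d * (y * e) by ring]
    exact mul_mem h1 h2

theorem V_co (hA : SAt z) (hI : SInv z) (F G : Div) (k m : ℤ) (c : K) (h : Compat F G)
    (hc : c ∈ OU z) (hV : V z G m c) : V z G m (co z F k c) := by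
  obtain ⟨d, ⟨-, d0, n, h1, h2⟩, P, hP⟩ := exists_den hA h c hc
  obtain ⟨s, s1, s2⟩ := ofPolyA_eq_sum z F P
  replace hP : ofPolyA P = c * d := hP
  rw [hP] at s1 s2
  have h3 := tame_mul (tame_fin hI h s (c * d) s1 s2 (hV.mul h1)) h2 k
  rwa [mul_assoc, mul_inv_cancel₀ d0, mul_one, add_neg_cancel_right] at h3

end K1Aux

theorem sK1 (z : Fin 11 → ℂ) (hA : SAt z) (hI : SInv z) : SK1 z where
  t_OU := K1Aux.t_OU
  pd_OU := K1Aux.pd_OU hA
  act_OU := K1Aux.act_OU hA
  theta_OU := K1Aux.theta_OU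
  eta_OU := K1Aux.eta_OU hA
  dw_OU := fun w X c hX hc => by
    rw [dw_apply]
    exact add_mem (K1Aux.act_OU hA X c hX hc)
      (mul_mem (sum_mem fun a _ => mul_mem (K1Aux.eta_OU hA w a) (hX a)) hc)
  co_OU := fun F k c hc => K1Aux.co_OU hA F c hc k
  V_co := K1Aux.V_co hA hI

end Pool.Agent.MP_cb8d3a_ag.H90
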