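import Pool.Agent.MP_cb8d3a_ag.H90.Spec

/-! The lists attached to nested sets. -/

namespace Pool.Agent.MP_cb8d3a_ag.H90

namespace LstAux

theorem mem_sub : ∀ A, A ∈ allSub := by decide +kernel

theorem mem_opt : ∀ o, o ∈ allOpt := by decide +kernel

theorem nodup_sub : allSub.Nodup := by decide +kernel

theorem nodup_opt : allOpt.Nodup := by decide +kernel

theorem mem_allD (F : Div) : F ∈ allD :=
  List.mem_filterMap.2 ⟨F.1, List.mem_flatMap.2 ⟨F.1.2, mem_opt _, List.mem_map.2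
    ⟨F.1.1, mem_sub _, rfl⟩⟩, dif_pos F.2⟩

theorem nodup_allD : allD.Nodup := by
  refine List.Nodup.filterMap (fun c c' F h h' => ?_) (List.nodup_flatMap.2
    ⟨fun o _ => nodup_sub.map fun A B h => (Prod.ext_iff.1 h).1, nodup_opt.imp fun h => ?_⟩)
  · split_ifs at h h' <;> simp only [Option.mem_def, Option.some.injEq, reduceCtorEq] at h h'
    exact (congrArg Subtype.val h).trans (congrArg Subtype.val h').symm
  · intro c h1 h2
    obtain ⟨A, -, rfl⟩ := List.mem_map.1 h1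
    obtain ⟨B, -, e⟩ := List.mem_map.1 h2
    exact h (Prod.ext_iff.1 e).2.symm

theorem aOf_Fa : ∀ α, α ≠ 0 → aOf (Fa α).1 = α ∧ bOf (Fa α).1 = 0 ∧ Fa α ≠ dE := by
  decide +kernel

theorem bOf_Fb : ∀ β, β ≠ 0 → bOf (Fb β).1 = β ∧ aOf (Fb β).1 = 0 ∧ Fb β ≠ dE := by
  decide +kernel

theorem incA : ∀ α α', α ≠ 0 → α' ≠ 0 → Compat (Fa α) (Fa α') → α = α' := by decide +kernel

theorem incB : ∀ β β', β ≠ 0 → β' ≠ 0 → Compat (Fb β) (Fb β') → β = β' := by decide +kernel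

theorem of_dE : aOf dE.1 = 0 ∧ bOf dE.1 = 0 := by decide +kernel

theorem find_eq {c : Fin 7 → Clus} {F : Clus}
    (h : ((List.finRange 7).find? fun α => α ≠ 0 ∧ c α = F).getD 0 ≠ 0) :
    c (((List.finRange 7).find? fun α => α ≠ 0 ∧ c α = F).getD 0) = F := by
  rcases e : (List.finRange 7).find? fun α => α ≠ 0 ∧ c α = F with _ | α
  · exact absurd (by rw [e]; rfl) h
  · have := List.find?_some e
    exact (of_decide_eq_true this).2

theorem Fa_aOf (F : Div) (h : aOf F.1 ≠ 0) : Fa (aOf F.1) = F := Subtype.ext (find_eq h)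

theorem Fb_bOf (F : Div) (h : bOf F.1 ≠ 0) : Fb (bOf F.1) = F := Subtype.ext (find_eq h)

theorem mem_mu (τ : Finset Div) (F : Div) :
    F ∈ mu τ ↔ F ∈ τ ∧ aOf F.1 = 0 ∧ bOf F.1 = 0 ∧ F ≠ dE := by
  simp [mu, nsp, mem_allD, and_assoc]

theorem fold_iff {g : Fin 7 → Div} {o : Div → Fin 7} (h1 : ∀ α, α ≠ 0 → o (g α) = α)
    (h2 : ∀ F, o F ≠ 0 → g (o F) = F)
    (h3 : ∀ α α', α ≠ 0 → α' ≠ 0 → Compat (g α) (g α') → α = α') {τ : Finset Div}
    (hτ : ∀ F ∈ τ, ∀ G ∈ τ, Compat F G) {α : Fin 7} (hα : α ≠ 0) :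
    g α ∈ τ ↔ τ.fold max 0 o = α := by
  have key : ∀ α, α ≠ 0 → g α ∈ τ → τ.fold max 0 o = α := fun α hα h => by
    refine le_antisymm ((Finset.fold_max_le _).2 ⟨Fin.zero_le _, fun F hF => ?_⟩)
      ((Finset.le_fold_max _).2 (Or.inr ⟨_, h, (h1 α hα).ge⟩))
    by_cases h0 : o F = 0
    · exact h0 ▸ Fin.zero_le _
    · exact (h3 _ _ h0 hα (by rw [h2 F h0]; exact hτ F hF _ h)).le
  refine ⟨key α hα, fun h => ?_⟩
  rcases (Finset.le_fold_max _).1 h.ge with h' | ⟨F, hF, h'⟩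
  · exact absurd (Fin.le_zero_iff.1 h') hα
  · have h0 : o F ≠ 0 := fun e => hα (Fin.le_zero_iff.1 (e ▸ h'))
    have := key _ h0 (by rwa [h2 F h0])
    rwa [← h, this, h2 F h0]

variable {τ : Finset Div}

theorem aT_iff (hτ : ∀ F ∈ τ, ∀ G ∈ τ, Compat F G) {α : Fin 7} (hα : α ≠ 0) :
    Fa α ∈ τ ↔ aT τ = α :=
  fold_iff (o := fun F => aOf F.1) (fun α h => (aOf_Fa α h).1) Fa_aOf incA hτ hα

theorem bT_iff (hτ : ∀ F ∈ τ, ∀ G ∈ τ, Compat F G) {β : Fin 7} (hβ : β ≠ 0) :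
    Fb β ∈ τ ↔ bT τ = β :=
  fold_iff (o := fun F => bOf F.1) (fun α h => (bOf_Fb α h).1) Fb_bOf incB hτ hβ

theorem mem_kp {F : Div} :
    F ∈ kp τ ↔ (aT τ ≠ 0 ∧ F = Fa (aT τ)) ∨ (bT τ ≠ 0 ∧ F = Fb (bT τ)) := by
  unfold kp
  split_ifs with h1 h2 h2 <;> simp [h1, h2]

theorem nodup_mu (τ : Finset Div) : (mu τ).Nodup := nodup_allD.filter _

theorem nodup (τ : Finset Div) : (lst τ).Nodup := by
  refine List.nodup_append.2 ⟨List.nodup_append.2 ⟨nodup_mu τ, ?_, fun F h1 G h2 e => ?_⟩,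
    List.nodup_singleton _, fun F h1 G h2 e => ?_⟩
  · unfold kp
    split_ifs with h1 h2 h2 <;> simp
    exact fun e => h1 (by rw [← (aOf_Fa _ h1).1, e, (bOf_Fb _ h2).2.1])
  · subst e
    obtain ⟨-, a1, a2, -⟩ := (mem_mu τ F).1 h1
    rcases mem_kp.1 h2 with ⟨h, rfl⟩ | ⟨h, rfl⟩
    · exact h ((aOf_Fa _ h).1.symm.trans a1)
    · exact h ((bOf_Fb _ h).1.symm.trans a2)
  · obtain rfl := List.mem_singleton.1 h2
    subst e
    rcases List.mem_append.1 h1 with h | h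
    · exact ((mem_mu τ _).1 h).2.2.2 rfl
    · rcases mem_kp.1 h with ⟨h, e⟩ | ⟨h, e⟩
      · exact (aOf_Fa _ h).2.2 e.symm
      · exact (bOf_Fb _ h).2.2 e.symm

theorem mem (hτ : ∀ F ∈ τ, ∀ G ∈ τ, Compat F G) (hE : dE ∈ τ) (F : Div) : F ∈ lst τ ↔ F ∈ τ := by
  rw [lst, List.mem_append, List.mem_append, mem_mu, mem_kp, List.mem_singleton]
  constructor
  · rintro ((h | ⟨h, rfl⟩ | ⟨h, rfl⟩) | rfl)
    exacts [h.1, (aT_iff hτ h).2 rfl, (bT_iff hτ h).2 rfl, hE]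
  · intro h
    by_cases a1 : aOf F.1 = 0
    · by_cases a2 : bOf F.1 = 0
      · by_cases a3 : F = dE
        exacts [Or.inr a3, Or.inl (Or.inl ⟨h, a1, a2, a3⟩)]
      · have := (bT_iff hτ a2).1 (by rwa [Fb_bOf F a2])
        exact Or.inl (Or.inr (Or.inr ⟨this ▸ a2, by rw [this, Fb_bOf F a2]⟩))
    · have := (aT_iff hτ a1).1 (by rwa [Fa_aOf F a1])
      exact Or.inl (Or.inr (Or.inl ⟨this ▸ a1, by rw [this, Fa_aOf F a1]⟩))

theorem comp_erase (hτ : ∀ F ∈ τ, ∀ G ∈ τ, Compat F G) (X : Div) :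
    ∀ F ∈ τ.erase X, ∀ G ∈ τ.erase X, Compat F G :=
  fun F hF G hG => hτ F (Finset.mem_of_mem_erase hF) G (Finset.mem_of_mem_erase hG)

theorem fin_ext {x y : Fin 7} (h : ∀ α, α ≠ 0 → (x = α ↔ y = α)) : x = y := by
  by_cases hx : x = 0
  · by_contra hy
    exact hy ((h y fun e => hy (hx.trans e.symm)).2 rfl)
  · exact ((h x hx).1 rfl).symm

theorem aT_erase (hτ : ∀ F ∈ τ, ∀ G ∈ τ, Compat F G) {F : Div} (h : aOf F.1 = 0) :
    aT (τ.erase F) = aT τ := fin_ext fun α hα => by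
  rw [← aT_iff hτ hα, ← aT_iff (comp_erase hτ F) hα, Finset.mem_erase]
  exact and_iff_right fun e => hα (by rw [← (aOf_Fa α hα).1, e, h])

theorem bT_erase (hτ : ∀ F ∈ τ, ∀ G ∈ τ, Compat F G) {F : Div} (h : bOf F.1 = 0) :
    bT (τ.erase F) = bT τ := fin_ext fun α hα => by
  rw [← bT_iff hτ hα, ← bT_iff (comp_erase hτ F) hα, Finset.mem_erase]
  exact and_iff_right fun e => hα (by rw [← (bOf_Fb α hα).1, e, h])

theorem mu_erase (τ : Finset Div) (F : Div) : mu (τ.erase F) = (mu τ).erase F := by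
  rw [(nodup_mu τ).erase_eq_filter, mu, mu, List.filter_filter]
  refine List.filter_congr fun G _ => ?_
  by_cases h : G = F <;> simp [h]

theorem erase_a (hτ : ∀ F ∈ τ, ∀ G ∈ τ, Compat F G) (h : aT τ ≠ 0) :
    mu (τ.erase (Fa (aT τ))) = mu τ ∧ aT (τ.erase (Fa (aT τ))) = 0 ∧
      bT (τ.erase (Fa (aT τ))) = bT τ := by
  refine ⟨by
    rw [mu_erase, List.erase_of_not_mem fun e => h ((aOf_Fa _ h).1.symm.trans
      ((mem_mu _ _).1 e).2.1)], ?_, bT_erase hτ (aOf_Fa _ h).2.1⟩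
  by_contra h0
  have := Finset.mem_erase.1 ((aT_iff (comp_erase hτ _) h0).2 rfl)
  exact this.1 (congrArg Fa ((aT_iff hτ h0).1 this.2).symm)

theorem erase_b (hτ : ∀ F ∈ τ, ∀ G ∈ τ, Compat F G) (h : bT τ ≠ 0) :
    mu (τ.erase (Fb (bT τ))) = mu τ ∧ aT (τ.erase (Fb (bT τ))) = aT τ ∧
      bT (τ.erase (Fb (bT τ))) = 0 := by
  refine ⟨by
    rw [mu_erase, List.erase_of_not_mem fun e => h ((bOf_Fb _ h).1.symm.trans
      ((mem_mu _ _).1 e).2.2.1)], aT_erase hτ (bOf_Fb _ h).2.1, ?_⟩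
  by_contra h0
  have := Finset.mem_erase.1 ((bT_iff (comp_erase hτ _) h0).2 rfl)
  exact this.1 (congrArg Fb ((bT_iff hτ h0).1 this.2).symm)

theorem erase (hτ : ∀ F ∈ τ, ∀ G ∈ τ, Compat F G) (hE : dE ∈ τ) {F : Div} (hF : F ∈ τ)
    (h : F ≠ dE) : lst (τ.erase F) = (lst τ).erase F := by
  have h1 := (mem hτ hE F).2 hF
  rw [lst, List.mem_append, List.mem_singleton, or_iff_left h] at h1
  rw [lst, lst, List.erase_append_left _ h1, mu_erase]
  congr 1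
  by_cases h2 : F ∈ mu τ
  · obtain ⟨-, a1, a2, -⟩ := (mem_mu τ F).1 h2
    rw [List.erase_append_left _ h2, kp, kp, aT_erase hτ a1, bT_erase hτ a2]
  · rw [List.erase_append_right _ h2, List.erase_of_not_mem h2]
    congr 1
    rcases mem_kp.1 ((List.mem_append.1 h1).resolve_left h2) with ⟨h3, rfl⟩ | ⟨h3, rfl⟩
    · rw [kp, kp, (erase_a hτ h3).2.1, (erase_a hτ h3).2.2]
      simp [h3]
    · rw [kp, kp, (erase_b hτ h3).2.1, (erase_b hτ h3).2.2]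
      by_cases h4 : aT τ = 0
      · simp [h3, h4]
      · have : Fa (aT τ) ≠ Fb (bT τ) := fun e =>
          h4 (by rw [← (aOf_Fa _ h4).1, e, (bOf_Fb _ h3).2.1])
        rw [if_neg h4, if_pos rfl, if_neg h3, List.singleton_append, List.singleton_append,
          List.erase_cons_tail (by simpa using fun e => this (Subtype.ext e)),
          List.erase_cons_head]

end LstAux

open LstAux in
theorem sList : SList where
  mem_allD := mem_allD
  nodup_allD := nodup_allD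
  aOf_Fa := aOf_Fa
  bOf_Fb := bOf_Fb
  Fa_aOf := Fa_aOf
  Fb_bOf := Fb_bOf
  mem_mu := mem_mu
  aT_iff _ _ h _ := aT_iff (mem_Nest.1 h).1
  bT_iff _ _ h _ := bT_iff (mem_Nest.1 h).1
  nodup _ τ _ := nodup τ
  mem _ _ h := mem (mem_Nest.1 h).1 (mem_Nest.1 h).2.2
  length _ τ h := by
    rw [← (mem_Nest.1 h).2.1, ← List.toFinset_card_of_nodup (nodup τ)]
    congr 1
    ext F
    rw [List.mem_toFinset, mem (mem_Nest.1 h).1 (mem_Nest.1 h).2.2]
  compL _ _ h F hF G hG := (mem_Nest.1 h).1 F ((mem (mem_Nest.1 h).1 (mem_Nest.1 h).2.2 F).1 hF) G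
    ((mem (mem_Nest.1 h).1 (mem_Nest.1 h).2.2 G).1 hG)
  erase_mem _ _ h F hF h' := mem_Nest.2 ⟨comp_erase (mem_Nest.1 h).1 F,
    by rw [Finset.card_erase_of_mem hF, (mem_Nest.1 h).2.1]; rfl,
    Finset.mem_erase.2 ⟨h'.symm, (mem_Nest.1 h).2.2⟩⟩
  erase _ _ h _ := erase (mem_Nest.1 h).1 (mem_Nest.1 h).2.2
  erase_mu _ τ h F hF := ⟨mu_erase τ F, aT_erase (mem_Nest.1 h).1 ((mem_mu τ F).1 hF).2.1,
    bT_erase (mem_Nest.1 h).1 ((mem_mu τ F).1 hF).2.2.1⟩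
  erase_a _ _ h := erase_a (mem_Nest.1 h).1
  erase_b _ _ h := erase_b (mem_Nest.1 h).1

end Pool.Agent.MP_cb8d3a_ag.H90
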