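import Pool.Agent.MP_cb8d3a_ag.H90.Spec

/-! A Cech cocycle of `F ^ 4` pairs to zero with a dual cocycle. -/

noncomputable section

open scoped BigOperators

namespace Pool.Agent.MP_cb8d3a_ag.H90

namespace PairAux

variable {z : Fin 11 → ℂ}

open Classical in
/-- A finite set of divisors as a nested set. -/
def nst (τ : Finset Div) : Nested :=
  if h : ∀ F ∈ τ, ∀ G ∈ τ, Compat F G then ⟨τ, h⟩ else Nested.empty

theorem nst_val {k : ℕ} {τ : Finset Div} (h : τ ∈ Nest k) : (nst τ).1 = τ := by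
  rw [nst, dif_pos (mem_Nest.1 h).1]

/-- `ξ ↦ c * ξ ∅`. -/
def A0 (c : K) : Form →ₗ[ℂ] K where
  toFun ξ := c * ξ ∅
  map_add' x y := by simp only [Pi.add_apply, mul_add]
  map_smul' r x := by simp only [Pi.smul_apply, RingHom.id_apply, mul_smul_comm]

/-- `ξ ↦ (ξ₁ ∧ g)` in top degree. -/
def B1 (g : Form) : Form →ₗ[ℂ] K where
  toFun ξ := wedge (deg1 ξ) g Finset.univ
  map_add' x y := by
    simp only [wedge, deg1, Pi.add_apply, mul_add, add_mul, Finset.sum_add_distrib]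
  map_smul' r x := by
    simp only [wedge, deg1, Pi.smul_apply, RingHom.id_apply, Finset.smul_sum, mul_smul_comm,
      smul_mul_assoc]

theorem B1_sub (g g' ξ : Form) : B1 (g - g') ξ = B1 g ξ - B1 g' ξ :=
  congrFun (map_sub (wedgeL (deg1 ξ)) g g') Finset.univ

theorem span_zero {τ : Finset Div} {k : Div → ℤ} (L : Form →ₗ[ℂ] K)
    (h : ∀ ξ F, FOU z ξ → F ∈ τ → Fil z F (k F) ξ → L ξ = 0) {ξ : Form} (hξ : ξ ∈ SpanF z τ k) :
    L ξ = 0 :=
  (Submodule.span_le (p := LinearMap.ker L)).2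
    (fun ξ hξ => by obtain ⟨h1, F, h2, h3⟩ := hξ; exact h ξ F h1 h2 h3) hξ

theorem B1_OU (hO : SFou z) {g ξ : Form} (hg : FOU z g) (hξ : FOU z ξ) : B1 g ξ ∈ OU z :=
  hO.wedge (α := deg1 ξ) (fun a => hξ {a}) hg Finset.univ

theorem A0_zero (hF : SFil z) (hO : SFou z) (hR : SRes z) {l : List Div} (hl : CompL l)
    (h5 : l.length = 5) {τ : Finset Div} (hτ : ∀ F ∈ τ, F ∈ l) {k : Div → ℤ} {x : Form}
    (hx : FOU z x) (hk : ∀ F ∈ τ, Fil z F (1 - k F) x) {ξ : Form} (hξ : ξ ∈ SpanF z τ k) :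
    Res z l (x Finset.univ * ξ ∅) = 0 :=
  span_zero (Res z l ∘ₗ A0 (x Finset.univ)) (fun ξ F h1 h2 h3 => by
    have := hR.Res_zero l F (ξ ∅ • x) hl h5 (hτ F h2) (hO.smul (h1 ∅) hx _)
      (by simpa using hF.smul (hF.empty h3) (hk F h2))
    rwa [Pi.smul_apply, smul_eq_mul, mul_comm] at this) hξ

theorem B1_zero (hF : SFil z) (hO : SFou z) (hR : SRes z) {l : List Div} (hl : CompL l)
    (h5 : l.length = 5) {τ : Finset Div} (hτ : ∀ F ∈ τ, F ∈ l) {k : Div → ℤ} {g : Form}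
    (hg : FOU z g) (hk : ∀ F ∈ τ, Fil z F (1 - k F) g) {ξ : Form} (hξ : ξ ∈ SpanF z τ k) :
    Res z l (B1 g ξ) = 0 :=
  span_zero (Res z l ∘ₗ B1 g) (fun ξ F h1 h2 h3 =>
    hR.Res_zero l F (wedge (deg1 ξ) g) hl h5 (hτ F h2) (B1_OU hO hg h1)
      (by simpa using hF.wedge (fun X hX => hF.deg1 h3 hX) (hk F h2))) hξ

theorem etaW_wD (a : Fin 5) : etaW z wD a = -eta z a := by
  simp only [etaW, eta, wD, Rat.cast_neg, neg_mul, Finset.sum_neg_distrib]

theorem nabla_mul (h2 : SCar2 z) (g ξ : Form) : nabla z g Finset.univ * ξ ∅ =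
    extD (ξ ∅ • g) Finset.univ - B1 g (nab z wD ξ) := by
  have e := congrFun (h2.nab_smul 0 (ξ ∅) g) Finset.univ
  rw [h2.nab_zero, h2.nab_zero] at e
  have e' : B1 g (nab z wD ξ) = wedge (fun a => pd a (ξ ∅)) g Finset.univ -
      wedge (eta z) g Finset.univ * ξ ∅ := by
    change wedge (deg1 _) g Finset.univ = _
    simp only [wedge, h2.deg1_nab, etaW_wD, Finset.sum_mul, ← Finset.sum_sub_distrib]
    exact Finset.sum_congr rfl fun a _ => by ring
  rw [e, e', nabla, Pi.add_apply, Pi.add_apply, Pi.smul_apply, smul_eq_mul]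
  ring

theorem sg_Res (hR : SRes z) (hL : SList) {τ : Finset Div} (hτ : τ ∈ Nest 5) {F : Div}
    (hF : F ∈ τ) (hE : F ≠ dE) {c : K} (hc : c ∈ OU z) :
    sg τ F • Res z (lst τ) c = Res z (lst (τ.erase F) ++ [F]) c := by
  have h1 := hL.nodup 5 τ hτ
  have h2 := hL.length 5 τ hτ
  have h3 := hL.compL 5 τ hτ
  rw [hL.erase 5 τ hτ F hF hE, sg]
  obtain ⟨p, q, he⟩ := List.append_of_mem ((hL.mem 5 τ hτ F).2 hF)
  rw [he] at h1 h2 h3 ⊢
  have hp : F ∉ p := fun h => (List.disjoint_of_nodup_append h1) h List.mem_cons_self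
  rw [hR.Res_last p F q c h3 h2 hc, List.erase_append_right _ hp, List.erase_cons_head,
    List.idxOf_append_of_notMem hp, List.idxOf_cons_self, add_zero, Algebra.smul_def, map_pow,
    map_neg, map_one, ← mul_assoc, ← pow_add]
  rw [List.length_append, List.length_cons] at h2
  rw [show p.length + q.length = 4 by omega]
  norm_num

theorem mem_link {σ : Finset Div} {F : Div} :
    F ∈ link σ ↔ (∀ G ∈ σ, Compat F G) ∧ F ∉ σ := by
  unfold link
  simp only [Finset.mem_sdiff, Finset.mem_filter, Finset.mem_univ, true_and]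

theorem reindex (hL : SList) (T : Finset Div → Div → K) :
    ∑ τ ∈ Nest 5, ∑ F ∈ τ.erase dE, T (τ.erase F) F = ∑ σ ∈ Nest 4, ∑ F ∈ link σ, T σ F := by
  rw [Finset.sum_sigma', Finset.sum_sigma']
  refine Finset.sum_bij' (fun p _ => ⟨p.1.erase p.2, p.2⟩) (fun p _ => ⟨insert p.2 p.1, p.2⟩)
    ?_ ?_ ?_ ?_ fun _ _ => rfl
  · rintro ⟨τ, F⟩ hp
    obtain ⟨h1, h2⟩ := Finset.mem_sigma.1 hp
    obtain ⟨h3, h4⟩ := Finset.mem_erase.1 h2
    exact Finset.mem_sigma.2 ⟨hL.erase_mem 4 τ h1 F h4 h3, mem_link.2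
      ⟨fun G hG => (mem_Nest.1 h1).1 F h4 G (Finset.mem_of_mem_erase hG),
        Finset.notMem_erase F τ⟩⟩
  · rintro ⟨σ, F⟩ hp
    obtain ⟨h1, h2⟩ := Finset.mem_sigma.1 hp
    obtain ⟨h3, h4⟩ := mem_link.1 h2
    obtain ⟨h5, h6, h7⟩ := mem_Nest.1 h1
    refine Finset.mem_sigma.2 ⟨mem_Nest.2 ⟨fun G hG G' hG' => ?_, ?_,
      Finset.mem_insert_of_mem h7⟩, Finset.mem_erase.2 ⟨?_, Finset.mem_insert_self _ _⟩⟩
    · rcases Finset.mem_insert.1 hG with rfl | hG <;>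
        rcases Finset.mem_insert.1 hG' with rfl | hG'
      exacts [Compat.refl _, h3 _ hG', (h3 _ hG).symm, h5 _ hG _ hG']
    · rw [Finset.card_insert_of_notMem h4, h6]
    · rintro rfl
      exact h4 h7
  · rintro ⟨τ, F⟩ hp
    have h2 := Finset.mem_of_mem_erase (Finset.mem_sigma.1 hp).2
    exact Sigma.ext (Finset.insert_erase h2) HEq.rfl
  · rintro ⟨σ, F⟩ hp
    exact Sigma.ext (Finset.erase_insert (mem_link.1 (Finset.mem_sigma.1 hp).2).2) HEq.rfl

theorem closed0 (X : CechCocycle z 4) (σ τ : Nested) :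
    X.x 0 (fun _ => σ) = X.x 0 (fun _ => τ) - nabla z (X.x 1 ![σ, τ]) := by
  have h := X.closed 0 ![σ, τ]
  rw [Fin.sum_univ_two] at h
  have e0 : (fun j : Fin 1 => ![σ, τ] ((0 : Fin 2).succAbove j)) = fun _ => τ := by
    ext1 j; fin_cases j; rfl
  have e1 : (fun j : Fin 1 => ![σ, τ] ((1 : Fin 2).succAbove j)) = fun _ => σ := by
    ext1 j; fin_cases j; rfl
  rw [e0, e1] at h
  simp only [Fin.val_zero, pow_zero, one_smul, Fin.val_one, pow_one, neg_smul, zero_add] at h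
  linear_combination (exp := 1) -h

theorem closed1 (X : CechCocycle z 4) (ρ σ τ : Nested) :
    X.x 1 ![ρ, σ] - X.x 1 ![ρ, τ] = -X.x 1 ![σ, τ] := by
  have h := X.closed 1 ![ρ, σ, τ]
  rw [Fin.sum_univ_three, X.vanish (1 + 1) _ (by norm_num), nabla_eq, map_zero, smul_zero] at h
  have e0 : (fun j : Fin 2 => ![ρ, σ, τ] ((0 : Fin 3).succAbove j)) = ![σ, τ] := by
    ext1 j; fin_cases j <;> rfl
  have e1 : (fun j : Fin 2 => ![ρ, σ, τ] ((1 : Fin 3).succAbove j)) = ![ρ, τ] := by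
    ext1 j; fin_cases j <;> rfl
  have e2 : (fun j : Fin 2 => ![ρ, σ, τ] ((2 : Fin 3).succAbove j)) = ![ρ, σ] := by
    ext1 j; fin_cases j <;> rfl
  rw [e0, e1, e2] at h
  simp only [Fin.val_zero, pow_zero, one_smul, Fin.val_one, pow_one, neg_smul, Fin.val_two,
    neg_one_sq, add_zero] at h
  linear_combination (exp := 1) h

end PairAux

open PairAux in
set_option linter.unusedVariables false in
theorem sPair (z : Fin 11 → ℂ) (h1 : SCar1) (h2 : SCar2 z) (hF : SFil z) (hO : SFou z)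
    (hR : SRes z) (hL : SList) : SPair z := by
  rintro ω ⟨X, γ, hγ, rfl⟩
  let g : Finset Div → Form := fun τ => γ - X.x 1 ![Nested.empty, nst τ]
  have hg : ∀ τ, FOU z (g τ) := fun τ => hO.sub hγ.1 (X.regular 1 _).1
  choose k hk using fun p : Div × Finset Div => hF.exists_Fil p.1 (g p.2)
  obtain ⟨N0, hN0⟩ := Finite.exists_le fun p => (-k p).toNat
  refine ⟨N0, fun N hN Ξ hΞ => ?_⟩
  have key : ∀ τ ∈ Nest 5, Res z (lst τ)
      ((X.x 0 (fun _ => Nested.empty) + nabla z γ) Finset.univ * Ξ τ ∅) =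
      -∑ F ∈ τ.erase dE, Res z (lst (τ.erase F) ++ [F]) (B1 (g (τ.erase F)) (Ξ (τ.erase F))) := by
    intro τ hτ
    have l1 := hL.compL 5 τ hτ
    have l2 := hL.length 5 τ hτ
    have l3 := fun F hF => (hL.mem 5 τ hτ F).2 hF
    have e1 : X.x 0 (fun _ => Nested.empty) + nabla z γ =
        X.x 0 (fun _ => nst τ) + nabla z (g τ) := by
      rw [closed0 X _ (nst τ)]
      simp only [g, nabla_eq, map_sub]
      abel
    have e2 : Res z (lst τ) (X.x 0 (fun _ => nst τ) Finset.univ * Ξ τ ∅) = 0 :=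
      A0_zero hF hO hR l1 l2 l3 (X.regular 0 _).1 (fun F hFτ => by
        rw [← latL_add_latD F.1, add_sub_cancel_right]
        exact hF.lattice (X.lattice 0 _ F fun _ => by rwa [nst_val hτ])) (hΞ.good5 τ hτ)
    have e3 := B1_zero hF hO hR l1 l2 l3 (hg τ) (fun F _ => hF.le (hk (F, τ)) (by
      have := hN0 (F, τ)
      omega)) (hΞ.rel τ hτ)
    rw [map_sub, map_sub, sub_eq_zero, map_sum, map_sum] at e3
    rw [e1, Pi.add_apply, add_mul, map_add, e2, zero_add, nabla_mul h2, map_sub,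
      hR.Res_exact _ _ l1 l2, zero_sub, e3, neg_inj]
    refine Finset.sum_congr rfl fun F hFτ => ?_
    obtain ⟨f1, f2⟩ := Finset.mem_erase.1 hFτ
    have hσ := hL.erase_mem 4 τ hτ F f2 f1
    have e4 := B1_zero hF hO hR l1 l2 (τ := τ.erase F)
      (fun G hG => l3 G (Finset.mem_of_mem_erase hG)) (hO.sub (hg τ) (hg (τ.erase F)))
      (fun G hG => by
        rw [← latL_add_latD G.1, add_sub_cancel_right, sub_sub_sub_cancel_left, closed1]
        refine hF.neg (hF.lattice (X.lattice 1 _ G fun i => ?_))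
        fin_cases i
        · exact (nst_val hσ).symm ▸ hG
        · exact (nst_val hτ).symm ▸ Finset.mem_of_mem_erase hG) (hΞ.good4 _ hσ)
    rw [B1_sub, map_sub, sub_eq_zero] at e4
    rw [map_smul, map_smul, e4, sg_Res hR hL hτ f2 f1 (B1_OU hO (hg _) (hΞ.fou _))]
  rw [Ssum, Finset.sum_congr rfl key, Finset.sum_neg_distrib, neg_eq_zero,
    reindex hL fun σ F => Res z (lst σ ++ [F]) (B1 (g σ) (Ξ σ))]
  refine Finset.sum_eq_zero fun σ hσ => ?_
  have := hR.Res_link (lst σ) _ (hL.nodup 4 σ hσ) (hL.length 4 σ hσ) (hL.compL 4 σ hσ)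
    (B1_OU hO (hg σ) (hΞ.fou σ))
  rwa [show (lst σ).toFinset = σ from Finset.ext fun F => by
    rw [List.mem_toFinset, hL.mem 4 σ hσ]] at this

end Pool.Agent.MP_cb8d3a_ag.H90
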