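import Pool.Agent.MP_cb8d3a_ag.H90.Spec

/-! Reduction of the pairing to homogeneous strata. -/

noncomputable section

open scoped BigOperators

namespace Pool.Agent.MP_cb8d3a_ag.H90

namespace RedAux

/-- The pairing of the test form with `hs (mu τ) ξ`. -/
def Phi (z : Fin 11 → ℂ) (N : ℕ) (τ : Finset Div) : Form →ₗ[ℂ] K :=
  Res z (lst τ) ∘ₗ LinearMap.mulLeft ℂ (c0 z) ∘ₗ LinearMap.proj ∅ ∘ₗ hs z N (mu τ)

theorem Phi_apply (z : Fin 11 → ℂ) (N : ℕ) (τ : Finset Div) (ξ : Form) :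
    Phi z N τ ξ = Res z (lst τ) (c0 z * hs z N (mu τ) ξ ∅) := rfl

theorem sum_two {M : Type} [AddCommMonoid M] (f : Fin 7 → Fin 7 → M)
    (h : ∀ α β, 2 ≤ α ∨ β ≠ 0 → f α β = 0) : ∑ α, ∑ β, f α β = f 0 0 + f 1 0 := by
  have h1 : ∀ α, ∑ β, f α β = f α 0 := fun α =>
    Finset.sum_eq_single 0 (fun β _ hβ => h α β (Or.inr hβ)) (by simp)
  simp only [h1]
  rw [Fin.sum_univ_seven, h 2 0 (Or.inl (by decide)), h 3 0 (Or.inl (by decide)),
    h 4 0 (Or.inl (by decide)), h 5 0 (Or.inl (by decide)), h 6 0 (Or.inl (by decide))]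
  simp

theorem tabA : ∀ α : Fin 7, 2 ≤ α → latD (cA α) - x4 (cA α) - 1 = 0 ∧ x4 (cA α) = 0 ∧
    oOm (cA α) = 1 ∧ (cA α).2 ≠ none ∧ homB (cA α) = false := by decide

theorem tabB : ∀ β : Fin 7, latD (cB β) - x4 (cB β) - 1 = 0 ∧ x4 (cB β) = 0 ∧
    oOm (cB β) = 1 ∧ (cB β).2 ≠ none ∧ homB (cB β) = false := by decide

theorem ne_xA {F : Clus} (h : F.2 ≠ none) : F ≠ xA 0 := by
  rintro rfl; exact h rfl

theorem ne_yB {F : Clus} (h : F.2 ≠ none) : F ≠ yB 0 := by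
  rintro rfl; exact h rfl

theorem X4_OU (z : Fin 11 → ℂ) : X4 z ∈ OU z :=
  sub_mem (Algebra.subset_adjoin (Or.inl ⟨4, rfl⟩)) (Subalgebra.algebraMap_mem _ _)

variable {z : Fin 11 → ℂ} {N : ℕ} {τ : Finset Div}

theorem kill (hF : SFil z) (hO : SFou z) (hR : SRes z) (hH : SHom z) (hL : SList) (hT : SSdC z)
    (hτ : τ ∈ Nest 5) {F : Div} (hFτ : F ∈ τ) {ξ : Form} (h1 : FOU z ξ)
    (h2 : Fil z F (1 - oOm F.1) ξ) : Phi z N τ ξ = 0 := by
  have h3 : Fil z F (1 - oOm F.1) (hs z N (mu τ) ξ) :=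
    hH.hs_Fil N (fun G hG => (mem_Nest.1 hτ).1 F hFτ G ((hL.mem_mu τ G).1 hG).1) h2
  have h4 := hF.smul (hF.empty h3) (hT.om_Fil F)
  rw [sub_add_cancel] at h4
  have e : (hs z N (mu τ) ξ ∅ • mono Finset.univ (c0 z)) Finset.univ =
      c0 z * hs z N (mu τ) ξ ∅ := by
    simp [mono, mul_comm]
  have h5 := hR.Res_zero (lst τ) F _ (hL.compL 5 τ hτ) (hL.length 5 τ hτ)
    ((hL.mem 5 τ hτ F).2 hFτ) (by
      rw [e]; exact mul_mem hT.c0_OU (hO.hs N _ h1 ∅)) h4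
  rw [e] at h5
  exact h5

theorem sA_Fil (hF : SFil z) {F : Div} {α : Fin 7} (h : Inv z F (thA z α)) {k : ℤ} {y : Form}
    (hy : Fil z F k y) : Fil z F k (sA z α y) := hF.csmul _ (hF.iota h hy)

theorem sB_Fil (hF : SFil z) {F : Div} {β : Fin 7} (h : Inv z F (thB z β)) {k : ℤ} {y : Form}
    (hy : Fil z F k y) : Fil z F k (sB z β y) := hF.csmul _ (hF.iota h hy)

theorem sA_FOU (hO : SFou z) (hS : SSdA z) (α : Fin 7) {y : Form} (hy : FOU z y) :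
    FOU z (sA z α y) := hO.csmul _ (hO.iota (hS.thA_OU α) hy)

theorem YY_Fil (hF : SFil z) (hH : SHom z) (hQ : SR z) (hL : SList) (hS : SSdA z)
    (hτ : τ ∈ Nest 5) {F : Div} (hFτ : F ∈ τ) (hn : F.1.2 ≠ none) {k : ℤ}
    (hG : ∀ α β, Fil z F k (GG z α β)) : Fil z F (x4 F.1 + k) (YY z N (aT τ) (bT τ)) := by
  obtain ⟨hc, -, hE⟩ := mem_Nest.1 hτ
  have cE := hc F hFτ dE hE
  have cA : aT τ ≠ 0 → Compat F (Fa (aT τ)) := fun h =>
    hc F hFτ _ ((hL.aT_iff 5 τ hτ _ h).2 rfl)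
  have cB : bT τ ≠ 0 → Compat F (Fb (bT τ)) := fun h =>
    hc F hFτ _ ((hL.bT_iff 5 τ hτ _ h).2 rfl)
  have iA : aT τ ≠ 0 → Inv z F (thA z (aT τ)) := fun h => hS.invA _ F h (cA h) cE (ne_xA hn)
  have iB : bT τ ≠ 0 → Inv z F (thB z (bT τ)) := fun h => hS.invB _ F h (cB h) cE (ne_yB hn)
  have g1 : ∀ α, Fil z F k (∑ β, GG z α β) := fun α => hF.sum _ _ fun β _ => hG α β
  have g2 : ∀ β, Fil z F k (∑ α, GG z α β) := fun β => hF.sum _ _ fun α _ => hG α β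
  have gt : Fil z F k (Gt z) := hF.sum _ _ fun α _ => g1 α
  unfold YY
  split_ifs with ha hb hb
  · exact hQ.R_Fil N cE gt
  · have e := sB_Fil hF (iB hb) (g2 (bT τ))
    exact hF.add (hQ.R_Fil N cE e) (hH.h_Fil N (cB hb) (hQ.R_Fil N cE (hF.sub gt (hF.nab _ e))))
  · have e := sA_Fil hF (iA ha) (g1 (aT τ))
    exact hF.add (hQ.R_Fil N cE e) (hH.h_Fil N (cA ha) (hQ.R_Fil N cE (hF.sub gt (hF.nab _ e))))
  · have e := sA_Fil hF (iA ha) (g1 (aT τ))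
    have e1 := sB_Fil hF (iB hb) (hF.sub (g2 (bT τ))
      (hF.nab w4 (sA_Fil hF (iA ha) (hG (aT τ) (bT τ)))))
    have e2 := sA_Fil hF (iA ha) (hF.sub (g1 (aT τ))
      (hF.nab w4 (sB_Fil hF (iB hb) (hG (aT τ) (bT τ)))))
    exact hF.add (hF.sub (hF.add
      (hQ.R_Fil N cE (sA_Fil hF (iA ha) (sB_Fil hF (iB hb) (hG _ _))))
      (hH.h_Fil N (cA ha) (hQ.R_Fil N cE e1))) (hH.h_Fil N (cB hb) (hQ.R_Fil N cE e2)))
      (hH.h_Fil N (cA ha) (hH.h_Fil N (cB hb)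
        (hQ.R_Fil N cE (hF.sub (hF.sub gt (hF.nab _ e)) (hF.nab _ e1)))))

end RedAux

open RedAux in
set_option linter.unusedVariables false in
theorem sRed (z : Fin 11 → ℂ) (hI : SInv z) (h1 : SCar1) (hF : SFil z) (hO : SFou z) (hC : SComb)
    (hR : SRes z) (hH : SHom z) (hQ : SR z) (hL : SList) (hS : SSdA z) (hT : SSdC z)
    (hG : SGood z) : SRed z := by
  intro N τ hτ
  obtain ⟨hc, hcard, hE⟩ := mem_Nest.1 hτ
  show Phi z N τ (YY z N (aT τ) (bT τ)) =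
    if ∀ F ∈ τ, homB F.1 = true then Phi z N τ (Y0 z N (aT τ)) else 0
  by_cases ha : 2 ≤ aT τ
  · have ha0 : aT τ ≠ 0 := by rintro h; rw [h] at ha; exact absurd ha (by decide)
    have hm := (hL.aT_iff 5 τ hτ _ ha0).2 rfl
    obtain ⟨t1, t2, t3, t4, t5⟩ := tabA _ ha
    rw [if_neg fun h => by
      have := h _ hm
      rw [show (Fa (aT τ)).1 = cA (aT τ) from rfl, t5] at this
      exact absurd this (by decide)]
    refine kill hF hO hR hH hL hT hτ hm (hG.fouY _ _ _) ?_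
    have := YY_Fil (N := N) hF hH hQ hL hS hτ hm t4 fun α β => hS.G_spA0 α _ β ha0
    rw [show (Fa (aT τ)).1 = cA (aT τ) from rfl] at this ⊢
    rw [t1, t2] at this
    rw [t3]
    exact this
  by_cases hb : bT τ ≠ 0
  · have hm := (hL.bT_iff 5 τ hτ _ hb).2 rfl
    obtain ⟨t1, t2, t3, t4, t5⟩ := tabB (bT τ)
    rw [if_neg fun h => by
      have := h _ hm
      rw [show (Fb (bT τ)).1 = cB (bT τ) from rfl, t5] at this
      exact absurd this (by decide)]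
    refine kill hF hO hR hH hL hT hτ hm (hG.fouY _ _ _) ?_
    have := YY_Fil (N := N) hF hH hQ hL hS hτ hm t4 fun α β => hS.G_spB0 α β _ hb
    rw [show (Fb (bT τ)).1 = cB (bT τ) from rfl] at this ⊢
    rw [t1, t2] at this
    rw [t3]
    exact this
  rw [not_not] at hb
  have dead : ∀ α β, (2 ≤ α ∨ β ≠ 0) ∨ ¬ (∀ F ∈ τ, homB F.1 = true) →
      ∃ F ∈ τ, F.1.2 ≠ none ∧ Fil z F (1 - oOm F.1 - x4 F.1) (GG z α β) := by
    intro α β h
    by_cases h2 : 2 ≤ α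
    · obtain ⟨F, hF1, hF2, hF3⟩ := hC.full τ hc hcard (pa α)
      exact ⟨F, hF1, hF3, hT.k2a α β F h2 (hc F hF1 dE hE) hF2 hF3⟩
    have h3 : α ≤ 1 := by clear h; revert α; decide
    by_cases h4 : β = 0
    · have h5 := h.resolve_left (by simp [h2, h4])
      push Not at h5
      obtain ⟨F, hF1, hF2⟩ := h5
      have hF3 : homB F.1 = false := by simpa using hF2
      refine ⟨F, hF1, fun h6 => ?_, h4 ▸ hT.k3 α F h3 (hc F hF1 dE hE) hF3⟩
      simp [homB, h6] at hF3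
    · obtain ⟨F, hF1, hF2, hF3⟩ := hC.full τ hc hcard (qb β)
      exact ⟨F, hF1, hF3, hT.k2b α β F h3 h4 (hc F hF1 dE hE) hF2 hF3⟩
  have RF : ∀ F ∈ τ, ∀ y, Fil z F (1 - oOm F.1 - x4 F.1) y →
      Fil z F (1 - oOm F.1) (Rop z N y) := fun F hF1 y hy => by
    have := hQ.R_Fil N (hc F hF1 dE hE) hy
    rwa [add_sub_cancel] at this
  have RE : ∀ y, Fil z dE 0 y → Fil z dE (1 - oOm dE.1) (Rop z N y - X4 z • y) :=
    fun y hy => hQ.R_E N hy
  have RO : ∀ y, FOU z y → FOU z (Rop z N y - X4 z • y) := fun y hy =>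
    hO.sub (hO.Rop N hy) (hO.smul (X4_OU z) hy)
  have g01 : FOU z (GG z 0 0 + GG z 1 0) := hO.add (hS.G_FOU _ _) (hS.G_FOU _ _)
  have e01 : Fil z dE 0 (GG z 0 0 + GG z 1 0) := hF.add (hS.G_E _ _) (hS.G_E _ _)
  by_cases ha0 : aT τ = 0
  · have k1 : ∀ α β, (2 ≤ α ∨ β ≠ 0) ∨ ¬ (∀ F ∈ τ, homB F.1 = true) →
        Phi z N τ (Rop z N (GG z α β)) = 0 := fun α β h => by
      obtain ⟨F, hF1, -, hF3⟩ := dead α β h
      exact kill hF hO hR hH hL hT hτ hF1 (hO.Rop N (hS.G_FOU _ _)) (RF F hF1 _ hF3)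
    have e : Phi z N τ (YY z N (aT τ) (bT τ)) =
        Phi z N τ (Rop z N (GG z 0 0)) + Phi z N τ (Rop z N (GG z 1 0)) := by
      rw [ha0, hb, YY, if_pos rfl, if_pos rfl, Gt]
      simp only [map_sum]
      exact sum_two _ fun α β h => k1 α β (Or.inl h)
    rw [e]
    split_ifs with h
    · rw [ha0, Y0, if_neg (by decide), ← map_add, ← map_add, ← sub_eq_zero, ← map_sub]
      exact kill hF hO hR hH hL hT hτ hE (RO _ g01) (RE _ e01)
    · rw [k1 0 0 (Or.inr h), k1 1 0 (Or.inr h), add_zero]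
  · have ha1 : aT τ = 1 := by
      revert ha ha0
      generalize aT τ = α
      revert α
      decide
    have hm : Fa 1 ∈ τ := (hL.aT_iff 5 τ hτ 1 (by decide)).2 ha1
    have iA : ∀ F ∈ τ, F.1.2 ≠ none → Inv z F (thA z 1) := fun F hF1 hn =>
      hS.invA 1 F (by decide) (hc F hF1 _ hm) (hc F hF1 _ hE) (ne_xA hn)
    have k1 : ∀ α β, (2 ≤ α ∨ β ≠ 0) ∨ ¬ (∀ F ∈ τ, homB F.1 = true) →
        Phi z N τ (hOp z N (Fa 1) (Rop z N (GG z α β))) = 0 := fun α β h => by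
      obtain ⟨F, hF1, -, hF3⟩ := dead α β h
      exact kill hF hO hR hH hL hT hτ hF1 (hO.hOp N _ (hO.Rop N (hS.G_FOU _ _)))
        (hH.h_Fil N (hc F hF1 _ hm) (RF F hF1 _ hF3))
    have k2 : ∀ β, β ≠ 0 ∨ ¬ (∀ F ∈ τ, homB F.1 = true) →
        Phi z N τ (Rop z N (sA z 1 (GG z 1 β))) = 0 ∧
        Phi z N τ (hOp z N (Fa 1) (Rop z N (nab z w4 (sA z 1 (GG z 1 β))))) = 0 := fun β h => by
      obtain ⟨F, hF1, hF2, hF3⟩ := dead 1 β (h.imp_left Or.inr)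
      have a1 := sA_FOU hO hS 1 (hS.G_FOU 1 β)
      have a2 := sA_Fil hF (iA F hF1 hF2) hF3
      exact ⟨kill hF hO hR hH hL hT hτ hF1 (hO.Rop N a1) (RF F hF1 _ a2),
        kill hF hO hR hH hL hT hτ hF1 (hO.hOp N _ (hO.Rop N (hO.nab _ a1)))
          (hH.h_Fil N (hc F hF1 _ hm) (RF F hF1 _ (hF.nab _ a2)))⟩
    have e : Phi z N τ (YY z N (aT τ) (bT τ)) =
        Phi z N τ (Rop z N (sA z 1 (GG z 1 0))) +
        (Phi z N τ (hOp z N (Fa 1) (Rop z N (GG z 0 0))) +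
          Phi z N τ (hOp z N (Fa 1) (Rop z N (GG z 1 0))) -
          Phi z N τ (hOp z N (Fa 1) (Rop z N (nab z w4 (sA z 1 (GG z 1 0)))))) := by
      rw [ha1, hb, YY, if_neg (by decide), if_pos rfl, GA, eA, Gt]
      simp only [map_sum, map_add, map_sub]
      rw [sum_two _ fun α β h => k1 α β (Or.inl h),
        Finset.sum_eq_single 0 (fun β _ h => (k2 β (Or.inl h)).1) (by simp),
        Finset.sum_eq_single 0 (fun β _ h => (k2 β (Or.inl h)).2) (by simp)]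
    rw [e]
    split_ifs with h
    · have a1 := sA_FOU hO hS 1 (hS.G_FOU 1 0)
      have a2 := sA_Fil hF (iA dE hE (by decide)) (hS.G_E 1 0)
      have b1 := kill (N := N) hF hO hR hH hL hT hτ hE (RO _ a1) (RE _ a2)
      have b2 := kill (N := N) hF hO hR hH hL hT hτ hE
        (hO.hOp N (Fa 1) (RO _ (hO.sub g01 (hO.nab w4 a1))))
        (hH.h_Fil N (hc _ hE _ hm) (RE _ (hF.sub e01 (hF.nab w4 a2))))
      rw [map_sub, sub_eq_zero] at b1
      rw [map_sub, map_sub, sub_eq_zero] at b2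
      rw [ha1, Y0, if_pos rfl, map_add, ← b1, ← b2]
      simp only [map_add, map_sub]
    · rw [k1 0 0 (Or.inr h), k1 1 0 (Or.inr h), (k2 0 (Or.inr h)).1, (k2 0 (Or.inr h)).2]
      simp

end Pool.Agent.MP_cb8d3a_ag.H90
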