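import Pool.Agent.MP_cb8d3a_ag.H90.Spec

/-! The cocycle relation. -/

noncomputable section

open scoped BigOperators

namespace Pool.Agent.MP_cb8d3a_ag.H90

namespace RelAux

variable {z : Fin 11 → ℂ}

/-- forms of order at least `k` -/
def filS (hF : SFil z) (F : Div) (k : ℤ) : Submodule ℂ Form where
  carrier := {ω | Fil z F k ω}
  add_mem' := hF.add
  zero_mem' := hF.zero F k
  smul_mem' r _ h := hF.csmul r h

/-- regular forms -/
def fouS (hO : SFou z) : Submodule ℂ Form where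
  carrier := {ω | FOU z ω}
  add_mem' := hO.add
  zero_mem' := hO.zero
  smul_mem' r _ h := hO.csmul r h

/-- all seeds that occur in `YY α β` lie in `M` -/
structure Sd (z : Fin 11 → ℂ) (M : Submodule ℂ Form) (α β : Fin 7) : Prop where
  gt : Gt z ∈ M
  a : α ≠ 0 → eA z α ∈ M ∧ GA z α ∈ M
  b : β ≠ 0 → eB z β ∈ M ∧ GB z β ∈ M
  ab : α ≠ 0 → β ≠ 0 → e0 z α β ∈ M ∧ b1 z α β ∈ M ∧ b2 z α β ∈ M ∧ GAB z α β ∈ M

theorem sd_of {M : Submodule ℂ Form} {α β : Fin 7} (hG : ∀ α β, GG z α β ∈ M)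
    (hd : ∀ ω ∈ M, nab z w4 ω ∈ M) (hA : α ≠ 0 → ∀ ω ∈ M, iota (thA z α) ω ∈ M)
    (hB : β ≠ 0 → ∀ ω ∈ M, iota (thB z β) ω ∈ M) : Sd z M α β := by
  have hA' : α ≠ 0 → ∀ ω ∈ M, sA z α ω ∈ M := fun h ω hω => M.smul_mem _ (hA h ω hω)
  have hB' : β ≠ 0 → ∀ ω ∈ M, sB z β ω ∈ M := fun h ω hω => M.smul_mem _ (hB h ω hω)
  have s1 : ∀ α, ∑ β, GG z α β ∈ M := fun α => M.sum_mem fun β _ => hG α β
  have s2 : ∀ β, ∑ α, GG z α β ∈ M := fun β => M.sum_mem fun α _ => hG α β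
  have gt : Gt z ∈ M := M.sum_mem fun α _ => s1 α
  have a : α ≠ 0 → eA z α ∈ M ∧ GA z α ∈ M := fun h =>
    ⟨hA' h _ (s1 α), M.sub_mem gt (hd _ (hA' h _ (s1 α)))⟩
  refine ⟨gt, a, fun h => ⟨hB' h _ (s2 β), M.sub_mem gt (hd _ (hB' h _ (s2 β)))⟩, fun h h' => ?_⟩
  have c1 : b1 z α β ∈ M := hB' h' _ (M.sub_mem (s2 β) (hd _ (hA' h _ (hG α β))))
  exact ⟨hA' h _ (hB' h' _ (hG α β)), c1, hA' h _ (M.sub_mem (s1 α) (hd _ (hB' h' _ (hG α β)))),
    M.sub_mem (a h).2 (hd _ c1)⟩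

theorem YY_mem {M M' : Submodule ℂ Form} {α β : Fin 7} {N : ℕ} (h : Sd z M α β)
    (hR : ∀ ω ∈ M, Rop z N ω ∈ M') (hA : α ≠ 0 → ∀ ω ∈ M', hOp z N (Fa α) ω ∈ M')
    (hB : β ≠ 0 → ∀ ω ∈ M', hOp z N (Fb β) ω ∈ M') : YY z N α β ∈ M' := by
  unfold YY
  split_ifs with ha hb hb
  · exact hR _ h.gt
  · exact M'.add_mem (hR _ (h.b hb).1) (hB hb _ (hR _ (h.b hb).2))
  · exact M'.add_mem (hR _ (h.a ha).1) (hA ha _ (hR _ (h.a ha).2))
  · obtain ⟨c1, c2, c3, c4⟩ := h.ab ha hb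
    exact M'.add_mem (M'.sub_mem (M'.add_mem (hR _ c1) (hA ha _ (hR _ c2))) (hB hb _ (hR _ c3)))
      (hA ha _ (hB hb _ (hR _ c4)))

theorem exists_sd (hF : SFil z) : ∃ N0 : ℕ, ∀ F α β, Sd z (filS hF F (-N0)) α β := by
  choose k hk using fun p : Div × Fin 9 × Fin 7 × Fin 7 => hF.exists_Fil p.1
    (![Gt z, eA z p.2.2.1, GA z p.2.2.1, eB z p.2.2.2, GB z p.2.2.2, e0 z p.2.2.1 p.2.2.2,
      b1 z p.2.2.1 p.2.2.2, b2 z p.2.2.1 p.2.2.2, GAB z p.2.2.1 p.2.2.2] p.2.1)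
  obtain ⟨b, hb⟩ := (Set.finite_range k).bddBelow
  refine ⟨b.natAbs, fun F α β => ?_⟩
  have h := fun i => hF.le (hk (F, i, α, β))
    (show -(b.natAbs : ℤ) ≤ _ from le_trans (by omega) (hb ⟨(F, i, α, β), rfl⟩))
  exact ⟨h 0, fun _ => ⟨h 1, h 2⟩, fun _ => ⟨h 3, h 4⟩, fun _ _ => ⟨h 5, h 6, h 7, h 8⟩⟩

theorem x4_ge (F : Clus) : -1 ≤ x4 F := by
  unfold x4 vA
  split_ifs <;> omega

theorem latD_ge (F : Clus) : -12 ≤ latD F := by
  have h : F.1.card ≤ 5 := by simpa using F.1.card_le_univ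
  unfold latD a3
  generalize F.1.card = n at h
  split <;> interval_cases n <;> decide

theorem okD {N : ℕ} (hN : 12 ≤ N) {F : Div} {ω : Form} (h : Fil z F (latD F.1) ω) :
    OKF z N F ω :=
  ⟨_, by have := latD_ge F.1; omega, h, fun k hk => by unfold latD at hk; omega⟩

theorem nab_e0 (h1 : SCar1) (h2 : SCar2 z) (hS : SSdA z) (α β : Fin 7) :
    nab z w4 (e0 z α β) = eB z β - eA z α - b1 z α β + b2 z α β := by
  have h := h2.lie_iota w4 (thA z α) (thB z β) (GG z α β)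
  rw [hS.brAB, h1.iota_zero_left, add_zero, lie_apply, lie_apply, hS.G_closed, map_zero,
    add_zero] at h
  simp only [e0, eB, eA, b1, b2, sA, sB, map_sub, LinearMap.smul_apply, map_smul]
  rw [← h]
  module

theorem GAB_eq (h1 : SCar1) (h2 : SCar2 z) (hS : SSdA z) (α β : Fin 7) :
    GAB z α β = GB z β - nab z w4 (b2 z α β) := by
  have h := h2.nab_nab w4 (e0 z α β)
  rw [nab_e0 h1 h2 hS, map_add, map_sub, map_sub] at h
  rw [GAB, GA, GB]
  linear_combination (exp := 1) h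

theorem nab_Gt (hS : SSdA z) : nab z w4 (Gt z) = 0 := by
  simp [Gt, map_sum, hS.G_closed]

theorem goodA (hF : SFil z) (hS : SSdA z) (hM : SSdB z) {α : Fin 7} (ha : α ≠ 0) (β : Fin 7) :
    ∑ α', GG z α' β - nab z w4 (sA z α (GG z α β)) ∈
      filS hF (Fa α) (latD (Fa α).1 - x4 (Fa α).1) := by
  rw [← Finset.add_sum_erase _ _ (Finset.mem_univ 0), ← Finset.add_sum_erase _ _
    (Finset.mem_erase.2 ⟨ha, Finset.mem_univ α⟩), ← add_assoc, add_sub_right_comm]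
  refine Submodule.add_mem _ (hM.matchA α β ha) (Submodule.sum_mem _ fun α' h => ?_)
  rw [Finset.mem_erase, Finset.mem_erase] at h
  exact hS.G_spA α' α β ha h.2.1 h.1

theorem goodB (hF : SFil z) (hS : SSdA z) (hM : SSdB z) (α : Fin 7) {β : Fin 7} (hb : β ≠ 0) :
    ∑ β', GG z α β' - nab z w4 (sB z β (GG z α β)) ∈
      filS hF (Fb β) (latD (Fb β).1 - x4 (Fb β).1) := by
  rw [← Finset.add_sum_erase _ _ (Finset.mem_univ 0), ← Finset.add_sum_erase _ _
    (Finset.mem_erase.2 ⟨hb, Finset.mem_univ β⟩), ← add_assoc, add_sub_right_comm]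
  refine Submodule.add_mem _ (hM.matchB α β hb) (Submodule.sum_mem _ fun β' h => ?_)
  rw [Finset.mem_erase, Finset.mem_erase] at h
  exact hS.G_spB α β' β hb h.2.1 h.1

theorem GA_good (hF : SFil z) (hS : SSdA z) (hM : SSdB z) {α : Fin 7} (ha : α ≠ 0) :
    GA z α ∈ filS hF (Fa α) (latD (Fa α).1 - x4 (Fa α).1) := by
  rw [GA, Gt, eA, Finset.sum_comm, map_sum, map_sum, ← Finset.sum_sub_distrib]
  exact Submodule.sum_mem _ fun β _ => goodA hF hS hM ha β

theorem GB_good (hF : SFil z) (hS : SSdA z) (hM : SSdB z) {β : Fin 7} (hb : β ≠ 0) :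
    GB z β ∈ filS hF (Fb β) (latD (Fb β).1 - x4 (Fb β).1) := by
  rw [GB, Gt, eB, map_sum, map_sum, ← Finset.sum_sub_distrib]
  exact Submodule.sum_mem _ fun α _ => goodB hF hS hM α hb

theorem cA_ne : ∀ α, cA α ≠ yB 0 := by decide

theorem cB_ne : ∀ β, cB β ≠ xA 0 := by decide

theorem dE_ne : dE.1 ≠ xA 0 ∧ dE.1 ≠ yB 0 := by decide

section
variable {N : ℕ} {τ : Finset Div}

theorem gen {F : Div} (hF : F ∈ τ) {ω : Form} (h : FOU z ω) (h' : Fil z F (N + 1) ω) :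
    ω ∈ SpanF z τ fun _ => N + 1 :=
  Submodule.subset_span ⟨h, F, hF, h'⟩

theorem h_mem (hO : SFou z) (hH : SHom z) (hτ : ∀ F ∈ τ, ∀ G ∈ τ, Compat F G) {F : Div}
    (hF : F ∈ τ) {ω : Form} (h : ω ∈ SpanF z τ fun _ => N + 1) :
    hOp z N F ω ∈ SpanF z τ fun _ => N + 1 := by
  refine (Submodule.span_le (p := (SpanF z τ fun _ => N + 1).comap (hOp z N F))).2 ?_ h
  rintro ω ⟨h1, G, hG, h2⟩
  exact gen hG (hO.hOp N F h1) (hH.h_Fil N (hτ G hG F hF) h2)

theorem hs_mem (hO : SFou z) (hH : SHom z) (hτ : ∀ F ∈ τ, ∀ G ∈ τ, Compat F G) (l : List Div)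
    (hl : ∀ F ∈ l, F ∈ τ) {ω : Form} (h : ω ∈ SpanF z τ fun _ => N + 1) :
    hs z N l ω ∈ SpanF z τ fun _ => N + 1 := by
  induction l with
  | nil => exact h
  | cons F l ih =>
    exact h_mem hO hH hτ (hl F (by simp)) (ih fun G hG => hl G (by simp [hG]))

theorem nab_hs (hO : SFou z) (hH : SHom z) (hτ : ∀ F ∈ τ, ∀ G ∈ τ, Compat F G) {Y : Form}
    (hY : FOU z Y) (l : List Div) (hn : l.Nodup) (hl : ∀ F ∈ l, F ∈ τ ∧ OKF z N F Y) :
    nab z wD (hs z N l Y) - (l.map fun F => (-1 : ℂ) ^ l.idxOf F • hs z N (l.erase F) Y).sum -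
      (-1 : ℂ) ^ l.length • hs z N l (nab z wD Y) ∈ SpanF z τ fun _ => N + 1 := by
  induction l with
  | nil => simp [hs_nil]
  | cons F l ih =>
    rw [List.nodup_cons] at hn
    obtain ⟨hF, k, k1, k2, k3⟩ := hl F (by simp)
    have hl' : ∀ G ∈ l, G ∈ τ ∧ OKF z N G Y := fun G hG => hl G (by simp [hG])
    have e1 := h_mem hO hH hτ hF (ih hn.2 hl')
    have e2 := gen hF (hO.piOp N F (hO.hs N l hY))
      (hH.deep N ⟨k, k1, hH.hs_Fil N (fun G hG => hτ F hF G (hl' G hG).1) k2, k3⟩)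
    have e3 : (l.map fun G => (-1 : ℂ) ^ (F :: l).idxOf G • hs z N ((F :: l).erase G) Y).sum =
        -hOp z N F (l.map fun G => (-1 : ℂ) ^ l.idxOf G • hs z N (l.erase G) Y).sum := by
      rw [← LinearMap.neg_apply, map_list_sum, List.map_map]
      refine congrArg List.sum (List.map_congr_left fun G hG => ?_)
      have hne : F ≠ G := fun h => hn.1 (h ▸ hG)
      rw [List.idxOf_cons_ne _ hne, List.erase_cons_tail (fun h => hne (eq_of_beq h)), hs_cons]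
      simp [pow_succ]
    have e4 := hH.nab_h N F (hs z N l Y)
    rw [List.map_cons, List.sum_cons, e3, List.idxOf_cons_self, List.erase_cons_head, hs_cons,
      hs_cons, List.length_cons, eq_sub_of_add_eq e4]
    convert Submodule.neg_mem _ (Submodule.add_mem _ e1 e2) using 1
    simp only [map_sub, map_smul, pow_succ]
    module

end

end RelAux

open RelAux in
set_option linter.unusedVariables false in
theorem sRel (z : Fin 11 → ℂ) (hI : SInv z) (h1 : SCar1) (h2 : SCar2 z) (hF : SFil z)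
    (hO : SFou z) (hH : SHom z) (hQ : SR z) (hL : SList) (hS : SSdA z) (hM : SSdB z)
    (hG : SGood z) : SRel z := by
  obtain ⟨N0, hN0⟩ := exists_sd hF
  refine ⟨N0 + 12, fun N hN τ hτ => ?_⟩
  obtain ⟨hc, -, hE⟩ := mem_Nest.1 hτ
  have hN12 : 12 ≤ N := by omega
  have hma : aT τ ≠ 0 → Fa (aT τ) ∈ τ := fun h => (hL.aT_iff 5 τ hτ _ h).2 rfl
  have hmb : bT τ ≠ 0 → Fb (bT τ) ∈ τ := fun h => (hL.bT_iff 5 τ hτ _ h).2 rfl
  have hea := hL.erase_a 5 τ hτ
  have heb := hL.erase_b 5 τ hτ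
  have hem := hL.erase_mu 5 τ hτ
  have hnd := hL.nodup 5 τ hτ
  have hmem := hL.mem 5 τ hτ
  have hXi : ∀ σ, Xi z N σ = hs z N (mu σ) (YY z N (aT σ) (bT σ)) := fun _ => rfl
  have hsg : ∀ F, sg τ F = (-1) ^ (lst τ).idxOf F := fun _ => rfl
  have hlst : lst τ = mu τ ++ ((if aT τ = 0 then [] else [Fa (aT τ)]) ++
    (if bT τ = 0 then [] else [Fb (bT τ)])) ++ [dE] := rfl
  rw [hXi]
  generalize aT τ = α at *
  generalize bT τ = β at *
  have hmu := hL.mem_mu τ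
  generalize mu τ = l at *
  -- no resonance along the members of `l`
  have ok : ∀ F ∈ l, F ∈ τ ∧ OKF z N F (YY z N α β) := by
    intro F hl
    obtain ⟨m1, m2, m3, m4⟩ := (hmu F).1 hl
    have key : ∀ k, Sd z (filS hF F k) α β → Fil z F (x4 F.1 + k) (YY z N α β) := fun k hk =>
      YY_mem (M' := filS hF F (x4 F.1 + k)) hk (fun ω h => hQ.R_Fil N (hc F m1 _ hE) h)
        (fun h ω h' => hH.h_Fil N (hc F m1 _ (hma h)) h')
        (fun h ω h' => hH.h_Fil N (hc F m1 _ (hmb h)) h')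
    refine ⟨m1, ?_⟩
    by_cases hr : ∀ k : ℤ, 3 * k ≠ a3 F.1
    · exact ⟨_, by have := x4_ge F.1; omega, key _ (hN0 F α β), fun k _ => hr k⟩
    have nA : ∀ α, F.1 ≠ xA α := fun α h => hr (h ▸ hS.nonresA α)
    have nB : ∀ β, F.1 ≠ yB β := fun β h => hr (h ▸ hS.nonresB β)
    refine okD hN12 (hF.le (key _ (sd_of
      (fun α β => hS.G_good α β F (hc F m1 _ hE) m4 m2 m3 (nA α) (nB β)) (fun ω h => hF.nab w4 h)
      (fun h ω h' => hF.iota (hS.invA α F h (hc F m1 _ (hma h)) (hc F m1 _ hE) (nA 0)) h')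
      (fun h ω h' => hF.iota (hS.invB β F h (hc F m1 _ (hmb h)) (hc F m1 _ hE) (nB 0)) h')))
      (by omega))
  have sO : Sd z (fouS hO) α β := sd_of hS.G_FOU (fun ω h => hO.nab w4 h)
    (fun _ ω h => hO.iota (hS.thA_OU α) h) (fun _ ω h => hO.iota (hS.thB_OU β) h)
  have sE : Sd z (filS hF dE 0) α β := sd_of hS.G_E (fun ω h => hF.nab w4 h)
    (fun h ω h' => hF.iota (hS.invA α dE h (hc _ hE _ (hma h)) (Compat.refl _) dE_ne.1) h')
    (fun h ω h' => hF.iota (hS.invB β dE h (hc _ hE _ (hmb h)) (Compat.refl _) dE_ne.2) h')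
  set S := SpanF z τ fun _ => N + 1 with hSd
  have hR : ∀ y ∈ fouS hO, y ∈ filS hF dE 0 →
      ∃ s ∈ S, nab z wD (Rop z N y) = Rop z N (nab z w4 y) + s := fun y a b =>
    ⟨_, gen hE (hO.piOp N dE (hO.wedge hO.kap a)) (hQ.deep_E N b), hQ.nab_R N y⟩
  have hh : ∀ F ∈ τ, ∀ ω, FOU z ω → Fil z F (latD F.1) ω →
      ∃ s ∈ S, nab z wD (hOp z N F ω) = ω - hOp z N F (nab z wD ω) - s := fun F a ω b c =>
    ⟨_, gen a (hO.piOp N F b) (hH.deep N (okD hN12 c)), by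
      rw [eq_sub_of_add_eq (hH.nab_h N F ω)]; abel⟩
  have hRg : ∀ F ∈ τ, ∀ y ∈ filS hF F (latD F.1 - x4 F.1), Fil z F (latD F.1) (Rop z N y) :=
    fun F a y b => hF.le (hQ.R_Fil N (hc F a _ hE) b) (by omega)
  have dGA : nab z w4 (GA z α) = 0 := by rw [GA, map_sub, nab_Gt hS, h2.nab_nab, sub_zero]
  have dGB : nab z w4 (GB z β) = 0 := by rw [GB, map_sub, nab_Gt hS, h2.nab_nab, sub_zero]
  have main := nab_hs hO hH hc (hG.fouY N α β) l
    (by rw [hlst] at hnd; exact hnd.of_append_left.of_append_left) ok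
  have fin : ∀ (kp : List Div) (Z : Form), lst τ = l ++ kp ++ [dE] →
      (kp.map fun F => sg τ F • Xi z N (τ.erase F)).sum = (-1 : ℂ) ^ l.length • hs z N l Z →
      nab z wD (YY z N α β) - Z ∈ S →
      nab z wD (hs z N l (YY z N α β)) - ∑ F ∈ τ.erase dE, sg τ F • Xi z N (τ.erase F) ∈ S := by
    intro kp Z e1 e2 e3
    rw [e1] at hnd hmem
    have e4 : τ.erase dE = (l ++ kp).toFinset := by
      ext F
      rw [Finset.mem_erase, ← hmem, List.mem_toFinset, List.mem_append (t := [dE]),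
        List.mem_singleton]
      refine ⟨fun h => h.2.resolve_right h.1, fun h => ⟨?_, Or.inl h⟩⟩
      rintro rfl
      exact (List.nodup_append.1 hnd).2.2 _ h _ (List.mem_singleton_self _) rfl
    have e5 : (l.map fun F => sg τ F • Xi z N (τ.erase F)) =
        l.map fun F => (-1 : ℂ) ^ l.idxOf F • hs z N (l.erase F) (YY z N α β) := by
      refine List.map_congr_left fun F hF => ?_
      obtain ⟨m1, m2, m3⟩ := hem F hF
      rw [hXi, m1, m2, m3, hsg, e1, List.append_assoc, List.idxOf_append_of_mem hF]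
    rw [e4, List.sum_toFinset _ hnd.of_append_left, List.map_append, List.sum_append, e2, e5]
    convert S.add_mem main (S.smul_mem ((-1 : ℂ) ^ l.length)
      (hs_mem hO hH hc l (fun F h => (ok F h).1) e3)) using 1
    simp only [map_sub]
    module
  have na : α ≠ 0 → Fa α ∉ l := fun ha h => ha (by rw [← (hL.aOf_Fa α ha).1, ((hmu _).1 h).2.1])
  have nb : β ≠ 0 → Fb β ∉ l := fun hb h => hb (by rw [← (hL.bOf_Fb β hb).1, ((hmu _).1 h).2.2.1])
  by_cases ha : α = 0 <;> by_cases hb : β = 0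
  · refine fin [] 0 (by rw [hlst, if_pos ha, if_pos hb]; rfl) (by simp) ?_
    obtain ⟨s, s1, s2⟩ := hR _ sO.gt sE.gt
    rw [YY, if_pos ha, if_pos hb, s2, nab_Gt hS]
    simpa using s1
  · rw [if_pos ha, if_neg hb] at hlst
    refine fin [Fb β] (YY z N α 0) hlst ?_ ?_
    · obtain ⟨m1, m2, m3⟩ := heb hb
      simp only [List.map_cons, List.map_nil, List.sum_cons, List.sum_nil, add_zero]
      rw [hXi, m1, m2, m3, hsg, hlst, List.append_assoc,
        List.idxOf_append_of_notMem (nb hb)]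
      simp
    · obtain ⟨s1, a1, e1⟩ := hR _ (sO.b hb).1 (sE.b hb).1
      obtain ⟨s2, a2, e2⟩ := hR _ (sO.b hb).2 (sE.b hb).2
      obtain ⟨s3, a3, e3⟩ := hh _ (hmb hb) _ (hO.Rop N (sO.b hb).2)
        (hRg _ (hmb hb) _ (GB_good hF hS hM hb))
      rw [YY, YY, if_pos ha, if_pos ha, if_neg hb, if_pos rfl, map_add, e1, e3, e2, dGB]
      convert S.sub_mem (S.sub_mem a1 (h_mem hO hH hc (hmb hb) a2)) a3 using 1
      simp only [GB, map_sub, map_zero, zero_add]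
      abel
  · rw [if_neg ha, if_pos hb] at hlst
    refine fin [Fa α] (YY z N 0 β) hlst ?_ ?_
    · obtain ⟨m1, m2, m3⟩ := hea ha
      simp only [List.map_cons, List.map_nil, List.sum_cons, List.sum_nil, add_zero]
      rw [hXi, m1, m2, m3, hsg, hlst, List.append_assoc,
        List.idxOf_append_of_notMem (na ha)]
      simp
    · obtain ⟨s1, a1, e1⟩ := hR _ (sO.a ha).1 (sE.a ha).1
      obtain ⟨s2, a2, e2⟩ := hR _ (sO.a ha).2 (sE.a ha).2
      obtain ⟨s3, a3, e3⟩ := hh _ (hma ha) _ (hO.Rop N (sO.a ha).2)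
        (hRg _ (hma ha) _ (GA_good hF hS hM ha))
      rw [YY, YY, if_neg ha, if_pos hb, if_pos rfl, if_pos hb, map_add, e1, e3, e2, dGA]
      convert S.sub_mem (S.sub_mem a1 (h_mem hO hH hc (hma ha) a2)) a3 using 1
      simp only [GA, map_sub, map_zero, zero_add]
      abel
  · rw [if_neg ha, if_neg hb] at hlst
    have hab := hc _ (hma ha) _ (hmb hb)
    refine fin [Fa α, Fb β] (YY z N 0 β - YY z N α 0) hlst ?_ ?_
    · obtain ⟨m1, m2, m3⟩ := hea ha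
      obtain ⟨n1, n2, n3⟩ := heb hb
      have hne : Fa α ≠ Fb β := fun h => ha (by
        rw [← (hL.aOf_Fa α ha).1, h, (hL.bOf_Fb β hb).2.1])
      simp only [List.map_cons, List.map_nil, List.sum_cons, List.sum_nil, add_zero]
      rw [hXi, hXi, m1, m2, m3, n1, n2, n3, hsg, hsg, hlst, List.append_assoc,
        List.idxOf_append_of_notMem (na ha),
        List.idxOf_append_of_notMem (nb hb)]
      simp only [List.cons_append, List.nil_append, List.idxOf_cons_self, List.idxOf_cons_ne _ hne,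
        map_sub, add_zero, Nat.succ_eq_add_one, zero_add, pow_succ]
      module
    · obtain ⟨o1, o2, o3, o4⟩ := sO.ab ha hb
      obtain ⟨f1, f2, f3, f4⟩ := sE.ab ha hb
      have g1 : b1 z α β ∈ filS hF (Fa α) (latD (Fa α).1 - x4 (Fa α).1) :=
        Submodule.smul_mem _ _ (hF.iota (hS.invB β _ hb hab (hS.compA α ha) (cA_ne α))
          (goodA hF hS hM ha β))
      have g2 : b2 z α β ∈ filS hF (Fb β) (latD (Fb β).1 - x4 (Fb β).1) :=
        Submodule.smul_mem _ _ (hF.iota (hS.invA α _ ha hab.symm (hS.compB β hb) (cB_ne β))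
          (goodB hF hS hM α hb))
      have g3 : GAB z α β ∈ filS hF (Fa α) (latD (Fa α).1 - x4 (Fa α).1) :=
        Submodule.sub_mem _ (GA_good hF hS hM ha) (hF.nab w4 g1)
      have g4 : GAB z α β ∈ filS hF (Fb β) (latD (Fb β).1 - x4 (Fb β).1) := by
        rw [GAB_eq h1 h2 hS]
        exact Submodule.sub_mem _ (GB_good hF hS hM hb) (hF.nab w4 g2)
      have d1 : nab z w4 (b1 z α β) = GA z α - GAB z α β := by rw [GAB]; abel
      have d2 : nab z w4 (b2 z α β) = GB z β - GAB z α β := by rw [GAB_eq h1 h2 hS]; abel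
      have d3 : nab z w4 (GAB z α β) = 0 := by rw [GAB, map_sub, dGA, h2.nab_nab, sub_zero]
      obtain ⟨s1, a1, e1⟩ := hR _ o1 f1
      obtain ⟨s2, a2, e2⟩ := hR _ o2 f2
      obtain ⟨s3, a3, e3⟩ := hR _ o3 f3
      obtain ⟨s4, a4, e4⟩ := hR _ o4 f4
      obtain ⟨s5, a5, e5⟩ := hh _ (hma ha) _ (hO.Rop N o2) (hRg _ (hma ha) _ g1)
      obtain ⟨s6, a6, e6⟩ := hh _ (hmb hb) _ (hO.Rop N o3) (hRg _ (hmb hb) _ g2)
      obtain ⟨s7, a7, e7⟩ := hh _ (hmb hb) _ (hO.Rop N o4) (hRg _ (hmb hb) _ g4)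
      obtain ⟨s8, a8, e8⟩ := hh _ (hma ha) _ (hO.hOp N (Fb β) (hO.Rop N o4))
        (hH.h_Fil N hab (hRg _ (hma ha) _ g3))
      have HA := fun s (h : s ∈ S) => h_mem hO hH hc (hma ha) h
      have HB := fun s (h : s ∈ S) => h_mem hO hH hc (hmb hb) h
      rw [YY, YY, YY, if_neg ha, if_neg hb, if_pos rfl, if_neg hb, if_neg ha, if_pos rfl, map_add,
        map_sub, map_add, e1, e5, e6, e8, e7, e2, e3, e4, nab_e0 h1 h2 hS, d1, d2, d3]
      convert S.sub_mem (S.add_mem (S.add_mem (S.add_mem (S.add_mem (S.sub_mem (S.sub_mem a1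
        (HA _ a2)) a5) (HB _ a3)) a6) (HA _ (HB _ a4))) (HA _ a7)) a8 using 1
      simp only [map_sub, map_add, map_zero, zero_add]
      abel

end Pool.Agent.MP_cb8d3a_ag.H90
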