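import Pool.Agent.MP_cb8d3a_ag.H90.Spec

/-! Iterated residues: vanishing, exact forms and the determinant formula. -/

noncomputable section

open scoped BigOperators

namespace Pool.Agent.MP_cb8d3a_ag.H90

namespace ResAux

variable {z : Fin 11 → ℂ}

theorem CT_OU (hK : SK1 z) (l : List Div) (c : K) (hc : c ∈ OU z) : CT z l c ∈ OU z := by
  induction l with
  | nil => exact hc
  | cons F l ih => exact hK.co_OU F 0 _ ih

theorem CT_V (hK : SK1 z) (l : List Div) (G : Div) (m : ℤ) (c : K) (hl : ∀ F ∈ l, Compat F G)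
    (hc : c ∈ OU z) (h : V z G m c) : V z G m (CT z l c) := by
  induction l with
  | nil => exact h
  | cons F l ih =>
    exact hK.V_co F G 0 m _ (hl F (by simp)) (CT_OU hK l c hc)
      (ih fun F' hF' => hl F' (by simp [hF']))

theorem CT_zero (hK : SK1 z) (l : List Div) (F : Div) (c : K) (hl : CompL l) (hF : F ∈ l)
    (hc : c ∈ OU z) (h : V z F 1 c) : CT z l c = 0 := by
  obtain ⟨p, q, rfl⟩ := List.append_of_mem hF
  rw [CT_append, CT_cons, CT_V hK q F 1 c (fun G hG => hl G (by simp [hG]) F hF) hc h 0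
    (by norm_num), map_zero]

theorem Res_top (h1 : SCar1) (l : List Div) (hl : l.length = 5) (ω : Form) :
    Res z l (ω Finset.univ) = CT z l (iotas (l.map (theta z)) ω ∅) := by
  rw [Res_apply, h1.iotas_top _ ω (by simpa using hl)]
  rfl

theorem CT_act (l : List Div) (X : VF) (hX : ∀ G ∈ l, Inv z G X) (g : K) :
    CT z l (act X g) = act X (CT z l g) := by
  induction l with
  | nil => rfl
  | cons F l ih =>
    rw [CT_cons, CT_cons, ih fun G hG => hX G (by simp [hG]), hX F (by simp)]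

theorem CT_theta (hI : SInv z) (l : List Div) (F : Div) (hl : CompL l) (hF : F ∈ l) (g : K) :
    CT z l (act (theta z F) g) = 0 := by
  obtain ⟨p, q, rfl⟩ := List.append_of_mem hF
  rw [CT_append, CT_cons,
    CT_act q _ (fun G hG => hI.inv_theta G F (hl G (by simp [hG]) F hF)), hI.co_theta]
  simp

theorem lie_iotas (hI : SInv z) (h1 : SCar1) (h2 : SCar2 z) (F : Div) (m : List Div)
    (hm : ∀ G ∈ m, Compat F G) (ω : Form) :
    iotas (m.map (theta z)) (lie z 0 (theta z F) ω) =
      lie z 0 (theta z F) (iotas (m.map (theta z)) ω) := by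
  induction m with
  | nil => rfl
  | cons G m ih =>
    rw [List.map_cons, iotas_cons, iotas_cons, ih fun G' hG' => hm G' (by simp [hG']),
      h2.lie_iota, hI.br_theta F _ (hI.inv_theta F G (hm G (by simp))), h1.iota_zero_left,
      add_zero]

theorem CT_nab (hI : SInv z) (h1 : SCar1) (h2 : SCar2 z) (l : List Div) (hl : CompL l)
    (m : List Div) : (∀ G ∈ m, G ∈ l) → ∀ ω : Form,
      CT z l (iotas (m.map (theta z)) (nab z 0 ω) ∅) = 0 := by
  induction m using List.reverseRecOn with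
  | nil =>
    intro _ ω
    rw [List.map_nil, iotas_nil, h2.nab_empty, map_zero]
  | append_singleton m F ih =>
    intro hm ω
    have hF : F ∈ l := hm F (by simp)
    have e : iota (theta z F) (nab z 0 ω) =
        lie z 0 (theta z F) ω - nab z 0 (iota (theta z F) ω) := by
      rw [lie_apply]; abel
    have e0 : ev1 (etaW z 0) (theta z F) = 0 := by simp [ev1, etaW]
    rw [List.map_append, iotas_append, List.map_cons, List.map_nil, iotas_cons, iotas_nil, e,
      map_sub, Pi.sub_apply, map_sub, ih (fun G hG => hm G (by simp [hG])), sub_zero,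
      lie_iotas hI h1 h2 F m (fun G hG => hl F hF G (hm G (by simp [hG]))), h2.lie_empty,
      dw_apply, e0, zero_mul, add_zero, CT_theta hI l F hl hF]

theorem Res_exact (hI : SInv z) (h1 : SCar1) (h2 : SCar2 z) (l : List Div) (ω : Form)
    (hl : CompL l) (h5 : l.length = 5) : Res z l (extD ω Finset.univ) = 0 := by
  rw [Res_top h1 l h5, ← h2.nab_zero]
  exact CT_nab hI h1 h2 l hl l (fun _ h => h) ω

theorem Res_pd (hI : SInv z) (h1 : SCar1) (h2 : SCar2 z) (l : List Div) (hl : CompL l)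
    (h5 : l.length = 5) (a : Fin 5) (g : K) : Res z l (pd a g) = 0 := by
  have e : extD (mono (Finset.univ.erase a) g) Finset.univ = sgn a Finset.univ * pd a g := by
    unfold extD
    rw [Finset.sum_eq_single a]
    · simp [mono]
    · intro b _ hb
      have : Finset.univ.erase b ≠ Finset.univ.erase a := fun h => by
        have : a ∈ Finset.univ.erase b := by simp [hb.symm]
        rw [h] at this
        simp at this
      simp [mono, this, pd_zero]
    · simp
  have h := Res_exact hI h1 h2 l (mono (Finset.univ.erase a) g) hl h5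
  rw [e] at h
  unfold sgn at h
  rcases neg_one_pow_eq_or K (Finset.univ.filter (· < a)).card with h' | h' <;> rw [h'] at h
  · rwa [one_mul] at h
  · rwa [neg_one_mul, map_neg, neg_eq_zero] at h

/-- Regular functions without poles along the members of `l`. -/
def Reg (z : Fin 11 → ℂ) (l : List Div) : Subring K where
  carrier := {c | c ∈ OU z ∧ ∀ G ∈ l, V z G 0 c}
  mul_mem' := fun hx hy => ⟨mul_mem hx.1 hy.1, fun G hG => by
    simpa using (hx.2 G hG).mul (hy.2 G hG)⟩
  one_mem' := ⟨one_mem _, fun _ _ => V_one⟩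
  add_mem' := fun hx hy => ⟨add_mem hx.1 hy.1, fun G hG => (hx.2 G hG).add (hy.2 G hG)⟩
  zero_mem' := ⟨zero_mem _, fun _ _ => V_zero 0⟩
  neg_mem' := fun hx => ⟨neg_mem hx.1, fun G hG => (hx.2 G hG).neg⟩

theorem CT_int (l : List Div) (n : ℤ) : CT z l (n : K) = n := by
  induction l with
  | nil => rfl
  | cons F l ih => rw [CT_cons, ih, co_intCast]

theorem CT_mul (hK : SK1 z) (l : List Div) (hl : CompL l) (x y : K) (hx : x ∈ Reg z l)
    (hy : y ∈ Reg z l) : CT z l (x * y) = CT z l x * CT z l y := by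
  induction l with
  | nil => rfl
  | cons F l ih =>
    have hc : ∀ G ∈ l, Compat G F := fun G hG => hl G (by simp [hG]) F (by simp)
    rw [CT_cons, CT_cons, CT_cons,
      ih (fun G hG G' hG' => hl G (by simp [hG]) G' (by simp [hG']))
        ⟨hx.1, fun G hG => hx.2 G (by simp [hG])⟩ ⟨hy.1, fun G hG => hy.2 G (by simp [hG])⟩,
      ← co_mul (CT_V hK l F 0 x hc hx.1 (hx.2 F (by simp)))
        (CT_V hK l F 0 y hc hy.1 (hy.2 F (by simp))), add_zero]

/-- The iterated constant term as a ring map. -/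
def CTh (hK : SK1 z) (l : List Div) (hl : CompL l) : Reg z l →+* K where
  toFun c := CT z l c
  map_one' := by simpa using CT_int (z := z) l 1
  map_mul' x y := CT_mul hK l hl x y x.2 y.2
  map_zero' := map_zero _
  map_add' x y := map_add _ _ _

theorem ent_mem (hA : SAt z) (hI : SInv z) (hK : SK1 z) (l : List Div) (hl : CompL l) (F : Div)
    (hF : F ∈ l) (h : Hyp) : act (theta z F) (hyp z h) / hyp z h ∈ Reg z l := by
  refine ⟨?_, fun G hG => hI.V_dlog G _ _ (hI.inv_theta G F (hl G hG F hF))⟩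
  rw [div_eq_mul_inv]
  refine mul_mem (hK.act_OU _ _ (hK.theta_OU F) ?_) (Algebra.subset_adjoin (Or.inr ⟨h, rfl⟩))
  rw [hyp_eq]
  exact hA.av_OU _

theorem ent_CT (hA : SAt z) (hI : SInv z) (hK : SK1 z) (l : List Div) (hl : CompL l) (F : Div)
    (hF : F ∈ l) (h : Hyp) :
    CT z l (act (theta z F) (hyp z h) / hyp z h) = (vH F.1 h : K) := by
  have e1 := hI.V_theta_dlog F (vA F.1 (toAt h)) (hyp z h)
    (by rw [hyp_eq]; exact hA.V_av F _ (hA.toAt_ne h))
    (by rw [hyp_eq, hA.co_av F _ (hA.toAt_ne h)]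
        exact hA.av_ne _ (hA.inA_ne F _ (hA.toAt_ne h)))
  have e2 := CT_zero hK l F _ hl hF
    (sub_mem (ent_mem hA hI hK l hl F hF h).1 (intCast_mem _ _)) e1
  rw [map_sub, CT_int, sub_eq_zero] at e2
  rw [e2, hA.vH_eq]

/-- The row of orders. -/
def row (hs : Fin 5 → Hyp) (F : Div) : Fin 5 → K := fun j => (vH F.1 (hs j) : K)

theorem Res_log (hA : SAt z) (hI : SInv z) (hK : SK1 z) (h1 : SCar1) (Fs : Fin 5 → Div)
    (hl : CompL (List.ofFn Fs)) (hs : Fin 5 → Hyp) :
    Res z (List.ofFn Fs) (logForm z (List.ofFn hs) Finset.univ) =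
      (Matrix.of fun i => row hs (Fs i)).det := by
  have e1 : logForm z (List.ofFn hs) Finset.univ =
      (Matrix.of fun j a => dlog (hyp z (hs j)) a).det := by
    have := h1.wedges_det fun j => dlog (hyp z (hs j))
    rw [show (List.ofFn fun j => dlog (hyp z (hs j))) =
      (List.ofFn hs).map (fun h => dlog (hyp z h)) by rw [List.map_ofFn]; rfl,
      List.foldr_map] at this
    unfold logForm
    rw [this]
    simp [mono]
  have e2 : Delta z (List.ofFn Fs) = (Matrix.of fun i a => theta z (Fs i) a).det := by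
    unfold Delta
    rw [List.map_ofFn]
    exact h1.iotas_det _
  have hm : ∀ i, Fs i ∈ List.ofFn Fs := fun i => List.mem_ofFn.2 ⟨i, rfl⟩
  obtain ⟨M, hM⟩ : ∃ M : Matrix (Fin 5) (Fin 5) (Reg z (List.ofFn Fs)), ∀ i j,
      (M i j : K) = act (theta z (Fs i)) (hyp z (hs j)) / hyp z (hs j) :=
    ⟨Matrix.of fun i j => ⟨_, ent_mem hA hI hK _ hl (Fs i) (hm i) (hs j)⟩, fun _ _ => rfl⟩
  have e3 : logForm z (List.ofFn hs) Finset.univ * Delta z (List.ofFn Fs) =
      ((M.det : Reg z (List.ofFn Fs)) : K) := by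
    rw [e1, e2, mul_comm, ← Matrix.det_transpose (Matrix.of fun j a => dlog (hyp z (hs j)) a),
      ← Matrix.det_mul]
    refine Eq.trans ?_ ((Reg z (List.ofFn Fs)).subtype.map_det M).symm
    congr 1
    ext i j
    have := hI.ev1_dlog (theta z (Fs i)) (hyp z (hs j))
    rw [← hM] at this
    refine Eq.trans ?_ this
    rw [Matrix.mul_apply, ev1]
    exact Finset.sum_congr rfl fun a _ => mul_comm _ _
  rw [Res_apply, e3]
  refine ((CTh hK _ hl).map_det M).trans ?_
  congr 1
  ext i j
  have := ent_CT hA hI hK _ hl (Fs i) (hm i) (hs j)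
  rw [← hM] at this
  exact this

theorem red (hB : SBri z) (φ : K →ₗ[ℂ] K)
    (h1 : ∀ hs : Fin 5 → Hyp, φ (logForm z (List.ofFn hs) Finset.univ) = 0)
    (h2 : ∀ a g, φ (pd a g) = 0) (c : K) (hc : c ∈ OU z) : φ c = 0 := by
  refine (Submodule.span_le.2 ?_ : _ ≤ LinearMap.ker φ) (hB c hc)
  rintro x (⟨hs, rfl⟩ | ⟨a, g, -, rfl⟩)
  · exact h1 hs
  · exact h2 a g

theorem Res_perm (hA : SAt z) (hI : SInv z) (hK : SK1 z) (h1 : SCar1) (h2 : SCar2 z)
    (hB : SBri z) (Fs : Fin 5 → Div) (hl : CompL (List.ofFn Fs)) (i j : Fin 5) (hij : i ≠ j)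
    (c : K) (hc : c ∈ OU z) :
    Res z (List.ofFn Fs) c = -Res z (List.ofFn (Fs ∘ Equiv.swap i j)) c := by
  have hl' : CompL (List.ofFn (Fs ∘ Equiv.swap i j)) := by
    intro F hF G hG
    obtain ⟨a, rfl⟩ := List.mem_ofFn.1 hF
    obtain ⟨b, rfl⟩ := List.mem_ofFn.1 hG
    exact hl _ (List.mem_ofFn.2 ⟨_, rfl⟩) _ (List.mem_ofFn.2 ⟨_, rfl⟩)
  have := red hB (Res z (List.ofFn Fs) + Res z (List.ofFn (Fs ∘ Equiv.swap i j))) (fun hs => by
    rw [LinearMap.add_apply, Res_log hA hI hK h1 _ hl, Res_log hA hI hK h1 _ hl']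
    have := Matrix.det_permute (Equiv.swap i j) (Matrix.of fun a => row hs (Fs a))
    rw [Equiv.Perm.sign_swap hij] at this
    refine Eq.trans (congrArg _ this) ?_
    simp) (fun a g => by
    rw [LinearMap.add_apply, Res_pd hI h1 h2 _ hl (by simp), Res_pd hI h1 h2 _ hl' (by simp),
      add_zero]) c hc
  exact eq_neg_of_add_eq_zero_left this

theorem sw {α : Type} (a b c d e : α) :
    List.ofFn ![a, b, c, d, e] = [a, b, c, d, e] ∧
    List.ofFn (![a, b, c, d, e] ∘ Equiv.swap 0 1) = [b, a, c, d, e] ∧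
    List.ofFn (![a, b, c, d, e] ∘ Equiv.swap 1 2) = [a, c, b, d, e] ∧
    List.ofFn (![a, b, c, d, e] ∘ Equiv.swap 2 3) = [a, b, d, c, e] ∧
    List.ofFn (![a, b, c, d, e] ∘ Equiv.swap 3 4) = [a, b, c, e, d] :=
  ⟨rfl, rfl, rfl, rfl, rfl⟩

theorem shape {α : Type} (p q : List α) (h : p.length + q.length = 3) : ∃ a b d,
    (p = [] ∧ q = [a, b, d]) ∨ (p = [a] ∧ q = [b, d]) ∨ (p = [a, b] ∧ q = [d]) ∨
      (p = [a, b, d] ∧ q = []) := by
  obtain ⟨a, b, d, h'⟩ := List.length_eq_three.1 ((List.length_append (as := p) (bs := q)).trans h)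
  refine ⟨a, b, d, ?_⟩
  rcases p with _ | ⟨x, _ | ⟨y, _ | ⟨w, p⟩⟩⟩ <;> simp_all

theorem Res_swap (hA : SAt z) (hI : SInv z) (hK : SK1 z) (h1 : SCar1) (h2 : SCar2 z)
    (hB : SBri z) (p : List Div) (F G : Div) (q : List Div) (c : K)
    (hl : CompL (p ++ F :: G :: q)) (h5 : (p ++ F :: G :: q).length = 5) (hc : c ∈ OU z) :
    Res z (p ++ F :: G :: q) c = -Res z (p ++ G :: F :: q) c := by
  obtain ⟨a, b, d, ⟨rfl, rfl⟩ | ⟨rfl, rfl⟩ | ⟨rfl, rfl⟩ | ⟨rfl, rfl⟩⟩ :=
    shape p q (by simp at h5; omega)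
  · have := Res_perm hA hI hK h1 h2 hB ![F, G, a, b, d] hl 0 1 (by decide) c hc
    rwa [(sw F G a b d).1, (sw F G a b d).2.1] at this
  · have := Res_perm hA hI hK h1 h2 hB ![a, F, G, b, d] hl 1 2 (by decide) c hc
    rwa [(sw a F G b d).1, (sw a F G b d).2.2.1] at this
  · have := Res_perm hA hI hK h1 h2 hB ![a, b, F, G, d] hl 2 3 (by decide) c hc
    rwa [(sw a b F G d).1, (sw a b F G d).2.2.2.1] at this
  · have := Res_perm hA hI hK h1 h2 hB ![a, b, d, F, G] hl 3 4 (by decide) c hc
    rwa [(sw a b d F G).1, (sw a b d F G).2.2.2.2] at this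

theorem Res_last (hA : SAt z) (hI : SInv z) (hK : SK1 z) (h1 : SCar1) (h2 : SCar2 z)
    (hB : SBri z) (F : Div) (q : List Div) (c : K) (hc : c ∈ OU z) : ∀ p : List Div,
    CompL (p ++ F :: q) → (p ++ F :: q).length = 5 →
    Res z (p ++ F :: q) c = (-1) ^ q.length * Res z (p ++ q ++ [F]) c := by
  induction q with
  | nil => intro p _ _; simp
  | cons G q ih =>
    intro p hl h5
    have e := ih (p ++ [G]) (fun x hx y hy => hl x (by simp at hx ⊢; tauto) y
      (by simp at hy ⊢; tauto)) (by simp at h5 ⊢; omega)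
    rw [Res_swap hA hI hK h1 h2 hB p F G q c hl h5 hc]
    simp only [List.append_assoc, List.cons_append, List.nil_append, List.length_cons] at e ⊢
    rw [e]
    ring

theorem Res_link (hA : SAt z) (hI : SInv z) (hK : SK1 z) (h1 : SCar1) (h2 : SCar2 z)
    (hB : SBri z) (hC : SComb) (l : List Div) (c : K) (hn : l.Nodup) (h4 : l.length = 4)
    (hl : CompL l) (hc : c ∈ OU z) : ∑ F ∈ link l.toFinset, Res z (l ++ [F]) c = 0 := by
  have hcomp : ∀ F ∈ link l.toFinset, CompL (l ++ [F]) := by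
    intro F hF
    have h : ∀ G ∈ l, Compat F G := fun G hG =>
      (Finset.mem_filter.1 (Finset.mem_sdiff.1 hF).1).2 G (List.mem_toFinset.2 hG)
    intro x hx y hy
    rw [List.mem_append, List.mem_singleton] at hx hy
    rcases hx with hx | rfl <;> rcases hy with hy | rfl
    exacts [hl x hx y hy, (h x hx).symm, h y hy, Compat.refl _]
  obtain ⟨e, he⟩ := hC.bal l.toFinset
    (fun F hF G hG => hl F (List.mem_toFinset.1 hF) G (List.mem_toFinset.1 hG))
    (by rw [List.toFinset_card_of_nodup hn, h4])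
  rw [← LinearMap.sum_apply]
  refine red hB _ (fun hs => ?_) (fun a g => ?_) c hc
  · rw [LinearMap.sum_apply]
    match l, h4, hcomp, he with
    | [a, b, d, f], _, hcomp, he =>
      obtain ⟨L, hL⟩ : ∃ L : (Fin 5 → K) →ₗ[K] K, ∀ F : Div,
          L (row hs F) = (Matrix.of fun i => row hs (![a, b, d, f, F] i)).det := by
        refine ⟨(Matrix.detRowAlternating (n := Fin 5) (R := K)).toMultilinearMap.toLinearMap
          (fun i => row hs (![a, b, d, f, a] i)) 4, fun F => ?_⟩
        rw [MultilinearMap.toLinearMap_apply]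
        change Matrix.det _ = _
        congr 1
        ext i : 1
        fin_cases i <;> rfl
      have e1 : ∀ F ∈ link [a, b, d, f].toFinset,
          Res z ([a, b, d, f] ++ [F]) (logForm z (List.ofFn hs) Finset.univ) = L (row hs F) := by
        intro F hF
        have := Res_log hA hI hK h1 ![a, b, d, f, F] (by rw [(sw a b d f F).1]; exact hcomp F hF) hs
        rw [(sw a b d f F).1, ← hL] at this
        exact this
      have e2 : ∑ F ∈ link [a, b, d, f].toFinset, row hs F =
          ∑ G ∈ [a, b, d, f].toFinset, (e G : K) • row hs G := by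
        ext j
        simp only [Finset.sum_apply, Pi.smul_apply, smul_eq_mul, row]
        exact_mod_cast he (hs j)
      rw [Finset.sum_congr rfl e1, ← map_sum, e2, map_sum]
      refine Finset.sum_eq_zero fun G hG => ?_
      rw [map_smul, hL]
      rw [List.mem_toFinset] at hG
      simp only [List.mem_cons, List.not_mem_nil, or_false] at hG
      rcases hG with rfl | rfl | rfl | rfl
      · rw [Matrix.det_zero_of_row_eq (i := 0) (j := 4) (by decide) rfl, smul_zero]
      · rw [Matrix.det_zero_of_row_eq (i := 1) (j := 4) (by decide) rfl, smul_zero]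
      · rw [Matrix.det_zero_of_row_eq (i := 2) (j := 4) (by decide) rfl, smul_zero]
      · rw [Matrix.det_zero_of_row_eq (i := 3) (j := 4) (by decide) rfl, smul_zero]
  · rw [LinearMap.sum_apply]
    exact Finset.sum_eq_zero fun F hF => Res_pd hI h1 h2 _ (hcomp F hF) (by simp [h4]) a g

end ResAux

open ResAux in
theorem sRes (z : Fin 11 → ℂ) (hA : SAt z) (hI : SInv z) (hK : SK1 z) (h1 : SCar1)
    (h2 : SCar2 z) (hO : SFou z) (hB : SBri z) (hC : SComb) : SRes z where
  CT_OU := ResAux.CT_OU hK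
  CT_zero := ResAux.CT_zero hK
  Res_zero := fun l F ω hl h5 hF hω h => by
    rw [Res_apply]
    refine ResAux.CT_zero hK l F _ hl hF (mul_mem hω (hO.Delta l)) ?_
    have := h (l.map (theta z)) fun X hX => by
      obtain ⟨G, hG, rfl⟩ := List.mem_map.1 hX
      exact hI.inv_theta F G (hl F hF G hG)
    rwa [h1.iotas_top _ ω (by simpa using h5)] at this
  Res_exact := ResAux.Res_exact hI h1 h2
  Res_swap := ResAux.Res_swap hA hI hK h1 h2 hB
  Res_last := fun p F q c hl h5 hc => ResAux.Res_last hA hI hK h1 h2 hB F q c hc p hl h5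
  Res_link := ResAux.Res_link hA hI hK h1 h2 hB hC

end Pool.Agent.MP_cb8d3a_ag.H90
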