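import Pool.Agent.MP_cb8d3a_ag.H90.Spec

/-! Orders of the seeds. -/

noncomputable section

open scoped BigOperators

namespace Pool.Agent.MP_cb8d3a_ag.H90

namespace SdAAux

variable {z : Fin 11 → ℂ}

theorem ok_g : ∀ α β, okL (gL α β) = true := by decide +kernel

def oG (α β : Fin 7) (F : Clus) : ℤ := vl F (gL α β) + oVol F I4

theorem oG_eq (α β : Fin 7) (c : Clus) :
    oG α β c = vl c mL + oVol c I4 + vl c (aL α) + vl c (bL β) + vl c (kL α β) := by
  simp only [oG, gL, vl, List.map_append, List.sum_append]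
  ring

/-- The check for one cluster. -/
def row (c : Clus) : Bool :=
  decide ((pts c).card < 2) || !compB c dE.1 || c = dE.1 || aOf c ≠ 0 || bOf c ≠ 0 ||
    (List.finRange 7).all fun α => c = xA α || (List.finRange 7).all fun β => c = yB β ||
      decide (latD c - x4 c ≤ vl c mL + oVol c I4 + vl c (aL α) + vl c (bL β) + vl c (kL α β))

/-- The check for all clusters with a given fixed point. -/
def tab (o : Option (Option (Fin 11))) : Bool := allSub.all fun A => row (A, o)

theorem tab_n : tab none = true := by decide +kernel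
theorem tab_i : tab (some none) = true := by decide +kernel
theorem tab_0 : tab (some (some 0)) = true := by decide +kernel
theorem tab_1 : tab (some (some 1)) = true := by decide +kernel
theorem tab_2 : tab (some (some 2)) = true := by decide +kernel
theorem tab_3 : tab (some (some 3)) = true := by decide +kernel
theorem tab_4 : tab (some (some 4)) = true := by decide +kernel
theorem tab_5 : tab (some (some 5)) = true := by decide +kernel
theorem tab_6 : tab (some (some 6)) = true := by decide +kernel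
theorem tab_7 : tab (some (some 7)) = true := by decide +kernel
theorem tab_8 : tab (some (some 8)) = true := by decide +kernel
theorem tab_9 : tab (some (some 9)) = true := by decide +kernel
theorem tab_10 : tab (some (some 10)) = true := by decide +kernel

theorem tab_all : ∀ o, tab o = true
  | none => tab_n
  | some none => tab_i
  | some (some 0) => tab_0
  | some (some 1) => tab_1
  | some (some 2) => tab_2
  | some (some 3) => tab_3
  | some (some 4) => tab_4
  | some (some 5) => tab_5
  | some (some 6) => tab_6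
  | some (some 7) => tab_7
  | some (some 8) => tab_8
  | some (some 9) => tab_9
  | some (some 10) => tab_10

theorem mem_sub : ∀ A, A ∈ allSub := by decide +kernel

theorem row_all (c : Clus) : row c = true :=
  List.all_eq_true.1 (tab_all c.2) c.1 (mem_sub c.1)

theorem tabA : ∀ α α' β : Fin 7, α' ≠ 0 →
    (latD (cA α') - x4 (cA α') - 1 ≤ oG α β (cA α') ∧
      (α ≠ 0 → α ≠ α' → latD (cA α') - x4 (cA α') ≤ oG α β (cA α'))) := by decide +kernel

theorem tabB : ∀ α β β' : Fin 7, β' ≠ 0 →
    (latD (cB β') - x4 (cB β') - 1 ≤ oG α β (cB β') ∧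
      (β ≠ 0 → β ≠ β' → latD (cB β') - x4 (cB β') ≤ oG α β (cB β'))) := by decide +kernel

theorem tabE : ∀ α β : Fin 7, 0 ≤ oG α β dE.1 := by decide +kernel

theorem tab4 : ∀ α β : Fin 7, ∀ p ∈ gL α β, dA 4 p.1 = 0 := by decide +kernel

theorem tabInvA : ∀ α : Fin 7, α ≠ 0 → ∀ F ∈ allD, compB F.1 (cA α) = true →
    compB F.1 dE.1 = true → F.1 ≠ xA 0 → (va α ∉ F.1.1 ∨ ctr F.1 = Sum.inr (za α)) := by
  decide +kernel

theorem tabInvB : ∀ β : Fin 7, β ≠ 0 → ∀ F ∈ allD, compB F.1 (cB β) = true →
    compB F.1 dE.1 = true → F.1 ≠ yB 0 → (vb β ∉ F.1.1 ∨ ctr F.1 = Sum.inr (zb β)) := by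
  decide +kernel

theorem fil_G (hA : SAt z) (hF : SFil z) (α β : Fin 7) (F : Div) {k : ℤ} (h : k ≤ oG α β F.1) :
    Fil z F k (GG z α β) :=
  hF.le (hF.monoI I4 (hA.V_al F _ (ok_g α β))) h

theorem eta4 (hA : SAt z) : etaW z w4 4 = 0 := by
  refine Finset.sum_eq_zero fun h _ => ?_
  have : ∀ h : Hyp, inv4 h = false → dA 4 (toAt h) = 0 := by decide
  by_cases h4 : inv4 h = true
  · simp [w4, h4]
  · rw [dlog, hyp_eq, hA.pd_av, this h (by simpa using h4)]
    simp

theorem pd4 (hA : SAt z) (α β : Fin 7) : pd 4 (al z (gL α β)) = 0 := by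
  have h := hA.act_al (fld 4 1) _ (ok_g α β)
  rw [act_fld, one_mul] at h
  rw [h, List.sum_eq_zero, mul_zero]
  intro x hx
  obtain ⟨p, hp, rfl⟩ := List.mem_map.1 hx
  rw [act_fld, hA.pd_av, tab4 α β p hp]
  simp

theorem inv_tz (hI : SInv z) {F : Div} {a : Fin 5} {i : Fin 11}
    (h : a ∉ F.1.1 ∨ ctr F.1 = Sum.inr i) : Inv z F (fld a (av z (tz a i))) := by
  by_cases ha : a ∈ F.1.1
  · have h' := h.resolve_left (not_not.2 ha)
    have := hI.inv_in F a ha
    rwa [centre_eq, h'] at this
  · have := hI.inv_smul F _ _ (hI.fix_sub F _ _ (hI.fix_t F a ha) (hI.fix_const F (z i)))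
      (hI.inv_out F a ha)
    have e : fld a (av z (tz a i)) = (t a - algebraMap ℂ K (z i)) • fld a 1 := by
      ext b
      by_cases hb : b = a
      · subst hb; simp [fld, av, tz, pt]
      · simp [fld, hb]
    rwa [e]

theorem thA_eq (α : Fin 7) : thA z α = fld (va α) (av z (tz (va α) (za α))) ∨
    thA z α = -fld (va α) (av z (tz (va α) (za α))) := by
  by_cases h : α = 1
  · right
    subst h
    ext b
    by_cases hb : b = 0
    · subst hb; simp [thA, uA, fld, av, tz, pt, va, za]
    · simp [thA, fld, va, hb]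
  · left
    rw [thA, uA, if_neg h]

theorem invA (hA : SAt z) (hI : SInv z) (hL : SList) (α : Fin 7) (F : Div) (h0 : α ≠ 0)
    (h1 : Compat F (Fa α)) (h2 : Compat F dE) (h3 : F.1 ≠ xA 0) : Inv z F (thA z α) := by
  have := inv_tz hI (tabInvA α h0 F (hL.mem_allD F) ((hA.compB_iff F (Fa α)).2 h1)
    ((hA.compB_iff F dE).2 h2) h3)
  rcases thA_eq (z := z) α with e | e <;> rw [e]
  · exact this
  · exact hI.inv_neg F _ this

theorem invB (hA : SAt z) (hI : SInv z) (hL : SList) (β : Fin 7) (F : Div) (h0 : β ≠ 0)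
    (h1 : Compat F (Fb β)) (h2 : Compat F dE) (h3 : F.1 ≠ yB 0) : Inv z F (thB z β) :=
  inv_tz hI (tabInvB β h0 F (hL.mem_allD F) ((hA.compB_iff F (Fb β)).2 h1)
    ((hA.compB_iff F dE).2 h2) h3)

theorem fld_OU {a : Fin 5} {u : K} (hu : u ∈ OU z) (b : Fin 5) : fld a u b ∈ OU z := by
  by_cases hb : b = a
  · subst hb; simpa [fld] using hu
  · simpa [fld, hb] using (OU z).zero_mem

theorem sA_apply (α : Fin 7) (y : Form) : sA z α y = (-3 : ℂ) • iota (thA z α) y := rfl

theorem sB_apply (β : Fin 7) (y : Form) : sB z β y = (-3 : ℂ) • iota (thB z β) y := rfl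

theorem V_u (hA : SAt z) {F : Div} (h : F.1.2 = none) {x : At} (hx : x.1 ≠ x.2) :
    V z F 0 (av z x) := by
  refine (hA.V_av F x hx).mono ?_
  rw [vA, h, if_neg (by simp)]
  split_ifs <;> simp

theorem uA_ne : ∀ α, (uA α).1 ≠ (uA α).2 := by decide

theorem effA (hA : SAt z) (hI : SInv z) (hF : SFil z) (hL : SList) (α : Fin 7) (F : Div) (k : ℤ)
    (y : Form) (h0 : α ≠ 0) (h1 : Compat F (Fa α)) (h2 : Compat F dE) (hy : Fil z F k y) :
    Fil z F k (iota (theta z F) (sA z α y)) := by
  rw [sA_apply, map_smul]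
  refine hF.csmul _ ?_
  by_cases h3 : F.1 = xA 0
  · have e1 : F.1.2 = none := by rw [h3]; rfl
    have e2 : F.1.1.card = 2 := by rw [h3]; rfl
    exact hF.eff _ e1 e2 (V_u hA e1 (uA_ne α)) hy
  · exact hF.iota (hI.inv_theta F F (Compat.refl F)) (hF.iota (invA hA hI hL α F h0 h1 h2 h3) hy)

theorem effB (hA : SAt z) (hI : SInv z) (hF : SFil z) (hL : SList) (β : Fin 7) (F : Div) (k : ℤ)
    (y : Form) (h0 : β ≠ 0) (h1 : Compat F (Fb β)) (h2 : Compat F dE) (hy : Fil z F k y) :
    Fil z F k (iota (theta z F) (sB z β y)) := by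
  rw [sB_apply, map_smul]
  refine hF.csmul _ ?_
  by_cases h3 : F.1 = yB 0
  · have e1 : F.1.2 = none := by rw [h3]; rfl
    have e2 : F.1.1.card = 2 := by rw [h3]; rfl
    exact hF.eff _ e1 e2 (V_u hA e1 (by simp [uB, tz])) hy
  · exact hF.iota (hI.inv_theta F F (Compat.refl F)) (hF.iota (invB hA hI hL β F h0 h1 h2 h3) hy)

theorem theta_single {F : Div} {a : Fin 5} {i : Fin 11} (h : F.1 = ({a}, some (some i))) :
    theta z F = fld a (av z (tz a i)) := by
  ext b
  by_cases hb : b = a
  · subst hb; simp [theta, h, fld, av, tz, pt, centre]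
  · simp [theta, h, fld, hb]

end SdAAux

open SdAAux in
theorem sSdA (z : Fin 11 → ℂ) (hA : SAt z) (hI : SInv z) (h1 : SCar1) (h2 : SCar2 z)
    (hF : SFil z) (hO : SFou z) (hL : SList) : SSdA z where
  ok := ok_g
  G_FOU α β := hO.monoI _ (hA.al_OU _ (ok_g α β))
  G_closed α β := by
    have e : I4ᶜ = {4} := by decide
    rw [GG, h2.nab_mono, e, Finset.sum_singleton, pd4 hA, eta4 hA]
    ext J; simp [mono]
  G_E α β := fil_G hA hF α β dE (tabE α β)
  G_iotaE α β := by
    rw [GG, h1.iota_mono]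
    refine Finset.sum_eq_zero fun a ha => ?_
    have : a ∉ dE.1.1 := by revert a; decide
    ext J; simp [mono, theta, this]
  G_good α β F c1 c2 c3 c4 c5 c6 := by
    have t1 := row_all F.1
    have c0 : ¬ (pts F.1).card < 2 := not_lt.2 F.2
    have c2' : F.1 ≠ dE.1 := fun h => c2 (Subtype.ext h)
    simp only [row, (hA.compB_iff F dE).2 c1, c0, c2', c3, c4, Bool.not_true, decide_false, ne_eq,
      not_true_eq_false, Bool.false_or, List.all_eq_true] at t1
    have t2 := t1 α (List.mem_finRange α)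
    simp only [c5, decide_false, Bool.false_or, List.all_eq_true] at t2
    have t3 := t2 β (List.mem_finRange β)
    simp only [c6, decide_false, Bool.false_or, decide_eq_true_eq] at t3
    exact fil_G hA hF α β F ((oG_eq α β F.1).symm ▸ t3)
  G_spA α α' β c1 c2 c3 := fil_G hA hF α β _ ((tabA α α' β c1).2 c2 c3)
  G_spA0 α α' β c1 := fil_G hA hF α β _ (tabA α α' β c1).1
  G_spB α β β' c1 c2 c3 := fil_G hA hF α β _ ((tabB α β β' c1).2 c2 c3)
  G_spB0 α β β' c1 := fil_G hA hF α β _ (tabB α β β' c1).1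
  nonresA α k := by
    have : ∀ α, a3 (xA α) % 3 ≠ 0 := by decide
    have := this α
    omega
  nonresB β k := by
    have : ∀ β, a3 (yB β) % 3 ≠ 0 := by decide
    have := this β
    omega
  compA := by decide
  compB := by decide
  thA_OU α a := fld_OU (hA.av_OU _) a
  thB_OU β a := fld_OU (hA.av_OU _) a
  invA := invA hA hI hL
  invB := invB hA hI hL
  brAB α β := by
    have t1 : ∀ α β, dA (va α) (uB β) = 0 ∧ dA (vb β) (uA α) = 0 := by decide
    ext c
    rw [br, thA, thB, act_fld, act_fld]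
    have e1 : pd (va α) (fld (vb β) (av z (uB β)) c) = 0 := by
      by_cases hc : c = vb β
      · subst hc; simp [fld, hA.pd_av, (t1 α β).1]
      · simp [fld, hc, pd_zero]
    have e2 : pd (vb β) (fld (va α) (av z (uA α)) c) = 0 := by
      by_cases hc : c = va α
      · subst hc; simp [fld, hA.pd_av, (t1 α β).2]
      · simp [fld, hc, pd_zero]
    rw [e1, e2]; simp
  killA α F y c1 c2 c3 := by
    rw [sA_apply, map_smul]
    by_cases h : α = 1
    · subst h
      have e : theta z F = thA z 1 + theta z dE := by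
        ext b
        have c2' : F.1 = ({0, 4}, some none) := c2
        fin_cases b <;> simp [theta, c2', thA, uA, fld, va, av, pt, centre, dE]
      rw [e, h1.iota_add_left, h1.iota_self, h1.iota_anti, c3]
      simp
    · rw [xA, if_neg c1, if_neg h] at c2
      rw [theta_single c2, thA, uA, if_neg h, h1.iota_self, smul_zero]
  killB β F y c1 c2 := by
    rw [yB, if_neg c1] at c2
    rw [sB_apply, map_smul, theta_single c2, thB, uB, h1.iota_self, smul_zero]
  effA := effA hA hI hF hL
  effB := effB hA hI hF hL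
  effAB α β F k y c1 c2 c3 c4 c5 hy := by
    by_cases h3 : F.1 = yB 0
    · have h4 : F.1 ≠ xA 0 := by rw [h3]; decide
      have := hF.iota (invA hA hI hL α F c1 c3 c5 h4) (effB hA hI hF hL β F k y c2 c4 c5 hy)
      rw [sA_apply, map_smul, h1.iota_anti]
      exact hF.csmul _ (hF.neg this)
    · refine effA hA hI hF hL α F k _ c1 c3 c5 ?_
      rw [sB_apply]
      exact hF.csmul _ (hF.iota (invB hA hI hL β F c2 c4 c5 h3) hy)

end Pool.Agent.MP_cb8d3a_ag.H90
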