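import Pool.Agent.MP_cb8d3a_ag.H90.Spec

/-! Leading-term cancellation for the seeds along the special divisors. -/

noncomputable section

open scoped BigOperators

namespace Pool.Agent.MP_cb8d3a_ag.H90

namespace SdBAux

variable {z : Fin 11 → ℂ}

/-- Three times the weights `w4`. -/
def w3 (h : Hyp) : ℤ :=
  if inv4 h then 0 else
    match h with
    | Sum.inl _ => -1
    | Sum.inr _ => 2

theorem w3_eq (h : Hyp) : ((w3 h : ℤ) : K) = 3 * (w4 h : K) := by
  unfold w3 w4
  split_ifs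
  · simp
  · cases h <;> simp only [expo] <;> push_cast <;> norm_num

/-- The total weight of the hyperplanes with a given leading atom. -/
def etaT (F : Clus) (x : At) : ℤ :=
  ∑ h : Hyp, if inA F (toAt h) = x ∨ inA F (toAt h) = x.swap then w3 h else 0

theorem atom (v : Fin 5) (x : At) (n : ℤ) :
    (n : K) * ((dA v x : K) / av z x) = ∑ P : Pt,
      ((if x = (Sum.inl v, P) ∨ x = Prod.swap (Sum.inl v, P) then n else 0 : ℤ) : K) /
        av z (Sum.inl v, P) := by
  obtain ⟨p, q⟩ := x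
  simp only [Prod.swap_prod_mk, Prod.mk.injEq, dA]
  by_cases hp : p = Sum.inl v <;> by_cases hq : q = Sum.inl v
  · subst hp hq
    rw [Finset.sum_eq_single (Sum.inl v)]
    · simp [av]
    · intro P _ hP
      simp [Ne.symm hP]
    · simp
  · subst hp
    rw [Finset.sum_eq_single q]
    · simp [hq, div_eq_mul_inv]
    · intro P _ hP
      simp [Ne.symm hP, hq]
    · simp
  · subst hq
    rw [Finset.sum_eq_single p]
    · have : av z (p, Sum.inl v) = -av z (Sum.inl v, p) := by simp [av]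
      simp [hp, this, div_eq_mul_inv]
    · intro P _ hP
      simp [Ne.symm hP, hp]
    · simp
  · simp [hp, hq]

theorem list_sum (v : Fin 5) (l : List (At × ℤ)) :
    (l.map fun p => (p.2 : K) * ((dA v p.1 : K) / av z p.1)).sum =
      ∑ P : Pt, (expL l (Sum.inl v, P) : K) / av z (Sum.inl v, P) := by
  induction l with
  | nil => simp [expL]
  | cons a l ih =>
    rw [List.map_cons, List.sum_cons, ih, atom, ← Finset.sum_add_distrib]
    refine Finset.sum_congr rfl fun P _ => ?_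
    simp only [expL, List.map_cons, List.sum_cons, Int.cast_add, add_div]

theorem shape (hA : SAt z) (h1 : SCar1) (h2 : SCar2 z) (v : Fin 5) (hv : v ≠ 4) (x : At)
    (hx : dA 4 x = 0) (g : K) (hg : nab z w4 (mono I4 g) = 0) :
    nab z w4 (((-3 : ℂ) • iota (fld v (av z x))) (mono I4 g)) =
      mono I4 (-3 * ((dA v x : K) * g + dw z w4 (fld v (av z x)) g)) := by
  have e0 : pd 4 g + etaW z w4 4 * g = 0 := by
    have := congrFun hg Finset.univ
    rw [h2.nab_mono, show I4ᶜ = {4} by decide, Finset.sum_singleton,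
      show insert 4 I4 = Finset.univ by decide] at this
    simpa [mono, sgn] using this
  have e1 : v ∈ I4 := by revert v; decide
  have e2 : (I4.erase v)ᶜ = {v, 4} := by revert v; decide
  have e3 : sgn v (I4.erase v) * sgn v I4 = 1 := by
    rw [sgn, sgn, show (I4.erase v).filter (· < v) = I4.filter (· < v) by revert v; decide,
      ← mul_pow]
    simp
  have e4 : ∀ a, pd a (sgn v I4) = 0 := fun a => by
    simpa [sgn] using pd_algebraMap a ((-1) ^ (I4.filter (· < v)).card)
  have e5 : ev1 (etaW z w4) (fld v (av z x)) = etaW z w4 v * av z x := by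
    rw [ev1, Finset.sum_eq_single v] <;> simp +contextual [fld]
  rw [LinearMap.smul_apply, map_smul, h1.iota_mono, Finset.sum_eq_single v, h2.nab_mono, e2,
    Finset.sum_pair hv, Finset.insert_erase e1, dw_apply, act_fld, e5]
  · simp only [fld, Pi.single_eq_same, pd_mul, e4, hA.pd_av, hx]
    ext J
    simp only [mono, Pi.smul_apply, Pi.add_apply, Algebra.smul_def, map_neg, map_ofNat]
    have e6 : sgn 4 (I4.erase v) * ((0 * av z x + sgn v I4 * ((0 : ℤ) : K)) * g +
        sgn v I4 * av z x * pd 4 g + etaW z w4 4 * (sgn v I4 * av z x * g)) = 0 := by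
      push_cast
      linear_combination (sgn 4 (I4.erase v) * sgn v I4 * av z x) * e0
    rw [e6, ite_self, add_zero]
    split_ifs
    · linear_combination (-3 * ((dA v x : K) * g + (av z x * pd v g + etaW z w4 v * av z x * g))) * e3
    · simp
  · intro b _ hb
    ext J
    simp [fld, hb, mono]
  · exact fun h => absurd e1 h

theorem core (hA : SAt z) (hI : SInv z) (F : Div) (v : Fin 5) (x : At)
    (l0 l r cl : List (At × ℤ)) (k : ℤ) (hX : Inv z F (fld v (av z x))) (ok0 : okL l0 = true)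
    (ok : okL l = true) (okr : okL (inL F.1 l ++ r) = true) (e0 : vl F.1 l0 = k)
    (e : vl F.1 l = k) (heq : eqL (inL F.1 l0) (inL F.1 l ++ r) = true)
    (hc : ∀ P, 3 * expL (inL F.1 l) (Sum.inl v, P) + etaT F.1 (Sum.inl v, P) =
      expL cl (Sum.inl v, P))
    (hs : al z r + (1 + 3 * (dA v x : K) +
      av z x * (cl.map fun p => (p.2 : K) * ((dA v p.1 : K) / av z p.1)).sum) = 0) :
    V z F (k + 1) (al z l0 + al z l -
      -3 * ((dA v x : K) * al z l + dw z w4 (fld v (av z x)) (al z l))) := by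
  have v0 := e0 ▸ hA.V_al F l0 ok0
  have v1 := e ▸ hA.V_al F l ok
  have c0 := e0 ▸ hA.co_al F l0 ok0
  have c1 := e ▸ hA.co_al F l ok
  have m0 : ∀ {a c : K}, V z F 0 a → V z F k c →
      V z F k (a * c) ∧ co z F k (a * c) = co z F 0 a * co z F k c := fun ha hc => by
    simpa only [zero_add] using And.intro (ha.mul hc) (co_mul ha hc)
  have v2 := m0 (V_intCast (dA v x)) v1
  have v3 := hI.V_dw F _ w4 k _ hX v1
  have v4 := m0 (V_intCast (-3)) (v2.1.add v3)
  have v5 := m0 (hI.V_eta F _ w4 hX) v1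
  have a1 : ∀ y : At, act (fld v (av z x)) (av z y) / av z y =
      av z x * ((dA v y : K) / av z y) := fun y => by
    rw [act_fld, hA.pd_av, mul_div_assoc]
  have a2 : 3 * co z F 0 (ev1 (etaW z w4) (fld v (av z x))) =
      av z x * ∑ P : Pt, (etaT F.1 (Sum.inl v, P) : K) / av z (Sum.inl v, P) := by
    simp only [etaT, Int.cast_sum, Finset.sum_div]
    rw [Finset.sum_comm, hI.ev1_eta, map_sum, Finset.mul_sum, Finset.mul_sum]
    refine Finset.sum_congr rfl fun h _ => ?_
    have b1 := co_mul (V_ratCast (z := z) (F := F) (w4 h)) (hI.V_dlog F _ (hyp z h) hX)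
    have b2 := hA.co_av F _ (hA.toAt_ne h)
    rw [add_zero] at b1
    rw [← atom, b1, co_ratCast, hyp_eq, hI.co_dlog F _ _ _ hX (hA.V_av F _ (hA.toAt_ne h))
      (by rw [b2]; exact hA.av_ne _ (hA.inA_ne F _ (hA.toAt_ne h))), b2, a1, w3_eq]
    ring
  have a3 : act (fld v (av z x)) (al z (inL F.1 l)) = al z (inL F.1 l) *
      (av z x * ∑ P : Pt, (expL (inL F.1 l) (Sum.inl v, P) : K) / av z (Sum.inl v, P)) := by
    rw [hA.act_al _ _ (hA.ok_inL F l ok), ← list_sum, ← List.sum_map_mul_left (r := av z x)]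
    simp only [a1, mul_left_comm (((_ : ℤ) : K)) (av z x)]
  have a4 : ∑ P : Pt, (expL cl (Sum.inl v, P) : K) / av z (Sum.inl v, P) =
      3 * ∑ P : Pt, (expL (inL F.1 l) (Sum.inl v, P) : K) / av z (Sum.inl v, P) +
        ∑ P : Pt, (etaT F.1 (Sum.inl v, P) : K) / av z (Sum.inl v, P) := by
    rw [Finset.mul_sum, ← Finset.sum_add_distrib]
    refine Finset.sum_congr rfl fun P _ => ?_
    rw [← hc]
    push_cast
    ring
  push_cast at v4
  refine ((v0.add v1).sub v4.1).succ ?_
  rw [map_sub, map_add, v4.2, map_add, v2.2, dw_apply, map_add, v5.2, hX, c0, c1, a3,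
    hA.al_eq _ _ (hA.ok_inL F l0 ok0) okr heq, hA.al_append, co_intCast,
    show co z F 0 (-3) = -3 by simpa using co_intCast (z := z) (F := F) (-3)]
  rw [list_sum, a4] at hs
  linear_combination al z (inL F.1 l) * hs + al z (inL F.1 l) * a2

/-- The ratio of the two leading monomials. -/
def rA (α : Fin 7) : List (At × ℤ) :=
  if α = 1 then [(tz 1 0, 1), (tt 1 0, -1)]
  else [(tz (va α) (za α), 1), (tt (va α) (pa α), -1)]

/-- The surviving poles. -/
def clA (α : Fin 7) : List (At × ℤ) :=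
  [(tz (va α) (za α), if α = 1 then -1 else -4), (tt (va α) (pa α), -1)]

/-- The ratio of the two leading monomials. -/
def rB (β : Fin 7) : List (At × ℤ) := [(tz (vb β) (zb β), 1), (tt (vb β) (qb β), -1)]

/-- The surviving poles. -/
def clB (β : Fin 7) : List (At × ℤ) := [(tz (vb β) (zb β), -4), (tt (vb β) (qb β), -1)]

theorem fin_id (hA : SAt z) (v p : Fin 5) (i : Fin 11) (h : v ≠ p) :
    al z [(tz v i, 1), (tt v p, -1)] + (1 + 3 * (dA v (tz v i) : K) + av z (tz v i) *
      (([(tz v i, -4), (tt v p, -1)] : List (At × ℤ)).map fun p =>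
        (p.2 : K) * ((dA v p.1 : K) / av z p.1)).sum) = 0 := by
  have e1 : av z (tz v i) ≠ 0 := hA.av_ne _ (by simp [tz])
  have e2 : dA v (tz v i) = 1 := by simp [dA, tz]
  have e3 : dA v (tt v p) = 1 := by simp [dA, tt, h.symm]
  simp only [al, List.map_cons, List.map_nil, List.prod_cons, List.prod_nil, List.sum_cons,
    List.sum_nil, e2, e3, zpow_one, zpow_neg_one]
  push_cast
  field_simp
  ring

theorem inf_id (hA : SAt z) :
    al z [(tz 1 0, 1), (tt 1 0, -1)] + (1 + 3 * (dA 0 (Sum.inr 0, Sum.inl 0) : K) +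
      av z (Sum.inr 0, Sum.inl 0) *
      (([(tz 0 0, -1), (tt 0 1, -1)] : List (At × ℤ)).map fun p =>
        (p.2 : K) * ((dA 0 p.1 : K) / av z p.1)).sum) = 0 := by
  have e1 : av z (tz 0 0) ≠ 0 := hA.av_ne _ (by decide)
  have e2 : av z (tt 0 1) ≠ 0 := hA.av_ne _ (by decide)
  have e3 : av z (tt 1 0) = -av z (tt 0 1) := by simp [av, tt]
  have e4 : av z (tz 1 0) = av z (tz 0 0) - av z (tt 0 1) := by simp [av, tt, tz]
  have e5 : av z (Sum.inr 0, Sum.inl 0) = -av z (tz 0 0) := by simp [av, tz]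
  simp only [al, List.map_cons, List.map_nil, List.prod_cons, List.prod_nil, List.sum_cons,
    List.sum_nil, zpow_one, zpow_neg_one, e3, e4, e5, show dA 0 (tz 0 0) = 1 by decide,
    show dA 0 (tt 0 1) = 1 by decide, show dA 0 (Sum.inr 0, Sum.inl 0) = -1 by decide]
  push_cast
  field_simp
  ring

/-- The matching data for the special divisors of the first kind. -/
abbrev PA (α β : Fin 7) : Prop := okL (inL (cA α) (gL α β) ++ rA α) = true ∧
    vl (cA α) (gL 0 β) = -2 ∧ vl (cA α) (gL α β) = -2 ∧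
    eqL (inL (cA α) (gL 0 β)) (inL (cA α) (gL α β) ++ rA α) = true

/-- The matching data for the special divisors of the second kind. -/
abbrev PB (α β : Fin 7) : Prop := okL (inL (cB β) (gL α β) ++ rB β) = true ∧
    vl (cB β) (gL α 0) = -2 ∧ vl (cB β) (gL α β) = -2 ∧
    eqL (inL (cB β) (gL α 0)) (inL (cB β) (gL α β) ++ rB β) = true

theorem tabA1 : ∀ β, PA 1 β := by decide +kernel
theorem tabA2 : ∀ β, PA 2 β := by decide +kernel
theorem tabA3 : ∀ β, PA 3 β := by decide +kernel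
theorem tabA4 : ∀ β, PA 4 β := by decide +kernel
theorem tabA5 : ∀ β, PA 5 β := by decide +kernel
theorem tabA6 : ∀ β, PA 6 β := by decide +kernel

theorem tabA : ∀ α β : Fin 7, α ≠ 0 → PA α β
  | 0, _, h => absurd rfl h
  | 1, β, _ => tabA1 β
  | 2, β, _ => tabA2 β
  | 3, β, _ => tabA3 β
  | 4, β, _ => tabA4 β
  | 5, β, _ => tabA5 β
  | 6, β, _ => tabA6 β

theorem tabB1 : ∀ α, PB α 1 := by decide +kernel
theorem tabB2 : ∀ α, PB α 2 := by decide +kernel
theorem tabB3 : ∀ α, PB α 3 := by decide +kernel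
theorem tabB4 : ∀ α, PB α 4 := by decide +kernel
theorem tabB5 : ∀ α, PB α 5 := by decide +kernel
theorem tabB6 : ∀ α, PB α 6 := by decide +kernel

theorem tabB : ∀ α β : Fin 7, β ≠ 0 → PB α β
  | _, 0, h => absurd rfl h
  | α, 1, _ => tabB1 α
  | α, 2, _ => tabB2 α
  | α, 3, _ => tabB3 α
  | α, 4, _ => tabB4 α
  | α, 5, _ => tabB5 α
  | α, 6, _ => tabB6 α

theorem etaA : ∀ α : Fin 7, α ≠ 0 → ∀ P : Pt,
    3 * expL (inL (cA α) (gL α 0)) (Sum.inl (va α), P) + etaT (cA α) (Sum.inl (va α), P) =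
      expL (clA α) (Sum.inl (va α), P) := by decide +kernel

theorem etaB : ∀ β : Fin 7, β ≠ 0 → ∀ P : Pt,
    3 * expL (inL (cB β) (gL 0 β)) (Sum.inl (vb β), P) + etaT (cB β) (Sum.inl (vb β), P) =
      expL (clB β) (Sum.inl (vb β), P) := by decide +kernel

theorem expA : ∀ α β : Fin 7, α ≠ 0 → ∀ P : Pt,
    expL (inL (cA α) (gL α β)) (Sum.inl (va α), P) =
      expL (inL (cA α) (gL α 0)) (Sum.inl (va α), P) := by decide +kernel

theorem expB : ∀ α β : Fin 7, β ≠ 0 → ∀ P : Pt,
    expL (inL (cB β) (gL α β)) (Sum.inl (vb β), P) =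
      expL (inL (cB β) (gL 0 β)) (Sum.inl (vb β), P) := by decide +kernel

theorem miscA : ∀ α : Fin 7, α ≠ 0 → va α ≠ 4 ∧ dA 4 (uA α) = 0 ∧ cA α ≠ xA 0 ∧ va α ≠ pa α ∧
    latD (cA α) - x4 (cA α) = -2 + 1 + oVol (cA α) I4 := by decide +kernel

theorem miscB : ∀ β : Fin 7, β ≠ 0 → vb β ≠ 4 ∧ dA 4 (uB β) = 0 ∧ cB β ≠ yB 0 ∧ vb β ≠ qb β ∧
    latD (cB β) - x4 (cB β) = -2 + 1 + oVol (cB β) I4 := by decide +kernel

theorem mono_comb (a b c : K) : mono I4 a + mono I4 b - mono I4 c = mono I4 (a + b - c) := by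
  ext J
  simp only [mono, Pi.add_apply, Pi.sub_apply]
  split_ifs <;> simp

end SdBAux

open SdBAux in
theorem sSdB (z : Fin 11 → ℂ) (hA : SAt z) (hI : SInv z) (h1 : SCar1) (h2 : SCar2 z)
    (hF : SFil z) (hS : SSdA z) : SSdB z where
  matchA α β h := by
    obtain ⟨m1, m2, m3, m4, m5⟩ := miscA α h
    obtain ⟨t1, t2, t3, t4⟩ := tabA α β h
    unfold sA thA GG
    rw [shape hA h1 h2 _ m1 _ m2 _ (hS.G_closed α β), mono_comb]
    change Fil z _ (latD (cA α) - x4 (cA α)) _
    rw [m5]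
    refine hF.monoI (F := Fa α) I4 (core hA hI (Fa α) _ _ _ _ (rA α) (clA α) _
      (hS.invA α _ h (Compat.refl _) (hS.compA α h) m3) (hS.ok 0 β) (hS.ok α β) t1 t2 t3 t4
      (fun P => (expA α β h P).symm ▸ etaA α h P) ?_)
    by_cases e : α = 1
    · subst e
      exact inf_id hA
    · simp only [rA, clA, uA, if_neg e]
      exact fin_id hA _ _ _ m4
  matchB α β h := by
    obtain ⟨m1, m2, m3, m4, m5⟩ := miscB β h
    obtain ⟨t1, t2, t3, t4⟩ := tabB α β h
    unfold sB thB GG
    rw [shape hA h1 h2 _ m1 _ m2 _ (hS.G_closed α β), mono_comb]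
    change Fil z _ (latD (cB β) - x4 (cB β)) _
    rw [m5]
    exact hF.monoI (F := Fb β) I4 (core hA hI (Fb β) _ _ _ _ (rB β) (clB β) _
      (hS.invB β _ h (Compat.refl _) (hS.compB β h) m3) (hS.ok α 0) (hS.ok α β) t1 t2 t3 t4
      (fun P => (expB α β h P).symm ▸ etaB β h P) (fin_id hA _ _ _ m4))

end Pool.Agent.MP_cb8d3a_ag.H90
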