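import Pool.Agent.MP_cb8d3a_ag.H90.Spec

/-! Orders of the test form against the seeds. -/

noncomputable section

open scoped BigOperators

namespace Pool.Agent.MP_cb8d3a_ag.H90

namespace SdCAux

theorem ok_g : ∀ α β, okL (gL α β) = true := by decide +kernel

theorem ok_om (π : Equiv.Perm (Fin 5)) : okL (omL π) = true := by
  have h1 : ∀ (a : Fin 5) (i : Fin 11), ((Sum.inl a : Pt) != Sum.inr i) = true := fun _ _ => rfl
  have h2 : ∀ a b : Fin 5, a ≠ b → ((Sum.inl a : Pt) != Sum.inl b) = true := by decide
  simp [okL, omL, tt, tz, h1, h2]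

theorem om_one : ∀ F : Clus, oOm F ≤ vl F (omL 1) + oVol F Finset.univ := by decide +kernel

theorem om_vl (F : Clus) (π : Equiv.Perm (Fin 5)) :
    oOm F ≤ vl F (omL π) + oVol F Finset.univ := by
  obtain ⟨A, o⟩ := F
  have h := om_one (A.map π.symm.toEmbedding, o)
  have e1 : oOm (A.map π.symm.toEmbedding, o) = oOm (A, o) := by
    simp only [oOm, Finset.card_map]
  have e2 : oVol (A.map π.symm.toEmbedding, o) Finset.univ = oVol (A, o) Finset.univ := by
    simp only [oVol, Finset.inter_univ, Finset.card_map]
  have e3 : vl (A.map π.symm.toEmbedding, o) (omL 1) = vl (A, o) (omL π) := by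
    have m1 : ∀ i, memC (A.map π.symm.toEmbedding, o) (Sum.inl i) =
        memC (A, o) (Sum.inl (π i)) := fun i => decide_eq_decide.2 (by simp)
    have m2 : ∀ i, memC (A.map π.symm.toEmbedding, o) (Sum.inr i) =
        memC (A, o) (Sum.inr i) := fun i => rfl
    simp only [vl, omL, vA, tt, tz, List.map_cons, List.map_nil, Equiv.Perm.one_apply, m1, m2]
  rwa [e1, e2, e3] at h

/-- The cases in which the bound is claimed. -/
def cond (F : Clus) (α β : Fin 7) : Bool :=
  if 2 ≤ α then pa α ∈ F.1 && F.2 ≠ none
  else if β ≠ 0 then qb β ∈ F.1 && F.2 ≠ none else !homB F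

theorem vl_g (α β : Fin 7) (c : Clus) :
    vl c (gL α β) + oVol c I4 =
      vl c mL + oVol c I4 + vl c (aL α) + vl c (bL β) + vl c (kL α β) := by
  simp only [gL, vl, List.map_append, List.sum_append]
  ring

/-- The check for one cluster. -/
def row (c : Clus) : Bool :=
  decide ((pts c).card < 2) || !compB c dE.1 || (List.finRange 7).all fun α =>
    (List.finRange 7).all fun β => !cond c α β || decide (1 - oOm c - x4 c ≤
      vl c mL + oVol c I4 + vl c (aL α) + vl c (bL β) + vl c (kL α β))

/-- The check for all clusters with a given fixed point. -/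
def tab (o : Option (Option (Fin 11))) : Bool := allSub.all fun A => row (A, o)

theorem tab_n : tab none = true := by decide +kernel
theorem tab_i : tab (some none) = true := by decide +kernel
theorem tab_0 : tab (some (some 0)) = true := by decide +kernel
theorem tab_1 : tab (some (some 1)) = true := by decide +kernel
theorem tab_2 : tab (some (some 2)) = true := by decide +kernel
theorem tab_3 : tab (some (some 3)) = true := by decide +kernel
theorem tab_4 : tab (some (some 4)) = true := by decide +kernel
theorem tab_5 : tab (some (some 5)) = true := by decide +kernel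
theorem tab_6 : tab (some (some 6)) = true := by decide +kernel
theorem tab_7 : tab (some (some 7)) = true := by decide +kernel
theorem tab_8 : tab (some (some 8)) = true := by decide +kernel
theorem tab_9 : tab (some (some 9)) = true := by decide +kernel
theorem tab_10 : tab (some (some 10)) = true := by decide +kernel

theorem tab_all : ∀ o, tab o = true
  | none => tab_n
  | some none => tab_i
  | some (some 0) => tab_0
  | some (some 1) => tab_1
  | some (some 2) => tab_2
  | some (some 3) => tab_3
  | some (some 4) => tab_4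
  | some (some 5) => tab_5
  | some (some 6) => tab_6
  | some (some 7) => tab_7
  | some (some 8) => tab_8
  | some (some 9) => tab_9
  | some (some 10) => tab_10

theorem mem_sub : ∀ A, A ∈ allSub := by decide +kernel

theorem row_all (c : Clus) : row c = true :=
  List.all_eq_true.1 (tab_all c.2) c.1 (mem_sub c.1)

theorem key {z : Fin 11 → ℂ} (hA : SAt z) (hF : SFil z) (α β : Fin 7) (F : Div)
    (h : Compat F dE) (hc : cond F.1 α β = true) :
    Fil z F (1 - oOm F.1 - x4 F.1) (GG z α β) := by
  have h1 := row_all F.1
  have c0 : ¬ (pts F.1).card < 2 := not_lt.2 F.2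
  rw [row, (hA.compB_iff F dE).2 h, decide_eq_false c0, Bool.not_true, Bool.false_or,
    Bool.false_or] at h1
  have h2 := List.all_eq_true.1 (List.all_eq_true.1 h1 α (List.mem_finRange α)) β
    (List.mem_finRange β)
  rw [hc, Bool.not_true, Bool.false_or, ← vl_g] at h2
  exact hF.le (hF.monoI I4 (hA.V_al F _ (ok_g α β))) (of_decide_eq_true h2)

end SdCAux

open SdCAux in
theorem sSdC (z : Fin 11 → ℂ) (hA : SAt z) (hF : SFil z) (_hL : SList) : SSdC z where
  ok_om := ok_om
  c0_OU := Subalgebra.sum_mem _ fun π _ => hA.al_OU _ (ok_om π)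
  om_vl F π := om_vl F.1 π
  om_Fil F := by
    have h : V z F (oOm F.1 - oVol F.1 Finset.univ) (c0 z) :=
      V_sum _ _ fun π _ => (hA.V_al F _ (ok_om π)).mono (by
        have := om_vl F.1 π
        omega)
    simpa using hF.monoI Finset.univ h
  k2a α β F h1 h2 h3 h4 := key hA hF α β F h2 (by simp [SdCAux.cond, h1, h3, h4])
  k2b α β F h1 h2 h3 h4 h5 := key hA hF α β F h3 (by
    have : ¬ 2 ≤ α := by omega
    simp [SdCAux.cond, this, h2, h4, h5])
  k3 α F h1 h2 h3 := key hA hF α 0 F h2 (by
    have : ¬ 2 ≤ α := by omega
    simp [SdCAux.cond, this, h3])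

end Pool.Agent.MP_cb8d3a_ag.H90
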