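import Pool.Agent.MP_cb8d3a_ag.H90.Glue
import Pool.Agent.MP_cb8d3a_ag.H90.At
import Pool.Agent.MP_cb8d3a_ag.H90.Inv
import Pool.Agent.MP_cb8d3a_ag.H90.K1
import Pool.Agent.MP_cb8d3a_ag.H90.Car1
import Pool.Agent.MP_cb8d3a_ag.H90.Car2
import Pool.Agent.MP_cb8d3a_ag.H90.Fil
import Pool.Agent.MP_cb8d3a_ag.H90.Fou
import Pool.Agent.MP_cb8d3a_ag.H90.Bri
import Pool.Agent.MP_cb8d3a_ag.H90.Comb
import Pool.Agent.MP_cb8d3a_ag.H90.Res
import Pool.Agent.MP_cb8d3a_ag.H90.Rop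
import Pool.Agent.MP_cb8d3a_ag.H90.Lst
import Pool.Agent.MP_cb8d3a_ag.H90.Pair
import Pool.Agent.MP_cb8d3a_ag.H90.Blk
import Pool.Agent.MP_cb8d3a_ag.H90.SdA0
import Pool.Agent.MP_cb8d3a_ag.H90.SdB
import Pool.Agent.MP_cb8d3a_ag.H90.SdC
import Pool.Agent.MP_cb8d3a_ag.H90.Rel
import Pool.Agent.MP_cb8d3a_ag.H90.Good
import Pool.Agent.MP_cb8d3a_ag.H90.Red
import Pool.Agent.MP_cb8d3a_ag.H90.Ev1
import Pool.Agent.MP_cb8d3a_ag.H90.Ev2
import Pool.Agent.MP_cb8d3a_ag.H90.Ev3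
import Pool.Agent.MP_cb8d3a_ag.H90.Ev4

/-! The assembled theorem. -/

namespace Pool.Agent.MP_cb8d3a_ag.H90

theorem main (z : Fin 11 → ℂ) (hz : Function.Injective z) :
    ∃ ψ, Block z 3 ψ ∧ ∀ ψ', Block z 1 ψ' → ¬ InHodge z 4 (svForm z (ψ - ψ')) := by
  have hA := sAt z hz
  have hI := sInv z hA
  have hK := sK1 z hA hI
  have h1 := sCar1
  have h2 := sCar2 z h1 hI
  have hF := sFil z hA hI h1 h2
  have hO := sFou z hA hK
  have hB := sBri z hz hA hK h1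
  have hC := sComb
  have hR := sRes z hA hI hK h1 h2 hO hB hC
  have hH := sHom z hA hI h1 h2 hF
  have hQ := sR z hA hI h1 h2 hF hH
  have hL := sList
  have hS := sSdA z hA hI h1 h2 hF hO hL
  have hM := sSdB z hA hI h1 h2 hF hS
  have hT := sSdC z hA hF hL
  have hG := sGood z hI h1 h2 hF hO hH hQ hL hS hM
  have e1 := sE1 z hA
  have e2 := sE2 z hA hI h1
  have e3 := sE3 z hA hI h1 h2 hS e1
  have e4 := sE4 hL hA.compB_iff
  exact main_of hF hR hL (sPair z h1 h2 hF hO hR hL) (sBlk z hz hA)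
    (sRel z hI h1 h2 hF hO hH hQ hL hS hM hG) hG
    (sRed z hI h1 hF hO hC hR hH hQ hL hS hT hG)
    (sEv_of hA hI hK h1 hF hO hR hH hQ hL hS hM hT e1 e2 e3 e4)

end Pool.Agent.MP_cb8d3a_ag.H90
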