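import Pool.Agent.MP_cb8d3a_ag.H90.Val0

/-! The zero class lies in every step of the filtration. -/

noncomputable section

namespace Pool.Agent.MP_cb8d3a_ag.H90

theorem regForm_zero (z : Fin 11 → ℂ) (p : ℕ) : RegForm z p 0 :=
  ⟨fun _ => (OU z).zero_mem, fun _ _ => rfl⟩

theorem nabla_zero (z : Fin 11 → ℂ) : nabla z 0 = 0 := by
  rw [nabla_eq, map_zero]

theorem inHodge_zero (z : Fin 11 → ℂ) (p : ℕ) : InHodge z p 0 :=
  ⟨⟨fun _ _ => 0, fun _ _ _ => rfl, fun _ _ => regForm_zero z _, fun _ _ _ _ => zero_mem _,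
    fun _ => nabla_zero z, fun _ _ => by simp [nabla_zero]⟩, 0, regForm_zero z 4,
    by simp [nabla_zero]⟩

theorem svForm_zero (z : Fin 11 → ℂ) : svForm z 0 = 0 := by
  ext J; simp [svForm, mono]

theorem lower_zero (c : Fin 11 → ℂ) : lower c 0 = 0 := by
  ext J; simp [lower]

theorem block_zero (z : Fin 11 → ℂ) (m : ℕ) : Block z m 0 :=
  ⟨⟨fun _ _ => rfl, lower_zero _⟩, Function.iterate_fixed (lower_zero z) _⟩

end Pool.Agent.MP_cb8d3a_ag.H90
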