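import Pool.Agent.MP_cb8d3a_ag.H90.Stmt
import Pool.Agent.MP_cb8d3a_ag.H90.Main
import Pool.Agent.MP_cb8d3a_ag.H90.Zero

/-! The definitions of `Stmt` agree with those used in the proof. -/

noncomputable section

namespace Pool.Agent.MP_cb8d3a_ag.Br

theorem e_ofPoly : St.ofPoly = H90.ofPoly := rfl
theorem e_numer : St.numer = H90.numer := rfl
theorem e_denom : St.denom = H90.denom := rfl

def opS (a b c d e : St.K) : St.K := (a * b - c * d) / e ^ 2
def opH (a b c d e : H90.K) : H90.K := (a * b - c * d) / e ^ 2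
theorem e_op : opS = opH := rfl

theorem e_pd : St.pd = H90.pd := by
  funext a c
  have h1 : St.pd a c = opS (St.ofPoly (MvPolynomial.pderiv a (St.numer c)))
    (St.ofPoly (St.denom c)) (St.ofPoly (St.numer c))
    (St.ofPoly (MvPolynomial.pderiv a (St.denom c))) (St.ofPoly (St.denom c)) := rfl
  have h2 : H90.pd a c = opH (H90.ofPoly (MvPolynomial.pderiv a (H90.numer c)))
    (H90.ofPoly (H90.denom c)) (H90.ofPoly (H90.numer c))
    (H90.ofPoly (MvPolynomial.pderiv a (H90.denom c))) (H90.ofPoly (H90.denom c)) := rfl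
  rw [h1, e_op, e_ofPoly, e_numer, e_denom]
  exact h2.symm

theorem e_hyp : St.hyp = H90.hyp := rfl
theorem e_wedge : St.wedge = H90.wedge := rfl
theorem e_mono : St.mono = H90.mono := rfl

theorem e_extD : St.extD = H90.extD := by
  unfold St.extD H90.extD
  rw [e_pd]
  rfl

theorem e_dlog : St.dlog = H90.dlog := by
  unfold St.dlog H90.dlog
  rw [e_pd]
  rfl

theorem e_eta : St.eta = H90.eta := by
  unfold St.eta H90.eta
  rw [e_dlog, e_hyp]
  rfl

theorem e_nabla : St.nabla = H90.nabla := by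
  unfold St.nabla H90.nabla
  rw [e_extD, e_eta, e_wedge]
  rfl

theorem e_logForm : St.logForm = H90.logForm := by
  unfold St.logForm H90.logForm
  rw [e_dlog, e_hyp, e_wedge, e_mono]
  rfl

theorem e_t : St.t = H90.t := rfl

theorem e_OU (z : Fin 11 → ℂ) (c : St.K) (h : c ∈ St.OU z) : c ∈ H90.OU z := by
  unfold St.OU at h
  induction h using Algebra.adjoin_induction with
  | mem x hx =>
    rw [e_t, e_hyp] at hx
    exact Algebra.subset_adjoin hx
  | algebraMap r => exact (H90.OU z).algebraMap_mem r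
  | add x y _ _ hx hy => exact (H90.OU z).add_mem hx hy
  | mul x y _ _ hx hy => exact (H90.OU z).mul_mem hx hy

theorem e_regForm {z : Fin 11 → ℂ} {p : ℕ} {ω : St.Form} (h : St.RegForm z p ω) :
    H90.RegForm z p ω := ⟨fun I => e_OU z _ (h.1 I), h.2⟩

theorem e_expand : St.expand = H90.expand := rfl
theorem e_res : St.res = H90.res := rfl

theorem e_lattice (z : Fin 11 → ℂ) (F : St.Div) (p : ℕ) (ω : St.Form) :
    ω ∈ St.logLattice z F p ↔ ω ∈ H90.logLattice z F p := by
  unfold St.logLattice H90.logLattice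
  rw [e_logForm, e_res, e_expand]
  rfl

theorem e_svForm : St.svForm = H90.svForm := rfl
theorem e_block : St.Block = H90.Block := rfl

/-- Transport of cocycles. -/
def toH {z : Fin 11 → ℂ} {p : ℕ} (X : St.CechCocycle z p) : H90.CechCocycle z p where
  x := X.x
  vanish := X.vanish
  regular q s := e_regForm (X.regular q s)
  lattice q s F h := (e_lattice z F _ _).1 (X.lattice q s F h)
  closed₀ s := e_nabla ▸ X.closed₀ s
  closed q s := by
    have := X.closed q s
    rw [e_nabla] at this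
    exact this

theorem inHodge_toH {z : Fin 11 → ℂ} {p : ℕ} {ω : St.Form} (h : St.InHodge z p ω) :
    H90.InHodge z p ω := by
  obtain ⟨X, γ, h1, h2⟩ := h
  rw [e_nabla] at h2
  exact ⟨toH X, γ, e_regForm h1, h2⟩

theorem main (z : Fin 11 → ℂ) (hz : Function.Injective z) :
    ∃ ψ : St.Dual, ψ ≠ 0 ∧ St.Block z 3 ψ ∧
      ∀ ψ', St.Block z 1 ψ' → ¬ St.InHodge z 4 (St.svForm z (ψ - ψ')) := by
  obtain ⟨ψ, h1, h2⟩ := H90.main z hz
  rw [e_block, e_svForm]
  refine ⟨ψ, ?_, h1, fun ψ' h3 h4 => h2 ψ' h3 (inHodge_toH h4)⟩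
  rintro rfl
  refine h2 0 (H90.block_zero z 1) ?_
  rw [sub_zero, H90.svForm_zero]
  exact H90.inHodge_zero z 4

end Pool.Agent.MP_cb8d3a_ag.Br
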