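import Pool.Agent.MP_cb8d3a_ag.H90.Base

/-! Proof-level definitions: orders along divisors, vector fields, operators on forms. -/

noncomputable section

open scoped BigOperators

namespace Pool.Agent.MP_cb8d3a_ag.H90

/-! ### Coefficients and orders -/

/-- The coefficient of `u ^ k` in the expansion along `F`. -/
def co (z : Fin 11 → ℂ) (F : Div) (k : ℤ) : K →ₗ[ℂ] K where
  toFun c := (ex z F c).coeff k
  map_add' x y := by simp
  map_smul' r x := by
    rw [Algebra.smul_def, map_mul, ex_algebraMap, HahnSeries.coeff_single_zero_mul,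
      Algebra.smul_def]
    rfl

theorem co_apply (z : Fin 11 → ℂ) (F : Div) (k : ℤ) (c : K) :
    co z F k c = (ex z F c).coeff k := rfl

/-- `c` has order at least `k` along `F`. -/
def V (z : Fin 11 → ℂ) (F : Div) (k : ℤ) (c : K) : Prop := ∀ j < k, co z F j c = 0

/-- The order of a hyperplane equation along `F`. -/
def vH (F : Clus) : Hyp → ℤ
  | Sum.inl p => if p.1 ∈ F.1 then
      (if F.2 = some none then -1 else if F.2 = some (some p.2) then 1 else 0) else 0
  | Sum.inr p => if F.2 = some none then (if p.1.1 ∈ F.1 ∨ p.1.2 ∈ F.1 then -1 else 0)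
      else (if p.1.1 ∈ F.1 ∧ p.1.2 ∈ F.1 then 1 else 0)

/-- The residue of `∑ w_h dlog h` along `F`. -/
def aW (w : Hyp → ℚ) (F : Clus) : ℚ := ∑ h : Hyp, w h * (vH F h : ℚ)

/-- Three times the residue of `η` along `F`. -/
def a3 (F : Clus) : ℤ :=
  match F.2 with
  | none => -(F.1.card * (F.1.card - 1))
  | some none => -(F.1.card * (F.1.card + 2))
  | some (some _) => F.1.card * (2 - F.1.card)

/-- The least order allowed in the lattice for `L`. -/
def latL (F : Clus) : ℤ := -(a3 F / 3)

/-- The least order allowed in the dual lattice. -/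
def latD (F : Clus) : ℤ := a3 F / 3 + 1

/-- A lower bound for the order of `dt_I` along `F`. -/
def oVol (F : Clus) (I : Finset (Fin 5)) : ℤ :=
  match F.2 with
  | none => ((F.1 ∩ I).card - 1 : ℕ)
  | some none => -((F.1 ∩ I).card : ℤ)
  | some (some _) => (F.1 ∩ I).card

instance (F G : Div) : Decidable (Compat F G) := by unfold Compat; infer_instance

/-! ### Vector fields -/

abbrev VF : Type := Fin 5 → K

/-- A vector field as a derivation. -/
def act (X : VF) : Derivation ℂ K K := ∑ a, X a • pdD a

/-- The bracket of vector fields. -/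
def br (X Y : VF) : VF := fun a => act X (Y a) - act Y (X a)

/-- A one-form evaluated on a vector field. -/
def ev1 (α : Fin 5 → K) (X : VF) : K := ∑ a, α a * X a

/-- The field `u ∂_a`. -/
def fld (a : Fin 5) (u : K) : VF := Pi.single a u

/-- The field commutes with taking coefficients along `F`. -/
def Inv (z : Fin 11 → ℂ) (F : Div) (X : VF) : Prop :=
  ∀ (j : ℤ) (c : K), co z F j (act X c) = act X (co z F j c)

/-- The Euler field of `F`. -/
def theta (z : Fin 11 → ℂ) (F : Div) : VF := fun a =>
  if a ∈ F.1.1 then (if F.1.2 = some none then centre z F.1 - t a else t a - centre z F.1) else 0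

/-! ### Operators on forms -/

/-- `∑ w_h dlog h`. -/
def etaW (z : Fin 11 → ℂ) (w : Hyp → ℚ) : Fin 5 → K :=
  fun a => ∑ h : Hyp, (w h : K) * dlog (hyp z h) a

/-- The weights of the dual local system. -/
def wD : Hyp → ℚ := fun h => -expo h

/-- The hyperplane involves `t 4`. -/
def inv4 : Hyp → Bool
  | Sum.inl p => p.1 = 4
  | Sum.inr p => p.1.2 = 4

/-- The weights of the dual local system in the first four variables. -/
def w4 : Hyp → ℚ := fun h => if inv4 h then 0 else -expo h

/-- `α ∧ ·`. -/
def wedgeL (α : Fin 5 → K) : Module.End ℂ Form where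
  toFun := wedge α
  map_add' x y := by
    ext I; simp only [wedge, Pi.add_apply, mul_add, Finset.sum_add_distrib]
  map_smul' r x := by
    ext I; simp only [wedge, Pi.smul_apply, RingHom.id_apply, Finset.smul_sum, mul_smul_comm]

/-- Contraction with a vector field. -/
def iota (X : VF) : Module.End ℂ Form where
  toFun ω := fun J => ∑ a ∈ Jᶜ, sgn a J * X a * ω (insert a J)
  map_add' x y := by
    ext I; simp only [Pi.add_apply, mul_add, Finset.sum_add_distrib]
  map_smul' r x := by
    ext I; simp only [Pi.smul_apply, RingHom.id_apply, Finset.smul_sum, mul_smul_comm]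

/-- The exterior derivative. -/
def extDL : Module.End ℂ Form where
  toFun := extD
  map_add' x y := by
    ext I; simp only [extD, Pi.add_apply, pd_add, mul_add, Finset.sum_add_distrib]
  map_smul' r x := by
    ext I
    simp only [extD, Pi.smul_apply, RingHom.id_apply, Finset.smul_sum]
    refine Finset.sum_congr rfl fun a _ => ?_
    rw [← pdD_apply, ← pdD_apply, Derivation.map_smul, mul_smul_comm]

/-- `d + (∑ w_h dlog h) ∧`. -/
def nab (z : Fin 11 → ℂ) (w : Hyp → ℚ) : Module.End ℂ Form := extDL + wedgeL (etaW z w)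

/-- The twisted Lie derivative. -/
def lie (z : Fin 11 → ℂ) (w : Hyp → ℚ) (X : VF) : Module.End ℂ Form :=
  nab z w * iota X + iota X * nab z w

/-- The twisted derivative of functions. -/
def dw (z : Fin 11 → ℂ) (w : Hyp → ℚ) (X : VF) : Module.End ℂ K :=
  (act X).toLinearMap + LinearMap.mulLeft ℂ (ev1 (etaW z w) X)

/-- Iterated contraction `ι_(X_1) ... ι_(X_k)`. -/
def iotas (l : List VF) : Module.End ℂ Form := (l.map iota).prod

/-- The volume form. -/
def vol : Form := mono Finset.univ 1

/-- The degree one part of a form. -/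
def deg1 (ω : Form) : Fin 5 → K := fun a => ω {a}

/-- All coefficients are regular on `U`. -/
def FOU (z : Fin 11 → ℂ) (ω : Form) : Prop := ∀ I, ω I ∈ OU z

/-- The form has order at least `k` along `F` (log forms have order `0`). -/
def Fil (z : Fin 11 → ℂ) (F : Div) (k : ℤ) (ω : Form) : Prop :=
  ∀ l : List VF, (∀ X ∈ l, Inv z F X) → V z F k (iotas l ω ∅)

/-! ### Residues -/

/-- Iterated constant term. -/
def CT (z : Fin 11 → ℂ) (l : List Div) : Module.End ℂ K := (l.map fun F => co z F 0).prod

/-- The volume form evaluated on the Euler fields. -/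
def Delta (z : Fin 11 → ℂ) (l : List Div) : K := iotas (l.map (theta z)) vol ∅

/-- The residue of `c • vol` at the point where the divisors in `l` meet. -/
def Res (z : Fin 11 → ℂ) (l : List Div) : Module.End ℂ K :=
  CT z l * LinearMap.mulRight ℂ (Delta z l)

/-- Pairwise compatible lists. -/
def CompL (l : List Div) : Prop := ∀ F ∈ l, ∀ G ∈ l, Compat F G

/-- The divisors that can be added to `σ`. -/
def link (σ : Finset Div) : Finset Div :=
  (Finset.univ.filter fun F => ∀ G ∈ σ, Compat F G) \ σ

/-! ### Euler homotopies on the dual side -/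

/-- The eigenvalue of the dual Lie derivative along the Euler field in order `k`. -/
def eig (F : Clus) (k : ℤ) : ℂ := (k : ℂ) - (a3 F : ℂ) / 3

open Polynomial in
/-- The product of `1 - X / eig k` over the non-resonant `k` in `[-N, N]`. -/
def piP (N : ℕ) (F : Clus) : ℂ[X] :=
  ∏ k ∈ (Finset.Icc (-N : ℤ) N).filter (fun k => 3 * k ≠ a3 F), (1 - C (eig F k)⁻¹ * X)

open Polynomial in
/-- `(1 - piP) / X`. -/
def ppP (N : ℕ) (F : Clus) : ℂ[X] := (1 - piP N F).divX

/-- The projector. -/
def piOp (z : Fin 11 → ℂ) (N : ℕ) (F : Div) : Module.End ℂ Form :=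
  Polynomial.aeval (lie z wD (theta z F)) (piP N F.1)

/-- The homotopy. -/
def hOp (z : Fin 11 → ℂ) (N : ℕ) (F : Div) : Module.End ℂ Form :=
  Polynomial.aeval (lie z wD (theta z F)) (ppP N F.1) * iota (theta z F)

/-- The iterated homotopy. -/
def hs (z : Fin 11 → ℂ) (N : ℕ) (l : List Div) : Module.End ℂ Form := (l.map (hOp z N)).prod

/-- The scalar operator attached to `hOp`. -/
def pD (z : Fin 11 → ℂ) (N : ℕ) (F : Div) : Module.End ℂ K :=
  Polynomial.aeval (dw z wD (theta z F)) (ppP N F.1)

/-- `ω` has order at least `k0 ≥ -N` along `F` and no resonance occurs from `k0` on. -/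
def OKF (z : Fin 11 → ℂ) (N : ℕ) (F : Div) (ω : Form) : Prop :=
  ∃ k0 : ℤ, -N ≤ k0 ∧ Fil z F k0 ω ∧ ∀ k, k0 ≤ k → 3 * k ≠ a3 F.1

/-- The two-step truncation of `pD` (for general weights `w`) on functions of order `k`. -/
def p1 (z : Fin 11 → ℂ) (w : Hyp → ℚ) (F : Div) (k : ℤ) : Module.End ℂ K :=
  (eig F.1 k * eig F.1 (k + 1))⁻¹ •
    ((eig F.1 k + eig F.1 (k + 1)) • (1 : Module.End ℂ K) - dw z w (theta z F))

/-! ### Monomials in differences of points -/

/-- Finite marked points. -/
abbrev Pt : Type := Fin 5 ⊕ Fin 11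

/-- The coordinate of a finite marked point. -/
def pt (z : Fin 11 → ℂ) : Pt → K
  | Sum.inl a => t a
  | Sum.inr i => algebraMap ℂ K (z i)

/-- Atoms: ordered pairs of points. -/
abbrev At : Type := Pt × Pt

/-- The difference of the two points. -/
def av (z : Fin 11 → ℂ) (x : At) : K := pt z x.1 - pt z x.2

/-- A hyperplane as an atom. -/
def toAt : Hyp → At
  | Sum.inl p => (Sum.inl p.1, Sum.inr p.2)
  | Sum.inr p => (Sum.inl p.1.1, Sum.inl p.1.2)

/-- The point belongs to the cluster. -/
def memC (F : Clus) : Pt → Bool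
  | Sum.inl a => a ∈ F.1
  | Sum.inr i => F.2 = some (some i)

/-- The centre of a cluster as a point. -/
def ctr (F : Clus) : Pt :=
  match F.2 with
  | some (some i) => Sum.inr i
  | some none => Sum.inr 0
  | none => Sum.inl (lastPt F.1)

/-- The order of an atom `(p, q)`, `p ≠ q`, along `F`. -/
def vA (F : Clus) (x : At) : ℤ :=
  if F.2 = some none then (if memC F x.1 || memC F x.2 then -1 else 0)
  else (if memC F x.1 && memC F x.2 then 1 else 0)

/-- The leading coefficient of an atom along `F`, again an atom. -/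
def inA (F : Clus) (x : At) : At :=
  if memC F x.1 = memC F x.2 then x
  else if F.2 = some none then (if memC F x.1 then (x.1, ctr F) else (ctr F, x.2))
  else (if memC F x.1 then (ctr F, x.2) else (x.1, ctr F))

/-- A product of integer powers of atoms. -/
def al (z : Fin 11 → ℂ) (l : List (At × ℤ)) : K := (l.map fun p => av z p.1 ^ p.2).prod

/-- Its order along `F`. -/
def vl (F : Clus) (l : List (At × ℤ)) : ℤ := (l.map fun p => p.2 * vA F p.1).sum

/-- All atoms are pairs of distinct points. -/
def okL (l : List (At × ℤ)) : Bool := l.all fun p => p.1.1 != p.1.2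

/-- An index of a point. -/
def idxP : Pt → ℕ
  | Sum.inl a => a
  | Sum.inr i => 5 + i

/-- The sign produced by ordering all atoms. -/
def sgnL (l : List (At × ℤ)) : ℤ :=
  (l.map fun p => if idxP p.1.2 < idxP p.1.1 ∧ p.2 % 2 = 1 then (-1 : ℤ) else 1).prod

/-- The total exponent of the unordered pair `x`. -/
def expL (l : List (At × ℤ)) (x : At) : ℤ :=
  (l.map fun p => if p.1 = x ∨ p.1 = x.swap then p.2 else 0).sum

/-- A check that two monomials are equal. -/
def eqL (l m : List (At × ℤ)) : Bool :=
  sgnL l == sgnL m && (l ++ m).all fun p => expL l p.1 == expL m p.1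

/-- A computable form of `Compat`. -/
def compB (F G : Clus) : Bool :=
  (F.1 ⊆ G.1 && (F.2 = none || F.2 = G.2)) || (G.1 ⊆ F.1 && (G.2 = none || G.2 = F.2)) ||
    (F.1 ∩ G.1 = ∅ && (F.2 = none || G.2 = none || F.2 ≠ G.2))

/-- The divisor `t 4 = ∞`. -/
def dE : Div := ⟨({4}, some none), by decide⟩

/-- The divisor where all `t a` go to `∞`. -/
def dT : Div := ⟨(Finset.univ, some none), by decide⟩

end Pool.Agent.MP_cb8d3a_ag.H90
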