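import Pool.Agent.MP_cb8d3a_ag.H90.EvSpec
import Pool.Agent.MP_cb8d3a_ag.H90.SdB

/-! Leading terms of the explicit monomials when all points go to infinity. -/

noncomputable section

open scoped BigOperators

namespace Pool.Agent.MP_cb8d3a_ag.H90

namespace Ev3Aux

open Ev SdBAux

variable {z : Fin 11 → ℂ}

theorem lead (hA : SAt z) (F : Div) {l m : Mon} {k : ℤ}
    (h : okL l = true ∧ okL m = true ∧ vl F.1 l = k ∧ eqL (inL F.1 l) m = true) :
    V z F k (al z l) ∧ co z F k (al z l) = al z m := by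
  obtain ⟨h1, h2, rfl, h4⟩ := h
  exact ⟨hA.V_al F l h1, (hA.co_al F l h1).trans (hA.al_eq _ _ (hA.ok_inL F l h1) h2 h4)⟩

theorem al_neg (hA : SAt z) (m : Mon) : al z (negL ++ m) = -al z m := by
  have e1 : av z (Sum.inl 0, Sum.inr 0) ≠ 0 := hA.av_ne _ (by decide)
  have e2 : av z (Sum.inr 0, Sum.inl 0) = -av z (Sum.inl 0, Sum.inr 0) := by simp [av]
  rw [Ev.al_append, negL, al_cons, al_cons, al_nil, e2, zpow_one, zpow_neg_one]
  field_simp

theorem X4_mul (l : Mon) : X4 z * al z l = al z ((tz 4 0, 1) :: l) := by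
  rw [al_cons, zpow_one]
  rfl

/-! ### The test form -/

abbrev T5 : Type := Fin 5 × Fin 5 × Fin 5 × Fin 5 × Fin 5

def repL : List T5 :=
  [(0, 1, 2, 3, 4), (0, 2, 1, 3, 4), (0, 3, 1, 2, 4), (0, 1, 2, 4, 3), (0, 2, 1, 4, 3),
    (0, 4, 1, 2, 3), (0, 1, 3, 4, 2), (0, 3, 1, 4, 2), (0, 4, 1, 3, 2), (0, 2, 3, 4, 1),
    (0, 3, 2, 4, 1), (0, 4, 2, 3, 1), (1, 2, 3, 4, 0), (1, 3, 2, 4, 0), (1, 4, 2, 3, 0)]

def rep (i : Fin 15) : T5 := repL.getD i (0, 0, 0, 0, 0)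

def omT (x : T5) : ℚ × Mon := omM x.1 x.2.1 x.2.2.1 x.2.2.2.1 x.2.2.2.2

def orb : T5 → List T5
  | (a, b, c, d, e) => [(a, b, c, d, e), (b, a, c, d, e), (a, b, d, c, e), (b, a, d, c, e),
    (c, d, a, b, e), (c, d, b, a, e), (d, c, a, b, e), (d, c, b, a, e)]

def tup (π : Equiv.Perm (Fin 5)) : T5 := (π 0, π 1, π 2, π 3, π 4)

def cl (π : Equiv.Perm (Fin 5)) : Fin 15 :=
  let m : Fin 5 := if π 4 = 0 then 1 else 0
  Fin.ofNat 15 ((repL.map fun x => (x.2.1, x.2.2.2.2)).idxOf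
    (if π 0 = m then π 1 else if π 1 = m then π 0 else if π 2 = m then π 3 else π 2, π 4))

theorem cl_mem : ∀ π, tup π ∈ orb (rep (cl π)) := by decide +kernel

theorem cl_card : ∀ i, (Finset.univ.filter fun π => cl π = i).card = 8 := by decide +kernel

theorem omH_eq : omH = List.ofFn fun i : Fin 15 => omT (rep i) := rfl

theorem al_omT (a b c d e : Fin 5) : al z (omT (a, b, c, d, e)).2 =
    (t a - t b) ^ 2 * (t c - t d) ^ 2 * (av z (tz a 0))⁻¹ ^ 4 * (av z (tz b 0))⁻¹ ^ 4 *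
      (av z (tz c 0))⁻¹ ^ 4 * (av z (tz d 0))⁻¹ ^ 4 * (av z (tz e 0))⁻¹ ^ 3 := by
  simp only [omT, omM, al_cons, al_nil, zpow_neg, zpow_ofNat, inv_pow]
  change (t a - t b) ^ 2 * ((t c - t d) ^ 2 * _) = _
  ring

theorem al_orb {x y : T5} (h : y ∈ orb x) : al z (omT y).2 = al z (omT x).2 := by
  obtain ⟨a, b, c, d, e⟩ := x
  simp only [orb, List.mem_cons, List.not_mem_nil, or_false] at h
  rcases h with rfl | rfl | rfl | rfl | rfl | rfl | rfl | rfl <;> simp only [al_omT] <;> ring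

theorem inA_tz (a : Fin 5) (i : Fin 11) : inA dT.1 (tz a i) = tz a 0 := by
  simp [inA, tz, memC, dT, ctr]

theorem inA_tt (a b : Fin 5) : inA dT.1 (tt a b) = tt a b := by
  simp [inA, tt, memC, dT]

theorem vA_tz (a : Fin 5) (i : Fin 11) : vA dT.1 (tz a i) = -1 := by
  simp [vA, tz, memC, dT]

theorem vA_tt (a b : Fin 5) : vA dT.1 (tt a b) = -1 := by
  simp [vA, tt, memC, dT]

theorem bne_pt : ∀ p q : Pt, (p != q) = true ↔ p ≠ q := by decide +kernel

theorem ok_om (π : Equiv.Perm (Fin 5)) : okL (omL π) = true := by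
  simp [okL, omL, tt, tz, bne_pt]

theorem lead_om (hA : SAt z) (π : Equiv.Perm (Fin 5)) : V z dT 15 (al z (omL π)) ∧
    co z dT 15 (al z (omL π)) = al z (omT (rep (cl π))).2 := by
  have e : vl dT.1 (omL π) = 15 := by
    simp only [vl, omL, List.map_cons, List.map_nil, vA_tz, vA_tt]
    rfl
  refine ⟨e ▸ hA.V_al dT _ (ok_om π), ?_⟩
  rw [← e, hA.co_al dT _ (ok_om π), ← al_orb (cl_mem π), tup, al_omT]
  simp only [inL, omL, List.map_cons, List.map_nil, inA_tz, inA_tt, al_cons, al_nil, zpow_neg,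
    zpow_ofNat, pow_one]
  change (t (π 0) - t (π 1)) ^ 2 * ((t (π 2) - t (π 3)) ^ 2 * _) = _
  ring

theorem c0_T (hA : SAt z) : V z dT 15 (c0 z) ∧ co z dT 15 (c0 z) = evF z omH := by
  refine ⟨V_sum _ _ fun π _ => (lead_om hA π).1, ?_⟩
  rw [c0, map_sum, Finset.sum_congr rfl fun π _ => (lead_om hA π).2,
    ← Finset.sum_fiberwise' Finset.univ cl fun i => al z (omT (rep i)).2, omH_eq, evF,
    List.map_ofFn, List.sum_ofFn]
  refine Finset.sum_congr rfl fun i _ => ?_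
  rw [Finset.sum_const, cl_card, nsmul_eq_mul]
  simp [omT, omM]

/-! ### The connection form -/

theorem co_eta (hA : SAt z) (hI : SInv z) (F : Div) (w : Hyp → ℚ) {X : VF} (hX : Inv z F X) :
    co z F 0 (ev1 (etaW z w) X) = ∑ h : Hyp, (w h : K) *
      (act X (av z (inA F.1 (toAt h))) / av z (inA F.1 (toAt h))) := by
  rw [hI.ev1_eta, map_sum]
  refine Finset.sum_congr rfl fun h _ => ?_
  have b1 := co_mul (V_ratCast (z := z) (F := F) (w h)) (hI.V_dlog F _ (hyp z h) hX)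
  have b2 := hA.co_av F _ (hA.toAt_ne h)
  rw [add_zero] at b1
  rw [b1, co_ratCast, hyp_eq, hI.co_dlog F _ _ _ hX (hA.V_av F _ (hA.toAt_ne h))
    (by rw [b2]; exact hA.av_ne _ (hA.inA_ne F _ (hA.toAt_ne h))), b2]

theorem inA_l (a : Fin 5) (i : Fin 11) :
    inA dT.1 (toAt (Sum.inl (a, i))) = toAt (Sum.inl (a, 0)) := inA_tz a i

theorem inA_r (p : {p : Fin 5 × Fin 5 // p.1 < p.2}) :
    inA dT.1 (toAt (Sum.inr p)) = toAt (Sum.inr p) := inA_tt _ _

theorem eta_T (hA : SAt z) (hI : SInv z) (X : VF) (hX : Inv z dT X) :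
    co z dT 0 (ev1 (etaW z wD) X) = ev1 (etaW z w0) X := by
  rw [co_eta hA hI dT wD hX, hI.ev1_eta, Fintype.sum_sum_type, Fintype.sum_sum_type,
    Fintype.sum_prod_type, Fintype.sum_prod_type]
  simp only [inA_l, inA_r, hyp_eq]
  refine congrArg₂ (· + ·) ?_ ?_
  · refine Finset.sum_congr rfl fun a _ => ?_
    rw [Finset.sum_eq_single (0 : Fin 11) (f := fun i => (w0 (Sum.inl (a, i)) : K) * _)]
    · simp only [wD, expo, w0, Finset.sum_const, Finset.card_univ, Fintype.card_fin, if_true,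
        nsmul_eq_mul]
      push_cast
      ring
    · intro i _ hi
      simp [w0, hi]
    · simp
  · refine Finset.sum_congr rfl fun p _ => ?_
    simp only [wD, expo, w0]
    norm_num

/-! ### The seeds -/

theorem t00 : okL ((tz 4 0, 1) :: gL 0 0) = true ∧ okL g0H = true ∧
    vl dT.1 ((tz 4 0, 1) :: gL 0 0) = -6 ∧
    eqL (inL dT.1 ((tz 4 0, 1) :: gL 0 0)) g0H = true := by decide +kernel

theorem t10 : okL ((tz 4 0, 1) :: gL 1 0) = true ∧ okL (negL ++ g1H) = true ∧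
    vl dT.1 ((tz 4 0, 1) :: gL 1 0) = -6 ∧
    eqL (inL dT.1 ((tz 4 0, 1) :: gL 1 0)) (negL ++ g1H) = true := by decide +kernel

theorem t11 : okL ((tz 4 0, 1) :: (uA 1, 1) :: gL 1 0) = true ∧
    okL ((tz 0 0, 1) :: g1H) = true ∧ vl dT.1 ((tz 4 0, 1) :: (uA 1, 1) :: gL 1 0) = -7 ∧
    eqL (inL dT.1 ((tz 4 0, 1) :: (uA 1, 1) :: gL 1 0)) ((tz 0 0, 1) :: g1H) = true := by
  decide +kernel

theorem wA_T (hA : SAt z) : V z dT (-6) (X4 z * (al z (gL 0 0) + al z (gL 1 0))) ∧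
    co z dT (-6) (X4 z * (al z (gL 0 0) + al z (gL 1 0))) = evF z wA := by
  obtain ⟨a1, a2⟩ := lead hA dT t00
  obtain ⟨b1, b2⟩ := lead hA dT t10
  rw [mul_add, X4_mul, X4_mul]
  refine ⟨a1.add b1, ?_⟩
  rw [map_add, a2, b2, al_neg hA, wA, evF_cons, evF_cons, evF_nil]
  push_cast
  ring

theorem sA_eq (hA : SAt z) (h1 : SCar1) :
    ∃ g : K, X4 z • sA z 1 (GG z 1 0) = mono {1, 2, 3} g ∧ g ∈ OU z ∧
      V z dT (-7) g ∧ co z dT (-7) g = evF z wB1 := by
  obtain ⟨a1, a2⟩ := lead hA dT t11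
  refine ⟨(-3 : ℂ) • al z ((tz 4 0, 1) :: (uA 1, 1) :: gL 1 0), ?_,
    (OU z).smul_mem (hA.al_OU _ t11.1) _, a1.csmul _, ?_⟩
  · have e1 : I4.erase 0 = {1, 2, 3} := by decide
    have e2 : sgn 0 I4 = 1 := by
      rw [sgn, show I4.filter (· < 0) = ∅ by decide]
      simp
    rw [sA, thA, GG, LinearMap.smul_apply, h1.iota_mono, Finset.sum_eq_single 0, e1, e2,
      ← X4_mul, al_cons, zpow_one]
    · ext J
      simp only [mono, Pi.smul_apply, smul_eq_mul, show va 1 = 0 from rfl, fld, Pi.single_eq_same]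
      split_ifs
      · rw [one_mul, mul_smul_comm]
      · simp
    · intro b _ hb
      ext J
      simp [fld, show va 1 = 0 from rfl, hb, mono]
    · exact fun h => absurd (by decide) h
  · rw [map_smul, a2, wB1, evF_cons, evF_nil, Algebra.smul_def, map_neg, map_ofNat]
    simp

theorem dl_eq (hA : SAt z) (v : Fin 5) (x y : At) : act (fld v (av z x)) (av z y) / av z y =
    av z x * ((dA v y : K) / av z y) := by
  rw [act_fld, hA.pd_av, mul_div_assoc]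

theorem dl_OU (hA : SAt z) (v : Fin 5) (x : At) {y : At} (hy : y.1 ≠ y.2) :
    act (fld v (av z x)) (av z y) / av z y ∈ OU z := by
  have h := hA.al_OU [(y, -1)] (by simpa [okL, bne_pt] using hy)
  rw [al_cons, al_nil, mul_one, zpow_neg_one] at h
  rw [dl_eq hA, div_eq_mul_inv]
  exact mul_mem (hA.av_OU x) (mul_mem (intCast_mem _ _) h)

theorem dw_OU (hA : SAt z) (hI : SInv z) (v : Fin 5) (x : At) (w : Hyp → ℚ) {l : Mon}
    (hl : okL l = true) : dw z w (fld v (av z x)) (al z l) ∈ OU z := by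
  rw [dw_apply, hA.act_al _ _ hl, hI.ev1_eta]
  refine add_mem (mul_mem (hA.al_OU l hl) (list_sum_mem fun y hy => ?_))
    (mul_mem (sum_mem fun h _ => mul_mem ?_ ?_) (hA.al_OU l hl))
  · obtain ⟨p, hp, rfl⟩ := List.mem_map.1 hy
    exact mul_mem (intCast_mem _ _) (dl_OU hA v x ((bne_pt _ _).1 (List.all_eq_true.1 hl p hp)))
  · simpa using (OU z).algebraMap_mem (w h : ℂ)
  · rw [hyp_eq]
    exact dl_OU hA v x (hA.toAt_ne h)

theorem core' (hA : SAt z) (hI : SInv z) (F : Div) (v : Fin 5) (x : At)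
    (l cl : List (At × ℤ)) (k : ℤ) (hX : Inv z F (fld v (av z x))) (ok : okL l = true)
    (e : vl F.1 l = k)
    (hc : ∀ P, 3 * expL (inL F.1 l) (Sum.inl v, P) + etaT F.1 (Sum.inl v, P) =
      expL cl (Sum.inl v, P)) :
    V z F k (dw z w4 (fld v (av z x)) (al z l)) ∧
      3 * co z F k (dw z w4 (fld v (av z x)) (al z l)) = al z (inL F.1 l) *
        (av z x * (cl.map fun p => (p.2 : K) * ((dA v p.1 : K) / av z p.1)).sum) := by
  have v1 := e ▸ hA.V_al F l ok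
  have c1 := e ▸ hA.co_al F l ok
  have v5 := co_mul (hI.V_eta F _ w4 hX) v1
  have a2 : 3 * co z F 0 (ev1 (etaW z w4) (fld v (av z x))) =
      av z x * ∑ P : Pt, (etaT F.1 (Sum.inl v, P) : K) / av z (Sum.inl v, P) := by
    simp only [etaT, Int.cast_sum, Finset.sum_div]
    rw [Finset.sum_comm, co_eta hA hI F w4 hX, Finset.mul_sum, Finset.mul_sum]
    refine Finset.sum_congr rfl fun h _ => ?_
    rw [← atom, dl_eq hA, w3_eq]
    ring
  have a3 : act (fld v (av z x)) (al z (inL F.1 l)) = al z (inL F.1 l) *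
      (av z x * ∑ P : Pt, (expL (inL F.1 l) (Sum.inl v, P) : K) / av z (Sum.inl v, P)) := by
    rw [hA.act_al _ _ (hA.ok_inL F l ok), ← list_sum, ← List.sum_map_mul_left (r := av z x)]
    simp only [dl_eq hA, mul_left_comm (((_ : ℤ) : K)) (av z x)]
  have a4 : ∑ P : Pt, (expL cl (Sum.inl v, P) : K) / av z (Sum.inl v, P) =
      3 * ∑ P : Pt, (expL (inL F.1 l) (Sum.inl v, P) : K) / av z (Sum.inl v, P) +
        ∑ P : Pt, (etaT F.1 (Sum.inl v, P) : K) / av z (Sum.inl v, P) := by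
    rw [Finset.mul_sum, ← Finset.sum_add_distrib]
    refine Finset.sum_congr rfl fun P _ => ?_
    rw [← hc]
    push_cast
    ring
  refine ⟨hI.V_dw F _ w4 k _ hX v1, ?_⟩
  rw [zero_add] at v5
  rw [dw_apply, map_add, v5, hX, c1, a3, list_sum, a4]
  linear_combination al z (inL F.1 l) * a2

def clT : Mon := [(tz 0 0, -2), (tt 0 1, -1), (tt 0 2, 2), (tt 0 3, -1)]

theorem etaT_eq : ∀ P : Pt, 3 * expL (inL dT.1 (gL 1 0)) (Sum.inl 0, P) +
    etaT dT.1 (Sum.inl 0, P) = expL clT (Sum.inl 0, P) := by decide +kernel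

theorem t12 : vl dT.1 (gL 1 0) = -5 ∧ okL ((tz 4 0, 1) :: inL dT.1 (gL 1 0)) = true ∧
    eqL ((tz 4 0, 1) :: inL dT.1 (gL 1 0)) (negL ++ g1H) = true ∧ vA dT.1 (tz 4 0) = -1 ∧
    inA dT.1 (tz 4 0) = tz 4 0 := by decide +kernel

theorem M_eq (hA : SAt z) (hI : SInv z) (h1 : SCar1) (h2 : SCar2 z) (hS : SSdA z) :
    ∃ g : K, X4 z • (GG z 0 0 + GG z 1 0 - nab z w4 (sA z 1 (GG z 1 0))) = mono I4 g ∧
      g ∈ OU z ∧ V z dT (-6) g ∧ co z dT (-6) g = evF z wB2 := by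
  have hX : Inv z dT (fld 0 (av z (uA 1))) :=
    hS.invA 1 dT (by decide) (by decide) (by decide) (by decide)
  obtain ⟨a1, a2⟩ := lead hA dT t00
  obtain ⟨b1, b2⟩ := lead hA dT t10
  obtain ⟨c1, c2⟩ := core' hA hI dT 0 (uA 1) (gL 1 0) clT (-5) hX (hS.ok 1 0) t12.1 etaT_eq
  have x1 := hA.V_av dT (tz 4 0) (by decide)
  have x2 := hA.co_av dT (tz 4 0) (by decide)
  rw [t12.2.2.2.1] at x1 x2
  rw [t12.2.2.2.2] at x2
  have d1 : V z dT (-6) (X4 z * dw z w4 (fld 0 (av z (uA 1))) (al z (gL 1 0))) := x1.mul c1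
  have d2 : co z dT (-6) (X4 z * dw z w4 (fld 0 (av z (uA 1))) (al z (gL 1 0))) =
      X4 z * co z dT (-5) (dw z w4 (fld 0 (av z (uA 1))) (al z (gL 1 0))) :=
    (co_mul x1 c1).trans (by rw [x2]; rfl)
  have d3 : X4 z * al z (inL dT.1 (gL 1 0)) = -al z g1H := by
    rw [X4_mul, hA.al_eq _ _ t12.2.1 t10.2.1 t12.2.2.1, al_neg hA]
  refine ⟨al z ((tz 4 0, 1) :: gL 0 0) - (2 : ℂ) • al z ((tz 4 0, 1) :: gL 1 0) +
    (3 : ℂ) • (X4 z * dw z w4 (fld 0 (av z (uA 1))) (al z (gL 1 0))), ?_, ?_,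
    (a1.sub (b1.csmul _)).add (d1.csmul _), ?_⟩
  · unfold sA thA GG
    rw [shape hA h1 h2 _ (by decide) _ (by decide) _ (hS.G_closed 1 0), mono_comb]
    ext J
    simp only [mono, Pi.smul_apply, smul_eq_mul, show va 1 = 0 from rfl, ← X4_mul,
      show dA 0 (uA 1) = -1 by decide, Algebra.smul_def, map_ofNat]
    split_ifs
    · push_cast
      ring
    · simp
  · exact add_mem (sub_mem (hA.al_OU _ t00.1) ((OU z).smul_mem (hA.al_OU _ t10.1) _))
      ((OU z).smul_mem (mul_mem (hA.av_OU (tz 4 0)) (dw_OU hA hI 0 _ w4 (hS.ok 1 0))) _)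
  · have e1 : av z (tz 0 0) ≠ 0 := hA.av_ne _ (by decide)
    have e5 : av z (uA 1) = -av z (tz 0 0) := by simp [av, tz, uA]
    simp only [clT, List.map_cons, List.map_nil, List.sum_cons, List.sum_nil, e5,
      show dA 0 (tz 0 0) = 1 by decide, show dA 0 (tt 0 1) = 1 by decide,
      show dA 0 (tt 0 2) = 1 by decide, show dA 0 (tt 0 3) = 1 by decide] at c2
    rw [map_add, map_sub, map_smul, map_smul, a2, b2, d2, al_neg hA, Algebra.smul_def,
      Algebra.smul_def, map_ofNat, map_ofNat, wB2]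
    simp only [evF_cons, evF_nil, al_cons, zpow_one, zpow_neg_one, e5]
    have e6 : av z (tz 0 0) * (av z (tz 0 0))⁻¹ = 1 := mul_inv_cancel₀ e1
    push_cast at c2 ⊢
    simp only [one_div] at c2
    linear_combination X4 z * c2 - (av z (tz 0 0) * (-2 * (av z (tz 0 0))⁻¹ -
      (av z (tt 0 1))⁻¹ + 2 * (av z (tt 0 2))⁻¹ - (av z (tt 0 3))⁻¹)) * d3 - 2 * al z g1H * e6

end Ev3Aux

set_option linter.unusedVariables false in
theorem sE3 (z : Fin 11 → ℂ) (hA : SAt z) (hI : SInv z) (h1 : SCar1) (h2 : SCar2 z)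
    (hS : SSdA z) (e1 : SE1 z) : SE3 z where
  c0_T := Ev3Aux.c0_T hA
  eta_T := Ev3Aux.eta_T hA hI
  wA_T := Ev3Aux.wA_T hA
  sA_eq := Ev3Aux.sA_eq hA h1
  M_eq := Ev3Aux.M_eq hA hI h1 h2 hS

end Pool.Agent.MP_cb8d3a_ag.H90
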