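import Pool.Agent.MP_cb8d3a_ag.H90.EvT

/-! The evaluator computes the residues. -/

noncomputable section

open scoped BigOperators

namespace Pool.Agent.MP_cb8d3a_ag.H90

namespace Ev

variable {z : Fin 11 → ℂ}

theorem split_T (m : List Div) (h : dT ∈ m) :
    m = m.takeWhile (fun F => F.1 ≠ cT) ++ dT :: (m.dropWhile (fun F => F.1 ≠ cT)).tail := by
  induction m with
  | nil => simp at h
  | cons F m ih =>
    by_cases hF : F = dT
    · simp [hF, (cT_iff dT).2 rfl]
    · have h1 : F.1 ≠ cT := fun h' => hF ((cT_iff F).1 h')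
      have h2 : dT ∈ m := by
        rcases List.mem_cons.1 h with h | h
        · exact absurd h.symm hF
        · exact h
      rw [List.takeWhile_cons, List.dropWhile_cons, if_pos (by simpa using h1),
        if_pos (by simpa using h1), List.cons_append, ← ih h2]

theorem evL_eq (hI : SInv z) (hK : SK1 z) (h1 : SCar1) (hO : SFou z) (hR : SRes z) (hH : SHom z)
    (hT : SSdC z) (e1 : SE1 z) (e2 : SE2 z) (e3 : SE3 z) {N : ℕ} (hN : 40 ≤ N)
    {m rest : List Div} (hc : CompL (m ++ rest)) (hlen : (m ++ rest).length = 5)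
    (hh : ∀ F ∈ m ++ rest, homB F.1 = true) {wK err : K} {w : FP} (hw : okF w = true)
    (w1 : wK ∈ OU z) (w2 : V z dT (-10) wK) (w3 : co z dT (-10) wK = evF z w + err)
    (r1 : err ∈ OU z) {F : Div} (r2 : F ∈ rest) (r3 : V z F (1 - oOm F.1) err) {v : ℚ}
    (h : evL (m.map Subtype.val) (rest.map Subtype.val) w = some v) :
    Res z (m ++ rest) (c0 z * pDs z N m wK) = (v : K) := by
  unfold evL at h
  dsimp only at h
  split_ifs at h with hm
  have hm' : dT ∈ m := by
    obtain ⟨G, hG, e⟩ := List.mem_map.1 hm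
    rwa [← (cT_iff G).1 e]
  have hs := split_T m hm'
  set p := m.takeWhile (fun F => F.1 ≠ cT) with hp
  set q0 := (m.dropWhile (fun F => F.1 ≠ cT)).tail with hq
  have ep : (m.map Subtype.val).takeWhile (· ≠ cT) = p.map Subtype.val := by
    rw [List.takeWhile_map]; rfl
  have eq : ((m.map Subtype.val).dropWhile (· ≠ cT)).tail = q0.map Subtype.val := by
    rw [List.dropWhile_map, hq, List.map_tail]; rfl
  rw [ep, eq, ← List.map_append, ← List.map_append, ← List.map_reverse, ← List.map_reverse,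
    ← (cT_iff dT).2 rfl, ← List.map_cons, List.length_map] at h
  obtain ⟨x, hx, rfl⟩ := Option.map_eq_some_iff.1 h
  set q := q0 ++ rest with hq'
  set l := p ++ q with hl
  have e0 : m ++ rest = p ++ dT :: q := by
    rw [hq']; conv_lhs => rw [hs]
    simp
  have mem : ∀ G, G ∈ dT :: l.reverse ↔ G ∈ m ++ rest := by
    intro G
    rw [e0, hl]
    simp only [List.mem_cons, List.mem_reverse, List.mem_append]
    tauto
  have hTm : dT ∈ m ++ rest := (mem _).1 (by simp)
  have hcl : CompL (dT :: l.reverse) := fun A hA B hB => hc A ((mem A).1 hA) B ((mem B).1 hB)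
  have hcl' : CompL l := fun A hA B hB => hcl A (by simp [hA]) B (by simp [hB])
  have hlen' : (dT :: l.reverse).length = 5 := by
    rw [e0] at hlen
    simp only [hl, List.length_cons, List.length_reverse, List.length_append] at hlen ⊢
    omega
  have hW1 : pDs z N m wK ∈ OU z := pDs_OU hO N w1
  have hmT : ∀ G ∈ m, Compat dT G := fun G hG => hc dT hTm G (by simp [hG])
  have hW2 : V z dT (-10) (pDs z N m wK) := pDs_V hH N hmT w2
  have hW3 := coT_pDs hI hH e3 hN hmT w2
  have hD : Delta z (l ++ [dT]) = evF z (cf ((dT :: l.reverse).map Subtype.val) Finset.univ) := by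
    rw [← e2.cf_eq, List.reverse_cons, List.reverse_reverse]; rfl
  have hDT := e2.cf_T (dT :: l.reverse) Finset.univ fun G hG => hh G ((mem G).1 hG)
  rw [hlen', ← hD] at hDT
  have hu1 : V z dT 10 (c0 z * Delta z (l ++ [dT])) := e3.c0_T.1.mul hDT.1
  have hu2 : co z dT 10 (c0 z * Delta z (l ++ [dT])) =
      evF z (mulF omH (cf ((dT :: l.reverse).map Subtype.val) Finset.univ)) := by
    have := co_mul e3.c0_T.1 hDT.1
    rw [e3.c0_T.2, hDT.2] at this
    rw [evF_mulF, ← hD, ← this]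
    rfl
  have hok : okF (mulF omH (cf ((dT :: l.reverse).map Subtype.val) Finset.univ)) = true :=
    okF_mulF (by decide) (e2.cf_ok _ _)
  have hmain := evTr_eq hI hK hR e1 e2 hN hcl hok m.reverse
    (fun G hG => ⟨hh G (by simp at hG; simp [hG]), (mem G).2 (by simp at hG; simp [hG])⟩) w hw hx
  rw [List.reverse_reverse, List.reverse_reverse] at hmain
  have hFm : F ∈ m ++ rest := by simp [r2]
  have hFl : F ∈ l := by simp [hl, hq', r2]
  have hcD : c0 z * Delta z (l ++ [dT]) ∈ OU z := (OU z).mul_mem hT.c0_OU (hO.Delta _)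
  have hFu : V z F (oOm F.1) (c0 z * Delta z (l ++ [dT])) := by
    have := hT.om_Fil F ((l ++ [dT]).map (theta z)) (by
      intro X hX
      obtain ⟨G, hG, rfl⟩ := List.mem_map.1 hX
      refine hI.inv_theta F G (hc F hFm G ((mem G).1 ?_))
      simp only [List.mem_append, List.mem_cons, List.mem_reverse] at hG ⊢
      tauto)
    rw [h1.iotas_top _ _ (by simpa using hlen')] at this
    simpa [mono, Delta] using this
  have hkill := kill hI hK hR N hcl' hFl (r := m) (fun G hG => hc F hFm G (by simp [hG]))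
    (hK.co_OU dT 10 _ hcD) r1 (hK.V_co dT F 10 _ _ (hc dT hTm F hFm) hcD hFu) r3 (by omega)
  rw [e0, hR.Res_last p dT q _ (e0 ▸ hc) (e0 ▸ hlen) ((OU z).mul_mem hT.c0_OU hW1), ← hl,
    Res_apply, CT_append]
  have hco := co_mul hu1 hW2
  have e5 : CT z [dT] (c0 z * pDs z N m wK * Delta z (l ++ [dT])) =
      co z dT (10 + -10) (c0 z * Delta z (l ++ [dT]) * pDs z N m wK) := by
    rw [mul_right_comm]; rfl
  rw [e5, hco, hW3, w3, map_add, mul_add, map_add, hkill, hu2, hmain, add_zero]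
  push_cast
  rfl

theorem iotas_mono (h1 : SCar1) (l : List VF) (I : Finset (Fin 5)) (g : K) :
    iotas l (mono I g) ∅ = g * iotas l (mono I 1) ∅ := by
  have : mono I g = g • mono I 1 := by
    ext J; simp [mono]
  rw [this, h1.iotas_smul]; rfl

/-- Contraction of a monomial form with Euler fields. -/
theorem contr (h1 : SCar1) (e1 : SE1 z) (e2 : SE2 z) (m : List Div)
    (hh : ∀ F ∈ m, homB F.1 = true) (I : Finset (Fin 5)) {g : K} {f : FP} {k : ℤ}
    (g1 : g ∈ OU z) (g2 : V z dT k g) (g3 : co z dT k g = evF z f) (hk : k - m.length = -10) :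
    iotas (m.map (theta z)) (mono I g) ∅ ∈ OU z ∧
      V z dT (-10) (iotas (m.map (theta z)) (mono I g) ∅) ∧
      co z dT (-10) (iotas (m.map (theta z)) (mono I g) ∅) =
        evF z (mulF f (cf (m.map Subtype.val).reverse I)) := by
  have a1 := e2.cf_eq m.reverse I
  have a2 := e2.cf_T m.reverse I fun F hF => hh F (by simpa using hF)
  rw [List.reverse_reverse] at a1
  rw [List.length_reverse] at a2
  have hk' : (-10 : ℤ) = k + -(m.length : ℤ) := by omega
  rw [iotas_mono h1, a1, ← List.map_reverse, evF_mulF, hk']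
  exact ⟨(OU z).mul_mem g1 (e1.evF_OU _ (e2.cf_ok _ _)), g2.mul a2.1,
    by rw [co_mul g2 a2.1, g3, a2.2]⟩

theorem evS_eq (hA : SAt z) (hI : SInv z) (hK : SK1 z) (h1 : SCar1) (hF : SFil z) (hO : SFou z)
    (hR : SRes z) (hH : SHom z) (hQ : SR z) (hL : SList) (hS : SSdA z) (hM : SSdB z)
    (hT : SSdC z) (e1 : SE1 z) (e2 : SE2 z) (e3 : SE3 z) (e4 : SE4) {N : ℕ} (hN : 40 ≤ N)
    {τ : Finset Div} (hτ : τ ∈ Nest 5) (hh : ∀ F ∈ τ, homB F.1 = true) {x : ℚ}
    (h : evS (sOf τ) = some x) :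
    Res z (lst τ) (c0 z * hs z N (mu τ) (Y0 z N (aT τ)) ∅) = (x : K) := by
  have hc := hL.compL 5 τ hτ
  have hlen := hL.length 5 τ hτ
  have hh' : ∀ F ∈ lst τ, homB F.1 = true := fun F h' => hh F ((hL.mem 5 τ hτ F).1 h')
  unfold evS at h
  by_cases hcF : cF ∈ sOf τ
  · obtain ⟨ha, hb, hm⟩ := e4.caseB τ hτ hh hcF
    rw [if_pos hcF] at h
    dsimp only at h
    split_ifs at h
    have el : lst τ = mu τ ++ [Fa 1, dE] := by
      simp [lst, kp, ha, hb]
    rw [el] at hc hlen hh'
    have hlen3 : (mu τ).length = 3 := by simpa using hlen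
    have sub : ∀ F ∈ mu τ ++ [Fa 1], F ∈ mu τ ++ [Fa 1, dE] := by
      intro F h'
      rcases List.mem_append.1 h' with h' | h'
      · exact List.mem_append_left _ h'
      · rw [List.mem_singleton.1 h']
        exact List.mem_append_right _ List.mem_cons_self
    have hcm : CompL (mu τ ++ [Fa 1]) := fun A hA B hB => hc A (sub A hA) B (sub B hB)
    have hcm' : CompL (mu τ) := fun A hA B hB => hc A (by simp [hA]) B (by simp [hB])
    obtain ⟨g1, eg1, g11, g12, g13⟩ := e3.sA_eq
    obtain ⟨g2, eg2, g21, g22, g23⟩ := e3.M_eq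
    have c1 := contr h1 e1 e2 (mu τ) (fun F h' => hh' F (by simp [h'])) {1, 2, 3} g11 g12 g13
      (by rw [hlen3]; rfl)
    have c2 := contr h1 e1 e2 (mu τ ++ [Fa 1]) (fun F h' => hh' F (sub F h')) I4
      g21 g22 g23 (by rw [List.length_append, hlen3]; rfl)
    obtain ⟨W1, hW1⟩ : ∃ W, W = iotas ((mu τ).map (theta z)) (mono {1, 2, 3} g1) ∅ := ⟨_, rfl⟩
    obtain ⟨W2, hW2⟩ : ∃ W, W = iotas ((mu τ ++ [Fa 1]).map (theta z)) (mono I4 g2) ∅ :=
      ⟨_, rfl⟩
    rw [← hW1] at c1
    rw [← hW2] at c2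
    have hTF : Compat dT (Fa 1) := by decide
    have hV : V z (Fa 1) (-4) W2 := by
      have := hF.smul (hQ.X4_V (Fa 1)) (hM.matchA 1 0 (by decide))
      rw [eg2] at this
      have e : x4 (Fa 1).1 + (latD (Fa 1).1 - x4 (Fa 1).1) = -4 := by decide
      rw [e] at this
      rw [hW2]
      refine this _ fun X hX => ?_
      obtain ⟨G, hG, rfl⟩ := List.mem_map.1 hX
      exact hI.inv_theta _ G (hcm _ (by simp) G hG)
    have hV' := hK.V_co dT (Fa 1) (-10) _ _ hTF c2.1 hV
    have hO' := hK.co_OU dT (-10) _ c2.1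
    have h3 : a3 (Fa 1).1 = -15 := by decide
    have htr := truncW0 hI e2 N (F := Fa 1) (by decide) hV' (by omega) (by omega)
      (by rw [h3]; decide)
    have h4 : (eig (Fa 1).1 (-4))⁻¹ = 1 := by
      rw [eig, h3]; norm_num
    rw [h4, one_smul] at htr
    have ev : hs z N (mu τ) (Y0 z N (aT τ)) ∅ = pDs z N (mu τ) (W1 + pD z N (Fa 1) W2) := by
      rw [ha, Y0, if_pos rfl, eg1, eg2, map_add, map_add, Pi.add_apply, hH.hs_empty N _ _ hcm',
        ← hW1]
      have := hH.hs_empty N _ (mono I4 g2) hcm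
      rw [hs_append, pDs_append, ← hW2] at this
      exact congrArg _ this
    rw [ev, el]
    rw [← hm] at h
    refine evL_eq hI hK h1 hO hR hH hT e1 e2 e3 hN hc hlen hh' (F := Fa 1)
      (err := pW z N (Fa 1) (co z dT (-10) W2) - co z dT (-10) W2) ?_
      ((OU z).add_mem c1.1 (hO.pD N _ c2.1)) (c1.2.1.add (hH.pD_V N hTF c2.2.1)) ?_
      ((OU z).sub_mem (aevalW_OU hK _ hO') hO') (by simp) htr h
    · rw [okF_append, ← List.map_reverse, okF_mulF (by decide) (e2.cf_ok _ _)]
      exact okF_mulF (by decide) (e2.cf_ok (Fa 1 :: (mu τ).reverse) _)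
    · rw [map_add, coT_pW hI e3 N hTF c2.2.1, evF_append, c1.2.2]
      have : cF :: ((mu τ).map Subtype.val).reverse =
          ((mu τ ++ [Fa 1]).map Subtype.val).reverse := by
        rw [List.map_append, List.reverse_append]; rfl
      rw [this, ← c2.2.2]
      ring
  · obtain ⟨ha, hb, hm⟩ := e4.caseA τ hτ hh hcF
    rw [if_neg hcF] at h
    have el : lst τ = mu τ ++ [dE] := by
      simp [lst, kp, ha, hb]
    rw [el] at hc hlen hh'
    have hlen4 : (mu τ).length = 4 := by simpa using hlen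
    have hcm' : CompL (mu τ) := fun A hA B hB => hc A (by simp [hA]) B (by simp [hB])
    have g1 : X4 z * (al z (gL 0 0) + al z (gL 1 0)) ∈ OU z :=
      (OU z).mul_mem (hA.av_OU (tz 4 0))
        ((OU z).add_mem (hA.al_OU _ (hS.ok 0 0)) (hA.al_OU _ (hS.ok 1 0)))
    have c1 := contr h1 e1 e2 (mu τ) (fun F h' => hh' F (by simp [h'])) I4 g1 e3.wA_T.1
      e3.wA_T.2 (by rw [hlen4]; rfl)
    have eg : Y0 z N (aT τ) = mono I4 (X4 z * (al z (gL 0 0) + al z (gL 1 0))) := by
      rw [ha, Y0, if_neg (by decide)]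
      ext J
      by_cases hJ : J = I4 <;> simp [GG, mono, hJ]
    rw [eg, hH.hs_empty N _ _ hcm', el]
    rw [← hm] at h
    refine evL_eq hI hK h1 hO hR hH hT e1 e2 e3 hN hc hlen hh' (F := dE) (err := 0) ?_
      c1.1 c1.2.1 (by rw [add_zero, c1.2.2]) (OU z).zero_mem (by simp) (V_zero _) h
    rw [← List.map_reverse]
    exact okF_mulF (by decide) (e2.cf_ok _ _)

end Ev

end Pool.Agent.MP_cb8d3a_ag.H90
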