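import Pool.Agent.MP_cb8d3a_ag.H90.EvDef

/-! The value computed by the evaluator, in twelve groups of nested sets. -/

namespace Pool.Agent.MP_cb8d3a_ag.H90

namespace Ev

/-- A finite set given by a list without repetitions. -/
def mkS (l : List (Fin 5)) (h : l.Nodup) : Finset (Fin 5) := ⟨l, h⟩

def k0 : Clus := (mkS [0, 1] (by decide), none)
def k1 : Clus := (mkS [0, 2] (by decide), none)
def k2 : Clus := (mkS [1, 2] (by decide), none)
def k3 : Clus := (mkS [0, 1, 2] (by decide), none)
def k4 : Clus := (mkS [0, 3] (by decide), none)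
def k5 : Clus := (mkS [1, 3] (by decide), none)
def k6 : Clus := (mkS [0, 1, 3] (by decide), none)
def k7 : Clus := (mkS [2, 3] (by decide), none)
def k8 : Clus := (mkS [0, 2, 3] (by decide), none)
def k9 : Clus := (mkS [1, 2, 3] (by decide), none)
def k10 : Clus := (mkS [0, 1, 2, 3] (by decide), none)
def k11 : Clus := (mkS [0, 4] (by decide), some none)
def k12 : Clus := (mkS [1, 4] (by decide), some none)
def k13 : Clus := (mkS [0, 1, 4] (by decide), some none)
def k14 : Clus := (mkS [2, 4] (by decide), some none)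
def k15 : Clus := (mkS [0, 2, 4] (by decide), some none)
def k16 : Clus := (mkS [1, 2, 4] (by decide), some none)
def k17 : Clus := (mkS [0, 1, 2, 4] (by decide), some none)
def k18 : Clus := (mkS [3, 4] (by decide), some none)
def k19 : Clus := (mkS [0, 3, 4] (by decide), some none)
def k20 : Clus := (mkS [1, 3, 4] (by decide), some none)
def k21 : Clus := (mkS [0, 1, 3, 4] (by decide), some none)
def k22 : Clus := (mkS [2, 3, 4] (by decide), some none)
def k23 : Clus := (mkS [0, 2, 3, 4] (by decide), some none)
def k24 : Clus := (mkS [1, 2, 3, 4] (by decide), some none)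
def k25 : Clus := (mkS [0, 1, 2, 3, 4] (by decide), some none)

/-- The list `HC`, written out. -/
def HC0 : List Clus :=
  [k0, k1, k2, k3, k4, k5, k6, k7, k8, k9, k10, k11, k12,
    k13, k14, k15, k16, k17, k18, k19, k20, k21, k22, k23, k24, k25]

theorem HC_eq : HC = HC0 := by decide +kernel

def g0 : List (List Clus) :=
  [[k0, k3, k10, k25], [k0, k3, k17, k25], [k0, k3, k18, k25], [k0, k6, k10, k25],
    [k0, k6, k14, k25], [k0, k6, k21, k25], [k0, k7, k10, k25], [k0, k7, k13, k25]]

def g1 : List (List Clus) :=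
  [[k0, k7, k22, k25]]

def g2 : List (List Clus) :=
  [[k0, k13, k17, k25], [k0, k13, k21, k25], [k0, k14, k17, k25], [k0, k14, k22, k25],
    [k0, k18, k21, k25], [k0, k18, k22, k25], [k1, k3, k10, k25], [k1, k3, k17, k25],
    [k1, k3, k18, k25], [k1, k5, k10, k25], [k1, k5, k15, k25], [k1, k5, k20, k25],
    [k1, k8, k10, k25], [k1, k8, k12, k25], [k1, k8, k23, k25], [k1, k12, k17, k25],
    [k1, k12, k20, k25], [k1, k15, k17, k25], [k1, k15, k23, k25], [k1, k18, k20, k25],
    [k1, k18, k23, k25]]

def g3 : List (List Clus) :=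
  [[k2, k3, k10, k25], [k2, k3, k17, k25], [k2, k3, k18, k25], [k2, k4, k10, k25],
    [k2, k4, k16, k25], [k2, k4, k19, k25], [k2, k9, k10, k25], [k2, k9, k11, k25],
    [k2, k9, k24, k25], [k2, k11, k17, k25], [k2, k11, k19, k25], [k2, k16, k17, k25],
    [k2, k16, k24, k25], [k2, k18, k19, k25], [k2, k18, k24, k25], [k4, k6, k10, k25],
    [k4, k6, k14, k25], [k4, k6, k21, k25], [k4, k8, k10, k25], [k4, k8, k12, k25],
    [k4, k8, k23, k25], [k4, k12, k16, k25]]

def g4 : List (List Clus) :=
  [[k4, k12, k21, k25], [k4, k14, k16, k25], [k4, k14, k23, k25], [k4, k19, k21, k25],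
    [k4, k19, k23, k25], [k5, k6, k10, k25], [k5, k6, k14, k25], [k5, k6, k21, k25],
    [k5, k9, k10, k25], [k5, k9, k11, k25], [k5, k9, k24, k25], [k5, k11, k15, k25],
    [k5, k11, k21, k25], [k5, k14, k15, k25], [k5, k14, k24, k25], [k5, k20, k21, k25],
    [k5, k20, k24, k25], [k7, k8, k10, k25], [k7, k8, k12, k25], [k7, k8, k23, k25],
    [k7, k9, k10, k25], [k7, k9, k11, k25], [k7, k9, k24, k25]]

def g5 : List (List Clus) :=
  [[k7, k11, k13, k25]]

def g6 : List (List Clus) :=
  [[k7, k11, k23, k25], [k7, k12, k13, k25]]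

def g7 : List (List Clus) :=
  [[k7, k12, k24, k25], [k7, k22, k23, k25], [k7, k22, k24, k25]]

def g8 : List (List Clus) :=
  [[k11, k13, k17, k25]]

def g9 : List (List Clus) :=
  [[k11, k13, k21, k25], [k11, k15, k17, k25], [k11, k15, k23, k25], [k11, k19, k21, k25]]

def g10 : List (List Clus) :=
  [[k11, k19, k23, k25], [k12, k13, k17, k25], [k12, k13, k21, k25], [k12, k16, k17, k25],
    [k12, k16, k24, k25], [k12, k20, k21, k25], [k12, k20, k24, k25]]

def g11 : List (List Clus) :=
  [[k14, k15, k17, k25], [k14, k15, k23, k25], [k14, k16, k17, k25], [k14, k16, k24, k25],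
    [k14, k22, k23, k25], [k14, k22, k24, k25], [k18, k19, k21, k25], [k18, k19, k23, k25],
    [k18, k20, k21, k25], [k18, k20, k24, k25], [k18, k22, k23, k25], [k18, k22, k24, k25]]

theorem nests_eq : nests 4 HC0 =
    g0 ++ (g1 ++ (g2 ++ (g3 ++ (g4 ++ (g5 ++ (g6 ++ (g7 ++ (g8 ++ (g9 ++ (g10 ++ g11)))))))))) := by
  decide +kernel

/-- The sum over a list of nested sets, starting from `v`. -/
def sumL (l : List (List Clus)) (v : Option ℚ) : Option ℚ :=
  l.foldr (fun s v => addO (evS s) v) v

theorem sumL_append (l m : List (List Clus)) (v : Option ℚ) :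
    sumL (l ++ m) v = sumL l (sumL m v) := List.foldr_append

set_option maxRecDepth 100000 in
theorem c11 : sumL g11 (some (0)) = some (72 / 5) := by decide +kernel

set_option maxRecDepth 100000 in
theorem c10 : sumL g10 (some (72 / 5)) = some (504 / 5) := by decide +kernel

set_option maxRecDepth 100000 in
theorem c9 : sumL g9 (some (504 / 5)) = some (216) := by decide +kernel

set_option maxRecDepth 100000 in
theorem c8 : sumL g8 (some (216)) = some (936 / 5) := by decide +kernel

set_option maxRecDepth 100000 in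
theorem c7 : sumL g7 (some (936 / 5)) = some (648 / 5) := by decide +kernel

set_option maxRecDepth 100000 in
theorem c6 : sumL g6 (some (648 / 5)) = some (-2376 / 5) := by decide +kernel

set_option maxRecDepth 100000 in
theorem c5 : sumL g5 (some (-2376 / 5)) = some (-432) := by decide +kernel

set_option maxRecDepth 100000 in
theorem c4 : sumL g4 (some (-432)) = some (-432) := by decide +kernel

set_option maxRecDepth 100000 in
theorem c3 : sumL g3 (some (-432)) = some (-432) := by decide +kernel

set_option maxRecDepth 100000 in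
theorem c2 : sumL g2 (some (-432)) = some (-2376 / 5) := by decide +kernel

set_option maxRecDepth 100000 in
theorem c1 : sumL g1 (some (-2376 / 5)) = some (-648) := by decide +kernel

set_option maxRecDepth 100000 in
theorem c0 : sumL g0 (some (-648)) = some (-648) := by decide +kernel

theorem total_eq : total HC = some (-648) := by
  have h : total HC = sumL (nests 4 HC0) (some 0) := by rw [HC_eq]; rfl
  rw [h, nests_eq]
  simp only [sumL_append]
  rw [c11, c10, c9, c8, c7, c6, c5, c4, c3, c2, c1, c0]

end Ev

end Pool.Agent.MP_cb8d3a_ag.H90
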