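import Pool.Agent.MP_cb8d3a_ag.H90.Spec

/-! A formal evaluator for iterated constant terms. -/

namespace Pool.Agent.MP_cb8d3a_ag.H90

namespace Ev

abbrev Mon : Type := List (At × ℤ)
abbrev FP : Type := List (ℚ × Mon)

noncomputable def evF (z : Fin 11 → ℂ) (f : FP) : K := (f.map fun p => (p.1 : K) * al z p.2).sum

def okF (f : FP) : Bool := f.all fun p => okL p.2

def minO (F : Clus) (f : FP) : ℤ := f.foldr (fun p m => min (vl F p.2) m) 100

def scF (r : ℚ) (f : FP) : FP := f.map fun p => (r * p.1, p.2)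

def mulM (r : ℚ) (m : Mon) (f : FP) : FP := f.map fun p => (r * p.1, m ++ p.2)

def mulF (f g : FP) : FP := f.flatMap fun p => mulM p.1 p.2 g

/-- The second term of the expansion of an atom. -/
def nx (F : Clus) (x : At) : Option At :=
  let y := inA F x
  if x.1 ≠ y.1 then some (x.1, y.1) else if x.2 ≠ y.2 then some (y.2, x.2) else none

def subL (F : Clus) (m : Mon) : FP :=
  m.filterMap fun p => (nx F p.1).map fun y =>
    ((p.2 : ℚ), (y, 1) :: (inA F p.1, -1) :: inL F m)

def cof (F : Clus) (k : ℤ) (f : FP) : FP :=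
  f.flatMap fun p =>
    let o := vl F p.2
    if o = k then [(p.1, inL F p.2)] else if o + 1 = k then scF p.1 (subL F p.2) else []

def negL : Mon := [((Sum.inl 0, Sum.inr 0), 1), ((Sum.inr 0, Sum.inl 0), -1)]

def constM (m : Mon) : Option ℚ :=
  if eqL m [] then some 1 else if eqL m negL then some (-1) else none

def constF : FP → Option ℚ
  | [] => some 0
  | p :: f =>
    match constM p.2, constF f with
    | some a, some b => some (p.1 * a + b)
    | _, _ => none

def addO : Option ℚ → Option ℚ → Option ℚ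
  | some a, some b => some (a + b)
  | _, _ => none

/-- Constant terms of `u * w` along the divisors of `r`, first element first. -/
def evCT : List Clus → FP → FP → Option ℚ
  | [], u, w => constF (mulF u w)
  | F :: r, u, w =>
    let a := minO F u
    let b := minO F w
    if 1 ≤ a + b then some 0
    else if a + b = 0 then evCT r (cof F a u) (cof F b w)
    else if a + b = -1 then
      addO (evCT r (cof F a u) (cof F (b + 1) w)) (evCT r (cof F (a + 1) u) (cof F b w))
    else none

/-- The weights of the homogeneous model. -/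
def wl0 : List (At × ℚ) :=
  [(tz 0 0, -11 / 3), (tz 1 0, -11 / 3), (tz 2 0, -11 / 3), (tz 3 0, -11 / 3), (tz 4 0, -11 / 3),
    (tt 0 1, 2 / 3), (tt 0 2, 2 / 3), (tt 0 3, 2 / 3), (tt 0 4, 2 / 3), (tt 1 2, 2 / 3),
    (tt 1 3, 2 / 3), (tt 1 4, 2 / 3), (tt 2 3, 2 / 3), (tt 2 4, 2 / 3), (tt 3 4, 2 / 3)]

def corr (F : Clus) (wl : List (At × ℚ)) (m : Mon) : FP :=
  wl.filterMap fun q => (nx F q.1).map fun y => (q.2, (y, 1) :: (q.1, -1) :: m)

def eigQ (F : Clus) (k : ℤ) : ℚ := (k : ℚ) - (a3 F : ℚ) / 3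

/-- The twisted Euler derivative. -/
def dwF (F : Clus) (f : FP) : FP :=
  f.flatMap fun p => scF p.1 ((eigQ F (vl F p.2), p.2) ::
    (corr F (p.2.map fun q => (q.1, (q.2 : ℚ))) p.2 ++ corr F wl0 p.2))

def p1F (F : Clus) (k : ℤ) (f : FP) : FP :=
  scF (eigQ F k * eigQ F (k + 1))⁻¹ (scF (eigQ F k + eigQ F (k + 1)) f ++ scF (-1) (dwF F f))

def cT : Clus := ({0, 1, 2, 3, 4}, some none)

/-- Truncation of the homotopies, last element of the list of divisors first. -/
def evTr (l : List Clus) (u : FP) : List Clus → FP → Option ℚ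
  | [], w => evCT l u w
  | G :: r, w =>
    if G = cT then evTr l u r (scF (3 / 5) w)
    else
      let a := minO G u
      let b := minO G w
      if 1 ≤ a + b then some 0
      else if -40 ≤ b ∧ b + 1 ≤ 40 ∧ 3 * b ≠ a3 G then
        (if a + b = 0 then evTr l u r (scF (eigQ G b)⁻¹ w)
        else if a + b = -1 ∧ 3 * (b + 1) ≠ a3 G then evTr l u r (p1F G b w)
        else none)
      else none

/-- The value of the Euler field on a coordinate. -/
def thAt (F : Clus) (a : Fin 5) : Option At :=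
  if a ∈ F.1 ∧ ctr F ≠ Sum.inl a then
    some (if F.2 = some none then (ctr F, Sum.inl a) else (Sum.inl a, ctr F))
  else none

def sgQ (a : Fin 5) (I : Finset (Fin 5)) : ℚ := (-1) ^ (I.filter (· < a)).card

/-- Contraction of `dt_I` with Euler fields, last field first. -/
def cf : List Clus → Finset (Fin 5) → FP
  | [], I => if I = ∅ then [(1, [])] else []
  | F :: r, I => (List.finRange 5).flatMap fun a =>
    if a ∈ I then
      match thAt F a with
      | some x => mulM (sgQ a I) [(x, 1)] (cf r (I.erase a))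
      | none => []
    else []

def omM (a b c d e : Fin 5) : ℚ × Mon :=
  (8, [(tt a b, 2), (tt c d, 2), (tz a 0, -4), (tz b 0, -4), (tz c 0, -4), (tz d 0, -4),
    (tz e 0, -3)])

/-- The leading part of `c0` when all points go to infinity. -/
def omH : FP :=
  [omM 0 1 2 3 4, omM 0 2 1 3 4, omM 0 3 1 2 4, omM 0 1 2 4 3, omM 0 2 1 4 3, omM 0 4 1 2 3,
    omM 0 1 3 4 2, omM 0 3 1 4 2, omM 0 4 1 3 2, omM 0 2 3 4 1, omM 0 3 2 4 1, omM 0 4 2 3 1,
    omM 1 2 3 4 0, omM 1 3 2 4 0, omM 1 4 2 3 0]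

def g0H : Mon :=
  [(tz 4 0, 1), (tz 0 0, 3), (tz 1 0, 3), (tz 2 0, 3), (tz 3 0, 2),
    (tt 0 1, -2), (tt 2 3, -2), (tt 0 3, -1), (tt 1 2, -1)]

def g1H : Mon :=
  [(tz 4 0, 1), (tz 0 0, 3), (tz 1 0, 2), (tz 2 0, 3), (tz 3 0, 2),
    (tt 0 1, -1), (tt 2 3, -2), (tt 0 3, -1), (tt 1 2, -1)]

def wA : FP := [(1, g0H), (-1, g1H)]

def wB1 : FP := [(-3, (tz 0 0, 1) :: g1H)]

def wB2 : FP :=
  [(1, g0H), (-1, (tz 0 0, 1) :: (tt 0 1, -1) :: g1H), (2, (tz 0 0, 1) :: (tt 0 2, -1) :: g1H),
    (-1, (tz 0 0, 1) :: (tt 0 3, -1) :: g1H)]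

def cE : Clus := ({4}, some none)
def cF : Clus := ({0, 1, 4}, some none)

/-- The value for a list `m` of non-special clusters, `rest` the remaining ones. -/
def evL (m rest : List Clus) (w : FP) : Option ℚ :=
  let p := m.takeWhile (· ≠ cT)
  let q := (m.dropWhile (· ≠ cT)).tail ++ rest
  let l := p ++ q
  if cT ∈ m then
    (evTr l.reverse (mulF omH (cf (cT :: l.reverse) Finset.univ)) m.reverse w).map
      fun v => (-1) ^ q.length * v
  else none

def evS (s : List Clus) : Option ℚ :=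
  if cF ∈ s then
    let m := s.filter (· ≠ cF)
    if 4 ≤ minO cF (mulF omH (cf (cE :: cF :: m.reverse) Finset.univ)) then
      evL m [cF, cE] (mulF wB1 (cf m.reverse {1, 2, 3}) ++ mulF wB2 (cf (cF :: m.reverse) I4))
    else none
  else evL s [cE] (mulF wA (cf s.reverse I4))

def nests : ℕ → List Clus → List (List Clus)
  | 0, _ => [[]]
  | n + 1, L =>
    L.rec [] fun F L' ih => (nests n (L'.filter (compB F))).map (F :: ·) ++ ih

def HC : List Clus :=
  ((allD.filter fun F => homB F.1 && compB F.1 dE.1 && F ≠ dE).map Subtype.val)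

def total (L : List Clus) : Option ℚ := (nests 4 L).foldr (fun s v => addO (evS s) v) (some 0)

end Ev

end Pool.Agent.MP_cb8d3a_ag.H90
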