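import Pool.Agent.MP_cb8d3a_ag.H90.EvDef

/-! Statements about the formal evaluator. -/

noncomputable section

open scoped BigOperators

namespace Pool.Agent.MP_cb8d3a_ag.H90

namespace Ev

/-- The weights of the homogeneous model. -/
def w0 : Hyp → ℚ
  | Sum.inl p => if p.2 = 0 then -11 / 3 else 0
  | Sum.inr _ => 2 / 3

theorem evF_nil (z : Fin 11 → ℂ) : evF z [] = 0 := rfl

theorem evF_cons (z : Fin 11 → ℂ) (p : ℚ × Mon) (f : FP) :
    evF z (p :: f) = (p.1 : K) * al z p.2 + evF z f := by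
  simp [evF]

theorem evF_append (z : Fin 11 → ℂ) (f g : FP) : evF z (f ++ g) = evF z f + evF z g := by
  simp [evF]

theorem al_nil (z : Fin 11 → ℂ) : al z [] = 1 := rfl

theorem al_cons (z : Fin 11 → ℂ) (p : At × ℤ) (m : Mon) :
    al z (p :: m) = av z p.1 ^ p.2 * al z m := by
  simp [al]

theorem al_append (z : Fin 11 → ℂ) (l m : Mon) : al z (l ++ m) = al z l * al z m := by
  simp [al]

theorem evF_scF (z : Fin 11 → ℂ) (r : ℚ) (f : FP) : evF z (scF r f) = (r : K) * evF z f := by
  induction f with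
  | nil => simp [scF, evF]
  | cons p f ih =>
    have : scF r (p :: f) = (r * p.1, p.2) :: scF r f := rfl
    rw [this, evF_cons, evF_cons, ih]; push_cast; ring

theorem evF_mulM (z : Fin 11 → ℂ) (r : ℚ) (m : Mon) (f : FP) :
    evF z (mulM r m f) = (r : K) * al z m * evF z f := by
  induction f with
  | nil => simp [mulM, evF]
  | cons p f ih =>
    have : mulM r m (p :: f) = (r * p.1, m ++ p.2) :: mulM r m f := rfl
    rw [this, evF_cons, evF_cons, ih, al_append]; push_cast; ring

theorem evF_mulF (z : Fin 11 → ℂ) (f g : FP) : evF z (mulF f g) = evF z f * evF z g := by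
  induction f with
  | nil => simp [mulF, evF]
  | cons p f ih =>
    have : mulF (p :: f) g = mulM p.1 p.2 g ++ mulF f g := rfl
    rw [this, evF_append, evF_mulM, ih, evF_cons]; ring

theorem okF_append (f g : FP) : okF (f ++ g) = (okF f && okF g) := by
  simp [okF]

theorem okF_scF (r : ℚ) (f : FP) : okF (scF r f) = okF f := by
  simp [okF, scF, Function.comp_def]

theorem okL_append (l m : Mon) : okL (l ++ m) = (okL l && okL m) := by
  simp [okL]

theorem okF_mulM (r : ℚ) {m : Mon} {f : FP} (hm : okL m = true) (hf : okF f = true) :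
    okF (mulM r m f) = true := by
  simp only [okF, mulM, List.all_map, List.all_eq_true, Function.comp_apply, okL_append,
    Bool.and_eq_true] at *
  exact fun p hp => ⟨hm, hf p hp⟩

theorem okF_mulF {f g : FP} (hf : okF f = true) (hg : okF g = true) :
    okF (mulF f g) = true := by
  induction f with
  | nil => rfl
  | cons p f ih =>
    have e : mulF (p :: f) g = mulM p.1 p.2 g ++ mulF f g := rfl
    have h1 : okL p.2 = true ∧ okF f = true := by simpa [okF] using hf
    rw [e, okF_append, okF_mulM _ h1.1 hg, ih h1.2]; rfl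

end Ev

open Ev

/-- Soundness of coefficients and constant terms. -/
structure SE1 (z : Fin 11 → ℂ) : Prop where
  evF_OU : ∀ f, okF f = true → evF z f ∈ OU z
  V_minO : ∀ (F : Div) f, okF f = true → V z F (minO F.1 f) (evF z f)
  cof_ok : ∀ (F : Div) k f, okF f = true → okF (cof F.1 k f) = true
  co_cof : ∀ (F : Div) k f, okF f = true → k - 1 ≤ minO F.1 f →
    co z F k (evF z f) = evF z (cof F.1 k f)
  evCT_eq : ∀ (r : List Div) u w v, okF u = true → okF w = true →
    evCT (r.map Subtype.val) u w = some v → CT z r.reverse (evF z u * evF z w) = (v : K)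

/-- Soundness of the Euler derivative and of contractions. -/
structure SE2 (z : Fin 11 → ℂ) : Prop where
  aW_w0 : ∀ F : Div, homB F.1 = true → aW w0 F.1 = -((a3 F.1 : ℚ) / 3)
  dwF_ok : ∀ (F : Div) f, okF f = true → okF (dwF F.1 f) = true
  dwF_eq : ∀ (F : Div) f, homB F.1 = true → okF f = true →
    dw z w0 (theta z F) (evF z f) = evF z (dwF F.1 f)
  cf_ok : ∀ (r : List Div) I, okF (cf (r.map Subtype.val) I) = true
  cf_eq : ∀ (r : List Div) I,
    iotas (r.reverse.map (theta z)) (mono I 1) ∅ = evF z (cf (r.map Subtype.val) I)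
  cf_T : ∀ (r : List Div) I, (∀ F ∈ r, homB F.1 = true) →
    V z dT (-(r.length : ℤ)) (evF z (cf (r.map Subtype.val) I)) ∧
      co z dT (-(r.length : ℤ)) (evF z (cf (r.map Subtype.val) I)) =
        evF z (cf (r.map Subtype.val) I)

/-- Leading terms along `dT`. -/
structure SE3 (z : Fin 11 → ℂ) : Prop where
  c0_T : V z dT 15 (c0 z) ∧ co z dT 15 (c0 z) = evF z omH
  eta_T : ∀ X, Inv z dT X → co z dT 0 (ev1 (etaW z wD) X) = ev1 (etaW z w0) X
  wA_T : V z dT (-6) (X4 z * (al z (gL 0 0) + al z (gL 1 0))) ∧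
    co z dT (-6) (X4 z * (al z (gL 0 0) + al z (gL 1 0))) = evF z wA
  sA_eq : ∃ g : K, X4 z • sA z 1 (GG z 1 0) = mono {1, 2, 3} g ∧ g ∈ OU z ∧
    V z dT (-7) g ∧ co z dT (-7) g = evF z wB1
  M_eq : ∃ g : K, X4 z • (GG z 0 0 + GG z 1 0 - nab z w4 (sA z 1 (GG z 1 0))) = mono I4 g ∧
    g ∈ OU z ∧ V z dT (-6) g ∧ co z dT (-6) g = evF z wB2

/-- The list attached to a homogeneous nested set. -/
def sOf (τ : Finset Div) : List Clus := HC.filter fun c => c ∈ τ.image Subtype.val

/-- Enumeration of the homogeneous nested sets. -/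
structure SE4 : Prop where
  sum_eq : ∀ (f : Finset Div → K) (v : ℚ), total HC = some v →
    (∀ τ ∈ Nest 5, (∀ F ∈ τ, homB F.1 = true) → ∀ x : ℚ, evS (sOf τ) = some x → f τ = (x : K)) →
    ∑ τ ∈ (Nest 5).filter (fun τ => ∀ F ∈ τ, homB F.1 = true), f τ = (v : K)
  caseA : ∀ τ ∈ Nest 5, (∀ F ∈ τ, homB F.1 = true) → cF ∉ sOf τ →
    aT τ = 0 ∧ bT τ = 0 ∧ (mu τ).map Subtype.val = sOf τ
  caseB : ∀ τ ∈ Nest 5, (∀ F ∈ τ, homB F.1 = true) → cF ∈ sOf τ →
    aT τ = 1 ∧ bT τ = 0 ∧ (mu τ).map Subtype.val = (sOf τ).filter (· ≠ cF)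

end Pool.Agent.MP_cb8d3a_ag.H90
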