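import Pool.Agent.MP_cb8d3a_ag.H90.Spec

/-! Euler homotopies: polynomials in a Lie derivative. -/

noncomputable section

open scoped BigOperators
open Polynomial

namespace Pool.Agent.MP_cb8d3a_ag.H90

namespace HomAux

section gen
variable {M M' : Type} [AddCommGroup M] [Module ℂ M] [AddCommGroup M'] [Module ℂ M']

theorem semi {A : Module.End ℂ M} {B : Module.End ℂ M'} (φ : M →ₗ[ℂ] M')
    (h : ∀ x, φ (A x) = B (φ x)) (p : ℂ[X]) (x : M) : φ (aeval A p x) = aeval B p (φ x) := by
  induction p using Polynomial.induction_on generalizing x with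
  | C a => simp [Module.algebraMap_end_apply]
  | add p q hp hq => simp [hp, hq]
  | monomial n a ih =>
    rw [pow_succ, ← mul_assoc, map_mul (aeval A), map_mul (aeval B), aeval_X, aeval_X,
      Module.End.mul_apply, Module.End.mul_apply, ih, h]

theorem pres {A : Module.End ℂ M} {S : Submodule ℂ M} (h : ∀ x ∈ S, A x ∈ S) (p : ℂ[X]) {x : M}
    (hx : x ∈ S) : aeval A p x ∈ S := by
  induction p using Polynomial.induction_on generalizing x with
  | C a => simpa [Module.algebraMap_end_apply] using S.smul_mem a hx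
  | add p q hp hq => simpa using S.add_mem (hp hx) (hq hx)
  | monomial n a ih =>
    rw [pow_succ, ← mul_assoc, map_mul (aeval A), aeval_X, Module.End.mul_apply]
    exact ih (h x hx)

theorem lin (A : Module.End ℂ M) (e : ℂ) (x : M) : aeval A (X - C e) x = A x - e • x := by
  simp [Module.algebraMap_end_apply]

theorem raise {A : Module.End ℂ M} {S : ℤ → Submodule ℂ M} {f : ℤ → ℂ[X]} {k : ℤ}
    (h : ∀ j, k ≤ j → ∀ x ∈ S j, aeval A (f j) x ∈ S (j + 1)) {x : M} (hx : x ∈ S k) {m : ℤ}
    (hm : k ≤ m) : aeval A (∏ j ∈ Finset.Ico k m, f j) x ∈ S m := by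
  induction m, hm using Int.leInduction with
  | base => simpa using hx
  | succ m hm ih =>
    have : Finset.Ico k (m + 1) = insert m (Finset.Ico k m) := by
      ext j; simp only [Finset.mem_Ico, Finset.mem_insert]; omega
    rw [this, Finset.prod_insert (by simp), map_mul, Module.End.mul_apply]
    exact h m hm _ ih

end gen

theorem eig_ne {F : Clus} {k : ℤ} (h : 3 * k ≠ a3 F) : eig F k ≠ 0 := by
  intro h0
  apply h
  have : (3 * k : ℂ) = a3 F := by
    rw [eig] at h0
    linear_combination 3 * h0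
  exact_mod_cast this

theorem pp_X (N : ℕ) (F : Clus) : ppP N F * X = 1 - piP N F := by
  have h := divX_mul_X_add (1 - piP N F)
  have h0 : (1 - piP N F).coeff 0 = 0 := by
    rw [coeff_zero_eq_eval_zero, piP]
    simp [eval_prod]
  rwa [h0, map_zero, add_zero] at h

theorem pp_eval {N : ℕ} {F : Clus} {k : ℤ} (h1 : -(N : ℤ) ≤ k) (h2 : k ≤ N) (h : 3 * k ≠ a3 F) :
    (ppP N F).eval (eig F k) = (eig F k)⁻¹ := by
  have h3 := congrArg (eval (eig F k)) (pp_X N F)
  have h4 : (piP N F).eval (eig F k) = 0 := by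
    rw [piP, eval_prod]
    refine Finset.prod_eq_zero (i := k) (by simp [h1, h2, h]) ?_
    simp [inv_mul_cancel₀ (eig_ne h)]
  rw [eval_mul, eval_X, eval_sub, eval_one, h4, sub_zero] at h3
  exact eq_inv_of_mul_eq_one_left h3

variable {z : Fin 11 → ℂ}

/-- The filtration on forms as submodules. -/
def FS (hF : SFil z) (F : Div) (k : ℤ) : Submodule ℂ Form where
  carrier := {ω | Fil z F k ω}
  add_mem' := hF.add
  zero_mem' := hF.zero F k
  smul_mem' r _ := hF.csmul r

/-- The filtration on functions as submodules. -/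
def VS (z : Fin 11 → ℂ) (F : Div) (k : ℤ) : Submodule ℂ K where
  carrier := {c | V z F k c}
  add_mem' := V.add
  zero_mem' := V_zero k
  smul_mem' r _ := V.csmul r

theorem eig_eq (hA : SAt z) (F : Div) (k : ℤ) : (k : ℂ) + (aW wD F.1 : ℂ) = eig F.1 k := by
  rw [hA.aW_wD, eig]; push_cast; ring

theorem h_apply (N : ℕ) (F : Div) (ω : Form) : hOp z N F ω =
    aeval (lie z wD (theta z F)) (ppP N F.1) (iota (theta z F) ω) := rfl

theorem iota_lie (hI : SInv z) (h1 : SCar1) (h2 : SCar2 z) {F : Div} {X : VF} (h : Inv z F X)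
    (ω : Form) : iota X (lie z wD (theta z F) ω) = lie z wD (theta z F) (iota X ω) := by
  rw [h2.lie_iota, hI.br_theta F X h, h1.iota_zero_left, add_zero]

theorem iota_h (hI : SInv z) (h1 : SCar1) (h2 : SCar2 z) (N : ℕ) (F : Div) (X : VF) (ω : Form)
    (h : Inv z F X) : iota X (hOp z N F ω) = -hOp z N F (iota X ω) := by
  rw [h_apply, h_apply, semi (iota X) (iota_lie hI h1 h2 h), h1.iota_anti, map_neg]

theorem h_anti (hI : SInv z) (h1 : SCar1) (h2 : SCar2 z) (N : ℕ) (F G : Div) (ω : Form)
    (h : Compat F G) : hOp z N F (hOp z N G ω) = -hOp z N G (hOp z N F ω) := by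
  have hc : ∀ x, hOp z N G (lie z wD (theta z F) x) = lie z wD (theta z F) (hOp z N G x) := by
    intro x
    rw [h_apply, h_apply, iota_lie hI h1 h2 (hI.inv_theta F G h)]
    exact (semi (lie z wD (theta z F)) (fun y => h2.lie_lie wD _ _ y
      (hI.br_theta F _ (hI.inv_theta F G h))) _ _).symm
  rw [h_apply N F, iota_h hI h1 h2 N G _ _ (hI.inv_theta G F h.symm), map_neg, h_apply N F,
    semi (hOp z N G) hc]

theorem move {l : List Div} {T : Module.End ℂ Form} {B : Div → Module.End ℂ Form}
    (h : ∀ G ∈ l, ∀ ω, T (B G ω) = -B G (T ω)) (ω : Form) :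
    T ((l.map B).prod ω) = (-1 : ℂ) ^ l.length • (l.map B).prod (T ω) := by
  induction l with
  | nil => simp
  | cons G l ih =>
    rw [List.map_cons, List.prod_cons, Module.End.mul_apply, Module.End.mul_apply,
      h G (by simp), ih fun G hG => h G (by simp [hG]), map_smul, List.length_cons, pow_succ,
      mul_neg_one, neg_smul]

theorem aeval_Fil (hI : SInv z) (hF : SFil z) {F G : Div} {k : ℤ} {ω : Form} (h : Compat G F)
    (p : ℂ[X]) (hω : Fil z G k ω) : Fil z G k (aeval (lie z wD (theta z F)) p ω) :=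
  pres (S := FS hF G k) (fun _ hx => hF.lie wD (hI.inv_theta G F h) hx) p hω

theorem aeval_V (hI : SInv z) {F G : Div} {k : ℤ} {c : K} (h : Compat G F)
    (p : ℂ[X]) (hc : V z G k c) : V z G k (aeval (dw z wD (theta z F)) p c) :=
  pres (S := VS z G k) (fun _ hx => hI.V_dw G _ wD k _ (hI.inv_theta G F h) hx) p hc

theorem deep (hA : SAt z) (hI : SInv z) (hF : SFil z) (N : ℕ) {F : Div} {ω : Form}
    (h : OKF z N F ω) : Fil z F (N + 1) (piOp z N F ω) := by
  obtain ⟨k, hk, hω, hres⟩ := h
  rcases le_total k (N + 1) with hN | hN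
  · have hs : Finset.Ico k (N + 1) ⊆
        (Finset.Icc (-N : ℤ) N).filter (fun k => 3 * k ≠ a3 F.1) := fun j hj => by
      rw [Finset.mem_Ico] at hj
      exact Finset.mem_filter.2 ⟨Finset.mem_Icc.2 ⟨by omega, by omega⟩, hres j hj.1⟩
    rw [piOp, piP, ← Finset.prod_sdiff hs, map_mul, Module.End.mul_apply]
    refine aeval_Fil hI hF (Compat.refl F) _ (raise (S := FS hF F) (fun j hj x hx => ?_) hω hN)
    have e : (1 - C (eig F.1 j)⁻¹ * X : ℂ[X]) = C (-(eig F.1 j)⁻¹) * (X - C (eig F.1 j)) := by
      rw [mul_sub, ← map_mul, neg_mul, inv_mul_cancel₀ (eig_ne (hres j hj))]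
      simp only [map_neg, map_one]
      ring
    rw [e, map_mul, Module.End.mul_apply, lin]
    refine aeval_Fil hI hF (Compat.refl F) _ ?_
    rw [← eig_eq hA]
    exact hF.lie_theta wD hx
  · exact aeval_Fil hI hF (Compat.refl F) _ (hF.le hω hN)

theorem step (hA : SAt z) (hI : SInv z) {F : Div} {k : ℤ} {c : K} (hc : V z F k c) :
    V z F (k + 1) (aeval (dw z wD (theta z F)) (X - C (eig F.1 k)) c) := by
  rw [lin, ← eig_eq hA]
  exact hI.V_dw_theta F wD k c hc

end HomAux

open HomAux in
theorem sHom (z : Fin 11 → ℂ) (hA : SAt z) (hI : SInv z) (h1 : SCar1) (h2 : SCar2 z)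
    (hF : SFil z) : SHom z where
  nab_h N F ω := by
    rw [h_apply, h_apply, semi (nab z wD) (fun x => (h2.lie_nab wD _ x).symm), ← map_add,
      ← lie_apply]
    have := congrArg (fun p => aeval (lie z wD (theta z F)) p ω) (pp_X N F.1)
    simpa [piOp] using this
  iota_h := iota_h hI h1 h2
  h_anti := h_anti hI h1 h2
  h_Fil N F G k ω h hω := aeval_Fil hI hF h _ (hF.iota (hI.inv_theta G F h) hω)
  pi_Fil N F G k ω h hω := aeval_Fil hI hF h _ hω
  hs_Fil N l G k ω h hω := by
    induction l with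
    | nil => exact hω
    | cons F l ih =>
      exact aeval_Fil hI hF (h F (by simp)) _ (hF.iota (hI.inv_theta G F (h F (by simp)))
        (ih fun F hF => h F (by simp [hF])))
  h_eff N F k ω h := aeval_Fil hI hF (Compat.refl F) _ h
  h_zero N F ω h := by rw [h_apply, h, map_zero]
  deep := deep hA hI hF
  hs_mem N l F hl hF := by
    obtain ⟨p, q, rfl⟩ := List.append_of_mem hF
    refine ⟨p ++ q, (-1) ^ q.length, fun G hG => ?_, fun ω => ?_⟩
    · rcases List.mem_append.1 hG with h | h <;> simp [h]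
    · rw [hs_append, hs_append, hs_cons, ← map_smul]
      congr 1
      exact move (fun G hG ω => h_anti hI h1 h2 N F G ω (hl F hF G (by simp [hG]))) ω
  hs_empty N l ω hl := by
    induction l generalizing ω with
    | nil => rfl
    | cons F l ih =>
      have e1 : iota (theta z F) (hs z N l ω) = _ := move (fun G hG ω =>
        iota_h hI h1 h2 N G _ ω (hI.inv_theta G F (hl G (by simp [hG]) F (by simp)))) ω
      have e2 := move (l := l) (T := iota (theta z F)) (B := fun G => iota (theta z G))
        (fun G _ ω => h1.iota_anti _ _ ω) ω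
      have e3 : ∀ x, iotas (l.map (theta z)) x = (l.map fun G => iota (theta z G)).prod x :=
        fun x => by rw [iotas, List.map_map]; rfl
      have e4 := semi (A := lie z wD (theta z F)) (B := dw z wD (theta z F))
        (LinearMap.proj (∅ : Finset (Fin 5))) (h2.lie_empty wD _) (ppP N F.1)
        (iota (theta z F) (hs z N l ω))
      rw [hs_cons, h_apply]
      refine e4.trans ?_
      rw [List.map_cons, iotas_cons, e3, e2, ← e3, e1]
      show pD z N F ((-1 : ℂ) ^ l.length • hs z N l (iota (theta z F) ω) ∅) =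
        pD z N F (pDs z N l ((-1 : ℂ) ^ l.length • iotas _ _ ∅))
      rw [ih _ fun G hG G' hG' => hl G (by simp [hG]) G' (by simp [hG']), map_smul (pDs z N l)]
  pD_V N F G k c h hc := aeval_V hI h _ hc
  trunc0 N F k c hc k1 k2 k3 := by
    obtain ⟨q, hq⟩ : X - C (eig F.1 k) ∣ ppP N F.1 - C (eig F.1 k)⁻¹ :=
      dvd_iff_isRoot.2 (by simp [pp_eval k1 k2 k3])
    have := aeval_V hI (Compat.refl F) q (step hA hI hc)
    rw [← Module.End.mul_apply, ← map_mul, mul_comm, ← hq] at this
    simpa [pD, Module.algebraMap_end_apply] using this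
  trunc1 N F k c hc k1 k2 k3 k4 := by
    have n1 := eig_ne k3
    have n2 := eig_ne k4
    obtain ⟨q, hq⟩ : (X - C (eig F.1 (k + 1))) * (X - C (eig F.1 k)) ∣ ppP N F.1 -
        C (eig F.1 k * eig F.1 (k + 1))⁻¹ * (C (eig F.1 k + eig F.1 (k + 1)) - X) := by
      refine (isCoprime_X_sub_C_of_isUnit_sub ?_).mul_dvd (dvd_iff_isRoot.2 ?_)
        (dvd_iff_isRoot.2 ?_)
      · simp [eig]
      · simp only [IsRoot, eval_sub, eval_mul, eval_C, eval_X, pp_eval (by omega) k2 k4]
        field_simp
        ring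
      · simp only [IsRoot, eval_sub, eval_mul, eval_C, eval_X, pp_eval k1 (by omega) k3]
        field_simp
        ring
    have := aeval_V hI (Compat.refl F) q (step hA hI (step hA hI hc))
    rw [← Module.End.mul_apply (aeval _ (X - _)), ← map_mul, ← Module.End.mul_apply, ← map_mul,
      mul_comm, ← hq, add_assoc] at this
    simpa only [pD, p1, map_sub, map_mul, aeval_C, aeval_X, LinearMap.sub_apply,
      Module.End.mul_apply, Module.algebraMap_end_apply, LinearMap.smul_apply,
      Module.End.one_apply, smul_sub, one_add_one_eq_two] using this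

end Pool.Agent.MP_cb8d3a_ag.H90
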