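import Pool.Agent.MP_cb8d3a_ag.H90.EvSpec
import Pool.Agent.MP_cb8d3a_ag.H90.Hom

/-! Truncation of the homotopies in the homogeneous model. -/

noncomputable section

open scoped BigOperators
open Polynomial

namespace Pool.Agent.MP_cb8d3a_ag.H90

namespace Ev

open HomAux

variable {z : Fin 11 → ℂ}

def pW (z : Fin 11 → ℂ) (N : ℕ) (G : Div) : Module.End ℂ K :=
  aeval (dw z w0 (theta z G)) (ppP N G.1)

def pH (z : Fin 11 → ℂ) (N : ℕ) (G : Div) : Module.End ℂ K :=
  if G = dT then (3 / 5 : ℂ) • 1 else pW z N G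

def pHs (z : Fin 11 → ℂ) (N : ℕ) (l : List Div) : Module.End ℂ K := (l.map (pH z N)).prod

theorem pHs_cons (N : ℕ) (G : Div) (l : List Div) (c : K) :
    pHs z N (G :: l) c = pH z N G (pHs z N l c) := rfl

theorem pHs_append (N : ℕ) (l m : List Div) (c : K) :
    pHs z N (l ++ m) c = pHs z N l (pHs z N m c) := by
  simp [pHs]

theorem pDs_cons (N : ℕ) (G : Div) (l : List Div) (c : K) :
    pDs z N (G :: l) c = pD z N G (pDs z N l c) := rfl

theorem pDs_append (N : ℕ) (l m : List Div) (c : K) :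
    pDs z N (l ++ m) c = pDs z N l (pDs z N m c) := by
  simp [pDs]

theorem aevalW_V (hI : SInv z) {F G : Div} {k : ℤ} {c : K} (h : Compat G F)
    (p : ℂ[X]) (hc : V z G k c) : V z G k (aeval (dw z w0 (theta z F)) p c) :=
  pres (S := VS z G k) (fun _ hx => hI.V_dw G _ w0 k _ (hI.inv_theta G F h) hx) p hc

theorem aevalW_OU (hK : SK1 z) {F : Div} {c : K} (p : ℂ[X]) (hc : c ∈ OU z) :
    aeval (dw z w0 (theta z F)) p c ∈ OU z :=
  pres (S := Subalgebra.toSubmodule (OU z))
    (fun x hx => hK.dw_OU w0 _ x (hK.theta_OU F) hx) p hc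

theorem stepW (hI : SInv z) (e2 : SE2 z) {F : Div} (hF : homB F.1 = true) {k : ℤ} {c : K}
    (hc : V z F k c) :
    V z F (k + 1) (aeval (dw z w0 (theta z F)) (X - C (eig F.1 k)) c) := by
  have e : eig F.1 k = (k : ℂ) + (aW w0 F.1 : ℂ) := by
    rw [e2.aW_w0 F hF, eig]; push_cast; ring
  rw [lin, e]
  exact hI.V_dw_theta F w0 k c hc

theorem truncW0 (hI : SInv z) (e2 : SE2 z) (N : ℕ) {F : Div} (hF : homB F.1 = true) {k : ℤ}
    {c : K} (hc : V z F k c) (k1 : -(N : ℤ) ≤ k) (k2 : k ≤ N) (k3 : 3 * k ≠ a3 F.1) :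
    V z F (k + 1) (pW z N F c - (eig F.1 k)⁻¹ • c) := by
  obtain ⟨q, hq⟩ : X - C (eig F.1 k) ∣ ppP N F.1 - C (eig F.1 k)⁻¹ :=
    dvd_iff_isRoot.2 (by simp [pp_eval k1 k2 k3])
  have := aevalW_V hI (Compat.refl F) q (stepW hI e2 hF hc)
  rw [← Module.End.mul_apply, ← map_mul, mul_comm, ← hq] at this
  simpa [pW, Module.algebraMap_end_apply] using this

theorem truncW1 (hI : SInv z) (e2 : SE2 z) (N : ℕ) {F : Div} (hF : homB F.1 = true) {k : ℤ}
    {c : K} (hc : V z F k c) (k1 : -(N : ℤ) ≤ k) (k2 : k + 1 ≤ N) (k3 : 3 * k ≠ a3 F.1)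
    (k4 : 3 * (k + 1) ≠ a3 F.1) : V z F (k + 2) (pW z N F c - p1 z w0 F k c) := by
  have n1 := eig_ne k3
  have n2 := eig_ne k4
  obtain ⟨q, hq⟩ : (X - C (eig F.1 (k + 1))) * (X - C (eig F.1 k)) ∣ ppP N F.1 -
      C (eig F.1 k * eig F.1 (k + 1))⁻¹ * (C (eig F.1 k + eig F.1 (k + 1)) - X) := by
    refine (isCoprime_X_sub_C_of_isUnit_sub ?_).mul_dvd (dvd_iff_isRoot.2 ?_)
      (dvd_iff_isRoot.2 ?_)
    · simp [eig]
    · simp only [IsRoot, eval_sub, eval_mul, eval_C, eval_X, pp_eval (by omega) k2 k4]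
      field_simp
      ring
    · simp only [IsRoot, eval_sub, eval_mul, eval_C, eval_X, pp_eval k1 (by omega) k3]
      field_simp
      ring
  have := aevalW_V hI (Compat.refl F) q (stepW hI e2 hF (stepW hI e2 hF hc))
  rw [← Module.End.mul_apply (aeval _ (X - _)), ← map_mul, ← Module.End.mul_apply, ← map_mul,
    mul_comm, ← hq, add_assoc] at this
  simpa only [pW, p1, map_sub, map_mul, aeval_C, aeval_X, LinearMap.sub_apply,
    Module.End.mul_apply, Module.algebraMap_end_apply, LinearMap.smul_apply,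
    Module.End.one_apply, smul_sub, one_add_one_eq_two] using this

theorem pH_V (hI : SInv z) (N : ℕ) {F G : Div} {k : ℤ} {c : K} (h : Compat G F)
    (hc : V z G k c) : V z G k (pH z N F c) := by
  unfold pH
  split_ifs
  · exact hc.csmul _
  · exact aevalW_V hI h _ hc

theorem pH_OU (hK : SK1 z) (N : ℕ) {F : Div} {c : K} (hc : c ∈ OU z) : pH z N F c ∈ OU z := by
  unfold pH
  split_ifs
  · exact (OU z).smul_mem hc _
  · exact aevalW_OU hK _ hc

theorem pHs_V (hI : SInv z) (N : ℕ) {l : List Div} {G : Div} {k : ℤ} {c : K}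
    (h : ∀ F ∈ l, Compat G F) (hc : V z G k c) : V z G k (pHs z N l c) := by
  induction l with
  | nil => exact hc
  | cons F l ih =>
    exact pH_V hI N (h F (by simp)) (ih fun G hG => h G (by simp [hG]))

theorem pHs_OU (hK : SK1 z) (N : ℕ) {l : List Div} {c : K} (hc : c ∈ OU z) :
    pHs z N l c ∈ OU z := by
  induction l with
  | nil => exact hc
  | cons F l ih => exact pH_OU hK N ih

theorem pDs_V (hH : SHom z) (N : ℕ) {l : List Div} {G : Div} {k : ℤ} {c : K}
    (h : ∀ F ∈ l, Compat G F) (hc : V z G k c) : V z G k (pDs z N l c) := by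
  induction l with
  | nil => exact hc
  | cons F l ih =>
    exact hH.pD_V N (h F (by simp)) (ih fun G hG => h G (by simp [hG]))

theorem pDs_OU (hO : SFou z) (N : ℕ) {l : List Div} {c : K} (hc : c ∈ OU z) :
    pDs z N l c ∈ OU z := by
  induction l with
  | nil => exact hc
  | cons F l ih => exact hO.pD N F ih

theorem coT_dw (hI : SInv z) (e3 : SE3 z) {X : VF} (hX : Inv z dT X) {k : ℤ} {c : K}
    (hc : V z dT k c) : co z dT k (dw z wD X c) = dw z w0 X (co z dT k c) := by
  have h := co_mul (hI.V_eta dT X wD hX) hc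
  rw [zero_add] at h
  rw [dw_apply, dw_apply, map_add, hX, h, e3.eta_T X hX]

theorem coT_aeval (hI : SInv z) (e3 : SE3 z) {X : VF} (hX : Inv z dT X) {k : ℤ} (p : ℂ[X])
    {c : K} (hc : V z dT k c) :
    co z dT k (aeval (dw z wD X) p c) = aeval (dw z w0 X) p (co z dT k c) := by
  induction p using Polynomial.induction_on generalizing c with
  | C a => simp [Module.algebraMap_end_apply]
  | add p q hp hq => simp [hp hc, hq hc]
  | monomial n a ih =>
    rw [pow_succ, ← mul_assoc, map_mul (aeval (dw z wD X)),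
      map_mul (aeval (dw z w0 X)), aeval_X, aeval_X,
      Module.End.mul_apply, Module.End.mul_apply, ih (hI.V_dw dT X wD k c hX hc),
      coT_dw hI e3 hX hc]

theorem coT_pW (hI : SInv z) (e3 : SE3 z) (N : ℕ) {G : Div} (h : Compat dT G) {k : ℤ} {c : K}
    (hc : V z dT k c) : co z dT k (pD z N G c) = pW z N G (co z dT k c) :=
  coT_aeval hI e3 (hI.inv_theta dT G h) _ hc

theorem coT_pD (hI : SInv z) (hH : SHom z) (e3 : SE3 z) {N : ℕ} (hN : 40 ≤ N) {G : Div}
    (h : Compat dT G) {c : K} (hc : V z dT (-10) c) :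
    co z dT (-10) (pD z N G c) = pH z N G (co z dT (-10) c) := by
  unfold pH
  split_ifs with hG
  · subst hG
    have h3 : a3 dT.1 = -35 := by decide
    have h1 := hH.trunc0 N hc (by omega) (by omega) (by rw [h3]; decide) (-10) (by omega)
    have h2 : (eig dT.1 (-10))⁻¹ = 3 / 5 := by
      rw [eig, h3]; norm_num
    rw [map_sub, map_smul, sub_eq_zero, h2] at h1
    exact h1
  · exact coT_pW hI e3 N h hc

theorem coT_pDs (hI : SInv z) (hH : SHom z) (e3 : SE3 z) {N : ℕ} (hN : 40 ≤ N) {l : List Div}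
    (h : ∀ G ∈ l, Compat dT G) {c : K} (hc : V z dT (-10) c) :
    co z dT (-10) (pDs z N l c) = pHs z N l (co z dT (-10) c) := by
  induction l with
  | nil => rfl
  | cons G l ih =>
    have h' : ∀ G ∈ l, Compat dT G := fun G hG => h G (by simp [hG])
    rw [pDs_cons, pHs_cons, coT_pD hI hH e3 hN (h G (by simp)) (pDs_V hH N h' hc), ih h']

theorem ratCast_smul (q : ℚ) (x : K) : (q : ℂ) • x = (q : K) * x := by
  rw [Algebra.smul_def, map_ratCast]

theorem eigQ_cast (F : Clus) (k : ℤ) : (eigQ F k : ℂ) = eig F k := by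
  rw [eigQ, eig]; push_cast; ring

theorem okF_p1F (e2 : SE2 z) (F : Div) (k : ℤ) {f : FP} (hf : okF f = true) :
    okF (p1F F.1 k f) = true := by
  rw [p1F, okF_scF, okF_append, okF_scF, okF_scF, hf, e2.dwF_ok F f hf]; rfl

theorem evF_p1F (e2 : SE2 z) {F : Div} (hF : homB F.1 = true) (k : ℤ) {f : FP}
    (hf : okF f = true) : evF z (p1F F.1 k f) = p1 z w0 F k (evF z f) := by
  rw [p1F, evF_scF, evF_append, evF_scF, evF_scF, ← e2.dwF_eq F f hF hf, p1,
    ← eigQ_cast, ← eigQ_cast, ← Rat.cast_add, ← Rat.cast_mul, ← Rat.cast_inv,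
    LinearMap.smul_apply, LinearMap.sub_apply, LinearMap.smul_apply, Module.End.one_apply,
    ratCast_smul, ratCast_smul]
  push_cast
  ring

theorem cT_iff (G : Div) : G.1 = cT ↔ G = dT := by
  have : dT.1 = cT := by decide
  rw [← this]
  exact Subtype.val_inj

/-- Terms of positive order along a member of `l` do not contribute. -/
theorem kill (hI : SInv z) (hK : SK1 z) (hR : SRes z) (N : ℕ) {l r : List Div} {G : Div}
    (hl : CompL l) (hG : G ∈ l) (hr : ∀ F ∈ r, Compat G F) {u x : K} {a b : ℤ} (hu : u ∈ OU z)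
    (hx : x ∈ OU z) (ha : V z G a u) (hb : V z G b x) (hab : 1 ≤ a + b) :
    CT z l (u * pHs z N r x) = 0 :=
  hR.CT_zero l G _ hl hG ((OU z).mul_mem hu (pHs_OU hK N hx))
    ((ha.mul (pHs_V hI N hr hb)).mono hab)

theorem evTr_eq (hI : SInv z) (hK : SK1 z) (hR : SRes z) (e1 : SE1 z) (e2 : SE2 z) {N : ℕ}
    (hN : 40 ≤ N) {l : List Div} (hl : CompL (dT :: l)) {u : FP} (hu : okF u = true) {v : ℚ}
    (r : List Div) (hr : ∀ G ∈ r, homB G.1 = true ∧ G ∈ dT :: l) (w : FP) (hw : okF w = true)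
    (h : evTr (l.map Subtype.val) u (r.map Subtype.val) w = some v) :
    CT z l.reverse (evF z u * pHs z N r.reverse (evF z w)) = (v : K) := by
  induction r generalizing w with
  | nil => exact e1.evCT_eq l u w v hu hw h
  | cons G r ih =>
    have hr' : ∀ G ∈ r, homB G.1 = true ∧ G ∈ dT :: l := fun G hG => hr G (by simp [hG])
    obtain ⟨hG1, hG2⟩ := hr G (by simp)
    rw [List.reverse_cons, pHs_append]
    change CT z l.reverse (evF z u * pHs z N r.reverse (pH z N G (evF z w))) = _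
    rw [List.map_cons, evTr] at h
    by_cases hT : G = dT
    · rw [if_pos ((cT_iff G).2 hT)] at h
      have := ih hr' _ (by rw [okF_scF, hw]) h
      rw [evF_scF, ← ratCast_smul] at this
      rw [pH, if_pos hT, LinearMap.smul_apply, Module.End.one_apply, ← this]
      norm_num
    · rw [if_neg (fun h' => hT ((cT_iff G).1 h'))] at h
      have hGl : G ∈ l := by simpa [hT] using hG2
      have hl' : CompL l.reverse := fun A hA B hB =>
        hl A (by simp at hA; simp [hA]) B (by simp at hB; simp [hB])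
      have kl : ∀ (x : K) (b : ℤ), x ∈ OU z → V z G b x → 1 ≤ minO G.1 u + b →
          CT z l.reverse (evF z u * pHs z N r.reverse x) = 0 := fun x b hx hb hab =>
        kill hI hK hR N hl' (by simpa using hGl)
          (fun F hF => hl G hG2 F (hr' F (by simpa using hF)).2) (e1.evF_OU u hu) hx
          (e1.V_minO G u hu) hb hab
      have hw1 := e1.evF_OU w hw
      have hw2 := e1.V_minO G w hw
      have hw3 : pW z N G (evF z w) ∈ OU z := aevalW_OU hK _ hw1
      rw [pH, if_neg hT]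
      dsimp only at h
      split_ifs at h with c1 c2 c3 c4
      · rw [kl _ _ hw3 (aevalW_V hI (Compat.refl G) _ hw2) c1]
        cases h
        simp
      · have h1 := ih hr' _ (by rw [okF_scF, hw]) h
        have h2 := kl _ _ ((OU z).sub_mem hw3 ((OU z).smul_mem hw1 _))
          (truncW0 hI e2 N hG1 hw2 (by omega) (by omega) c2.2.2) (by omega)
        rw [evF_scF, ← ratCast_smul, Rat.cast_inv, eigQ_cast] at h1
        rw [map_sub, mul_sub, map_sub, h1, sub_eq_zero] at h2
        exact h2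
      · have h0 := okF_p1F e2 G (minO G.1 w) hw
        have h1 := ih hr' _ h0 h
        have h3 := e1.evF_OU _ h0
        rw [evF_p1F e2 hG1 _ hw] at h1 h3
        have h2 := kl _ _ ((OU z).sub_mem hw3 h3)
          (truncW1 hI e2 N hG1 hw2 (by omega) (by omega) c2.2.2 c4.2) (by omega)
        rw [map_sub, mul_sub, map_sub, h1, sub_eq_zero] at h2
        exact h2

end Ev

end Pool.Agent.MP_cb8d3a_ag.H90
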