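import Pool.Agent.MP_cb8d3a_ag.H90.EvA
import Pool.Agent.MP_cb8d3a_ag.H90.EvD

/-! The modules imply the theorem. -/

noncomputable section

open scoped BigOperators

namespace Pool.Agent.MP_cb8d3a_ag.H90

variable {z : Fin 11 → ℂ}

theorem sEv_of (hA : SAt z) (hI : SInv z) (hK : SK1 z) (h1 : SCar1) (hF : SFil z) (hO : SFou z)
    (hR : SRes z) (hH : SHom z) (hQ : SR z) (hL : SList) (hS : SSdA z) (hM : SSdB z)
    (hT : SSdC z) (e1 : SE1 z) (e2 : SE2 z) (e3 : SE3 z) (e4 : SE4) : SEv z := by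
  intro N hN
  rw [e4.sum_eq (fun τ => Res z (lst τ) (c0 z * hs z N (mu τ) (Y0 z N (aT τ)) ∅)) (-648)
    Ev.total_eq fun τ hτ hh x hx =>
      Ev.evS_eq hA hI hK h1 hF hO hR hH hQ hL hS hM hT e1 e2 e3 e4 hN hτ hh hx]
  norm_num

theorem svForm_sub (ψ ψ' : Dual) :
    svForm z (ψ - ψ') Finset.univ = svForm z ψ Finset.univ - svForm z ψ' Finset.univ := by
  simp only [svForm, mono, if_true, Pi.sub_apply, map_sub, sub_mul, Finset.sum_sub_distrib]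

theorem main_of (hF : SFil z) (hR : SRes z) (hL : SList) (hP : SPair z) (hB : SBlk z)
    (hRel : SRel z) (hG : SGood z) (hRed : SRed z) (hEv : SEv z) :
    ∃ ψ, Block z 3 ψ ∧ ∀ ψ', Block z 1 ψ' → ¬ InHodge z 4 (svForm z (ψ - ψ')) := by
  obtain ⟨ψ, hψ, hc⟩ := hB.ex3
  refine ⟨ψ, hψ, fun ψ' hψ' hH => ?_⟩
  obtain ⟨N0, h0⟩ := hP _ hH
  obtain ⟨N1, h1⟩ := hRel
  have hD : DualCo z (max (max N0 N1) 40) (Xi z (max (max N0 N1) 40)) :=
    ⟨hG.fou _, h1 _ (le_trans (le_max_right _ _) (le_max_left _ _)),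
      hG.good _ 5 (by norm_num), hG.good _ 4 le_rfl⟩
  have h2 := h0 _ (le_trans (le_max_left _ _) (le_max_left _ _)) _ hD
  have h3 := hEv (max (max N0 N1) 40) (le_max_right _ _)
  generalize max (max N0 N1) 40 = N at h2 h3
  apply h3
  rw [Finset.sum_filter]
  refine Eq.trans ?_ h2
  rw [svForm_sub, hc, Ssum]
  refine Finset.sum_congr rfl fun τ hτ => ?_
  rw [← hRed N τ hτ, sub_mul, map_sub]
  have hE : dE ∈ lst τ := (hL.mem 5 τ hτ dE).2 (mem_Nest.1 hτ).2.2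
  have h4 := hF.smul (hF.empty (hG.ordE N 5 τ hτ)) (hF.monoI Finset.univ (hB.blk1 ψ' hψ'))
  have h5 : (-1 : ℤ) + (3 + oVol dE.1 Finset.univ) = 1 := by decide
  rw [h5] at h4
  have h6 : (Xi z N τ ∅ • mono Finset.univ (svForm z ψ' Finset.univ)) Finset.univ =
      svForm z ψ' Finset.univ * Xi z N τ ∅ := by
    simp [mono, mul_comm]
  have h7 := hR.Res_zero (lst τ) dE _ (hL.compL 5 τ hτ) (hL.length 5 τ hτ) hE
    (by rw [h6]; exact (OU z).mul_mem (hB.sv_OU ψ') (hG.fou N τ ∅)) h4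
  rw [h6] at h7
  rw [h7, sub_zero]

end Pool.Agent.MP_cb8d3a_ag.H90
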