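import Pool.Agent.MP_cb8d3a_ag.H90.Spec

/-! The operator `Rop`. -/

noncomputable section

open scoped BigOperators

namespace Pool.Agent.MP_cb8d3a_ag.H90

namespace RopAux

variable {z : Fin 11 → ℂ}

theorem Rop_apply (N : ℕ) (y : Form) :
    Rop z N y = X4 z • y - hOp z N dE (wedge (kap z) y) := rfl

theorem nab_X4 (h1 : SCar1) (h2 : SCar2 z) (y : Form) :
    nab z wD (X4 z • y) = wedge (kap z) y + X4 z • nab z w4 y := by
  have e1 : kap z = (fun a => pd a (X4 z)) + X4 z • (etaW z wD - etaW z w4) := rfl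
  have e2 : wedge (etaW z wD) y = wedge (etaW z w4) y + wedge (etaW z wD - etaW z w4) y := by
    rw [← h1.wedge_add_left, add_sub_cancel]
  rw [h2.nab_smul, nab_apply, nab_apply, e1, h1.wedge_add_left, h1.wedge_smul_left, e2]
  simp only [smul_add]
  abel

theorem nab_kap (h1 : SCar1) (h2 : SCar2 z) (y : Form) :
    nab z wD (wedge (kap z) y) = -wedge (kap z) (nab z w4 y) := by
  have e := congrArg (nab z wD) (nab_X4 h1 h2 y)
  rw [h2.nab_nab, map_add, nab_X4 h1 h2, h2.nab_nab, smul_zero, add_zero] at e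
  exact eq_neg_of_add_eq_zero_left e.symm

theorem ev1_kap (X : VF) : ev1 (kap z) X =
    act X (X4 z) + X4 z * (ev1 (etaW z wD) X - ev1 (etaW z w4) X) := by
  simp only [ev1, kap, act_apply, Finset.mul_sum, ← Finset.sum_sub_distrib,
    ← Finset.sum_add_distrib]
  exact Finset.sum_congr rfl fun a _ => by ring

theorem ev1_eta (w : Hyp → ℚ) (X : VF) :
    ev1 (etaW z w) X = ∑ h : Hyp, (w h : K) * (act X (hyp z h) / hyp z h) := by
  simp only [ev1, etaW, dlog, act_apply, Finset.sum_mul, Finset.sum_div, Finset.mul_sum]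
  rw [Finset.sum_comm]
  exact Finset.sum_congr rfl fun h _ => Finset.sum_congr rfl fun a _ => by ring

theorem X4_V (hA : SAt z) (F : Div) : V z F (x4 F.1) (X4 z) :=
  hA.V_av F (Sum.inl 4, Sum.inr 0) (by decide)

theorem kap_V (hA : SAt z) (hI : SInv z) (F : Div) (X : VF) (hX : Inv z F X) :
    V z F (x4 F.1) (ev1 (kap z) X) := by
  rw [ev1_kap]
  have := (X4_V hA F).mul ((hI.V_eta F X wD hX).sub (hI.V_eta F X w4 hX))
  rw [add_zero] at this
  exact (hI.inv_V F X _ _ hX (X4_V hA F)).add this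

theorem in4 : ∀ h : Hyp, inv4 h = true →
    inA dE.1 (toAt h) = (Sum.inl 4, Sum.inr 0) ∨ inA dE.1 (toAt h) = (Sum.inr 0, Sum.inl 4) := by
  decide +kernel

theorem sum4 : ∑ h : Hyp, (wD h - w4 h) = -1 := by decide +kernel

theorem kap_VE (hA : SAt z) (hI : SInv z) (X : VF) (hX : Inv z dE X) :
    V z dE 0 (ev1 (kap z) X) := by
  have hx : x4 dE.1 = -1 := by decide
  have h0 : X4 z ≠ 0 := hA.av_ne (Sum.inl 4, Sum.inr 0) (by decide)
  have hc : co z dE (x4 dE.1) (X4 z) = X4 z := hA.co_av dE (Sum.inl 4, Sum.inr 0) (by decide)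
  have h3 : ∀ h : Hyp, co z dE 0 (((wD h - w4 h : ℚ) : K) * (act X (hyp z h) / hyp z h)) =
      ((wD h - w4 h : ℚ) : K) * (act X (X4 z) / X4 z) := fun h => by
    by_cases h4 : inv4 h = true
    · have e := co_mul (V_ratCast (z := z) (F := dE) (wD h - w4 h)) (hI.V_dlog dE X (hyp z h) hX)
      have e2 := hA.co_av dE _ (hA.toAt_ne h)
      have e3 := hI.co_dlog dE X _ _ hX (hA.V_av dE _ (hA.toAt_ne h))
        (by rw [e2]; exact hA.av_ne _ (hA.inA_ne dE _ (hA.toAt_ne h)))
      rw [add_zero] at e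
      rw [e, co_ratCast, hyp_eq, e3, e2]
      rcases in4 h h4 with e4 | e4
      · rw [e4]
        rfl
      · have e5 : av z (Sum.inr 0, Sum.inl 4) = -X4 z := (neg_sub _ _).symm
        rw [e4, e5, map_neg, neg_div_neg_eq]
    · have e : wD h - w4 h = 0 := by simp [wD, w4, h4]
      rw [e, Rat.cast_zero, zero_mul, zero_mul, map_zero]
  have h5 : co z dE 0 (ev1 (etaW z wD) X - ev1 (etaW z w4) X) = -(act X (X4 z) / X4 z) := by
    rw [ev1_eta, ev1_eta, ← Finset.sum_sub_distrib]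
    simp only [← sub_mul, ← Rat.cast_sub]
    rw [map_sum]
    simp only [h3]
    rw [← Finset.sum_mul, ← Rat.cast_sum, sum4]
    simp
  have h6 := co_mul (X4_V hA dE) ((hI.V_eta dE X wD hX).sub (hI.V_eta dE X w4 hX))
  rw [add_zero, h5, hc] at h6
  have h7 := (kap_V hA hI dE X hX).succ (by
    rw [ev1_kap, map_add, h6, hX, hc]
    field_simp
    ring)
  rwa [hx] at h7

theorem kap_E (hA : SAt z) (hI : SInv z) (hF : SFil z) {y : Form} (hy : Fil z dE 0 y) :
    Fil z dE 0 (wedge (kap z) y) := by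
  have := hF.wedge (kap_VE hA hI) hy
  rwa [add_zero] at this

end RopAux

open RopAux in
theorem sR (z : Fin 11 → ℂ) (hA : SAt z) (hI : SInv z) (h1 : SCar1) (h2 : SCar2 z) (hF : SFil z)
    (hH : SHom z) : SR z where
  X4_V := RopAux.X4_V hA
  nab_R N y := by
    have e := hH.nab_h N dE (wedge (kap z) y)
    rw [nab_kap h1 h2, map_neg] at e
    rw [Rop_apply, Rop_apply, map_sub, nab_X4 h1 h2, eq_sub_of_add_eq e]
    abel
  kap_E := RopAux.kap_E hA hI hF
  deep_E N y hy := by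
    have e : a3 dE.1 = -3 := by decide
    exact hH.deep N ⟨0, by omega, RopAux.kap_E hA hI hF hy, fun k hk => by omega⟩
  R_Fil N F k y hc hy :=
    hF.sub (hF.smul (RopAux.X4_V hA F) hy) (hH.h_Fil N hc (hF.wedge (kap_V hA hI F) hy))
  R_E N y hy := by
    rw [Rop_apply, sub_sub_cancel_left]
    exact hF.neg (hH.h_Fil N (Compat.refl dE) (RopAux.kap_E hA hI hF hy))
  iota_R N F y hc hy := by
    have e : hOp z N dE (ev1 (kap z) (theta z F) • y) = 0 :=
      hH.h_zero N (by rw [h1.iota_smul, hy, smul_zero])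
    rw [Rop_apply, Rop_apply, map_sub, h1.iota_smul, hH.iota_h N dE _ _ (hI.inv_theta dE F hc.symm),
      h1.iota_wedge, map_sub, e, zero_sub, neg_neg]

end Pool.Agent.MP_cb8d3a_ag.H90
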