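import Pool.Agent.MP_cb8d3a_ag.H90.Core

/-! Basic calculus of orders along a boundary divisor. -/

noncomputable section

open scoped BigOperators

namespace Pool.Agent.MP_cb8d3a_ag.H90

variable {z : Fin 11 → ℂ} {F : Div}

theorem V_iff {k : ℤ} {c : K} : V z F k c ↔ (k : WithTop ℤ) ≤ (ex z F c).orderTop := by
  constructor
  · intro h
    refine HahnSeries.le_orderTop_iff_forall.2 fun j hj => h j ?_
    exact_mod_cast hj
  · intro h j hj
    exact HahnSeries.coeff_eq_zero_of_lt_orderTop (lt_of_lt_of_le (by exact_mod_cast hj) h)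

theorem V.mono {k k' : ℤ} {c : K} (h : V z F k c) (hk : k' ≤ k) : V z F k' c :=
  fun j hj => h j (lt_of_lt_of_le hj hk)

theorem V_zero (k : ℤ) : V z F k 0 := fun _ _ => map_zero _

theorem V.add {k : ℤ} {x y : K} (hx : V z F k x) (hy : V z F k y) : V z F k (x + y) :=
  fun j hj => by rw [map_add, hx j hj, hy j hj, add_zero]

theorem V.neg {k : ℤ} {x : K} (hx : V z F k x) : V z F k (-x) :=
  fun j hj => by rw [map_neg, hx j hj, neg_zero]

theorem V.sub {k : ℤ} {x y : K} (hx : V z F k x) (hy : V z F k y) : V z F k (x - y) :=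
  fun j hj => by rw [map_sub, hx j hj, hy j hj, sub_zero]

theorem V.csmul {k : ℤ} {x : K} (r : ℂ) (hx : V z F k x) : V z F k (r • x) :=
  fun j hj => by rw [map_smul, hx j hj, smul_zero]

theorem V_sum {ι : Type*} {k : ℤ} (s : Finset ι) (f : ι → K) (h : ∀ i ∈ s, V z F k (f i)) :
    V z F k (∑ i ∈ s, f i) :=
  fun j hj => by rw [map_sum]; exact Finset.sum_eq_zero fun i hi => h i hi j hj

theorem V_list_sum {k : ℤ} (l : List K) (h : ∀ x ∈ l, V z F k x) : V z F k l.sum := by
  induction l with
  | nil => exact V_zero k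
  | cons a l ih =>
    rw [List.sum_cons]
    exact (h a (by simp)).add (ih fun x hx => h x (by simp [hx]))

theorem V.mul {a b : ℤ} {x y : K} (hx : V z F a x) (hy : V z F b y) :
    V z F (a + b) (x * y) := by
  rw [V_iff] at *
  rw [map_mul]
  refine le_trans ?_ HahnSeries.orderTop_add_le_mul
  rw [WithTop.coe_add]
  exact add_le_add hx hy

theorem co_mul {a b : ℤ} {x y : K} (hx : V z F a x) (hy : V z F b y) :
    co z F (a + b) (x * y) = co z F a x * co z F b y := by
  simp only [co_apply, map_mul]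
  rw [HahnSeries.coeff_mul]
  by_cases h0 : (ex z F x).coeff a = 0 ∨ (ex z F y).coeff b = 0
  · have : (ex z F x).coeff a * (ex z F y).coeff b = 0 := by
      rcases h0 with h | h <;> simp [h]
    rw [this]
    refine Finset.sum_eq_zero fun p hp => ?_
    rw [Finset.mem_antidiagonal] at hp
    obtain ⟨h1, h2, h3⟩ := hp
    have e1 : a ≤ p.1 := not_lt.1 fun h => h1 (hx _ h)
    have e2 : b ≤ p.2 := not_lt.1 fun h => h2 (hy _ h)
    have f1 : p.1 = a := by omega
    have f2 : p.2 = b := by omega
    rw [f1, f2, this]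
  · push Not at h0
    rw [Finset.sum_eq_single (a, b)]
    · intro p hp hne
      rw [Finset.mem_antidiagonal] at hp
      obtain ⟨h1, h2, h3⟩ := hp
      have e1 : a ≤ p.1 := not_lt.1 fun h => h1 (hx _ h)
      have e2 : b ≤ p.2 := not_lt.1 fun h => h2 (hy _ h)
      exact absurd (Prod.ext (by simp only; omega) (by simp only; omega)) hne
    · intro h
      exact absurd (Finset.mem_antidiagonal.2 ⟨h0.1, h0.2, rfl⟩) h

theorem V.succ {k : ℤ} {c : K} (h : V z F k c) (h0 : co z F k c = 0) : V z F (k + 1) c := by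
  intro j hj
  rcases lt_or_eq_of_le (Int.lt_add_one_iff.1 hj) with h1 | h1
  · exact h j h1
  · rw [h1, h0]

theorem V_order (c : K) : V z F (ex z F c).order c :=
  fun _ hj => HahnSeries.coeff_eq_zero_of_lt_order hj

theorem exists_V (c : K) : ∃ k : ℤ, V z F k c := ⟨_, V_order c⟩

theorem co_order_ne {c : K} (hc : c ≠ 0) : co z F (ex z F c).order c ≠ 0 :=
  fun h => (map_ne_zero (ex z F)).2 hc (HahnSeries.coeff_order_eq_zero.1 h)

theorem order_eq {k : ℤ} {c : K} (h : V z F k c) (h0 : co z F k c ≠ 0) :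
    (ex z F c).order = k := by
  have hc : c ≠ 0 := by rintro rfl; exact h0 (map_zero _)
  apply le_antisymm
  · exact not_lt.1 fun h1 => h0 (V_order c k h1)
  · exact not_lt.1 fun h1 => co_order_ne hc (h _ h1)

theorem eq_of_co {x y : K} (h : ∀ j, co z F j x = co z F j y) : x = y := by
  apply (ex z F).injective
  ext j
  exact h j

theorem co_const (j : ℤ) (r : ℂ) :
    co z F j (algebraMap ℂ K r) = if j = 0 then algebraMap ℂ K r else 0 := by
  rw [co_apply, ex_algebraMap, HahnSeries.coeff_single]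
  congr

theorem V_const (r : ℂ) : V z F 0 (algebraMap ℂ K r) :=
  fun j hj => by rw [co_const, if_neg hj.ne]

theorem V_one : V z F 0 1 := by simpa using V_const (z := z) (F := F) 1

theorem co_one : co z F 0 1 = 1 := by simpa using co_const (z := z) (F := F) 0 1

theorem V_ratCast (q : ℚ) : V z F 0 (q : K) := by
  simpa using V_const (z := z) (F := F) (q : ℂ)

theorem V_intCast (n : ℤ) : V z F 0 (n : K) := by
  simpa using V_const (z := z) (F := F) (n : ℂ)

theorem co_ratCast (q : ℚ) : co z F 0 (q : K) = q := by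
  simpa using co_const (z := z) (F := F) 0 (q : ℂ)

theorem co_intCast (n : ℤ) : co z F 0 (n : K) = n := by
  simpa using co_const (z := z) (F := F) 0 (n : ℂ)

theorem V.inv {k : ℤ} {c : K} (h : V z F k c) (h0 : co z F k c ≠ 0) :
    V z F (-k) c⁻¹ ∧ co z F (-k) c⁻¹ = (co z F k c)⁻¹ := by
  have hc : c ≠ 0 := by rintro rfl; exact h0 (map_zero _)
  have hc' : c⁻¹ ≠ 0 := inv_ne_zero hc
  have h1 := V_order (z := z) (F := F) c⁻¹
  have h2 := co_order_ne (z := z) (F := F) hc'
  set m := (ex z F c⁻¹).order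
  have h3 := co_mul h h1
  rw [mul_inv_cancel₀ hc] at h3
  have h4 : k + m = 0 := by
    by_contra hne
    have := co_const (z := z) (F := F) (k + m) 1
    rw [if_neg hne, map_one, h3] at this
    exact mul_ne_zero h0 h2 this
  have h5 : m = -k := by omega
  rw [h4, co_one] at h3
  rw [← h5]
  exact ⟨h1, (eq_inv_of_mul_eq_one_right h3.symm)⟩

theorem V_prod {ι : Type*} (s : Finset ι) (k : ι → ℤ) (f : ι → K)
    (h : ∀ i ∈ s, V z F (k i) (f i)) :
    V z F (∑ i ∈ s, k i) (∏ i ∈ s, f i) ∧
      co z F (∑ i ∈ s, k i) (∏ i ∈ s, f i) = ∏ i ∈ s, co z F (k i) (f i) := by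
  classical
  induction s using Finset.induction_on with
  | empty => simpa using ⟨V_one, co_one⟩
  | insert a s ha ih =>
    have ih' := ih fun i hi => h i (Finset.mem_insert_of_mem hi)
    have ha' := h a (Finset.mem_insert_self a s)
    rw [Finset.sum_insert ha, Finset.prod_insert ha, Finset.prod_insert ha, co_mul ha' ih'.1,
      ih'.2]
    exact ⟨ha'.mul ih'.1, rfl⟩

theorem V.zpow {k : ℤ} {c : K} (h : V z F k c) (h0 : co z F k c ≠ 0) (n : ℤ) :
    V z F (n * k) (c ^ n) ∧ co z F (n * k) (c ^ n) = co z F k c ^ n := by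
  have hp : ∀ m : ℕ, V z F (m * k) (c ^ m) ∧ co z F (m * k) (c ^ m) = co z F k c ^ m := by
    intro m
    simpa using V_prod (z := z) (F := F) (Finset.range m) (fun _ => k) (fun _ => c)
      (fun _ _ => h)
  obtain ⟨m, rfl | rfl⟩ := Int.eq_nat_or_neg n
  · simpa using hp m
  · have := (hp m).1.inv (by rw [(hp m).2]; exact pow_ne_zero m h0)
    rw [(hp m).2] at this
    simpa using this

theorem act_apply (X : VF) (c : K) : act X c = ∑ a, X a * pd a c := by
  simp [act, Fin.sum_univ_five, pdD_apply]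

theorem act_t (X : VF) (a : Fin 5) : act X (t a) = X a := by
  simp [act_apply, pd_t]

theorem act_const (X : VF) (r : ℂ) : act X (algebraMap ℂ K r) = 0 := by
  simp

theorem act_mul (X : VF) (x y : K) : act X (x * y) = act X x * y + x * act X y := by
  rw [Derivation.leibniz, smul_eq_mul, smul_eq_mul]; ring

theorem act_fld (a : Fin 5) (u c : K) : act (fld a u) c = u * pd a c := by
  rw [act_apply, Finset.sum_eq_single a] <;> simp +contextual [fld]

theorem dw_apply (w : Hyp → ℚ) (X : VF) (c : K) :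
    dw z w X c = act X c + ev1 (etaW z w) X * c := rfl

theorem wedgeL_apply (α : Fin 5 → K) (ω : Form) : wedgeL α ω = wedge α ω := rfl

theorem extDL_apply (ω : Form) : extDL ω = extD ω := rfl

theorem nab_apply (w : Hyp → ℚ) (ω : Form) : nab z w ω = extD ω + wedge (etaW z w) ω := rfl

theorem lie_apply (w : Hyp → ℚ) (X : VF) (ω : Form) :
    lie z w X ω = nab z w (iota X ω) + iota X (nab z w ω) := rfl

theorem nabla_eq (ω : Form) : nabla z ω = nab z expo ω := rfl

theorem iotas_nil (ω : Form) : iotas [] ω = ω := rfl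

theorem iotas_cons (X : VF) (l : List VF) (ω : Form) :
    iotas (X :: l) ω = iota X (iotas l ω) := rfl

theorem iotas_append (l m : List VF) (ω : Form) :
    iotas (l ++ m) ω = iotas l (iotas m ω) := by
  simp [iotas]

theorem CT_nil (c : K) : CT z [] c = c := rfl

theorem CT_cons (F : Div) (l : List Div) (c : K) : CT z (F :: l) c = co z F 0 (CT z l c) := rfl

theorem CT_append (l m : List Div) (c : K) : CT z (l ++ m) c = CT z l (CT z m c) := by
  simp [CT]

theorem Res_apply (l : List Div) (c : K) : Res z l c = CT z l (c * Delta z l) := rfl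

theorem hs_nil (N : ℕ) (ω : Form) : hs z N [] ω = ω := rfl

theorem hs_cons (N : ℕ) (F : Div) (l : List Div) (ω : Form) :
    hs z N (F :: l) ω = hOp z N F (hs z N l ω) := rfl

theorem hs_append (N : ℕ) (l m : List Div) (ω : Form) :
    hs z N (l ++ m) ω = hs z N l (hs z N m ω) := by
  simp [hs]

theorem hyp_eq (h : Hyp) : hyp z h = av z (toAt h) := by
  cases h <;> rfl

theorem centre_eq (G : Clus) : centre z G = pt z (ctr G) := by
  obtain ⟨A, _ | _ | i⟩ := G <;> rfl

theorem lastPt_mem : ∀ A : Finset (Fin 5), A.Nonempty → lastPt A ∈ A := by decide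

theorem le_lastPt : ∀ A : Finset (Fin 5), ∀ a ∈ A, a ≤ lastPt A := by decide

theorem Compat.symm {F G : Div} (h : Compat F G) : Compat G F := by
  rcases h with h | h | h
  · exact Or.inr (Or.inl h)
  · exact Or.inl h
  · exact Or.inr (Or.inr h.symm)

theorem Compat.refl (F : Div) : Compat F F := Or.inl (Finset.Subset.refl _)

theorem latL_add_latD (G : Clus) : latL G + latD G = 1 := by
  unfold latL latD; ring

end Pool.Agent.MP_cb8d3a_ag.H90
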